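import Pool.Agent.Lib_TTT.K5Base
import Pool.Agent.Lib_TTT.K5T00
import Pool.Agent.Lib_TTT.K5T01

/-! Certificates in `4^5`. -/

set_option autoImplicit false
set_option maxRecDepth 200000

namespace Pool.Agent.Lib_TTT.K5

open Lib_TTT AC DC

def e0_255__863_0 : Ent 5 := ⟨[a0, a255], [a863, a17], (M a192 (F (T t24 (L l365 (T t19 (L l15 (T t23 (L l365 (T t22 (K a64 (M a240 (F (T t79 (L l144 (L l365 (T t80 (L l15 (L l2353 (T t81 N))))))))) (K a128 (M a240 (F (T t79 (L l365 (T t80 (L l15 (L l192 (L l220 (L l2353 (T t81 N)))))))))) (K a85 (M a768 (L l365 (F (T t28 (L l347 (L l2339 (T t29 (L l347 (L l1697 (L l2339 (T t30 (K a153 (M a221 (F (T t35 (L l2117 (T t403 N))))) (K a221 (M a153 (F (T t35 (L l243 (L l347 (L l2339 (L l3227 (T t29 (L l144 (T t36 N)))))))))) N))))))))))))) (K a149 (M a768 (F (T t31 (L l347 (T t29 (L l2029 (T t32 N))))))) (K a213 (M a768 (F (T t31 (L l2029 (L l3203 (T t32 (L l1654 (T t33 N)))))))) (K a106 (M a768 (F (T t28 (T t29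 (L l2029 (T t32 N)))))) (K a170 (M a768 (F (T t31 (T t29 (L l220 (L l1697 (T t30 N))))))) (K a234 (M a768 (F (T t31 (L l2029 (T t32 (L l390 (L l1654 (L l3246 (T t33 N))))))))) (K a63 (M a768 (F (T t49 (L l3159 (T t35 (L l2029 (L l3073 (T t32 N)))))))) N))))))))))))))))))⟩
def e0_255__863_1 : Ent 5 := ⟨[a0, a255], [a863, a27], (M a192 (F (T t19 (T t23 (T t22 (T t24 (K a64 (M a240 (F (T t79 (L l73 (L l144 (T t80 (L l2353 (T t81 N)))))))) (K a128 (M a240 (F (T t79 (L l73 (T t80 (L l192 (L l220 (L l2353 (T t81 N))))))))) (K a85 (M a768 (F (T t28 (L l347 (L l2339 (T t29 (L l347 (L l1697 (L l2339 (T t30 N)))))))))) (K a149 (M a768 (F (T t31 (L l347 (T t29 (L l2029 (T t32 N))))))) (K a213 (M a768 (F (T t31 (L l2029 (L l3203 (T t32 (L l1654 (T t33 N)))))))) (K a106 (M a768 (F (T t28 (T t29 (L l2029 (T t32 N)))))) (K a170 (M a768 (F (T t31 (T t29 (L l220 (L l1697 (T t30 N))))))) (K a234 (M a768 (F (T t31 (L l2029 (T t32 (L l390 (L l1654 (L l3246 (T t33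 N))))))))) (K a63 (M a768 (F (T t74 (L l3159 (T t35 (L l2209 (T t29 N))))))) N)))))))))))))))⟩
def e0_255__863_2 : Ent 5 := ⟨[a0, a255], [a863, a34], (M a192 (F (T t22 (L l26 (T t19 (L l402 (T t23 (L l402 (T t24 (K a64 (M a240 (F (T t79 (L l144 (T t80 (L l402 (L l2353 (T t81 N)))))))) (K a128 (M a240 (F (T t79 (T t80 (L l192 (L l220 (L l402 (L l2353 (T t81 N))))))))) (K a85 (M a768 (F (T t28 (L l347 (L l2339 (T t29 (L l347 (L l1697 (L l2339 (T t30 N)))))))))) (K a149 (M a768 (F (T t31 (L l347 (T t29 (L l2029 (T t32 N))))))) (K a213 (M a768 (F (T t31 (L l2029 (L l3203 (T t32 (L l402 (L l1654 (T t33 N))))))))) (K a106 (M a768 (F (T t28 (T t29 (L l2029 (T t32 N)))))) (K a170 (M a768 (L l402 (F (T t31 (T t29 (L l220 (L l1697 (T t30 (K a102 (M a238 (F (T t31 (L l2154 (T t82 N))))) (K a238 (M a102 (F (T t35 (T t29 (L l2598 (L l3264 (T t36 N))))))) N)))))))))) (K a234 (M a768 (F (T t31 (L l2029 (T t32 (L l390 (L l402 (L l1654 (L l3246 (T t33 N))))))))))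 (K a63 (M a768 (F (T t38 (L l3159 (T t35 (L l2209 (T t29 N))))))) N))))))))))))))))))⟩
def e0_255__863_3 : Ent 5 := ⟨[a0, a255], [a863, a39], (M a192 (F (T t19 (T t23 (T t22 (T t24 (K a64 (M a240 (F (T t79 (L l73 (L l144 (T t80 (L l2353 (T t81 N)))))))) (K a128 (M a240 (F (T t79 (L l73 (T t80 (L l192 (L l220 (L l2353 (T t81 N))))))))) (K a85 (M a768 (F (T t28 (L l347 (L l2339 (T t29 (L l347 (L l1697 (L l2339 (T t30 N)))))))))) (K a149 (M a768 (F (T t31 (L l347 (T t29 (L l2029 (T t32 N))))))) (K a213 (M a768 (F (T t31 (L l2029 (L l3203 (T t32 (L l1654 (T t33 N)))))))) (K a106 (M a768 (F (T t28 (T t29 (L l2029 (T t32 N)))))) (K a170 (M a768 (F (T t31 (T t29 (L l220 (L l1697 (T t30 N))))))) (K a234 (M a768 (F (T t31 (L l2029 (T t32 (L l390 (L l1654 (L l3246 (T t33 N))))))))) (K a63 (M a768 (F (T t74 (L l3159 (T t35 (L l2209 (T t29 N))))))) N)))))))))))))))⟩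
def e0_255__863_4 : Ent 5 := ⟨[a0, a255], [a863, a51], (M a48 (F (T t404 (L l511 (T t136 (L l511 (T t137 (L l511 (T t135 (L l511 (T t138 (K a16 (M a240 (F (T t405 (L l73 (L l340 (L l368 (L l2360 (T t140 (L l2353 (T t141 N)))))))))) (K a32 (M a240 (F (T t699 (L l73 (L l2360 (T t140 (L l376 (L l404 (L l2353 (T t141 N)))))))))) (K a85 (M a768 (F (T t229 (L l2193 (T t148 (L l123 (L l1921 (L l2339 (T t144 N))))))))) (K a101 (M a768 (F (T t229 (L l2193 (T t148 (L l2029 (L l3079 (T t32 N)))))))) (K a117 (M a768 (F (T t409 (L l2029 (L l2483 (L l3079 (T t32 (L l1654 (T t146 N))))))))) (K a154 (M a768 (F (T t410 (L l2193 (T t148 (L l2029 (L l3079 (T t32 N)))))))) (K a170 (M a768 (F (T t410 (L l2193 (T t148 (L l404 (L l1921 (T t144 N)))))))) (K a186 (M a768 (F (T t37 (L l2193 (T t148 (L l206 (L l1654 (L l2706 (T t146 N))))))))) (K a207 (M a341 (L l511 (F (T t411 (L l1654 (L l1921 (T t412 (K a103 (M a155 (F (T t700 (L l1654 (L l2265 (L l3195 (T t438 (L l1921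 (T t89 N))))))))) (K a155 (M a103 (F (T t411 (L l1654 (L l1921 (T t412 N)))))) N))))))))) N))))))))))))))))))))⟩
def e0_255__863_5 : Ent 5 := ⟨[a0, a255], [a863, a102], (M a768 (F (L l2029 (T t32 (L l126 (T t38 (L l126 (L l2029 (T t39 (L l2029 (T t40 (L l402 (L l1654 (L l2029 (T t41 (K a256 (M a192 (F (T t29 (L l126 (T t19 (L l402 (L l824 (L l996 (L l1654 (T t33 N)))))))))) (K a512 (M a192 (F (T t245 (L l126 (T t19 (L l402 (L l1654 (T t33 N)))))))) (K a85 (M a204 (L l126 (F (T t346 (L l365 (L l2339 (T t686 (L l365 (L l2339 (T t687 (K a68 (M a119 (F (T t701 (T t702 (L l2302 (T t467 N)))))) (K a119 (Fr a68 a136 l328 (V t690)) N)))))))))))) (K a341 (M a80 (F (L l1654 (T t703 (L l402 (L l2353 (T t704 (L l148 (L l402 (L l614 (L l996 (T t705 N)))))))))))) (K a597 (M a192 (F (T t28 (L l126 (L l2339 (L l3203 (T t19 (L l126 (L l1184 (L l1516 (L l2339 (L l3203 (T t58 (L l402 (L l2511 (T t59 N)))))))))))))))) (K a170 (M a204 (L l402 (F (T t686 (L l126 (T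 t342 (L l208 (T t687 (K a34 (Fr a238 a221 l290 (V t692)) (K a238 (M a34 (F (T t346 (L l2598 (L l3264 (T t182 (L l3264 (T t706 N)))))))) N)))))))))) (K a426 (M a192 (F (T t35 (L l126 (T t19 (L l126 (L l2727 (T t58 (L l402 (L l740 (L l996 (L l2598 (L l3246 (T t59 N)))))))))))))) (K a682 (M a128 (F (T t71 (L l126 (T t198 (L l126 (L l495 (L l1260 (L l1516 (T t72 N)))))))))) (K a1023 (M a783 (F (T t707 (L l3109 (T t606 (L l2864 (T t708 N))))))) N))))))))))))))))))))))))⟩
def e0_255__863_6 : Ent 5 := ⟨[a0, a255], [a863, a114], (M a192 (F (T t19 (T t23 (T t22 (T t24 (K a64 (M a240 (F (T t79 (L l144 (T t80 (L l2353 (T t81 N))))))) (K a128 (M a240 (F (T t79 (T t80 (L l192 (L l220 (L l2353 (T t81 N)))))))) (K a85 (M a768 (F (T t28 (L l347 (L l2339 (T t29 (L l347 (L l1697 (L l2339 (T t30 N)))))))))) (K a149 (M a768 (F (T t31 (L l347 (T t29 (L l2029 (T t32 N))))))) (K a213 (M a768 (F (T t31 (L l2029 (L l3203 (T t32 (L l1654 (T t33 N)))))))) (K a106 (M a768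 (F (T t28 (T t29 (L l2029 (T t32 N)))))) (K a170 (M a768 (F (T t31 (T t29 (L l220 (L l1697 (T t30 N))))))) (K a234 (M a768 (F (T t31 (L l2029 (T t32 (L l390 (L l1654 (L l3246 (T t33 N))))))))) (K a63 (M a768 (F (T t74 (L l3159 (T t35 (L l2209 (T t29 N))))))) N)))))))))))))))⟩
def e0_255__863_7 : Ent 5 := ⟨[a0, a255], [a863, a119], (M a192 (F (T t23 (L l126 (T t19 (L l126 (T t22 (L l113 (T t24 (K a64 (M a240 (F (T t79 (L l126 (L l144 (T t80 (L l2353 (T t81 N)))))))) (K a128 (M a240 (F (T t79 (L l126 (T t80 (L l192 (L l220 (L l2353 (T t81 N))))))))) (K a85 (M a768 (L l126 (F (T t28 (L l347 (L l2339 (L l2487 (T t29 (L l347 (L l1697 (L l2339 (L l2487 (T t30 (K a68 (M a102 (F (T t35 (L l347 (L l2339 (L l2487 (T t29 (L l80 (L l144 (T t36 N)))))))))) (K a102 (M a68 (F (T t35 (L l365 (L l2339 (L l2487 (T t134 N))))))) N))))))))))))))) (K a149 (M a768 (F (T t31 (L l347 (L l2487 (T t29 (L l2029 (L l2487 (T t32 N))))))))) (K a213 (M a768 (F (T t31 (L l2029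 (L l2487 (L l3203 (T t32 (L l1654 (T t33 N))))))))) (K a106 (M a768 (F (T t28 (L l2487 (T t29 (L l2029 (L l2487 (T t32 N)))))))) (K a170 (M a768 (F (T t31 (L l2487 (T t29 (L l220 (L l1697 (L l2487 (T t30 N))))))))) (K a234 (M a768 (F (T t31 (L l2029 (L l2487 (T t32 (L l390 (L l1654 (L l3246 (T t33 N)))))))))) (K a63 (M a768 (F (T t57 (L l2209 (L l2487 (T t29 (L l2029 (L l2487 (L l3073 (T t32 N)))))))))) N))))))))))))))))))⟩
def e0_255__863_8 : Ent 5 := ⟨[a0, a255], [a863, a177], (M a192 (F (T t19 (T t23 (T t22 (T t24 (K a64 (M a240 (F (T t79 (L l144 (T t80 (L l2353 (T t81 N))))))) (K a128 (M a240 (F (T t79 (T t80 (L l192 (L l220 (L l2353 (T t81 N)))))))) (K a85 (M a768 (F (T t28 (L l347 (L l2339 (T t29 (L l347 (L l1697 (L l2339 (T t30 N)))))))))) (K a149 (M a768 (F (T t31 (L l347 (T t29 (L l2029 (T t32 N))))))) (K a213 (M a768 (F (T t31 (L l2029 (L l3203 (T t32 (L l1654 (T t33 N)))))))) (K a106 (M a768 (F (T t28 (T t29 (L l2029 (T t32 N))))))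 (K a170 (M a768 (F (T t31 (T t29 (L l220 (L l1697 (T t30 N))))))) (K a234 (M a768 (F (T t31 (L l2029 (T t32 (L l390 (L l1654 (L l3246 (T t33 N))))))))) (K a63 (M a768 (F (T t74 (L l3159 (T t35 (L l2209 (T t29 N))))))) N)))))))))))))))⟩
def e0_255__863_9 : Ent 5 := ⟨[a0, a255], [a863, a187], (M a192 (F (T t19 (L l208 (T t23 (L l189 (T t22 (L l208 (T t24 (K a64 (M a240 (F (T t79 (L l144 (T t80 (L l208 (L l2353 (T t81 N)))))))) (K a128 (M a240 (F (T t79 (T t80 (L l192 (L l208 (L l220 (L l2353 (T t81 N))))))))) (K a85 (M a768 (F (T t28 (L l347 (L l2339 (T t29 (L l347 (L l1697 (L l2339 (T t30 N)))))))))) (K a149 (M a768 (F (T t31 (L l347 (T t29 (L l2029 (T t32 N))))))) (K a213 (M a768 (F (T t31 (L l2029 (L l3203 (T t32 (L l208 (L l1654 (L l2709 (T t33 N)))))))))) (K a106 (M a768 (F (T t28 (T t29 (L l2029 (T t32 N)))))) (K a170 (M a768 (L l208 (F (T t31 (T t29 (L l220 (L l1697 (T t30 (K a136 (M a153 (F (T t35 (T t29 (L l2598 (L l2709 (T t36 N)))))))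 (K a153 (M a136 (F (T t35 (L l2598 (L l2709 (T t180 N)))))) N)))))))))) (K a234 (M a768 (F (T t31 (L l2029 (T t32 (L l208 (L l390 (L l1654 (L l2709 (L l3246 (T t33 N))))))))))) (K a63 (M a768 (F (T t37 (L l3159 (T t35 (L l2209 (T t29 N))))))) N))))))))))))))))))⟩
def e0_255__863_10 : Ent 5 := ⟨[a0, a255], [a863, a273], (M a204 (F (T t158 (T t184 (T t190 (L l2117 (T t191 (K a68 (M a192 (F (T t192 (L l126 (T t19 (L l126 (T t193 N))))))) (K a136 (M a192 (F (T t192 (T t19 (L l316 (T t193 N)))))) (K a85 (M a768 (F (T t340 (L l365 (L l2339 (T t686 (L l365 (L l2339 (T t687 N))))))))) (K a153 (M a768 (F (T t346 (L l365 (T t686 (L l2029 (T t32 N))))))) (K a221 (M a768 (F (T t340 (L l2029 (L l3227 (T t32 (L l365 (L l3227 (T t341 N))))))))) (K a102 (M a768 (F (T t340 (T t686 (L l2029 (T t32 N)))))) (K a170 (M a768 (F (T t342 (T t686 (L l208 (T t687 N)))))) (K a238 (M a768 (F (T t340 (L l2029 (T t32 (T t341 N)))))) (K a51 (M a341 (F (T t205 (L l1654 (T t99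 N))))) N))))))))))))))))⟩
def e0_255__863_11 : Ent 5 := ⟨[a0, a255], [a863, a283], (M a192 (F (T t19 (T t23 (T t22 (T t24 (K a64 (M a240 (F (T t79 (L l144 (L l2257 (T t80 (L l2353 (T t81 N)))))))) (K a128 (M a240 (F (T t79 (L l2257 (T t80 (L l192 (L l220 (L l2353 (T t81 N))))))))) (K a85 (M a768 (F (T t28 (L l347 (L l2339 (T t29 (L l347 (L l1697 (L l2339 (T t30 N)))))))))) (K a149 (M a768 (F (T t31 (L l347 (T t29 (L l2029 (T t32 N))))))) (K a213 (M a768 (F (T t31 (L l2029 (L l3203 (T t32 (L l1654 (T t33 N)))))))) (K a106 (M a768 (F (T t28 (T t29 (L l2029 (T t32 N)))))) (K a170 (M a768 (F (T t31 (T t29 (L l220 (L l1697 (T t30 N))))))) (K a234 (M a768 (F (T t31 (L l2029 (T t32 (L l390 (L l1654 (L l3246 (T t33 N))))))))) (K a63 (M a768 (F (T t74 (L l3159 (T t35 (L l2209 (T t29 N))))))) N)))))))))))))))⟩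
def e0_255__863_12 : Ent 5 := ⟨[a0, a255], [a863, a290], (M a192 (F (T t19 (T t23 (T t22 (T t24 (K a64 (M a240 (F (T t79 (L l144 (T t80 (L l2353 (T t81 N))))))) (K a128 (M a240 (F (T t79 (T t80 (L l192 (L l220 (L l2353 (T t81 N)))))))) (K a85 (M a768 (F (T t86 (L l347 (L l2339 (T t29 (L l347 (L l1697 (L l2339 (T t30 N)))))))))) (K a149 (M a768 (F (T t31 (L l347 (T t29 (L l2029 (T t32 N))))))) (K a213 (M a768 (F (T t31 (L l2029 (L l3203 (T t32 (L l922 (L l1654 (T t33 N))))))))) (K a106 (M a768 (F (T t86 (T t29 (L l2029 (T t32 N)))))) (K a170 (M a768 (F (T t31 (T t29 (L l220 (L l1697 (T t30 N))))))) (K a234 (M a768 (F (T t31 (L l2029 (T t32 (L l390 (L l922 (L l1654 (L l3246 (T t33 N)))))))))) (K a63 (M a768 (F (T t37 (L l3159 (T t35 (L l2209 (T t29 N))))))) N)))))))))))))))⟩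
def e0_255__863_13 : Ent 5 := ⟨[a0, a255], [a863, a295], (M a192 (F (T t19 (T t23 (T t22 (T t24 (K a64 (M a240 (F (T t79 (L l144 (T t80 (L l2353 (T t81 N))))))) (K a128 (M a240 (F (T t79 (T t80 (L l192 (L l220 (L l2353 (T t81 N)))))))) (K a85 (M a768 (F (T t28 (L l347 (L l2339 (T t29 (L l347 (L l1697 (L l2339 (T t30 N)))))))))) (K a149 (M a768 (F (T t31 (L l347 (T t29 (L l2029 (T t32 N))))))) (K a213 (M a768 (F (T t31 (L l2029 (L l3203 (T t32 (L l1654 (T t33 N)))))))) (K a106 (M a768 (F (T t28 (T t29 (L l2029 (T t32 N)))))) (K a170 (M a768 (F (T t31 (T t29 (L l220 (L l1697 (T t30 N))))))) (K a234 (M a768 (F (T t31 (L l2029 (T t32 (L l390 (L l1654 (L l3246 (T t33 N))))))))) (K a63 (M a768 (F (T t74 (L l3159 (T t35 (L l2209 (T t29 N))))))) N)))))))))))))))⟩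
def e0_255__863_14 : Ent 5 := ⟨[a0, a255], [a863, a307], (M a192 (F (T t19 (T t23 (T t22 (T t24 (K a64 (M a240 (F (T t79 (L l144 (T t80 (L l2353 (T t81 N))))))) (K a128 (M a240 (F (T t79 (T t80 (L l192 (L l220 (L l2353 (T t81 N)))))))) (K a85 (M a768 (F (T t86 (L l347 (L l2339 (T t29 (L l347 (L l1697 (L l2339 (T t30 N)))))))))) (K a149 (M a768 (F (T t31 (L l347 (T t29 (L l959 (L l2029 (T t32 N)))))))) (K a213 (M a768 (F (T t31 (L l959 (L l2029 (L l3203 (T t32 (L l1654 (T t33 N))))))))) (K a106 (M a768 (F (T t86 (T t29 (L l959 (L l2029 (T t32 N))))))) (K a170 (M a768 (F (T t31 (T t29 (L l220 (L l1697 (T t30 N))))))) (K a234 (M a768 (F (T t31 (L l959 (L l2029 (T t32 (L l390 (L l1654 (L l3246 (T t33 N)))))))))) (K a63 (M a768 (F (T t37 (L l1009 (L l3159 (T t35 (L l2209 (T t29 N)))))))) N)))))))))))))))⟩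
def e0_255__863_15 : Ent 5 := ⟨[a0, a255], [a863, a358], (M a192 (F (T t19 (T t23 (T t22 (T t24 (K a64 (M a240 (F (T t79 (L l144 (T t80 (L l2353 (T t81 N))))))) (K a128 (M a240 (F (T t79 (T t80 (L l192 (L l220 (L l2353 (T t81 N)))))))) (K a85 (M a768 (F (T t28 (L l347 (L l2339 (L l2487 (T t29 (L l347 (L l1697 (L l2339 (L l2487 (T t30 N)))))))))))) (K a149 (M a768 (F (T t31 (L l347 (L l2487 (T t29 (L l2029 (L l2487 (T t32 N))))))))) (K a213 (M a768 (F (T t31 (L l2029 (L l2487 (L l3203 (T t32 (L l922 (L l1654 (T t33 N)))))))))) (K a106 (M a768 (F (T t28 (L l2487 (T t29 (L l2029 (L l2487 (T t32 N)))))))) (K a170 (M a768 (F (T t31 (L l2487 (T t29 (L l220 (L l1697 (L l2487 (T t30 N))))))))) (K a234 (M a768 (F (T t31 (L l2029 (L l2487 (T t32 (L l390 (L l922 (L l1654 (L l3246 (T t33 N))))))))))) (K a63 (M a768 (F (T t57 (L l2209 (L l2487 (T t29 (L l2029 (L l2487 (L l3073 (T t32 N)))))))))) N)))))))))))))))⟩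
def e0_255__863_16 : Ent 5 := ⟨[a0, a255], [a863, a370], (M a192 (F (T t19 (T t23 (T t22 (T t24 (K a64 (M a240 (F (T t79 (L l144 (T t80 (L l2353 (T t81 N))))))) (K a128 (M a240 (F (T t79 (T t80 (L l192 (L l220 (L l2353 (T t81 N)))))))) (K a85 (M a768 (F (T t28 (L l347 (L l2339 (T t29 (L l347 (L l1697 (L l2339 (T t30 N)))))))))) (K a149 (M a768 (F (T t31 (L l347 (T t29 (L l2029 (T t32 N))))))) (K a213 (M a768 (F (T t31 (L l2029 (L l3203 (T t32 (L l1654 (T t33 N)))))))) (K a106 (M a768 (F (T t28 (T t29 (L l2029 (T t32 N)))))) (K a170 (M a768 (F (T t31 (T t29 (L l220 (L l1697 (T t30 N))))))) (K a234 (M a768 (F (T t31 (L l2029 (T t32 (L l390 (L l1654 (L l3246 (T t33 N))))))))) (K a63 (M a768 (F (T t74 (L l3159 (T t35 (L l2209 (T t29 N))))))) N)))))))))))))))⟩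
def e0_255__863_17 : Ent 5 := ⟨[a0, a255], [a863, a375], (M a192 (F (T t19 (T t23 (T t22 (T t24 (K a64 (M a240 (F (T t79 (L l144 (T t80 (L l2353 (T t81 N))))))) (K a128 (M a240 (F (T t79 (T t80 (L l192 (L l220 (L l2353 (T t81 N)))))))) (K a85 (M a768 (F (T t28 (L l347 (L l2339 (T t29 (L l347 (L l1697 (L l2339 (L l2431 (T t30 N))))))))))) (K a149 (M a768 (F (T t31 (L l347 (T t29 (L l959 (L l2029 (L l3079 (T t32 N))))))))) (K a213 (M a768 (F (T t31 (L l959 (L l2029 (L l3079 (L l3203 (T t32 (L l1654 (T t33 N)))))))))) (K a106 (M a768 (F (T t28 (T t29 (L l959 (L l2029 (L l3079 (T t32 N)))))))) (K a170 (M a768 (F (T t31 (T t29 (L l220 (L l1697 (L l2431 (T t30 N)))))))) (K a234 (M a768 (F (T t31 (L l959 (L l2029 (L l3079 (T t32 (L l390 (L l1654 (L l3246 (T t33 N))))))))))) (K a63 (M a768 (F (T t37 (L l3159 (T t35 (L l2209 (T t29 N))))))) N)))))))))))))))⟩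
def e0_255__863_18 : Ent 5 := ⟨[a0, a255], [a863, a433], (M a192 (F (T t19 (T t23 (T t22 (T t24 (K a64 (M a240 (F (T t79 (L l144 (T t80 (L l2353 (T t81 N))))))) (K a128 (M a240 (F (T t79 (T t80 (L l192 (L l220 (L l2353 (T t81 N)))))))) (K a85 (M a768 (F (T t28 (L l347 (L l2339 (T t29 (L l347 (L l1697 (L l2339 (T t30 N)))))))))) (K a149 (M a768 (F (T t31 (L l347 (T t29 (L l2029 (T t32 N))))))) (K a213 (M a768 (F (T t31 (L l2029 (L l3203 (T t32 (L l1654 (T t33 N)))))))) (K a106 (M a768 (F (T t28 (T t29 (L l2029 (T t32 N)))))) (K a170 (M a768 (F (T t31 (T t29 (L l220 (L l1697 (T t30 N))))))) (K a234 (M a768 (F (T t31 (L l2029 (T t32 (L l390 (L l1654 (L l3246 (T t33 N))))))))) (K a63 (M a768 (F (T t74 (L l3159 (T t35 (L l2209 (T t29 N))))))) N)))))))))))))))⟩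
def e0_255__863_19 : Ent 5 := ⟨[a0, a255], [a863, a443], (M a192 (F (T t19 (T t23 (L l2653 (T t22 (T t24 (K a64 (M a240 (F (T t79 (L l144 (T t80 (L l2353 (T t81 N))))))) (K a128 (M a240 (F (T t79 (T t80 (L l192 (L l220 (L l2353 (T t81 N)))))))) (K a85 (M a768 (F (T t28 (L l347 (L l2339 (T t29 (L l347 (L l1697 (L l2339 (T t30 N)))))))))) (K a149 (M a768 (F (T t31 (L l347 (T t29 (L l959 (L l2029 (T t32 N)))))))) (K a213 (M a768 (F (T t31 (L l959 (L l2029 (L l3203 (T t32 (L l728 (L l1654 (T t33 N)))))))))) (K a106 (M a768 (F (T t28 (T t29 (L l959 (L l2029 (T t32 N))))))) (K a170 (M a768 (F (T t31 (T t29 (L l220 (L l1697 (T t30 N))))))) (K a234 (M a768 (F (T t31 (L l959 (L l2029 (T t32 (L l390 (L l728 (L l1654 (L l3246 (T t33 N))))))))))) (K a63 (M a768 (F (T t37 (L l3159 (T t35 (L l2209 (T t29 N))))))) N))))))))))))))))⟩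
def e0_255__863_20 : Ent 5 := ⟨[a0, a255], [a863, a529], (M a192 (F (T t19 (T t23 (T t22 (T t24 (K a64 (M a240 (F (T t79 (L l144 (T t80 (L l2353 (T t81 N))))))) (K a128 (M a240 (F (T t79 (T t80 (L l192 (L l220 (L l2353 (T t81 N)))))))) (K a85 (M a768 (F (T t28 (L l347 (L l1405 (L l2339 (T t29 (L l347 (L l1405 (L l1697 (L l2339 (T t30 N)))))))))))) (K a149 (M a768 (F (T t31 (L l347 (L l1405 (T t29 (L l1084 (L l1405 (L l2029 (T t32 N)))))))))) (K a213 (M a768 (F (T t31 (L l1084 (L l1405 (L l2029 (L l3203 (T t32 (L l1654 (T t33 N)))))))))) (K a106 (M a768 (F (T t28 (L l1405 (T t29 (L l1084 (L l1405 (L l2029 (T t32 N))))))))) (K a170 (M a768 (F (T t31 (L l1405 (T t29 (L l220 (L l1405 (L l1697 (T t30 N))))))))) (K a234 (M a768 (F (T t31 (L l1084 (L l1405 (L l2029 (T t32 (L l390 (L l1654 (L l3246 (T t33 N))))))))))) (K a63 (M a768 (F (T t74 (L l1084 (L l3159 (T t35 (L l1405 (L l2209 (T t29 N))))))))) N)))))))))))))))⟩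
def e0_255__863_21 : Ent 5 := ⟨[a0, a255], [a863, a539], (M a192 (F (T t19 (T t23 (T t22 (T t24 (K a64 (M a240 (F (T t79 (L l144 (T t80 (L l2353 (T t81 N))))))) (K a128 (M a240 (F (T t79 (T t80 (L l192 (L l220 (L l2353 (T t81 N)))))))) (K a85 (M a768 (F (T t28 (L l347 (L l2339 (T t29 (L l347 (L l1697 (L l2339 (T t30 N)))))))))) (K a149 (M a768 (F (T t31 (L l347 (T t29 (L l2029 (T t32 N))))))) (K a213 (M a768 (F (T t31 (L l2029 (L l3203 (T t32 (L l1654 (T t33 N)))))))) (K a106 (M a768 (F (T t28 (T t29 (L l2029 (T t32 N)))))) (K a170 (M a768 (F (T t31 (T t29 (L l220 (L l1697 (T t30 N))))))) (K a234 (M a768 (F (T t31 (L l2029 (T t32 (L l390 (L l1654 (L l3246 (T t33 N))))))))) (K a63 (M a768 (F (T t74 (L l3159 (T t35 (L l2209 (T t29 N))))))) N)))))))))))))))⟩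
def e0_255__863_22 : Ent 5 := ⟨[a0, a255], [a863, a546], (M a192 (F (T t19 (T t23 (T t22 (T t24 (K a64 (M a240 (F (T t79 (L l144 (T t80 (L l2353 (T t81 N))))))) (K a128 (M a240 (F (T t79 (T t80 (L l192 (L l220 (L l2353 (T t81 N)))))))) (K a85 (M a768 (F (T t28 (L l347 (L l2339 (T t29 (L l347 (L l1697 (L l2339 (T t30 N)))))))))) (K a149 (M a768 (F (T t31 (L l347 (T t29 (L l1084 (L l2029 (T t32 N)))))))) (K a213 (M a768 (F (T t31 (L l1084 (L l2029 (L l3203 (T t32 (L l1654 (T t33 N))))))))) (K a106 (M a768 (F (T t28 (T t29 (L l1084 (L l2029 (T t32 N))))))) (K a170 (M a768 (F (T t31 (T t29 (L l220 (L l1697 (T t30 N))))))) (K a234 (M a768 (F (T t31 (L l1084 (L l2029 (T t32 (L l390 (L l1654 (L l3246 (T t33 N)))))))))) (K a63 (M a768 (F (T t49 (L l1084 (L l3159 (T t35 (L l1084 (L l2029 (L l3073 (T t32 N)))))))))) N)))))))))))))))⟩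
def e0_255__863_23 : Ent 5 := ⟨[a0, a255], [a863, a551], (M a192 (F (T t19 (T t23 (T t22 (T t24 (K a64 (M a240 (F (T t79 (L l144 (L l2257 (T t80 (L l2353 (T t81 N)))))))) (K a128 (M a240 (F (T t79 (L l2257 (T t80 (L l192 (L l220 (L l2353 (T t81 N))))))))) (K a85 (M a768 (F (T t28 (L l347 (L l2339 (T t29 (L l347 (L l1697 (L l2339 (T t30 N)))))))))) (K a149 (M a768 (F (T t31 (L l347 (T t29 (L l2029 (T t32 N))))))) (K a213 (M a768 (F (T t31 (L l2029 (L l3203 (T t32 (L l1654 (T t33 N)))))))) (K a106 (M a768 (F (T t28 (T t29 (L l2029 (T t32 N)))))) (K a170 (M a768 (F (T t31 (T t29 (L l220 (L l1697 (T t30 N))))))) (K a234 (M a768 (F (T t31 (L l2029 (T t32 (L l390 (L l1654 (L l3246 (T t33 N))))))))) (K a63 (M a768 (F (T t74 (L l3159 (T t35 (L l2209 (T t29 N))))))) N)))))))))))))))⟩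
def e0_255__863_24 : Ent 5 := ⟨[a0, a255], [a863, a563], (M a192 (F (T t19 (T t23 (T t22 (T t24 (K a64 (M a240 (F (T t79 (L l144 (T t80 (L l2353 (T t81 N))))))) (K a128 (M a240 (F (T t79 (T t80 (L l192 (L l220 (L l2353 (T t81 N)))))))) (K a85 (M a768 (F (T t86 (L l347 (L l2339 (T t29 (L l347 (L l1697 (L l2339 (T t30 N)))))))))) (K a149 (M a768 (F (T t31 (L l347 (T t29 (L l1084 (L l2029 (T t32 N)))))))) (K a213 (M a768 (F (T t31 (L l1084 (L l2029 (L l3203 (T t32 (L l1654 (T t33 N))))))))) (K a106 (M a768 (F (T t86 (T t29 (L l1084 (L l2029 (T t32 N))))))) (K a170 (M a768 (F (T t31 (T t29 (L l220 (L l1697 (T t30 N))))))) (K a234 (M a768 (F (T t31 (L l1084 (L l2029 (T t32 (L l390 (L l1654 (L l3246 (T t33 N)))))))))) (K a63 (M a768 (F (T t85 (L l1084 (L l3159 (T t35 (L l1084 (L l2029 (L l3073 (T t32 N)))))))))) N)))))))))))))))⟩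
def e0_255__863_25 : Ent 5 := ⟨[a0, a255], [a863, a614], (M a192 (F (T t19 (T t23 (T t22 (T t24 (K a64 (M a240 (F (T t79 (L l144 (T t80 (L l2353 (T t81 N))))))) (K a128 (M a240 (F (T t79 (T t80 (L l192 (L l220 (L l2353 (T t81 N)))))))) (K a85 (M a768 (F (T t28 (L l347 (L l1166 (L l2339 (T t29 (L l347 (L l1166 (L l1697 (L l2339 (T t30 N)))))))))))) (K a149 (M a768 (F (T t31 (L l347 (L l1166 (T t29 (L l1166 (L l2029 (T t32 N))))))))) (K a213 (M a768 (F (T t31 (L l1166 (L l2029 (L l3203 (T t32 (L l1654 (L l3264 (T t33 N)))))))))) (K a106 (M a768 (F (T t28 (L l1166 (T t29 (L l1166 (L l2029 (T t32 N)))))))) (K a170 (M a768 (F (T t31 (L l1166 (T t29 (L l220 (L l1166 (L l1697 (T t30 N))))))))) (K a234 (M a768 (F (T t31 (L l1166 (L l2029 (T t32 (L l390 (L l1654 (L l3246 (L l3264 (T t33 N))))))))))) (K a63 (M a768 (F (T t57 (L l1166 (L l2209 (T t29 (L l1166 (L l2029 (L l3073 (T t32 N)))))))))) N)))))))))))))))⟩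
def e0_255__863_26 : Ent 5 := ⟨[a0, a255], [a863, a626], (M a192 (F (T t19 (T t23 (T t22 (T t24 (K a64 (M a240 (F (T t79 (L l144 (T t80 (L l2353 (T t81 N))))))) (K a128 (M a240 (F (T t79 (T t80 (L l192 (L l220 (L l2353 (T t81 N)))))))) (K a85 (M a768 (F (T t28 (L l347 (L l2339 (T t29 (L l347 (L l1697 (L l2339 (T t30 N)))))))))) (K a149 (M a768 (F (T t31 (L l347 (T t29 (L l2029 (T t32 N))))))) (K a213 (M a768 (F (T t31 (L l2029 (L l3203 (T t32 (L l1654 (T t33 N)))))))) (K a106 (M a768 (F (T t28 (T t29 (L l2029 (T t32 N)))))) (K a170 (M a768 (F (T t31 (T t29 (L l220 (L l1697 (T t30 N))))))) (K a234 (M a768 (F (T t31 (L l2029 (T t32 (L l390 (L l1654 (L l3246 (T t33 N))))))))) (K a63 (M a768 (F (T t74 (L l3159 (T t35 (L l2209 (T t29 N))))))) N)))))))))))))))⟩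
def e0_255__863_27 : Ent 5 := ⟨[a0, a255], [a863, a631], (M a204 (F (T t158 (T t184 (L l2413 (T t190 (T t191 (K a68 (M a192 (F (T t192 (L l126 (T t19 (L l126 (T t193 N))))))) (K a136 (M a192 (F (T t192 (T t19 (L l316 (T t193 N)))))) (K a85 (M a768 (F (T t340 (L l365 (L l1166 (L l2339 (T t686 (L l126 (T t724 N))))))))) (K a153 (M a768 (F (T t694 (L l365 (L l1166 (T t686 (L l1479 (L l2029 (T t40 N))))))))) (K a221 (M a768 (F (T t340 (L l1479 (L l2029 (T t40 (L l365 (L l1166 (L l3227 (T t725 N)))))))))) (K a102 (M a768 (F (T t340 (L l1166 (T t686 (L l1479 (L l2029 (T t40 N)))))))) (K a170 (M a768 (F (T t694 (L l1166 (T t686 (L l402 (L l2598 (T t724 N)))))))) (K a238 (M a768 (F (T t340 (L l1479 (L l2029 (L l3264 (T t40 (L l1166 (T t725 N))))))))) (K a51 (M a597 (F (T t726 (L l1654 (T t727 N))))) N))))))))))))))))⟩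
def e0_255__863_28 : Ent 5 := ⟨[a0, a255], [a863, a689], (M a192 (F (T t19 (T t23 (T t22 (T t24 (K a64 (M a240 (F (T t79 (L l144 (T t80 (L l2353 (T t81 N))))))) (K a128 (M a240 (F (T t79 (T t80 (L l192 (L l220 (L l2353 (T t81 N)))))))) (K a85 (M a768 (F (T t28 (L l347 (L l2339 (T t29 (L l347 (L l1697 (L l2339 (T t30 N)))))))))) (K a149 (M a768 (F (T t31 (L l347 (T t29 (L l2029 (T t32 N))))))) (K a213 (M a768 (F (T t31 (L l2029 (L l3203 (T t32 (L l1654 (T t33 N)))))))) (K a106 (M a768 (F (T t28 (T t29 (L l2029 (T t32 N)))))) (K a170 (M a768 (F (T t31 (T t29 (L l220 (L l1697 (T t30 N))))))) (K a234 (M a768 (F (T t31 (L l2029 (T t32 (L l390 (L l1654 (L l3246 (T t33 N))))))))) (K a63 (M a768 (F (T t74 (L l3159 (T t35 (L l2209 (T t29 N))))))) N)))))))))))))))⟩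
def e0_255__863_29 : Ent 5 := ⟨[a0, a255], [a863, a699], (M a192 (F (T t19 (T t23 (T t22 (T t24 (K a64 (M a240 (F (T t79 (L l144 (T t80 (L l2353 (T t81 N))))))) (K a128 (M a240 (F (T t79 (T t80 (L l192 (L l220 (L l2353 (T t81 N)))))))) (K a85 (M a768 (F (T t28 (L l347 (L l2339 (T t29 (L l347 (L l1697 (L l2339 (T t30 N)))))))))) (K a149 (M a768 (F (T t31 (L l347 (T t29 (L l2029 (L l3079 (T t32 N)))))))) (K a213 (M a768 (F (T t31 (L l2029 (L l3079 (L l3203 (T t32 (L l1654 (T t33 N))))))))) (K a106 (M a768 (F (T t28 (T t29 (L l2029 (L l3079 (T t32 N))))))) (K a170 (M a768 (F (T t31 (T t29 (L l220 (L l1697 (T t30 N))))))) (K a234 (M a768 (F (T t31 (L l2029 (L l3079 (T t32 (L l390 (L l1654 (L l3246 (T t33 N)))))))))) (K a63 (M a768 (F (T t37 (L l3159 (T t35 (L l2209 (T t29 N))))))) N)))))))))))))))⟩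
def e0_255__863_30 : Ent 5 := ⟨[a0, a255], [a863, a785], (M a192 (F (T t19 (T t23 (T t22 (T t24 (K a64 (M a240 (F (T t79 (L l144 (T t80 (L l2353 (T t81 N))))))) (K a128 (M a240 (F (T t79 (T t80 (L l192 (L l220 (L l2353 (T t81 N)))))))) (K a85 (M a768 (F (T t28 (L l347 (L l2339 (L l3227 (T t29 (L l347 (L l1697 (L l2339 (L l3227 (T t30 N)))))))))))) (K a149 (M a768 (F (T t31 (L l347 (L l3227 (T t29 (L l2029 (L l3227 (T t32 N))))))))) (K a213 (M a768 (F (T t31 (L l2029 (L l3203 (L l3227 (T t32 (L l1654 (L l1925 (T t33 N)))))))))) (K a106 (M a768 (F (T t35 (L l3227 (T t29 (L l2029 (L l3227 (T t32 N)))))))) (K a170 (M a768 (F (T t31 (L l3227 (T t29 (L l220 (L l1697 (L l3227 (T t30 N))))))))) (K a234 (M a768 (F (T t31 (L l2029 (L l3227 (T t32 (L l390 (L l1654 (L l1925 (L l3246 (T t33 N))))))))))) (K a63 (M a768 (F (T t74 (L l3159 (T t35 (L l2209 (L l3227 (T t29 N)))))))) N)))))))))))))))⟩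
def e0_255__863_31 : Ent 5 := ⟨[a0, a255], [a863, a795], (M a192 (F (T t19 (T t23 (T t22 (T t24 (K a64 (M a240 (F (T t79 (L l144 (T t80 (L l2353 (T t81 N))))))) (K a128 (M a240 (F (T t79 (T t80 (L l192 (L l220 (L l2353 (T t81 N)))))))) (K a85 (M a768 (F (T t28 (L l347 (L l2339 (T t29 (L l347 (L l1697 (L l2339 (T t30 N)))))))))) (K a149 (M a768 (F (T t31 (L l347 (T t29 (L l2029 (T t32 N))))))) (K a213 (M a768 (F (T t31 (L l2029 (L l3203 (T t32 (L l1654 (T t33 N)))))))) (K a106 (M a768 (F (T t28 (T t29 (L l2029 (T t32 N)))))) (K a170 (M a768 (F (T t31 (T t29 (L l220 (L l1697 (T t30 N))))))) (K a234 (M a768 (F (T t31 (L l2029 (T t32 (L l390 (L l1654 (L l3246 (T t33 N))))))))) (K a63 (M a768 (F (T t74 (L l3159 (T t35 (L l2209 (T t29 N))))))) N)))))))))))))))⟩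
def e0_255__863_32 : Ent 5 := ⟨[a0, a255], [a863, a802], (M a204 (F (T t158 (L l2154 (T t184 (T t190 (L l3264 (T t191 (K a68 (M a192 (F (T t23 (L l3234 (T t187 (L l126 (L l2154 (T t193 N)))))))) (K a136 (M a192 (F (T t19 (L l3234 (T t187 (L l316 (L l2154 (T t193 N)))))))) (K a85 (M a768 (F (T t340 (L l3264 (T t701 (L l126 (L l3264 (T t749 N)))))))) (K a153 (M a768 (F (T t346 (L l3264 (T t701 (L l2029 (T t32 N))))))) (K a221 (M a768 (F (T t340 (L l2029 (L l3227 (T t32 (L l365 (L l1962 (L l3227 (T t341 N)))))))))) (K a102 (M a768 (F (T t340 (L l3264 (T t701 (L l2029 (T t32 N))))))) (K a170 (M a768 (F (T t342 (L l2598 (L l3264 (T t701 (L l2598 (L l3264 (T t749 N))))))))) (K a238 (M a426 (F (T t750 (T t572 (L l1962 (T t573 N)))))) (K a51 (M a341 (F (T t205 (L l1654 (T t99 N))))) N)))))))))))))))))⟩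
def e0_255__863_33 : Ent 5 := ⟨[a0, a255], [a863, a807], (M a192 (F (T t19 (T t23 (T t22 (T t24 (K a64 (M a240 (F (T t79 (L l144 (T t80 (L l2353 (T t81 N))))))) (K a128 (M a240 (F (T t79 (T t80 (L l192 (L l220 (L l2353 (T t81 N)))))))) (K a85 (M a768 (F (T t28 (L l347 (L l2339 (T t29 (L l347 (L l1697 (L l2339 (T t30 N)))))))))) (K a149 (M a768 (F (T t31 (L l347 (T t29 (L l2029 (T t32 N))))))) (K a213 (M a768 (F (T t31 (L l2029 (L l3203 (T t32 (L l1654 (T t33 N)))))))) (K a106 (M a768 (F (T t28 (T t29 (L l2029 (T t32 N)))))) (K a170 (M a768 (F (T t31 (T t29 (L l220 (L l1697 (T t30 N))))))) (K a234 (M a768 (F (T t31 (L l2029 (T t32 (L l390 (L l1654 (L l3246 (T t33 N))))))))) (K a63 (M a768 (F (T t74 (L l3159 (T t35 (L l2209 (T t29 N))))))) N)))))))))))))))⟩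
def e0_255__863_34 : Ent 5 := ⟨[a0, a255], [a863, a819], (M a192 (F (T t46 (L l2221 (T t19 (L l2221 (T t23 (L l2221 (T t22 (L l2221 (T t24 (K a64 (M a240 (F (T t84 (L l144 (L l2257 (T t80 (L l2353 (T t81 N)))))))) (K a128 (M a240 (F (T t751 (L l2257 (T t80 (L l192 (L l220 (L l2353 (T t81 N))))))))) (K a85 (M a768 (F (T t85 (L l2049 (T t35 (L l347 (L l1697 (L l2339 (T t30 N))))))))) (K a149 (M a768 (F (T t85 (L l2049 (T t35 (L l1999 (L l2029 (T t32 N)))))))) (K a213 (M a768 (F (T t62 (L l1999 (L l2029 (L l3203 (T t32 (L l1654 (T t33 N))))))))) (K a106 (M a768 (F (T t42 (L l2049 (T t35 (L l1999 (L l2029 (T t32 N)))))))) (K a170 (M a768 (F (T t42 (L l2049 (T t35 (L l220 (L l1697 (T t30 N)))))))) (K a234 (M a768 (F (T t37 (L l2049 (T t35 (L l390 (L l1654 (L l3246 (T t33 N))))))))) (K a63 (M a768 (L l2221 (F (T t74 (L l2049 (L l3159 (T t35 (L l1597 (L l2209 (T t29 (K a567 (M a315 (F (T t38 (L l1597 (L l2209 (T t48 (L l2049 (L l3159 (T t86 N)))))))))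 (K a315 (M a567 (F (T t38 (L l1597 (L l2209 (T t48 (L l2049 (L l3159 (T t86 N))))))))) N)))))))))))) N))))))))))))))))))))⟩
def e0_255__863_35 : Ent 5 := ⟨[a0, a255], [a863, a870], (M a192 (F (T t19 (T t23 (T t22 (T t24 (K a64 (M a240 (F (T t79 (L l144 (T t80 (L l2353 (T t81 N))))))) (K a128 (M a240 (F (T t79 (T t80 (L l192 (L l220 (L l2353 (T t81 N)))))))) (K a85 (M a768 (F (T t28 (L l347 (L l2339 (T t29 (L l347 (L l1697 (L l2339 (T t30 N)))))))))) (K a149 (M a768 (F (T t31 (L l347 (T t29 (L l2029 (T t32 N))))))) (K a213 (M a768 (F (T t31 (L l2029 (L l3203 (T t32 (L l1654 (L l1686 (T t33 N))))))))) (K a106 (M a768 (F (T t28 (T t29 (L l2029 (T t32 N)))))) (K a170 (M a768 (F (T t31 (T t29 (L l220 (L l1697 (T t30 N))))))) (K a234 (M a768 (F (T t31 (L l2029 (T t32 (L l390 (L l1654 (L l1686 (L l3246 (T t33 N)))))))))) (K a63 (M a768 (F (T t74 (L l3159 (T t35 (L l2209 (T t29 N))))))) N)))))))))))))))⟩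
def e0_255__863_36 : Ent 5 := ⟨[a0, a255], [a863, a882], (M a192 (F (T t19 (T t23 (T t22 (T t24 (K a64 (M a240 (F (T t79 (L l144 (T t80 (L l2353 (T t81 N))))))) (K a128 (M a240 (F (T t79 (T t80 (L l192 (L l220 (L l2353 (T t81 N)))))))) (K a85 (M a768 (F (T t28 (L l347 (L l2339 (T t29 (L l347 (L l1697 (L l2339 (T t30 N)))))))))) (K a149 (M a768 (F (T t31 (L l347 (T t29 (L l2029 (T t32 N))))))) (K a213 (M a768 (F (T t31 (L l2029 (L l3203 (T t32 (L l1654 (T t33 N)))))))) (K a106 (M a768 (F (T t28 (T t29 (L l2029 (T t32 N)))))) (K a170 (M a768 (F (T t31 (T t29 (L l220 (L l1697 (T t30 N))))))) (K a234 (M a768 (F (T t31 (L l2029 (T t32 (L l390 (L l1654 (L l3246 (T t33 N))))))))) (K a63 (M a768 (F (T t74 (L l3159 (T t35 (L l2209 (T t29 N))))))) N)))))))))))))))⟩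
def e0_255__863_37 : Ent 5 := ⟨[a0, a255], [a863, a887], (M a192 (F (T t19 (T t23 (T t22 (T t24 (K a64 (M a240 (F (T t79 (L l144 (T t80 (L l2353 (T t81 N))))))) (K a128 (M a240 (F (T t79 (T t80 (L l192 (L l220 (L l2353 (T t81 N)))))))) (K a85 (M a768 (F (T t28 (L l347 (L l2339 (T t29 (L l347 (L l1673 (L l1697 (L l2339 (T t30 N))))))))))) (K a149 (M a768 (F (T t31 (L l347 (T t29 (L l1999 (L l2029 (T t32 N)))))))) (K a213 (M a768 (F (T t31 (L l1999 (L l2029 (L l3203 (T t32 (L l1654 (L l1686 (T t33 N)))))))))) (K a106 (M a768 (F (T t28 (T t29 (L l1999 (L l2029 (T t32 N))))))) (K a170 (M a768 (F (T t31 (T t29 (L l220 (L l1673 (L l1697 (T t30 N)))))))) (K a234 (M a768 (F (T t31 (L l1999 (L l2029 (T t32 (L l390 (L l1654 (L l1686 (L l3246 (T t33 N))))))))))) (K a63 (M a768 (F (T t74 (L l3159 (T t35 (L l2209 (T t29 N))))))) N)))))))))))))))⟩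
def e0_255__863_38 : Ent 5 := ⟨[a0, a255], [a863, a945], (M a192 (F (T t19 (T t23 (T t22 (T t24 (K a64 (M a240 (F (T t79 (L l144 (T t80 (L l2353 (T t81 N))))))) (K a128 (M a240 (F (T t79 (T t80 (L l192 (L l220 (L l2353 (T t81 N)))))))) (K a85 (M a768 (F (T t28 (L l347 (L l2339 (T t29 (L l347 (L l1697 (L l2339 (T t30 N)))))))))) (K a149 (M a768 (F (T t31 (L l347 (T t29 (L l2029 (T t32 N))))))) (K a213 (M a768 (F (T t31 (L l2029 (L l3203 (T t32 (L l1654 (T t33 N)))))))) (K a106 (M a768 (F (T t28 (T t29 (L l2029 (T t32 N)))))) (K a170 (M a768 (F (T t31 (T t29 (L l220 (L l1697 (T t30 N))))))) (K a234 (M a768 (F (T t31 (L l2029 (T t32 (L l390 (L l1654 (L l3246 (T t33 N))))))))) (K a63 (M a768 (F (T t74 (L l3159 (T t35 (L l2209 (T t29 N))))))) N)))))))))))))))⟩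
def e0_255__863_39 : Ent 5 := ⟨[a0, a255], [a863, a955], (M a192 (F (T t19 (T t23 (T t22 (T t24 (K a64 (M a240 (F (T t79 (L l144 (T t80 (L l2353 (T t81 N))))))) (K a128 (M a240 (F (T t79 (T t80 (L l192 (L l220 (L l2353 (T t81 N)))))))) (K a85 (M a768 (F (T t28 (L l347 (L l2339 (T t29 (L l347 (L l1697 (L l2339 (T t30 N)))))))))) (K a149 (M a768 (F (T t31 (L l347 (T t29 (L l1999 (L l2029 (T t32 N)))))))) (K a213 (M a768 (F (T t31 (L l1999 (L l2029 (L l3203 (T t32 (L l1654 (T t33 N))))))))) (K a106 (M a768 (F (T t28 (T t29 (L l1999 (L l2029 (T t32 N))))))) (K a170 (M a768 (F (T t31 (T t29 (L l220 (L l1697 (T t30 N))))))) (K a234 (M a768 (F (T t31 (L l1999 (L l2029 (T t32 (L l390 (L l1654 (L l3246 (T t33 N)))))))))) (K a63 (M a768 (F (T t74 (L l3159 (T t35 (L l2209 (T t29 N))))))) N)))))))))))))))⟩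
def b0_255__863 : Blk 5 := ⟨[0, 255], [863], [17, 27, 34, 39, 51, 102, 114, 119, 177, 187, 273, 283, 290, 295, 307, 358, 370, 375, 433, 443, 529, 539, 546, 551, 563, 614, 626, 631, 689, 699, 785, 795, 802, 807, 819, 870, 882, 887, 945, 955], [e0_255__863_0, e0_255__863_1, e0_255__863_2, e0_255__863_3, e0_255__863_4, e0_255__863_5, e0_255__863_6, e0_255__863_7, e0_255__863_8, e0_255__863_9, e0_255__863_10, e0_255__863_11, e0_255__863_12, e0_255__863_13, e0_255__863_14, e0_255__863_15, e0_255__863_16, e0_255__863_17, e0_255__863_18, e0_255__863_19, e0_255__863_20, e0_255__863_21, e0_255__863_22, e0_255__863_23, e0_255__863_24, e0_255__863_25, e0_255__863_26, e0_255__863_27, e0_255__863_28, e0_255__863_29, e0_255__863_30, e0_255__863_31, e0_255__863_32, e0_255__863_33, e0_255__863_34, e0_255__863_35, e0_255__863_36, e0_255__863_37, e0_255__863_38, e0_255__863_39], by decide +kernel, by decide +kernel⟩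
def e0_256__341_0 : Ent 5 := ⟨[a0, a256], [a341, a27], (M a320 (F (T t871 (L l2468 (T t872 (K a512 (M a336 (F (T t873 (L l1344 (L l3008 (T t874 (L l1344 (T t875 N)))))))) (K a768 (M a336 (F (T t876 (L l888 (L l3160 (T t877 (L l3160 (L l3340 (T t875 N))))))))) (K a64 (M a336 (L l2468 (F (T t873 (L l3008 (T t874 (L l116 (L l2360 (T t878 (K a618 (M a895 (F (T t879 (L l888 (T t880 (T t881 N)))))) (K a895 (M a618 (F (T t879 (L l888 (T t880 (T t881 N)))))) N))))))))))) (K a576 (M a336 (F (L l3160 (T t873 (L l1344 (L l3008 (T t874 (L l1156 (L l1344 (L l2360 (T t878 N))))))))))) (K a384 (M a336 (F (T t882 (L l2512 (L l3008 (T t874 (L l2512 (T t883 N)))))))) (K a640 (M a336 (F (L l2512 (T t873 (L l1344 (L l2360 (T t878 (L l1232 (L l1344 (L l2468 (T t884 N))))))))))) (K a896 (M a336 (F (T t882 (L l888 (L l2512 (T t877 (L l2512 (T t885 N)))))))) (K a192 (M a336 (F (T t886 (L l3008 (T t874 (L l888 (L l3160 (L l3304 (T t877 N))))))))) (K a448 (M a336 (F (T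 t885 (L l788 (L l2360 (T t878 (L l788 (T t883 N)))))))) (K a704 (Fr a768 a512 l2080 (Fr a384 a448 l824 (Fr a960 a640 l2944 (Fr a576 a192 l3160 (V t894))))) (K a960 (M a336 (F (T t873 (L l2360 (T t878 (L l3008 (L l3124 (T t888 N)))))))) N))))))))))))))))⟩
def e0_256__341_1 : Ent 5 := ⟨[a0, a256], [a341, a283], (M a320 (F (T t871 (L l2468 (T t872 (K a512 (M a336 (F (T t873 (L l1344 (L l3008 (T t874 (L l1344 (T t875 N)))))))) (K a768 (M a336 (F (T t876 (L l888 (L l3160 (T t877 (L l3160 (L l3340 (T t875 N))))))))) (K a64 (M a336 (L l2468 (F (T t873 (L l3008 (T t874 (L l116 (L l2360 (T t878 (K a618 (M a895 (F (T t879 (L l888 (T t880 (T t881 N)))))) (K a895 (M a618 (F (T t879 (L l888 (T t880 (T t881 N)))))) N))))))))))) (K a576 (M a336 (F (L l3160 (T t873 (L l1344 (L l3008 (T t874 (L l1156 (L l1344 (L l2360 (T t878 N))))))))))) (K a384 (M a336 (F (T t882 (L l2512 (L l3008 (T t874 (L l2512 (T t883 N)))))))) (K a640 (M a336 (F (L l2512 (T t873 (L l1344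 (L l2360 (T t878 (L l1232 (L l1344 (L l2468 (T t884 N))))))))))) (K a896 (M a336 (F (T t882 (L l888 (L l2512 (T t877 (L l2512 (T t885 N)))))))) (K a192 (M a336 (F (T t886 (L l3008 (T t874 (L l888 (L l3160 (L l3304 (T t877 N))))))))) (K a448 (M a336 (F (T t885 (L l788 (L l2360 (T t878 (L l788 (T t883 N)))))))) (K a704 (Fr a768 a512 l2080 (Fr a384 a448 l824 (Fr a960 a640 l2944 (Fr a576 a192 l3160 (V t894))))) (K a960 (M a336 (F (T t873 (L l2360 (T t878 (L l3008 (L l3124 (T t888 N)))))))) N))))))))))))))))⟩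
def e0_256__341_2 : Ent 5 := ⟨[a0, a256], [a341, a539], (M a320 (F (T t871 (L l2468 (T t872 (K a512 (M a336 (F (T t873 (L l1344 (L l3008 (T t874 (L l1344 (T t875 N)))))))) (K a768 (M a336 (F (T t876 (L l888 (L l3160 (T t877 (L l3160 (L l3340 (T t875 N))))))))) (K a64 (M a336 (L l2468 (F (T t873 (L l3008 (T t874 (L l116 (L l2360 (T t878 (K a618 (M a895 (F (T t879 (L l888 (T t880 (T t881 N)))))) (K a895 (M a618 (F (T t879 (L l888 (T t880 (T t881 N)))))) N))))))))))) (K a576 (M a336 (F (L l3160 (T t873 (L l1344 (L l3008 (T t874 (L l1156 (L l1344 (L l2360 (T t878 N))))))))))) (K a384 (M a336 (F (T t882 (L l2512 (L l3008 (T t874 (L l2512 (T t883 N)))))))) (K a640 (M a336 (F (L l2512 (T t873 (L l1344 (L l2360 (T t878 (L l1232 (L l1344 (L l2468 (T t884 N))))))))))) (K a896 (M a336 (F (T t882 (L l888 (L l2512 (T t877 (L l2512 (T t885 N)))))))) (K a192 (M a336 (F (T t886 (L l3008 (T t874 (L l888 (L l3160 (L l3304 (T t877 N))))))))) (K a448 (M a336 (F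 (T t885 (L l788 (L l2360 (T t878 (L l788 (T t883 N)))))))) (K a704 (Fr a768 a512 l2080 (Fr a384 a448 l824 (Fr a960 a640 l2944 (Fr a576 a192 l3160 (V t894))))) (K a960 (M a336 (F (T t873 (L l2360 (T t878 (L l3008 (L l3124 (T t888 N)))))))) N))))))))))))))))⟩
def e0_256__341_3 : Ent 5 := ⟨[a0, a256], [a341, a795], (M a320 (F (T t871 (L l2468 (T t872 (K a512 (M a336 (F (T t873 (L l1344 (L l3008 (T t874 (L l1344 (T t875 N)))))))) (K a768 (M a336 (F (T t876 (L l888 (L l3160 (T t877 (L l3160 (L l3340 (T t875 N))))))))) (K a64 (M a336 (L l2468 (F (T t873 (L l3008 (T t874 (L l116 (L l2360 (T t878 (K a618 (M a895 (F (T t879 (L l888 (T t880 (T t881 N)))))) (K a895 (M a618 (F (T t879 (L l888 (T t880 (T t881 N)))))) N))))))))))) (K a576 (M a336 (F (L l3160 (T t873 (L l1344 (L l3008 (T t874 (L l1156 (L l1344 (L l2360 (T t878 N))))))))))) (K a384 (M a336 (F (T t882 (L l2512 (L l3008 (T t874 (L l2512 (T t883 N)))))))) (K a640 (M a336 (F (L l2512 (T t873 (L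 l1344 (L l2360 (T t878 (L l1232 (L l1344 (L l2468 (T t884 N))))))))))) (K a896 (M a336 (F (T t882 (L l888 (L l2512 (T t877 (L l2512 (T t885 N)))))))) (K a192 (M a336 (F (T t886 (L l3008 (T t874 (L l888 (L l3160 (L l3304 (T t877 N))))))))) (K a448 (M a336 (F (T t885 (L l788 (L l2360 (T t878 (L l788 (T t883 N)))))))) (K a704 (Fr a768 a512 l2080 (Fr a384 a448 l824 (Fr a960 a640 l2944 (Fr a576 a192 l3160 (V t894))))) (K a960 (M a336 (F (T t873 (L l2360 (T t878 (L l3008 (L l3124 (T t888 N)))))))) N))))))))))))))))⟩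
def b0_256__341 : Blk 5 := ⟨[0, 256], [341], [27, 283, 539, 795], [e0_256__341_0, e0_256__341_1, e0_256__341_2, e0_256__341_3], by decide +kernel, by decide +kernel⟩
def e0_768__1023_0 : Ent 5 := ⟨[a0, a768], [a1023, a27], (M a192 (F (T t62 (L l1856 (T t35 (L l1856 (T t31 (L l1856 (T t28 (L l1856 (T t86 (K a256 (M a592 (F (L l2864 (T t895 (L l968 (L l3080 (T t896 (L l824 (T t897 N))))))))) (K a512 (M a592 (F (T t898 (L l3080 (T t896 (T t897 N)))))) (K a64 (M a592 (F (T t898 (L l1826 (T t899 (T t900 N)))))) (K a320 (M a336 (F (T t901 (T t902 (T t903 N))))) (K a576 (M a336 (F (T t902 (L l2864 (T t904 (L l1344 (T t903 N))))))) (K a128 (M a592 (F (T t905 (L l2000 (L l2512 (T t906 (L l2512 (T t900 N)))))))) (K a384 (M a336 (F (T t901 (L l2000 (T t907 (L l2512 (T t903 N))))))) (K a640 (M a336 (F (L l1344 (T t901 (L l2512 (T t902 (L l1344 (L l2512 (T t903 N))))))))) (K a960 (M a336 (L l1856 (F (T t901 (T t902 (T t903 (K a981 (M a1002 (F (T t902 (L l1826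 (L l1828 (T t908 (T t909 N))))))) (K a1002 (M a981 (F (T t902 (L l1826 (L l1828 (T t908 (T t909 N))))))) N)))))))) N))))))))))))))))))))⟩
def e0_768__1023_1 : Ent 5 := ⟨[a0, a768], [a1023, a283], (M a192 (F (T t62 (L l1856 (T t35 (L l1856 (T t31 (L l1856 (T t28 (L l1856 (T t86 (K a256 (M a592 (F (L l2864 (T t895 (L l968 (L l3080 (T t896 (L l824 (T t897 N))))))))) (K a512 (M a592 (F (T t898 (L l3080 (T t896 (T t897 N)))))) (K a64 (M a592 (F (T t898 (L l1826 (T t899 (T t900 N)))))) (K a320 (M a336 (F (T t901 (T t902 (T t903 N))))) (K a576 (M a336 (F (T t902 (L l2864 (T t904 (L l1344 (T t903 N))))))) (K a128 (M a592 (F (T t905 (L l2000 (L l2512 (T t906 (L l2512 (T t900 N)))))))) (K a384 (M a336 (F (T t901 (L l2000 (T t907 (L l2512 (T t903 N))))))) (K a640 (M a336 (F (L l1344 (T t901 (L l2512 (T t902 (L l1344 (L l2512 (T t903 N))))))))) (K a960 (M a336 (L l1856 (F (T t901 (T t902 (T t903 (K a981 (M a1002 (F (T t902 (L l1826 (L l1828 (T t908 (T t909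 N))))))) (K a1002 (M a981 (F (T t902 (L l1826 (L l1828 (T t908 (T t909 N))))))) N)))))))) N))))))))))))))))))))⟩
def e0_768__1023_2 : Ent 5 := ⟨[a0, a768], [a1023, a539], (M a192 (F (T t62 (L l1856 (T t35 (L l1856 (T t31 (L l1856 (T t28 (L l1856 (T t86 (K a256 (M a592 (F (L l2864 (T t895 (L l968 (L l3080 (T t896 (L l824 (T t897 N))))))))) (K a512 (M a592 (F (T t898 (L l3080 (T t896 (T t897 N)))))) (K a64 (M a592 (F (T t898 (L l1826 (T t899 (T t900 N)))))) (K a320 (M a336 (F (T t901 (T t902 (T t903 N))))) (K a576 (M a336 (F (T t902 (L l2864 (T t904 (L l1344 (T t903 N))))))) (K a128 (M a592 (F (T t905 (L l2000 (L l2512 (T t906 (L l2512 (T t900 N)))))))) (K a384 (M a336 (F (T t901 (L l2000 (T t907 (L l2512 (T t903 N))))))) (K a640 (M a336 (F (L l1344 (T t901 (L l2512 (T t902 (L l1344 (L l2512 (T t903 N))))))))) (K a960 (M a336 (L l1856 (F (T t901 (T t902 (T t903 (K a981 (M a1002 (F (T t902 (L l1826 (L l1828 (T t908 (T t909 N))))))) (K a1002 (M a981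 (F (T t902 (L l1826 (L l1828 (T t908 (T t909 N))))))) N)))))))) N))))))))))))))))))))⟩
def e0_768__1023_3 : Ent 5 := ⟨[a0, a768], [a1023, a795], (M a192 (F (T t62 (L l1856 (T t35 (L l1856 (T t31 (L l1856 (T t28 (L l1856 (T t86 (K a256 (M a592 (F (L l2864 (T t895 (L l968 (L l3080 (T t896 (L l824 (T t897 N))))))))) (K a512 (M a592 (F (T t898 (L l3080 (T t896 (T t897 N)))))) (K a64 (M a592 (F (T t898 (L l1826 (T t899 (T t900 N)))))) (K a320 (M a336 (F (T t901 (T t902 (T t903 N))))) (K a576 (M a336 (F (T t902 (L l2864 (T t904 (L l1344 (T t903 N))))))) (K a128 (M a592 (F (T t905 (L l2000 (L l2512 (T t906 (L l2512 (T t900 N)))))))) (K a384 (M a336 (F (T t901 (L l2000 (T t907 (L l2512 (T t903 N))))))) (K a640 (M a336 (F (L l1344 (T t901 (L l2512 (T t902 (L l1344 (L l2512 (T t903 N))))))))) (K a960 (M a336 (L l1856 (F (T t901 (T t902 (T t903 (K a981 (M a1002 (F (T t902 (L l1826 (L l1828 (T t908 (T t909 N))))))) (K a1002 (M a981 (F (T t902 (L l1826 (L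 l1828 (T t908 (T t909 N))))))) N)))))))) N))))))))))))))))))))⟩
def b0_768__1023 : Blk 5 := ⟨[0, 768], [1023], [27, 283, 539, 795], [e0_768__1023_0, e0_768__1023_1, e0_768__1023_2, e0_768__1023_3], by decide +kernel, by decide +kernel⟩
def e0_255_192__256_85_0 : Ent 5 := ⟨[a0, a255, a192], [a256, a85, a6], (M a405 (F (T t868 (L l824 (T t373 (L l144 (T t869 N)))))))⟩
def e0_255_192__256_85_1 : Ent 5 := ⟨[a0, a255, a192], [a256, a85, a7], (M a405 (F (T t868 (L l824 (T t373 (L l144 (T t869 N)))))))⟩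
def e0_255_192__256_85_2 : Ent 5 := ⟨[a0, a255, a192], [a256, a85, a11], (M a405 (F (T t868 (L l824 (T t373 (L l144 (T t869 N)))))))⟩
def e0_255_192__256_85_3 : Ent 5 := ⟨[a0, a255, a192], [a256, a85, a27], (M a405 (F (T t868 (L l824 (T t373 (L l144 (T t869 N)))))))⟩
def e0_255_192__256_85_4 : Ent 5 := ⟨[a0, a255, a192], [a256, a85, a70], (M a405 (F (T t868 (L l824 (T t373 (L l144 (T t869 N)))))))⟩
def e0_255_192__256_85_5 : Ent 5 := ⟨[a0, a255, a192], [a256, a85, a71], (M a405 (F (T t868 (L l824 (T t373 (L l144 (T t869 N)))))))⟩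
def e0_255_192__256_85_6 : Ent 5 := ⟨[a0, a255, a192], [a256, a85, a75], (M a405 (F (T t868 (L l824 (T t373 (L l144 (T t869 N)))))))⟩
def e0_255_192__256_85_7 : Ent 5 := ⟨[a0, a255, a192], [a256, a85, a91], (M a405 (F (T t868 (L l824 (T t373 (L l144 (T t869 N)))))))⟩
def e0_255_192__256_85_8 : Ent 5 := ⟨[a0, a255, a192], [a256, a85, a134], (M a405 (F (T t868 (L l824 (T t373 (L l144 (T t869 N)))))))⟩
def e0_255_192__256_85_9 : Ent 5 := ⟨[a0, a255, a192], [a256, a85, a135], (M a405 (F (T t868 (L l824 (T t373 (L l144 (T t869 N)))))))⟩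
def e0_255_192__256_85_10 : Ent 5 := ⟨[a0, a255, a192], [a256, a85, a139], (M a405 (F (T t868 (L l824 (T t373 (L l144 (T t869 N)))))))⟩
def e0_255_192__256_85_11 : Ent 5 := ⟨[a0, a255, a192], [a256, a85, a155], (M a405 (F (T t868 (L l824 (T t373 (L l144 (T t869 N)))))))⟩
def e0_255_192__256_85_12 : Ent 5 := ⟨[a0, a255, a192], [a256, a85, a198], (M a405 (F (T t868 (L l824 (T t373 (L l144 (T t869 N)))))))⟩
def e0_255_192__256_85_13 : Ent 5 := ⟨[a0, a255, a192], [a256, a85, a199], (M a405 (F (T t868 (L l824 (T t373 (L l144 (T t869 N)))))))⟩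
def e0_255_192__256_85_14 : Ent 5 := ⟨[a0, a255, a192], [a256, a85, a203], (M a405 (F (T t868 (L l824 (T t373 (L l144 (T t869 N)))))))⟩
def e0_255_192__256_85_15 : Ent 5 := ⟨[a0, a255, a192], [a256, a85, a219], (M a405 (F (T t868 (L l824 (T t373 (L l144 (T t869 N)))))))⟩
def e0_255_192__256_85_16 : Ent 5 := ⟨[a0, a255, a192], [a256, a85, a262], (M a405 (F (T t868 (L l824 (T t373 (L l144 (T t869 N)))))))⟩
def e0_255_192__256_85_17 : Ent 5 := ⟨[a0, a255, a192], [a256, a85, a263], (M a405 (F (T t868 (L l824 (T t373 (L l144 (T t869 N)))))))⟩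
def e0_255_192__256_85_18 : Ent 5 := ⟨[a0, a255, a192], [a256, a85, a267], (M a405 (F (T t868 (L l824 (T t373 (L l144 (T t869 N)))))))⟩
def e0_255_192__256_85_19 : Ent 5 := ⟨[a0, a255, a192], [a256, a85, a283], (M a405 (F (T t868 (L l824 (T t373 (L l144 (T t869 N)))))))⟩
def e0_255_192__256_85_20 : Ent 5 := ⟨[a0, a255, a192], [a256, a85, a326], (M a405 (F (T t868 (L l824 (T t373 (L l144 (T t869 N)))))))⟩
def e0_255_192__256_85_21 : Ent 5 := ⟨[a0, a255, a192], [a256, a85, a327], (M a405 (F (T t868 (L l824 (T t373 (L l144 (T t869 N)))))))⟩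
def e0_255_192__256_85_22 : Ent 5 := ⟨[a0, a255, a192], [a256, a85, a331], (M a405 (F (T t868 (L l824 (T t373 (L l144 (T t869 N)))))))⟩
def e0_255_192__256_85_23 : Ent 5 := ⟨[a0, a255, a192], [a256, a85, a347], (M a405 (F (T t868 (L l824 (T t373 (L l144 (T t869 N)))))))⟩
def e0_255_192__256_85_24 : Ent 5 := ⟨[a0, a255, a192], [a256, a85, a390], (M a405 (F (T t868 (L l824 (T t373 (L l144 (T t869 N)))))))⟩
def e0_255_192__256_85_25 : Ent 5 := ⟨[a0, a255, a192], [a256, a85, a391], (M a405 (F (T t868 (L l824 (T t373 (L l144 (T t869 N)))))))⟩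
def e0_255_192__256_85_26 : Ent 5 := ⟨[a0, a255, a192], [a256, a85, a395], (M a405 (F (T t868 (L l824 (T t373 (L l144 (T t869 N)))))))⟩
def e0_255_192__256_85_27 : Ent 5 := ⟨[a0, a255, a192], [a256, a85, a411], (M a405 (F (T t868 (L l824 (T t373 (L l144 (T t869 N)))))))⟩
def e0_255_192__256_85_28 : Ent 5 := ⟨[a0, a255, a192], [a256, a85, a454], (M a405 (F (T t868 (L l824 (T t373 (L l144 (T t869 N)))))))⟩
def e0_255_192__256_85_29 : Ent 5 := ⟨[a0, a255, a192], [a256, a85, a455], (M a405 (F (T t868 (L l824 (T t373 (L l144 (T t869 N)))))))⟩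
def e0_255_192__256_85_30 : Ent 5 := ⟨[a0, a255, a192], [a256, a85, a459], (M a405 (F (T t868 (L l824 (T t373 (L l144 (T t869 N)))))))⟩
def e0_255_192__256_85_31 : Ent 5 := ⟨[a0, a255, a192], [a256, a85, a475], (M a405 (F (T t868 (L l824 (T t373 (L l144 (T t869 N)))))))⟩
def e0_255_192__256_85_32 : Ent 5 := ⟨[a0, a255, a192], [a256, a85, a518], (M a405 (F (T t868 (L l824 (T t373 (L l144 (T t869 N)))))))⟩
def e0_255_192__256_85_33 : Ent 5 := ⟨[a0, a255, a192], [a256, a85, a519], (M a405 (F (T t868 (L l824 (T t373 (L l144 (T t869 N)))))))⟩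
def e0_255_192__256_85_34 : Ent 5 := ⟨[a0, a255, a192], [a256, a85, a523], (M a405 (F (T t868 (L l824 (T t373 (L l144 (T t869 N)))))))⟩
def e0_255_192__256_85_35 : Ent 5 := ⟨[a0, a255, a192], [a256, a85, a539], (M a405 (F (T t868 (L l824 (T t373 (L l144 (T t869 N)))))))⟩
def e0_255_192__256_85_36 : Ent 5 := ⟨[a0, a255, a192], [a256, a85, a582], (M a405 (F (T t868 (L l824 (T t373 (L l144 (T t869 N)))))))⟩
def e0_255_192__256_85_37 : Ent 5 := ⟨[a0, a255, a192], [a256, a85, a583], (M a405 (F (T t868 (L l824 (T t373 (L l144 (T t869 N)))))))⟩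
def e0_255_192__256_85_38 : Ent 5 := ⟨[a0, a255, a192], [a256, a85, a587], (M a405 (F (T t868 (L l824 (T t373 (L l144 (T t869 N)))))))⟩
def e0_255_192__256_85_39 : Ent 5 := ⟨[a0, a255, a192], [a256, a85, a603], (M a405 (F (T t868 (L l824 (T t373 (L l144 (T t869 N)))))))⟩
def e0_255_192__256_85_40 : Ent 5 := ⟨[a0, a255, a192], [a256, a85, a646], (M a405 (F (T t868 (L l824 (T t373 (L l144 (T t869 N)))))))⟩
def e0_255_192__256_85_41 : Ent 5 := ⟨[a0, a255, a192], [a256, a85, a647], (M a405 (F (T t868 (L l824 (T t373 (L l144 (T t869 N)))))))⟩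
def e0_255_192__256_85_42 : Ent 5 := ⟨[a0, a255, a192], [a256, a85, a651], (M a405 (F (T t868 (L l824 (T t373 (L l144 (T t869 N)))))))⟩
def e0_255_192__256_85_43 : Ent 5 := ⟨[a0, a255, a192], [a256, a85, a667], (M a405 (F (T t868 (L l824 (T t373 (L l144 (T t869 N)))))))⟩
def e0_255_192__256_85_44 : Ent 5 := ⟨[a0, a255, a192], [a256, a85, a710], (M a405 (F (T t868 (L l824 (T t373 (L l144 (T t869 N)))))))⟩
def e0_255_192__256_85_45 : Ent 5 := ⟨[a0, a255, a192], [a256, a85, a711], (M a405 (F (T t868 (L l824 (T t373 (L l144 (T t869 N)))))))⟩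
def e0_255_192__256_85_46 : Ent 5 := ⟨[a0, a255, a192], [a256, a85, a715], (M a405 (F (T t868 (L l824 (T t373 (L l144 (T t869 N)))))))⟩
def e0_255_192__256_85_47 : Ent 5 := ⟨[a0, a255, a192], [a256, a85, a731], (M a405 (F (T t868 (L l824 (T t373 (L l144 (T t869 N)))))))⟩
def e0_255_192__256_85_48 : Ent 5 := ⟨[a0, a255, a192], [a256, a85, a774], (M a405 (F (T t868 (L l824 (T t373 (L l144 (T t869 N)))))))⟩
def e0_255_192__256_85_49 : Ent 5 := ⟨[a0, a255, a192], [a256, a85, a775], (M a405 (F (T t868 (L l824 (T t373 (L l144 (T t869 N)))))))⟩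
def e0_255_192__256_85_50 : Ent 5 := ⟨[a0, a255, a192], [a256, a85, a779], (M a405 (F (T t868 (L l824 (T t373 (L l144 (T t869 N)))))))⟩
def e0_255_192__256_85_51 : Ent 5 := ⟨[a0, a255, a192], [a256, a85, a795], (M a405 (F (T t868 (L l824 (T t373 (L l144 (T t869 N)))))))⟩
def e0_255_192__256_85_52 : Ent 5 := ⟨[a0, a255, a192], [a256, a85, a838], (M a405 (F (T t868 (L l824 (T t373 (L l144 (T t869 N)))))))⟩
def e0_255_192__256_85_53 : Ent 5 := ⟨[a0, a255, a192], [a256, a85, a839], (M a405 (F (T t868 (L l824 (T t373 (L l144 (T t869 N)))))))⟩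
def e0_255_192__256_85_54 : Ent 5 := ⟨[a0, a255, a192], [a256, a85, a843], (M a405 (F (T t868 (L l824 (T t373 (L l144 (T t869 N)))))))⟩
def e0_255_192__256_85_55 : Ent 5 := ⟨[a0, a255, a192], [a256, a85, a859], (M a405 (F (T t868 (L l824 (T t373 (L l144 (T t869 N)))))))⟩
def e0_255_192__256_85_56 : Ent 5 := ⟨[a0, a255, a192], [a256, a85, a902], (M a405 (F (T t868 (L l824 (T t373 (L l144 (T t869 N)))))))⟩
def e0_255_192__256_85_57 : Ent 5 := ⟨[a0, a255, a192], [a256, a85, a903], (M a405 (F (T t868 (L l824 (T t373 (L l144 (T t869 N)))))))⟩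
def e0_255_192__256_85_58 : Ent 5 := ⟨[a0, a255, a192], [a256, a85, a907], (M a405 (F (T t868 (L l824 (T t373 (L l144 (T t869 N)))))))⟩
def e0_255_192__256_85_59 : Ent 5 := ⟨[a0, a255, a192], [a256, a85, a923], (M a405 (F (T t868 (L l824 (T t373 (L l144 (T t869 N)))))))⟩
def e0_255_192__256_85_60 : Ent 5 := ⟨[a0, a255, a192], [a256, a85, a966], (M a405 (F (T t868 (L l824 (T t373 (L l144 (T t869 N)))))))⟩
def e0_255_192__256_85_61 : Ent 5 := ⟨[a0, a255, a192], [a256, a85, a967], (M a405 (F (T t868 (L l824 (T t373 (L l144 (T t869 N)))))))⟩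
def e0_255_192__256_85_62 : Ent 5 := ⟨[a0, a255, a192], [a256, a85, a971], (M a405 (F (T t868 (L l824 (T t373 (L l144 (T t869 N)))))))⟩
def e0_255_192__256_85_63 : Ent 5 := ⟨[a0, a255, a192], [a256, a85, a987], (M a405 (F (T t868 (L l824 (T t373 (L l144 (T t869 N)))))))⟩
def b0_255_192__256_85 : Blk 5 := ⟨[0, 255, 192], [256, 85], [6, 7, 11, 27, 70, 71, 75, 91, 134, 135, 139, 155, 198, 199, 203, 219, 262, 263, 267, 283, 326, 327, 331, 347, 390, 391, 395, 411, 454, 455, 459, 475, 518, 519, 523, 539, 582, 583, 587, 603, 646, 647, 651, 667, 710, 711, 715, 731, 774, 775, 779, 795, 838, 839, 843, 859, 902, 903, 907, 923, 966, 967, 971, 987], [e0_255_192__256_85_0, e0_255_192__256_85_1, e0_255_192__256_85_2, e0_255_192__256_85_3, e0_255_192__256_85_4, e0_255_192__256_85_5, e0_255_192__256_85_6, e0_255_192__256_85_7, e0_255_192__256_85_8, e0_255_192__256_85_9, e0_255_192__256_85_10, e0_255_192__256_85_11, e0_255_192__256_85_12, e0_255_192__256_85_13,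 e0_255_192__256_85_14, e0_255_192__256_85_15, e0_255_192__256_85_16, e0_255_192__256_85_17, e0_255_192__256_85_18, e0_255_192__256_85_19, e0_255_192__256_85_20, e0_255_192__256_85_21, e0_255_192__256_85_22, e0_255_192__256_85_23, e0_255_192__256_85_24, e0_255_192__256_85_25, e0_255_192__256_85_26, e0_255_192__256_85_27, e0_255_192__256_85_28, e0_255_192__256_85_29, e0_255_192__256_85_30, e0_255_192__256_85_31, e0_255_192__256_85_32, e0_255_192__256_85_33, e0_255_192__256_85_34, e0_255_192__256_85_35, e0_255_192__256_85_36, e0_255_192__256_85_37, e0_255_192__256_85_38, e0_255_192__256_85_39, e0_255_192__256_85_40, e0_255_192__256_85_41, e0_255_192__256_85_42, e0_255_192__256_85_43, e0_255_192__256_85_44, e0_255_192__256_85_45, e0_255_192__256_85_46, e0_255_192__256_85_47, e0_255_192__256_85_48, e0_255_192__256_85_49, e0_255_192__256_85_50, e0_255_192__256_85_51, e0_255_192__256_85_52, e0_255_192__256_85_53, e0_255_192__256_85_54, e0_255_192__256_85_55,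 e0_255_192__256_85_56, e0_255_192__256_85_57, e0_255_192__256_85_58, e0_255_192__256_85_59, e0_255_192__256_85_60, e0_255_192__256_85_61, e0_255_192__256_85_62, e0_255_192__256_85_63], by decide +kernel, by decide +kernel⟩
def e0_255_192__256_170_0 : Ent 5 := ⟨[a0, a255, a192], [a256, a170, a6], (M a405 (F (T t870 (T t368 (L l390 (T t869 N))))))⟩
def e0_255_192__256_170_1 : Ent 5 := ⟨[a0, a255, a192], [a256, a170, a7], (M a405 (F (T t870 (T t368 (L l390 (T t869 N))))))⟩
def e0_255_192__256_170_2 : Ent 5 := ⟨[a0, a255, a192], [a256, a170, a11], (M a405 (F (T t870 (T t368 (L l390 (T t869 N))))))⟩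
def e0_255_192__256_170_3 : Ent 5 := ⟨[a0, a255, a192], [a256, a170, a27], (M a405 (F (T t870 (T t368 (L l390 (T t869 N))))))⟩
def e0_255_192__256_170_4 : Ent 5 := ⟨[a0, a255, a192], [a256, a170, a70], (M a405 (F (T t870 (T t368 (L l390 (T t869 N))))))⟩
def e0_255_192__256_170_5 : Ent 5 := ⟨[a0, a255, a192], [a256, a170, a71], (M a405 (F (T t870 (T t368 (L l390 (T t869 N))))))⟩
def e0_255_192__256_170_6 : Ent 5 := ⟨[a0, a255, a192], [a256, a170, a75], (M a405 (F (T t870 (T t368 (L l390 (T t869 N))))))⟩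
def e0_255_192__256_170_7 : Ent 5 := ⟨[a0, a255, a192], [a256, a170, a91], (M a405 (F (T t870 (T t368 (L l390 (T t869 N))))))⟩
def e0_255_192__256_170_8 : Ent 5 := ⟨[a0, a255, a192], [a256, a170, a134], (M a405 (F (T t870 (T t368 (L l390 (T t869 N))))))⟩
def e0_255_192__256_170_9 : Ent 5 := ⟨[a0, a255, a192], [a256, a170, a135], (M a405 (F (T t870 (T t368 (L l390 (T t869 N))))))⟩
def e0_255_192__256_170_10 : Ent 5 := ⟨[a0, a255, a192], [a256, a170, a139], (M a405 (F (T t870 (T t368 (L l390 (T t869 N))))))⟩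
def e0_255_192__256_170_11 : Ent 5 := ⟨[a0, a255, a192], [a256, a170, a155], (M a405 (F (T t870 (T t368 (L l390 (T t869 N))))))⟩
def e0_255_192__256_170_12 : Ent 5 := ⟨[a0, a255, a192], [a256, a170, a198], (M a405 (F (T t870 (T t368 (L l390 (T t869 N))))))⟩
def e0_255_192__256_170_13 : Ent 5 := ⟨[a0, a255, a192], [a256, a170, a199], (M a405 (F (T t870 (T t368 (L l390 (T t869 N))))))⟩
def e0_255_192__256_170_14 : Ent 5 := ⟨[a0, a255, a192], [a256, a170, a203], (M a405 (F (T t870 (T t368 (L l390 (T t869 N))))))⟩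
def e0_255_192__256_170_15 : Ent 5 := ⟨[a0, a255, a192], [a256, a170, a219], (M a405 (F (T t870 (T t368 (L l390 (T t869 N))))))⟩
def e0_255_192__256_170_16 : Ent 5 := ⟨[a0, a255, a192], [a256, a170, a262], (M a405 (F (T t870 (T t368 (L l390 (T t869 N))))))⟩
def e0_255_192__256_170_17 : Ent 5 := ⟨[a0, a255, a192], [a256, a170, a263], (M a405 (F (T t870 (T t368 (L l390 (T t869 N))))))⟩
def e0_255_192__256_170_18 : Ent 5 := ⟨[a0, a255, a192], [a256, a170, a267], (M a405 (F (T t870 (T t368 (L l390 (T t869 N))))))⟩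
def e0_255_192__256_170_19 : Ent 5 := ⟨[a0, a255, a192], [a256, a170, a283], (M a405 (F (T t870 (T t368 (L l390 (T t869 N))))))⟩
def e0_255_192__256_170_20 : Ent 5 := ⟨[a0, a255, a192], [a256, a170, a326], (M a405 (F (T t870 (T t368 (L l390 (T t869 N))))))⟩
def e0_255_192__256_170_21 : Ent 5 := ⟨[a0, a255, a192], [a256, a170, a327], (M a405 (F (T t870 (T t368 (L l390 (T t869 N))))))⟩
def e0_255_192__256_170_22 : Ent 5 := ⟨[a0, a255, a192], [a256, a170, a331], (M a405 (F (T t870 (T t368 (L l390 (T t869 N))))))⟩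
def e0_255_192__256_170_23 : Ent 5 := ⟨[a0, a255, a192], [a256, a170, a347], (M a405 (F (T t870 (T t368 (L l390 (T t869 N))))))⟩
def e0_255_192__256_170_24 : Ent 5 := ⟨[a0, a255, a192], [a256, a170, a390], (M a405 (F (T t870 (T t368 (L l390 (T t869 N))))))⟩
def e0_255_192__256_170_25 : Ent 5 := ⟨[a0, a255, a192], [a256, a170, a391], (M a405 (F (T t870 (T t368 (L l390 (T t869 N))))))⟩
def e0_255_192__256_170_26 : Ent 5 := ⟨[a0, a255, a192], [a256, a170, a395], (M a405 (F (T t870 (T t368 (L l390 (T t869 N))))))⟩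
def e0_255_192__256_170_27 : Ent 5 := ⟨[a0, a255, a192], [a256, a170, a411], (M a405 (F (T t870 (T t368 (L l390 (T t869 N))))))⟩
def e0_255_192__256_170_28 : Ent 5 := ⟨[a0, a255, a192], [a256, a170, a454], (M a405 (F (T t870 (T t368 (L l390 (T t869 N))))))⟩
def e0_255_192__256_170_29 : Ent 5 := ⟨[a0, a255, a192], [a256, a170, a455], (M a405 (F (T t870 (T t368 (L l390 (T t869 N))))))⟩
def e0_255_192__256_170_30 : Ent 5 := ⟨[a0, a255, a192], [a256, a170, a459], (M a405 (F (T t870 (T t368 (L l390 (T t869 N))))))⟩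
def e0_255_192__256_170_31 : Ent 5 := ⟨[a0, a255, a192], [a256, a170, a475], (M a405 (F (T t870 (T t368 (L l390 (T t869 N))))))⟩
def e0_255_192__256_170_32 : Ent 5 := ⟨[a0, a255, a192], [a256, a170, a518], (M a405 (F (T t870 (T t368 (L l390 (T t869 N))))))⟩
def e0_255_192__256_170_33 : Ent 5 := ⟨[a0, a255, a192], [a256, a170, a519], (M a405 (F (T t870 (T t368 (L l390 (T t869 N))))))⟩
def e0_255_192__256_170_34 : Ent 5 := ⟨[a0, a255, a192], [a256, a170, a523], (M a405 (F (T t870 (T t368 (L l390 (T t869 N))))))⟩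
def e0_255_192__256_170_35 : Ent 5 := ⟨[a0, a255, a192], [a256, a170, a539], (M a405 (F (T t870 (T t368 (L l390 (T t869 N))))))⟩
def e0_255_192__256_170_36 : Ent 5 := ⟨[a0, a255, a192], [a256, a170, a582], (M a405 (F (T t870 (T t368 (L l390 (T t869 N))))))⟩
def e0_255_192__256_170_37 : Ent 5 := ⟨[a0, a255, a192], [a256, a170, a583], (M a405 (F (T t870 (T t368 (L l390 (T t869 N))))))⟩
def e0_255_192__256_170_38 : Ent 5 := ⟨[a0, a255, a192], [a256, a170, a587], (M a405 (F (T t870 (T t368 (L l390 (T t869 N))))))⟩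
def e0_255_192__256_170_39 : Ent 5 := ⟨[a0, a255, a192], [a256, a170, a603], (M a405 (F (T t870 (T t368 (L l390 (T t869 N))))))⟩
def e0_255_192__256_170_40 : Ent 5 := ⟨[a0, a255, a192], [a256, a170, a646], (M a405 (F (T t870 (T t368 (L l390 (T t869 N))))))⟩
def e0_255_192__256_170_41 : Ent 5 := ⟨[a0, a255, a192], [a256, a170, a647], (M a405 (F (T t870 (T t368 (L l390 (T t869 N))))))⟩
def e0_255_192__256_170_42 : Ent 5 := ⟨[a0, a255, a192], [a256, a170, a651], (M a405 (F (T t870 (T t368 (L l390 (T t869 N))))))⟩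
def e0_255_192__256_170_43 : Ent 5 := ⟨[a0, a255, a192], [a256, a170, a667], (M a405 (F (T t870 (T t368 (L l390 (T t869 N))))))⟩
def e0_255_192__256_170_44 : Ent 5 := ⟨[a0, a255, a192], [a256, a170, a710], (M a405 (F (T t870 (T t368 (L l390 (T t869 N))))))⟩
def e0_255_192__256_170_45 : Ent 5 := ⟨[a0, a255, a192], [a256, a170, a711], (M a405 (F (T t870 (T t368 (L l390 (T t869 N))))))⟩
def e0_255_192__256_170_46 : Ent 5 := ⟨[a0, a255, a192], [a256, a170, a715], (M a405 (F (T t870 (T t368 (L l390 (T t869 N))))))⟩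
def e0_255_192__256_170_47 : Ent 5 := ⟨[a0, a255, a192], [a256, a170, a731], (M a405 (F (T t870 (T t368 (L l390 (T t869 N))))))⟩
def e0_255_192__256_170_48 : Ent 5 := ⟨[a0, a255, a192], [a256, a170, a774], (M a405 (F (T t870 (T t368 (L l390 (T t869 N))))))⟩
def e0_255_192__256_170_49 : Ent 5 := ⟨[a0, a255, a192], [a256, a170, a775], (M a405 (F (T t870 (T t368 (L l390 (T t869 N))))))⟩
def e0_255_192__256_170_50 : Ent 5 := ⟨[a0, a255, a192], [a256, a170, a779], (M a405 (F (T t870 (T t368 (L l390 (T t869 N))))))⟩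
def e0_255_192__256_170_51 : Ent 5 := ⟨[a0, a255, a192], [a256, a170, a795], (M a405 (F (T t870 (T t368 (L l390 (T t869 N))))))⟩
def e0_255_192__256_170_52 : Ent 5 := ⟨[a0, a255, a192], [a256, a170, a838], (M a405 (F (T t870 (T t368 (L l390 (T t869 N))))))⟩
def e0_255_192__256_170_53 : Ent 5 := ⟨[a0, a255, a192], [a256, a170, a839], (M a405 (F (T t870 (T t368 (L l390 (T t869 N))))))⟩
def e0_255_192__256_170_54 : Ent 5 := ⟨[a0, a255, a192], [a256, a170, a843], (M a405 (F (T t870 (T t368 (L l390 (T t869 N))))))⟩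
def e0_255_192__256_170_55 : Ent 5 := ⟨[a0, a255, a192], [a256, a170, a859], (M a405 (F (T t870 (T t368 (L l390 (T t869 N))))))⟩
def e0_255_192__256_170_56 : Ent 5 := ⟨[a0, a255, a192], [a256, a170, a902], (M a405 (F (T t870 (T t368 (L l390 (T t869 N))))))⟩
def e0_255_192__256_170_57 : Ent 5 := ⟨[a0, a255, a192], [a256, a170, a903], (M a405 (F (T t870 (T t368 (L l390 (T t869 N))))))⟩
def e0_255_192__256_170_58 : Ent 5 := ⟨[a0, a255, a192], [a256, a170, a907], (M a405 (F (T t870 (T t368 (L l390 (T t869 N))))))⟩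
def e0_255_192__256_170_59 : Ent 5 := ⟨[a0, a255, a192], [a256, a170, a923], (M a405 (F (T t870 (T t368 (L l390 (T t869 N))))))⟩
def e0_255_192__256_170_60 : Ent 5 := ⟨[a0, a255, a192], [a256, a170, a966], (M a405 (F (T t870 (T t368 (L l390 (T t869 N))))))⟩
def e0_255_192__256_170_61 : Ent 5 := ⟨[a0, a255, a192], [a256, a170, a967], (M a405 (F (T t870 (T t368 (L l390 (T t869 N))))))⟩
def e0_255_192__256_170_62 : Ent 5 := ⟨[a0, a255, a192], [a256, a170, a971], (M a405 (F (T t870 (T t368 (L l390 (T t869 N))))))⟩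
def e0_255_192__256_170_63 : Ent 5 := ⟨[a0, a255, a192], [a256, a170, a987], (M a405 (F (T t870 (T t368 (L l390 (T t869 N))))))⟩
def b0_255_192__256_170 : Blk 5 := ⟨[0, 255, 192], [256, 170], [6, 7, 11, 27, 70, 71, 75, 91, 134, 135, 139, 155, 198, 199, 203, 219, 262, 263, 267, 283, 326, 327, 331, 347, 390, 391, 395, 411, 454, 455, 459, 475, 518, 519, 523, 539, 582, 583, 587, 603, 646, 647, 651, 667, 710, 711, 715, 731, 774, 775, 779, 795, 838, 839, 843, 859, 902, 903, 907, 923, 966, 967, 971, 987], [e0_255_192__256_170_0, e0_255_192__256_170_1, e0_255_192__256_170_2, e0_255_192__256_170_3, e0_255_192__256_170_4, e0_255_192__256_170_5, e0_255_192__256_170_6, e0_255_192__256_170_7, e0_255_192__256_170_8, e0_255_192__256_170_9, e0_255_192__256_170_10, e0_255_192__256_170_11, e0_255_192__256_170_12, e0_255_192__256_170_13, e0_255_192__256_170_14, e0_255_192__256_170_15, e0_255_192__256_170_16, e0_255_192__256_170_17, e0_255_192__256_170_18, e0_255_192__256_170_19,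 e0_255_192__256_170_20, e0_255_192__256_170_21, e0_255_192__256_170_22, e0_255_192__256_170_23, e0_255_192__256_170_24, e0_255_192__256_170_25, e0_255_192__256_170_26, e0_255_192__256_170_27, e0_255_192__256_170_28, e0_255_192__256_170_29, e0_255_192__256_170_30, e0_255_192__256_170_31, e0_255_192__256_170_32, e0_255_192__256_170_33, e0_255_192__256_170_34, e0_255_192__256_170_35, e0_255_192__256_170_36, e0_255_192__256_170_37, e0_255_192__256_170_38, e0_255_192__256_170_39, e0_255_192__256_170_40, e0_255_192__256_170_41, e0_255_192__256_170_42, e0_255_192__256_170_43, e0_255_192__256_170_44, e0_255_192__256_170_45, e0_255_192__256_170_46, e0_255_192__256_170_47, e0_255_192__256_170_48, e0_255_192__256_170_49, e0_255_192__256_170_50, e0_255_192__256_170_51, e0_255_192__256_170_52, e0_255_192__256_170_53, e0_255_192__256_170_54, e0_255_192__256_170_55, e0_255_192__256_170_56, e0_255_192__256_170_57, e0_255_192__256_170_58, e0_255_192__256_170_59,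 e0_255_192__256_170_60, e0_255_192__256_170_61, e0_255_192__256_170_62, e0_255_192__256_170_63], by decide +kernel, by decide +kernel⟩
def e0_255_192__768_170_0 : Ent 5 := ⟨[a0, a255, a192], [a768, a170, a6], (M a1023 (F (T t383 (L l390 (L l1864 (T t384 (L l220 (L l1628 (L l2598 (T t371 N))))))))))⟩
def e0_255_192__768_170_1 : Ent 5 := ⟨[a0, a255, a192], [a768, a170, a7], (M a1023 (F (T t383 (L l390 (L l1864 (T t384 (L l220 (L l1628 (L l2598 (T t371 N))))))))))⟩
def e0_255_192__768_170_2 : Ent 5 := ⟨[a0, a255, a192], [a768, a170, a11], (M a1023 (F (T t383 (L l390 (L l1864 (T t384 (L l220 (L l1628 (L l2598 (T t371 N))))))))))⟩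
def e0_255_192__768_170_3 : Ent 5 := ⟨[a0, a255, a192], [a768, a170, a27], (M a1023 (F (T t383 (L l390 (L l1864 (T t384 (L l220 (L l1628 (L l2598 (T t371 N))))))))))⟩
def e0_255_192__768_170_4 : Ent 5 := ⟨[a0, a255, a192], [a768, a170, a70], (M a1023 (F (T t383 (L l390 (L l1864 (T t384 (L l220 (L l1628 (L l2598 (T t371 N))))))))))⟩
def e0_255_192__768_170_5 : Ent 5 := ⟨[a0, a255, a192], [a768, a170, a71], (M a1023 (F (T t383 (L l390 (L l1864 (T t384 (L l220 (L l1628 (L l2598 (T t371 N))))))))))⟩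
def e0_255_192__768_170_6 : Ent 5 := ⟨[a0, a255, a192], [a768, a170, a75], (M a1023 (F (T t383 (L l390 (L l1864 (T t384 (L l220 (L l1628 (L l2598 (T t371 N))))))))))⟩
def e0_255_192__768_170_7 : Ent 5 := ⟨[a0, a255, a192], [a768, a170, a91], (M a1023 (F (T t383 (L l390 (L l1864 (T t384 (L l220 (L l1628 (L l2598 (T t371 N))))))))))⟩
def e0_255_192__768_170_8 : Ent 5 := ⟨[a0, a255, a192], [a768, a170, a134], (M a1023 (F (T t383 (L l390 (L l1864 (T t384 (L l220 (L l1628 (L l2598 (T t371 N))))))))))⟩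
def e0_255_192__768_170_9 : Ent 5 := ⟨[a0, a255, a192], [a768, a170, a135], (M a1023 (F (T t383 (L l390 (L l1864 (T t384 (L l220 (L l1628 (L l2598 (T t371 N))))))))))⟩
def e0_255_192__768_170_10 : Ent 5 := ⟨[a0, a255, a192], [a768, a170, a139], (M a1023 (F (T t383 (L l390 (L l1864 (T t384 (L l220 (L l1628 (L l2598 (T t371 N))))))))))⟩
def e0_255_192__768_170_11 : Ent 5 := ⟨[a0, a255, a192], [a768, a170, a155], (M a1023 (F (T t383 (L l390 (L l1864 (T t384 (L l220 (L l1628 (L l2598 (T t371 N))))))))))⟩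
def e0_255_192__768_170_12 : Ent 5 := ⟨[a0, a255, a192], [a768, a170, a198], (M a1023 (F (T t383 (L l390 (L l1864 (T t384 (L l220 (L l1628 (L l2598 (T t371 N))))))))))⟩
def e0_255_192__768_170_13 : Ent 5 := ⟨[a0, a255, a192], [a768, a170, a199], (M a1023 (F (T t383 (L l390 (L l1864 (T t384 (L l220 (L l1628 (L l2598 (T t371 N))))))))))⟩
def e0_255_192__768_170_14 : Ent 5 := ⟨[a0, a255, a192], [a768, a170, a203], (M a1023 (F (T t383 (L l390 (L l1864 (T t384 (L l220 (L l1628 (L l2598 (T t371 N))))))))))⟩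
def e0_255_192__768_170_15 : Ent 5 := ⟨[a0, a255, a192], [a768, a170, a219], (M a1023 (F (T t383 (L l390 (L l1864 (T t384 (L l220 (L l1628 (L l2598 (T t371 N))))))))))⟩
def e0_255_192__768_170_16 : Ent 5 := ⟨[a0, a255, a192], [a768, a170, a262], (M a1023 (F (T t383 (L l390 (L l1864 (T t384 (L l220 (L l1628 (L l2598 (T t371 N))))))))))⟩
def e0_255_192__768_170_17 : Ent 5 := ⟨[a0, a255, a192], [a768, a170, a263], (M a1023 (F (T t383 (L l390 (L l1864 (T t384 (L l220 (L l1628 (L l2598 (T t371 N))))))))))⟩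
def e0_255_192__768_170_18 : Ent 5 := ⟨[a0, a255, a192], [a768, a170, a267], (M a1023 (F (T t383 (L l390 (L l1864 (T t384 (L l220 (L l1628 (L l2598 (T t371 N))))))))))⟩
def e0_255_192__768_170_19 : Ent 5 := ⟨[a0, a255, a192], [a768, a170, a283], (M a1023 (F (T t383 (L l390 (L l1864 (T t384 (L l220 (L l1628 (L l2598 (T t371 N))))))))))⟩
def e0_255_192__768_170_20 : Ent 5 := ⟨[a0, a255, a192], [a768, a170, a326], (M a1023 (F (T t383 (L l390 (L l1864 (T t384 (L l220 (L l1628 (L l2598 (T t371 N))))))))))⟩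
def e0_255_192__768_170_21 : Ent 5 := ⟨[a0, a255, a192], [a768, a170, a327], (M a1023 (F (T t383 (L l390 (L l1864 (T t384 (L l220 (L l1628 (L l2598 (T t371 N))))))))))⟩
def e0_255_192__768_170_22 : Ent 5 := ⟨[a0, a255, a192], [a768, a170, a331], (M a1023 (F (T t383 (L l390 (L l1864 (T t384 (L l220 (L l1628 (L l2598 (T t371 N))))))))))⟩
def e0_255_192__768_170_23 : Ent 5 := ⟨[a0, a255, a192], [a768, a170, a347], (M a1023 (F (T t383 (L l390 (L l1864 (T t384 (L l220 (L l1628 (L l2598 (T t371 N))))))))))⟩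
def e0_255_192__768_170_24 : Ent 5 := ⟨[a0, a255, a192], [a768, a170, a390], (M a1023 (F (T t383 (L l390 (L l1864 (T t384 (L l220 (L l1628 (L l2598 (T t371 N))))))))))⟩
def e0_255_192__768_170_25 : Ent 5 := ⟨[a0, a255, a192], [a768, a170, a391], (M a1023 (F (T t383 (L l390 (L l1864 (T t384 (L l220 (L l1628 (L l2598 (T t371 N))))))))))⟩
def e0_255_192__768_170_26 : Ent 5 := ⟨[a0, a255, a192], [a768, a170, a395], (M a1023 (F (T t383 (L l390 (L l1864 (T t384 (L l220 (L l1628 (L l2598 (T t371 N))))))))))⟩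
def e0_255_192__768_170_27 : Ent 5 := ⟨[a0, a255, a192], [a768, a170, a411], (M a1023 (F (T t383 (L l390 (L l1864 (T t384 (L l220 (L l1628 (L l2598 (T t371 N))))))))))⟩
def e0_255_192__768_170_28 : Ent 5 := ⟨[a0, a255, a192], [a768, a170, a454], (M a1023 (F (T t383 (L l390 (L l1864 (T t384 (L l220 (L l1628 (L l2598 (T t371 N))))))))))⟩
def e0_255_192__768_170_29 : Ent 5 := ⟨[a0, a255, a192], [a768, a170, a455], (M a1023 (F (T t383 (L l390 (L l1864 (T t384 (L l220 (L l1628 (L l2598 (T t371 N))))))))))⟩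
def e0_255_192__768_170_30 : Ent 5 := ⟨[a0, a255, a192], [a768, a170, a459], (M a1023 (F (T t383 (L l390 (L l1864 (T t384 (L l220 (L l1628 (L l2598 (T t371 N))))))))))⟩
def e0_255_192__768_170_31 : Ent 5 := ⟨[a0, a255, a192], [a768, a170, a475], (M a1023 (F (T t383 (L l390 (L l1864 (T t384 (L l220 (L l1628 (L l2598 (T t371 N))))))))))⟩
def e0_255_192__768_170_32 : Ent 5 := ⟨[a0, a255, a192], [a768, a170, a518], (M a1023 (F (T t383 (L l390 (L l1864 (T t384 (L l220 (L l1628 (L l2598 (T t371 N))))))))))⟩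
def e0_255_192__768_170_33 : Ent 5 := ⟨[a0, a255, a192], [a768, a170, a519], (M a1023 (F (T t383 (L l390 (L l1864 (T t384 (L l220 (L l1628 (L l2598 (T t371 N))))))))))⟩
def e0_255_192__768_170_34 : Ent 5 := ⟨[a0, a255, a192], [a768, a170, a523], (M a1023 (F (T t383 (L l390 (L l1864 (T t384 (L l220 (L l1628 (L l2598 (T t371 N))))))))))⟩
def e0_255_192__768_170_35 : Ent 5 := ⟨[a0, a255, a192], [a768, a170, a539], (M a1023 (F (T t383 (L l390 (L l1864 (T t384 (L l220 (L l1628 (L l2598 (T t371 N))))))))))⟩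
def e0_255_192__768_170_36 : Ent 5 := ⟨[a0, a255, a192], [a768, a170, a582], (M a1023 (F (T t383 (L l390 (L l1864 (T t384 (L l220 (L l1628 (L l2598 (T t371 N))))))))))⟩
def e0_255_192__768_170_37 : Ent 5 := ⟨[a0, a255, a192], [a768, a170, a583], (M a1023 (F (T t383 (L l390 (L l1864 (T t384 (L l220 (L l1628 (L l2598 (T t371 N))))))))))⟩
def e0_255_192__768_170_38 : Ent 5 := ⟨[a0, a255, a192], [a768, a170, a587], (M a1023 (F (T t383 (L l390 (L l1864 (T t384 (L l220 (L l1628 (L l2598 (T t371 N))))))))))⟩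
def e0_255_192__768_170_39 : Ent 5 := ⟨[a0, a255, a192], [a768, a170, a603], (M a1023 (F (T t383 (L l390 (L l1864 (T t384 (L l220 (L l1628 (L l2598 (T t371 N))))))))))⟩
def e0_255_192__768_170_40 : Ent 5 := ⟨[a0, a255, a192], [a768, a170, a646], (M a1023 (F (T t383 (L l390 (L l1864 (T t384 (L l220 (L l1628 (L l2598 (T t371 N))))))))))⟩
def e0_255_192__768_170_41 : Ent 5 := ⟨[a0, a255, a192], [a768, a170, a647], (M a1023 (F (T t383 (L l390 (L l1864 (T t384 (L l220 (L l1628 (L l2598 (T t371 N))))))))))⟩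
def e0_255_192__768_170_42 : Ent 5 := ⟨[a0, a255, a192], [a768, a170, a651], (M a1023 (F (T t383 (L l390 (L l1864 (T t384 (L l220 (L l1628 (L l2598 (T t371 N))))))))))⟩
def e0_255_192__768_170_43 : Ent 5 := ⟨[a0, a255, a192], [a768, a170, a667], (M a1023 (F (T t383 (L l390 (L l1864 (T t384 (L l220 (L l1628 (L l2598 (T t371 N))))))))))⟩
def e0_255_192__768_170_44 : Ent 5 := ⟨[a0, a255, a192], [a768, a170, a710], (M a1023 (F (T t383 (L l390 (L l1864 (T t384 (L l220 (L l1628 (L l2598 (T t371 N))))))))))⟩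
def e0_255_192__768_170_45 : Ent 5 := ⟨[a0, a255, a192], [a768, a170, a711], (M a1023 (F (T t383 (L l390 (L l1864 (T t384 (L l220 (L l1628 (L l2598 (T t371 N))))))))))⟩
def e0_255_192__768_170_46 : Ent 5 := ⟨[a0, a255, a192], [a768, a170, a715], (M a1023 (F (T t383 (L l390 (L l1864 (T t384 (L l220 (L l1628 (L l2598 (T t371 N))))))))))⟩
def e0_255_192__768_170_47 : Ent 5 := ⟨[a0, a255, a192], [a768, a170, a731], (M a1023 (F (T t383 (L l390 (L l1864 (T t384 (L l220 (L l1628 (L l2598 (T t371 N))))))))))⟩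
def e0_255_192__768_170_48 : Ent 5 := ⟨[a0, a255, a192], [a768, a170, a774], (M a1023 (F (T t383 (L l390 (L l1864 (T t384 (L l220 (L l1628 (L l2598 (T t371 N))))))))))⟩
def e0_255_192__768_170_49 : Ent 5 := ⟨[a0, a255, a192], [a768, a170, a775], (M a1023 (F (T t383 (L l390 (L l1864 (T t384 (L l220 (L l1628 (L l2598 (T t371 N))))))))))⟩
def e0_255_192__768_170_50 : Ent 5 := ⟨[a0, a255, a192], [a768, a170, a779], (M a1023 (F (T t383 (L l390 (L l1864 (T t384 (L l220 (L l1628 (L l2598 (T t371 N))))))))))⟩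
def e0_255_192__768_170_51 : Ent 5 := ⟨[a0, a255, a192], [a768, a170, a795], (M a1023 (F (T t383 (L l390 (L l1864 (T t384 (L l220 (L l1628 (L l2598 (T t371 N))))))))))⟩
def e0_255_192__768_170_52 : Ent 5 := ⟨[a0, a255, a192], [a768, a170, a838], (M a1023 (F (T t383 (L l390 (L l1864 (T t384 (L l220 (L l1628 (L l2598 (T t371 N))))))))))⟩
def e0_255_192__768_170_53 : Ent 5 := ⟨[a0, a255, a192], [a768, a170, a839], (M a1023 (F (T t383 (L l390 (L l1864 (T t384 (L l220 (L l1628 (L l2598 (T t371 N))))))))))⟩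
def e0_255_192__768_170_54 : Ent 5 := ⟨[a0, a255, a192], [a768, a170, a843], (M a1023 (F (T t383 (L l390 (L l1864 (T t384 (L l220 (L l1628 (L l2598 (T t371 N))))))))))⟩
def e0_255_192__768_170_55 : Ent 5 := ⟨[a0, a255, a192], [a768, a170, a859], (M a1023 (F (T t383 (L l390 (L l1864 (T t384 (L l220 (L l1628 (L l2598 (T t371 N))))))))))⟩
def e0_255_192__768_170_56 : Ent 5 := ⟨[a0, a255, a192], [a768, a170, a902], (M a1023 (F (T t383 (L l390 (L l1864 (T t384 (L l220 (L l1628 (L l2598 (T t371 N))))))))))⟩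
def e0_255_192__768_170_57 : Ent 5 := ⟨[a0, a255, a192], [a768, a170, a903], (M a1023 (F (T t383 (L l390 (L l1864 (T t384 (L l220 (L l1628 (L l2598 (T t371 N))))))))))⟩
def e0_255_192__768_170_58 : Ent 5 := ⟨[a0, a255, a192], [a768, a170, a907], (M a1023 (F (T t383 (L l390 (L l1864 (T t384 (L l220 (L l1628 (L l2598 (T t371 N))))))))))⟩
def e0_255_192__768_170_59 : Ent 5 := ⟨[a0, a255, a192], [a768, a170, a923], (M a1023 (F (T t383 (L l390 (L l1864 (T t384 (L l220 (L l1628 (L l2598 (T t371 N))))))))))⟩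
def e0_255_192__768_170_60 : Ent 5 := ⟨[a0, a255, a192], [a768, a170, a966], (M a1023 (F (T t383 (L l390 (L l1864 (T t384 (L l220 (L l1628 (L l2598 (T t371 N))))))))))⟩
def e0_255_192__768_170_61 : Ent 5 := ⟨[a0, a255, a192], [a768, a170, a967], (M a1023 (F (T t383 (L l390 (L l1864 (T t384 (L l220 (L l1628 (L l2598 (T t371 N))))))))))⟩
def e0_255_192__768_170_62 : Ent 5 := ⟨[a0, a255, a192], [a768, a170, a971], (M a1023 (F (T t383 (L l390 (L l1864 (T t384 (L l220 (L l1628 (L l2598 (T t371 N))))))))))⟩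
def e0_255_192__768_170_63 : Ent 5 := ⟨[a0, a255, a192], [a768, a170, a987], (M a1023 (F (T t383 (L l390 (L l1864 (T t384 (L l220 (L l1628 (L l2598 (T t371 N))))))))))⟩
def b0_255_192__768_170 : Blk 5 := ⟨[0, 255, 192], [768, 170], [6, 7, 11, 27, 70, 71, 75, 91, 134, 135, 139, 155, 198, 199, 203, 219, 262, 263, 267, 283, 326, 327, 331, 347, 390, 391, 395, 411, 454, 455, 459, 475, 518, 519, 523, 539, 582, 583, 587, 603, 646, 647, 651, 667, 710, 711, 715, 731, 774, 775, 779, 795, 838, 839, 843, 859, 902, 903, 907, 923, 966, 967, 971, 987], [e0_255_192__768_170_0, e0_255_192__768_170_1, e0_255_192__768_170_2, e0_255_192__768_170_3, e0_255_192__768_170_4, e0_255_192__768_170_5, e0_255_192__768_170_6, e0_255_192__768_170_7, e0_255_192__768_170_8, e0_255_192__768_170_9, e0_255_192__768_170_10, e0_255_192__768_170_11, e0_255_192__768_170_12, e0_255_192__768_170_13, e0_255_192__768_170_14, e0_255_192__768_170_15, e0_255_192__768_170_16, e0_255_192__768_170_17,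 e0_255_192__768_170_18, e0_255_192__768_170_19, e0_255_192__768_170_20, e0_255_192__768_170_21, e0_255_192__768_170_22, e0_255_192__768_170_23, e0_255_192__768_170_24, e0_255_192__768_170_25, e0_255_192__768_170_26, e0_255_192__768_170_27, e0_255_192__768_170_28, e0_255_192__768_170_29, e0_255_192__768_170_30, e0_255_192__768_170_31, e0_255_192__768_170_32, e0_255_192__768_170_33, e0_255_192__768_170_34, e0_255_192__768_170_35, e0_255_192__768_170_36, e0_255_192__768_170_37, e0_255_192__768_170_38, e0_255_192__768_170_39, e0_255_192__768_170_40, e0_255_192__768_170_41, e0_255_192__768_170_42, e0_255_192__768_170_43, e0_255_192__768_170_44, e0_255_192__768_170_45, e0_255_192__768_170_46, e0_255_192__768_170_47, e0_255_192__768_170_48, e0_255_192__768_170_49, e0_255_192__768_170_50, e0_255_192__768_170_51, e0_255_192__768_170_52, e0_255_192__768_170_53, e0_255_192__768_170_54, e0_255_192__768_170_55, e0_255_192__768_170_56, e0_255_192__768_170_57,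 e0_255_192__768_170_58, e0_255_192__768_170_59, e0_255_192__768_170_60, e0_255_192__768_170_61, e0_255_192__768_170_62, e0_255_192__768_170_63], by decide +kernel, by decide +kernel⟩
def e0_255_426__261_170_0 : Ent 5 := ⟨[a0, a255, a426], [a261, a170, a17], (M a192 (F (T t375 (L l528 (T t376 (L l220 (L l528 (T t400 N))))))))⟩
def e0_255_426__261_170_1 : Ent 5 := ⟨[a0, a255, a426], [a261, a170, a27], (M a192 (F (T t375 (L l528 (T t376 (L l220 (L l528 (T t400 N))))))))⟩
def e0_255_426__261_170_2 : Ent 5 := ⟨[a0, a255, a426], [a261, a170, a34], (M a192 (L l402 (F (T t375 (L l528 (T t376 (L l220 (L l528 (T t400 (K a102 (M a238 (F (T t752 (L l208 (L l528 (L l2154 (T t758 N))))))) (K a238 (M a102 (F (T t399 (L l220 (L l528 (T t400 (L l528 (T t376 N)))))))) N)))))))))))⟩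
def e0_255_426__261_170_3 : Ent 5 := ⟨[a0, a255, a426], [a261, a170, a39], (M a192 (F (T t375 (L l528 (T t376 (L l220 (L l528 (T t400 N))))))))⟩
def e0_255_426__261_170_4 : Ent 5 := ⟨[a0, a255, a426], [a261, a170, a51], (M a192 (F (T t757 (L l528 (L l3129 (T t376 (L l220 (L l528 (T t400 N)))))))))⟩
def e0_255_426__261_170_5 : Ent 5 := ⟨[a0, a255, a426], [a261, a170, a102], (M a192 (L l402 (F (T t375 (L l528 (T t376 (L l220 (L l528 (T t400 (K a34 (M a238 (F (T t752 (L l208 (L l528 (L l2154 (T t758 N))))))) (K a238 (M a34 (F (T t752 (L l150 (L l220 (T t760 N)))))) N)))))))))))⟩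
def e0_255_426__261_170_6 : Ent 5 := ⟨[a0, a255, a426], [a261, a170, a114], (M a192 (F (T t375 (L l528 (T t376 (L l220 (L l528 (T t400 N))))))))⟩
def e0_255_426__261_170_7 : Ent 5 := ⟨[a0, a255, a426], [a261, a170, a119], (M a192 (F (T t375 (L l528 (L l2487 (T t376 (L l220 (L l528 (T t400 N)))))))))⟩
def e0_255_426__261_170_8 : Ent 5 := ⟨[a0, a255, a426], [a261, a170, a177], (M a192 (F (T t375 (L l528 (T t376 (L l220 (L l528 (T t400 N))))))))⟩
def e0_255_426__261_170_9 : Ent 5 := ⟨[a0, a255, a426], [a261, a170, a187], (M a192 (L l208 (F (T t375 (L l528 (T t376 (L l220 (L l528 (T t400 (K a136 (M a153 (F (T t399 (L l156 (L l220 (L l528 (T t400 (L l528 (T t376 N))))))))) (K a153 (M a136 (F (T t375 (L l226 (L l464 (T t762 N)))))) N)))))))))))⟩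
def e0_255_426__261_170_10 : Ent 5 := ⟨[a0, a255, a426], [a261, a170, a273], (M a192 (F (T t375 (L l528 (L l564 (T t376 (L l220 (L l528 (L l564 (T t400 N))))))))))⟩
def e0_255_426__261_170_11 : Ent 5 := ⟨[a0, a255, a426], [a261, a170, a283], (M a192 (F (T t375 (L l528 (T t376 (L l220 (L l528 (T t400 N))))))))⟩
def e0_255_426__261_170_12 : Ent 5 := ⟨[a0, a255, a426], [a261, a170, a290], (M a192 (F (T t771 (L l220 (L l528 (L l564 (T t400 (L l528 (L l564 (T t376 N))))))))))⟩
def e0_255_426__261_170_13 : Ent 5 := ⟨[a0, a255, a426], [a261, a170, a295], (M a192 (F (T t375 (L l528 (T t376 (L l220 (L l528 (T t400 N))))))))⟩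
def e0_255_426__261_170_14 : Ent 5 := ⟨[a0, a255, a426], [a261, a170, a307], (M a192 (F (T t375 (L l528 (L l564 (T t376 (L l220 (L l528 (L l564 (T t400 N))))))))))⟩
def e0_255_426__261_170_15 : Ent 5 := ⟨[a0, a255, a426], [a261, a170, a358], (M a192 (F (T t375 (L l528 (L l2487 (T t376 (L l220 (L l528 (T t400 N)))))))))⟩
def e0_255_426__261_170_16 : Ent 5 := ⟨[a0, a255, a426], [a261, a170, a370], (M a192 (F (T t375 (L l528 (T t376 (L l220 (L l528 (T t400 N))))))))⟩
def e0_255_426__261_170_17 : Ent 5 := ⟨[a0, a255, a426], [a261, a170, a375], (M a192 (F (T t375 (L l528 (T t376 (L l220 (L l528 (L l2431 (T t400 N)))))))))⟩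
def e0_255_426__261_170_18 : Ent 5 := ⟨[a0, a255, a426], [a261, a170, a433], (M a192 (F (T t375 (L l528 (T t376 (L l220 (L l528 (T t400 N))))))))⟩
def e0_255_426__261_170_19 : Ent 5 := ⟨[a0, a255, a426], [a261, a170, a443], (M a192 (F (T t375 (L l528 (T t376 (L l220 (L l528 (T t400 N))))))))⟩
def e0_255_426__261_170_20 : Ent 5 := ⟨[a0, a255, a426], [a261, a170, a529], (M a192 (F (T t771 (L l220 (L l528 (T t400 (L l528 (L l1405 (T t376 N)))))))))⟩
def e0_255_426__261_170_21 : Ent 5 := ⟨[a0, a255, a426], [a261, a170, a539], (M a192 (F (T t375 (L l528 (T t376 (L l220 (L l528 (T t400 N))))))))⟩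
def e0_255_426__261_170_22 : Ent 5 := ⟨[a0, a255, a426], [a261, a170, a546], (M a192 (F (T t375 (L l528 (T t376 (L l220 (L l528 (T t400 N))))))))⟩
def e0_255_426__261_170_23 : Ent 5 := ⟨[a0, a255, a426], [a261, a170, a551], (M a192 (F (T t375 (L l528 (T t376 (L l220 (L l528 (T t400 N))))))))⟩
def e0_255_426__261_170_24 : Ent 5 := ⟨[a0, a255, a426], [a261, a170, a563], (M a192 (F (T t375 (L l528 (L l1529 (T t376 (L l220 (L l528 (T t400 N)))))))))⟩
def e0_255_426__261_170_25 : Ent 5 := ⟨[a0, a255, a426], [a261, a170, a614], (M a192 (F (T t375 (L l528 (L l1166 (T t376 (L l220 (L l528 (T t400 N)))))))))⟩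
def e0_255_426__261_170_26 : Ent 5 := ⟨[a0, a255, a426], [a261, a170, a626], (M a192 (F (T t375 (L l528 (T t376 (L l220 (L l528 (T t400 N))))))))⟩
def e0_255_426__261_170_27 : Ent 5 := ⟨[a0, a255, a426], [a261, a170, a631], (M a192 (F (T t375 (L l528 (L l1166 (T t376 (L l220 (L l528 (T t400 N)))))))))⟩
def e0_255_426__261_170_28 : Ent 5 := ⟨[a0, a255, a426], [a261, a170, a689], (M a192 (F (T t375 (L l528 (T t376 (L l220 (L l528 (T t400 N))))))))⟩
def e0_255_426__261_170_29 : Ent 5 := ⟨[a0, a255, a426], [a261, a170, a699], (M a192 (F (T t375 (L l528 (T t376 (L l220 (L l528 (T t400 N))))))))⟩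
def e0_255_426__261_170_30 : Ent 5 := ⟨[a0, a255, a426], [a261, a170, a785], (M a192 (F (T t757 (L l528 (L l3227 (T t376 (L l220 (L l528 (T t400 N)))))))))⟩
def e0_255_426__261_170_31 : Ent 5 := ⟨[a0, a255, a426], [a261, a170, a795], (M a192 (F (T t375 (L l528 (T t376 (L l220 (L l528 (T t400 N))))))))⟩
def e0_255_426__261_170_32 : Ent 5 := ⟨[a0, a255, a426], [a261, a170, a802], (M a192 (F (T t399 (L l220 (L l528 (L l1586 (T t400 (L l528 (T t376 N)))))))))⟩
def e0_255_426__261_170_33 : Ent 5 := ⟨[a0, a255, a426], [a261, a170, a807], (M a192 (F (T t375 (L l528 (T t376 (L l220 (L l528 (T t400 N))))))))⟩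
def e0_255_426__261_170_34 : Ent 5 := ⟨[a0, a255, a426], [a261, a170, a819], (M a192 (F (T t757 (L l528 (L l2049 (T t376 (L l220 (L l528 (T t400 N)))))))))⟩
def e0_255_426__261_170_35 : Ent 5 := ⟨[a0, a255, a426], [a261, a170, a870], (M a192 (F (T t375 (L l528 (T t376 (L l220 (L l528 (T t400 N))))))))⟩
def e0_255_426__261_170_36 : Ent 5 := ⟨[a0, a255, a426], [a261, a170, a882], (M a192 (F (T t375 (L l528 (T t376 (L l220 (L l528 (T t400 N))))))))⟩
def e0_255_426__261_170_37 : Ent 5 := ⟨[a0, a255, a426], [a261, a170, a887], (M a192 (F (T t375 (L l528 (T t376 (L l220 (L l528 (L l1673 (T t400 N)))))))))⟩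
def e0_255_426__261_170_38 : Ent 5 := ⟨[a0, a255, a426], [a261, a170, a945], (M a192 (F (T t375 (L l528 (T t376 (L l220 (L l528 (T t400 N))))))))⟩
def e0_255_426__261_170_39 : Ent 5 := ⟨[a0, a255, a426], [a261, a170, a955], (M a192 (F (T t375 (L l528 (T t376 (L l220 (L l528 (T t400 N))))))))⟩
def b0_255_426__261_170 : Blk 5 := ⟨[0, 255, 426], [261, 170], [17, 27, 34, 39, 51, 102, 114, 119, 177, 187, 273, 283, 290, 295, 307, 358, 370, 375, 433, 443, 529, 539, 546, 551, 563, 614, 626, 631, 689, 699, 785, 795, 802, 807, 819, 870, 882, 887, 945, 955], [e0_255_426__261_170_0, e0_255_426__261_170_1, e0_255_426__261_170_2, e0_255_426__261_170_3, e0_255_426__261_170_4, e0_255_426__261_170_5, e0_255_426__261_170_6, e0_255_426__261_170_7, e0_255_426__261_170_8, e0_255_426__261_170_9, e0_255_426__261_170_10, e0_255_426__261_170_11, e0_255_426__261_170_12, e0_255_426__261_170_13, e0_255_426__261_170_14, e0_255_426__261_170_15, e0_255_426__261_170_16, e0_255_426__261_170_17,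 e0_255_426__261_170_18, e0_255_426__261_170_19, e0_255_426__261_170_20, e0_255_426__261_170_21, e0_255_426__261_170_22, e0_255_426__261_170_23, e0_255_426__261_170_24, e0_255_426__261_170_25, e0_255_426__261_170_26, e0_255_426__261_170_27, e0_255_426__261_170_28, e0_255_426__261_170_29, e0_255_426__261_170_30, e0_255_426__261_170_31, e0_255_426__261_170_32, e0_255_426__261_170_33, e0_255_426__261_170_34, e0_255_426__261_170_35, e0_255_426__261_170_36, e0_255_426__261_170_37, e0_255_426__261_170_38, e0_255_426__261_170_39], by decide +kernel, by decide +kernel⟩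
def e0_255_426__266_170_0 : Ent 5 := ⟨[a0, a255, a426], [a266, a170, a17], (M a192 (F (T t771 (L l220 (L l528 (T t400 (L l528 (T t376 N))))))))⟩
def e0_255_426__266_170_1 : Ent 5 := ⟨[a0, a255, a426], [a266, a170, a27], (M a192 (F (T t771 (L l220 (L l528 (T t400 (L l528 (T t376 N))))))))⟩
def e0_255_426__266_170_2 : Ent 5 := ⟨[a0, a255, a426], [a266, a170, a34], (M a192 (L l402 (F (T t757 (L l528 (T t376 (L l220 (L l528 (T t400 (K a102 (M a238 (F (T t752 (L l208 (L l528 (L l2154 (T t758 N))))))) (K a238 (M a102 (F (T t399 (L l220 (L l528 (T t400 (L l528 (T t376 N)))))))) N)))))))))))⟩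
def e0_255_426__266_170_3 : Ent 5 := ⟨[a0, a255, a426], [a266, a170, a39], (M a192 (F (T t771 (L l220 (L l528 (T t400 (L l528 (T t376 N))))))))⟩
def e0_255_426__266_170_4 : Ent 5 := ⟨[a0, a255, a426], [a266, a170, a51], (M a192 (F (T t757 (L l528 (L l3129 (T t376 (L l220 (L l528 (T t400 N)))))))))⟩
def e0_255_426__266_170_5 : Ent 5 := ⟨[a0, a255, a426], [a266, a170, a102], (M a192 (L l402 (F (T t771 (L l220 (L l528 (T t400 (L l528 (T t376 (K a34 (M a238 (F (T t752 (L l208 (L l528 (L l2154 (T t758 N))))))) (K a238 (M a34 (F (T t752 (L l150 (L l220 (T t760 N)))))) N)))))))))))⟩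
def e0_255_426__266_170_6 : Ent 5 := ⟨[a0, a255, a426], [a266, a170, a114], (M a192 (F (T t771 (L l220 (L l528 (T t400 (L l528 (T t376 N))))))))⟩
def e0_255_426__266_170_7 : Ent 5 := ⟨[a0, a255, a426], [a266, a170, a119], (M a192 (F (T t771 (L l220 (L l528 (T t400 (L l528 (L l2487 (T t376 N)))))))))⟩
def e0_255_426__266_170_8 : Ent 5 := ⟨[a0, a255, a426], [a266, a170, a177], (M a192 (F (T t771 (L l220 (L l528 (T t400 (L l528 (T t376 N))))))))⟩
def e0_255_426__266_170_9 : Ent 5 := ⟨[a0, a255, a426], [a266, a170, a187], (M a192 (L l208 (F (T t771 (L l220 (L l528 (T t400 (L l528 (T t376 (K a136 (M a153 (F (T t399 (L l156 (L l220 (L l528 (T t400 (L l528 (T t376 N))))))))) (K a153 (M a136 (F (T t752 (L l226 (L l464 (T t762 N)))))) N)))))))))))⟩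
def e0_255_426__266_170_10 : Ent 5 := ⟨[a0, a255, a426], [a266, a170, a273], (M a192 (F (T t771 (L l220 (L l528 (L l564 (T t400 (L l528 (L l564 (T t376 N))))))))))⟩
def e0_255_426__266_170_11 : Ent 5 := ⟨[a0, a255, a426], [a266, a170, a283], (M a192 (F (T t771 (L l220 (L l528 (T t400 (L l528 (T t376 N))))))))⟩
def e0_255_426__266_170_12 : Ent 5 := ⟨[a0, a255, a426], [a266, a170, a290], (M a192 (F (T t771 (L l220 (L l528 (L l564 (T t400 (L l528 (L l564 (T t376 N))))))))))⟩
def e0_255_426__266_170_13 : Ent 5 := ⟨[a0, a255, a426], [a266, a170, a295], (M a192 (F (T t771 (L l220 (L l528 (T t400 (L l528 (T t376 N))))))))⟩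
def e0_255_426__266_170_14 : Ent 5 := ⟨[a0, a255, a426], [a266, a170, a307], (M a192 (F (T t771 (L l220 (L l528 (L l564 (T t400 (L l528 (L l564 (T t376 N))))))))))⟩
def e0_255_426__266_170_15 : Ent 5 := ⟨[a0, a255, a426], [a266, a170, a358], (M a192 (F (T t771 (L l220 (L l528 (T t400 (L l528 (L l2487 (T t376 N)))))))))⟩
def e0_255_426__266_170_16 : Ent 5 := ⟨[a0, a255, a426], [a266, a170, a370], (M a192 (F (T t771 (L l220 (L l528 (T t400 (L l528 (T t376 N))))))))⟩
def e0_255_426__266_170_17 : Ent 5 := ⟨[a0, a255, a426], [a266, a170, a375], (M a192 (F (T t757 (L l528 (T t376 (L l220 (L l528 (L l2431 (T t400 N)))))))))⟩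
def e0_255_426__266_170_18 : Ent 5 := ⟨[a0, a255, a426], [a266, a170, a433], (M a192 (F (T t771 (L l220 (L l528 (T t400 (L l528 (T t376 N))))))))⟩
def e0_255_426__266_170_19 : Ent 5 := ⟨[a0, a255, a426], [a266, a170, a443], (M a192 (F (T t752 (L l220 (L l528 (T t400 (L l528 (T t376 N))))))))⟩
def e0_255_426__266_170_20 : Ent 5 := ⟨[a0, a255, a426], [a266, a170, a529], (M a192 (F (T t757 (L l528 (L l1405 (T t376 (L l220 (L l528 (T t400 N)))))))))⟩
def e0_255_426__266_170_21 : Ent 5 := ⟨[a0, a255, a426], [a266, a170, a539], (M a192 (F (T t771 (L l220 (L l528 (T t400 (L l528 (T t376 N))))))))⟩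
def e0_255_426__266_170_22 : Ent 5 := ⟨[a0, a255, a426], [a266, a170, a546], (M a192 (F (T t757 (L l528 (T t376 (L l220 (L l528 (T t400 N))))))))⟩
def e0_255_426__266_170_23 : Ent 5 := ⟨[a0, a255, a426], [a266, a170, a551], (M a192 (F (T t771 (L l220 (L l528 (T t400 (L l528 (T t376 N))))))))⟩
def e0_255_426__266_170_24 : Ent 5 := ⟨[a0, a255, a426], [a266, a170, a563], (M a192 (F (T t771 (L l220 (L l528 (T t400 (L l528 (L l1529 (T t376 N)))))))))⟩
def e0_255_426__266_170_25 : Ent 5 := ⟨[a0, a255, a426], [a266, a170, a614], (M a192 (F (T t771 (L l220 (L l528 (T t400 (L l528 (L l1166 (T t376 N)))))))))⟩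
def e0_255_426__266_170_26 : Ent 5 := ⟨[a0, a255, a426], [a266, a170, a626], (M a192 (F (T t771 (L l220 (L l528 (T t400 (L l528 (T t376 N))))))))⟩
def e0_255_426__266_170_27 : Ent 5 := ⟨[a0, a255, a426], [a266, a170, a631], (M a192 (F (T t771 (L l220 (L l528 (T t400 (L l528 (L l1166 (T t376 N)))))))))⟩
def e0_255_426__266_170_28 : Ent 5 := ⟨[a0, a255, a426], [a266, a170, a689], (M a192 (F (T t771 (L l220 (L l528 (T t400 (L l528 (T t376 N))))))))⟩
def e0_255_426__266_170_29 : Ent 5 := ⟨[a0, a255, a426], [a266, a170, a699], (M a192 (F (T t757 (L l528 (T t376 (L l220 (L l528 (T t400 N))))))))⟩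
def e0_255_426__266_170_30 : Ent 5 := ⟨[a0, a255, a426], [a266, a170, a785], (M a192 (F (T t757 (L l528 (L l3227 (T t376 (L l220 (L l528 (T t400 N)))))))))⟩
def e0_255_426__266_170_31 : Ent 5 := ⟨[a0, a255, a426], [a266, a170, a795], (M a192 (F (T t771 (L l220 (L l528 (T t400 (L l528 (T t376 N))))))))⟩
def e0_255_426__266_170_32 : Ent 5 := ⟨[a0, a255, a426], [a266, a170, a802], (M a192 (F (T t399 (L l220 (L l528 (L l1586 (T t400 (L l528 (T t376 N)))))))))⟩
def e0_255_426__266_170_33 : Ent 5 := ⟨[a0, a255, a426], [a266, a170, a807], (M a192 (F (T t771 (L l220 (L l528 (T t400 (L l528 (T t376 N))))))))⟩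
def e0_255_426__266_170_34 : Ent 5 := ⟨[a0, a255, a426], [a266, a170, a819], (M a192 (F (T t757 (L l528 (L l2049 (T t376 (L l220 (L l528 (T t400 N)))))))))⟩
def e0_255_426__266_170_35 : Ent 5 := ⟨[a0, a255, a426], [a266, a170, a870], (M a192 (F (T t771 (L l220 (L l528 (T t400 (L l528 (T t376 N))))))))⟩
def e0_255_426__266_170_36 : Ent 5 := ⟨[a0, a255, a426], [a266, a170, a882], (M a192 (F (T t771 (L l220 (L l528 (T t400 (L l528 (T t376 N))))))))⟩
def e0_255_426__266_170_37 : Ent 5 := ⟨[a0, a255, a426], [a266, a170, a887], (M a192 (F (T t757 (L l528 (T t376 (L l220 (L l528 (L l1673 (T t400 N)))))))))⟩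
def e0_255_426__266_170_38 : Ent 5 := ⟨[a0, a255, a426], [a266, a170, a945], (M a192 (F (T t771 (L l220 (L l528 (T t400 (L l528 (T t376 N))))))))⟩
def e0_255_426__266_170_39 : Ent 5 := ⟨[a0, a255, a426], [a266, a170, a955], (M a192 (F (T t757 (L l528 (T t376 (L l220 (L l528 (T t400 N))))))))⟩
def b0_255_426__266_170 : Blk 5 := ⟨[0, 255, 426], [266, 170], [17, 27, 34, 39, 51, 102, 114, 119, 177, 187, 273, 283, 290, 295, 307, 358, 370, 375, 433, 443, 529, 539, 546, 551, 563, 614, 626, 631, 689, 699, 785, 795, 802, 807, 819, 870, 882, 887, 945, 955], [e0_255_426__266_170_0, e0_255_426__266_170_1, e0_255_426__266_170_2, e0_255_426__266_170_3, e0_255_426__266_170_4, e0_255_426__266_170_5, e0_255_426__266_170_6, e0_255_426__266_170_7, e0_255_426__266_170_8, e0_255_426__266_170_9, e0_255_426__266_170_10, e0_255_426__266_170_11, e0_255_426__266_170_12, e0_255_426__266_170_13, e0_255_426__266_170_14, e0_255_426__266_170_15, e0_255_426__266_170_16, e0_255_426__266_170_17,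 e0_255_426__266_170_18, e0_255_426__266_170_19, e0_255_426__266_170_20, e0_255_426__266_170_21, e0_255_426__266_170_22, e0_255_426__266_170_23, e0_255_426__266_170_24, e0_255_426__266_170_25, e0_255_426__266_170_26, e0_255_426__266_170_27, e0_255_426__266_170_28, e0_255_426__266_170_29, e0_255_426__266_170_30, e0_255_426__266_170_31, e0_255_426__266_170_32, e0_255_426__266_170_33, e0_255_426__266_170_34, e0_255_426__266_170_35, e0_255_426__266_170_36, e0_255_426__266_170_37, e0_255_426__266_170_38, e0_255_426__266_170_39], by decide +kernel, by decide +kernel⟩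
def e0_255_426__271_170_0 : Ent 5 := ⟨[a0, a255, a426], [a271, a170, a17], (M a192 (F (T t375 (L l528 (T t376 (L l220 (L l528 (T t400 N))))))))⟩
def e0_255_426__271_170_1 : Ent 5 := ⟨[a0, a255, a426], [a271, a170, a27], (M a192 (F (T t375 (L l528 (T t376 (L l220 (L l528 (T t400 N))))))))⟩
def e0_255_426__271_170_2 : Ent 5 := ⟨[a0, a255, a426], [a271, a170, a34], (M a192 (L l402 (F (T t375 (L l528 (T t376 (L l220 (L l528 (T t400 (K a102 (M a238 (F (T t752 (L l208 (L l528 (L l2154 (T t758 N))))))) (K a238 (M a102 (F (T t399 (L l220 (L l528 (T t400 (L l528 (T t376 N)))))))) N)))))))))))⟩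
def e0_255_426__271_170_3 : Ent 5 := ⟨[a0, a255, a426], [a271, a170, a39], (M a192 (F (T t375 (L l528 (T t376 (L l220 (L l528 (T t400 N))))))))⟩
def e0_255_426__271_170_4 : Ent 5 := ⟨[a0, a255, a426], [a271, a170, a51], (M a192 (F (T t757 (L l528 (L l3129 (T t376 (L l220 (L l528 (T t400 N)))))))))⟩
def e0_255_426__271_170_5 : Ent 5 := ⟨[a0, a255, a426], [a271, a170, a102], (M a192 (L l402 (F (T t375 (L l528 (T t376 (L l220 (L l528 (T t400 (K a34 (M a238 (F (T t752 (L l208 (L l528 (L l2154 (T t758 N))))))) (K a238 (M a34 (F (T t752 (L l150 (L l220 (T t760 N)))))) N)))))))))))⟩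
def e0_255_426__271_170_6 : Ent 5 := ⟨[a0, a255, a426], [a271, a170, a114], (M a192 (F (T t375 (L l528 (T t376 (L l220 (L l528 (T t400 N))))))))⟩
def e0_255_426__271_170_7 : Ent 5 := ⟨[a0, a255, a426], [a271, a170, a119], (M a192 (F (T t375 (L l528 (L l2487 (T t376 (L l220 (L l528 (T t400 N)))))))))⟩
def e0_255_426__271_170_8 : Ent 5 := ⟨[a0, a255, a426], [a271, a170, a177], (M a192 (F (T t375 (L l528 (T t376 (L l220 (L l528 (T t400 N))))))))⟩
def e0_255_426__271_170_9 : Ent 5 := ⟨[a0, a255, a426], [a271, a170, a187], (M a192 (L l208 (F (T t375 (L l528 (T t376 (L l220 (L l528 (T t400 (K a136 (M a153 (F (T t399 (L l156 (L l220 (L l528 (T t400 (L l528 (T t376 N))))))))) (K a153 (M a136 (F (T t375 (L l226 (L l464 (T t762 N)))))) N)))))))))))⟩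
def e0_255_426__271_170_10 : Ent 5 := ⟨[a0, a255, a426], [a271, a170, a273], (M a192 (F (T t375 (L l528 (L l564 (T t376 (L l220 (L l528 (L l564 (T t400 N))))))))))⟩
def e0_255_426__271_170_11 : Ent 5 := ⟨[a0, a255, a426], [a271, a170, a283], (M a192 (L l593 (F (T t375 (L l528 (T t376 (L l220 (L l528 (T t400 (K a307 (M a295 (F (T t399 (L l220 (L l528 (L l564 (T t400 (L l528 (L l564 (T t376 N)))))))))) (K a295 (M a307 (F (T t399 (T t772 (L l220 (L l528 (T t400 N))))))) N)))))))))))⟩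
def e0_255_426__271_170_12 : Ent 5 := ⟨[a0, a255, a426], [a271, a170, a290], (M a192 (F (T t771 (L l220 (L l528 (L l564 (T t400 (L l528 (L l564 (T t376 N))))))))))⟩
def e0_255_426__271_170_13 : Ent 5 := ⟨[a0, a255, a426], [a271, a170, a295], (M a192 (L l593 (F (T t375 (L l528 (T t376 (L l220 (L l528 (T t400 (K a307 (M a283 (F (T t399 (L l220 (L l528 (L l564 (T t400 (L l528 (L l564 (T t376 N)))))))))) (K a283 (M a307 (F (T t399 (T t772 (L l220 (L l528 (T t400 N))))))) N)))))))))))⟩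
def e0_255_426__271_170_14 : Ent 5 := ⟨[a0, a255, a426], [a271, a170, a307], (M a192 (L l593 (F (T t375 (L l528 (L l564 (T t376 (L l220 (L l528 (L l564 (T t400 (K a295 (M a283 (F (T t399 (L l220 (L l528 (L l564 (T t400 (L l528 (L l564 (T t376 N)))))))))) (K a283 (M a295 (F (T t399 (L l220 (L l528 (L l564 (T t400 (L l528 (L l564 (T t376 N)))))))))) N)))))))))))))⟩
def e0_255_426__271_170_15 : Ent 5 := ⟨[a0, a255, a426], [a271, a170, a358], (M a192 (F (T t375 (L l528 (L l2487 (T t376 (L l220 (L l528 (T t400 N)))))))))⟩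
def e0_255_426__271_170_16 : Ent 5 := ⟨[a0, a255, a426], [a271, a170, a370], (M a192 (F (T t375 (L l528 (T t376 (L l220 (L l528 (T t400 N))))))))⟩
def e0_255_426__271_170_17 : Ent 5 := ⟨[a0, a255, a426], [a271, a170, a375], (M a192 (F (T t375 (L l528 (T t376 (L l220 (L l528 (L l2431 (T t400 N)))))))))⟩
def e0_255_426__271_170_18 : Ent 5 := ⟨[a0, a255, a426], [a271, a170, a433], (M a192 (F (T t375 (L l528 (T t376 (L l220 (L l528 (T t400 N))))))))⟩
def e0_255_426__271_170_19 : Ent 5 := ⟨[a0, a255, a426], [a271, a170, a443], (M a192 (F (T t375 (L l528 (T t376 (L l220 (L l528 (T t400 N))))))))⟩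
def e0_255_426__271_170_20 : Ent 5 := ⟨[a0, a255, a426], [a271, a170, a529], (M a192 (F (T t771 (L l220 (L l528 (T t400 (L l528 (L l1405 (T t376 N)))))))))⟩
def e0_255_426__271_170_21 : Ent 5 := ⟨[a0, a255, a426], [a271, a170, a539], (M a192 (F (T t375 (L l528 (T t376 (L l220 (L l528 (T t400 N))))))))⟩
def e0_255_426__271_170_22 : Ent 5 := ⟨[a0, a255, a426], [a271, a170, a546], (M a192 (F (T t375 (L l528 (T t376 (L l220 (L l528 (T t400 N))))))))⟩
def e0_255_426__271_170_23 : Ent 5 := ⟨[a0, a255, a426], [a271, a170, a551], (M a192 (F (T t375 (L l528 (T t376 (L l220 (L l528 (T t400 N))))))))⟩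
def e0_255_426__271_170_24 : Ent 5 := ⟨[a0, a255, a426], [a271, a170, a563], (M a192 (F (T t375 (L l528 (L l1529 (T t376 (L l220 (L l528 (T t400 N)))))))))⟩
def e0_255_426__271_170_25 : Ent 5 := ⟨[a0, a255, a426], [a271, a170, a614], (M a192 (F (T t375 (L l528 (L l1166 (T t376 (L l220 (L l528 (T t400 N)))))))))⟩
def e0_255_426__271_170_26 : Ent 5 := ⟨[a0, a255, a426], [a271, a170, a626], (M a192 (F (T t375 (L l528 (T t376 (L l220 (L l528 (T t400 N))))))))⟩
def e0_255_426__271_170_27 : Ent 5 := ⟨[a0, a255, a426], [a271, a170, a631], (M a192 (F (T t375 (L l528 (L l1166 (T t376 (L l220 (L l528 (T t400 N)))))))))⟩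
def e0_255_426__271_170_28 : Ent 5 := ⟨[a0, a255, a426], [a271, a170, a689], (M a192 (F (T t375 (L l528 (T t376 (L l220 (L l528 (T t400 N))))))))⟩
def e0_255_426__271_170_29 : Ent 5 := ⟨[a0, a255, a426], [a271, a170, a699], (M a192 (F (T t375 (L l528 (T t376 (L l220 (L l528 (T t400 N))))))))⟩
def e0_255_426__271_170_30 : Ent 5 := ⟨[a0, a255, a426], [a271, a170, a785], (M a192 (F (T t757 (L l528 (L l3227 (T t376 (L l220 (L l528 (T t400 N)))))))))⟩
def e0_255_426__271_170_31 : Ent 5 := ⟨[a0, a255, a426], [a271, a170, a795], (M a192 (F (T t375 (L l528 (T t376 (L l220 (L l528 (T t400 N))))))))⟩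
def e0_255_426__271_170_32 : Ent 5 := ⟨[a0, a255, a426], [a271, a170, a802], (M a192 (F (T t399 (L l220 (L l528 (L l1586 (T t400 (L l528 (T t376 N)))))))))⟩
def e0_255_426__271_170_33 : Ent 5 := ⟨[a0, a255, a426], [a271, a170, a807], (M a192 (F (T t375 (L l528 (T t376 (L l220 (L l528 (T t400 N))))))))⟩
def e0_255_426__271_170_34 : Ent 5 := ⟨[a0, a255, a426], [a271, a170, a819], (M a192 (F (T t757 (L l528 (L l2049 (T t376 (L l220 (L l528 (T t400 N)))))))))⟩
def e0_255_426__271_170_35 : Ent 5 := ⟨[a0, a255, a426], [a271, a170, a870], (M a192 (F (T t375 (L l528 (T t376 (L l220 (L l528 (T t400 N))))))))⟩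
def e0_255_426__271_170_36 : Ent 5 := ⟨[a0, a255, a426], [a271, a170, a882], (M a192 (F (T t375 (L l528 (T t376 (L l220 (L l528 (T t400 N))))))))⟩
def e0_255_426__271_170_37 : Ent 5 := ⟨[a0, a255, a426], [a271, a170, a887], (M a192 (F (T t375 (L l528 (T t376 (L l220 (L l528 (L l1673 (T t400 N)))))))))⟩
def e0_255_426__271_170_38 : Ent 5 := ⟨[a0, a255, a426], [a271, a170, a945], (M a192 (F (T t375 (L l528 (T t376 (L l220 (L l528 (T t400 N))))))))⟩
def e0_255_426__271_170_39 : Ent 5 := ⟨[a0, a255, a426], [a271, a170, a955], (M a192 (F (T t375 (L l528 (T t376 (L l220 (L l528 (T t400 N))))))))⟩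
def b0_255_426__271_170 : Blk 5 := ⟨[0, 255, 426], [271, 170], [17, 27, 34, 39, 51, 102, 114, 119, 177, 187, 273, 283, 290, 295, 307, 358, 370, 375, 433, 443, 529, 539, 546, 551, 563, 614, 626, 631, 689, 699, 785, 795, 802, 807, 819, 870, 882, 887, 945, 955], [e0_255_426__271_170_0, e0_255_426__271_170_1, e0_255_426__271_170_2, e0_255_426__271_170_3, e0_255_426__271_170_4, e0_255_426__271_170_5, e0_255_426__271_170_6, e0_255_426__271_170_7, e0_255_426__271_170_8, e0_255_426__271_170_9, e0_255_426__271_170_10, e0_255_426__271_170_11, e0_255_426__271_170_12, e0_255_426__271_170_13, e0_255_426__271_170_14, e0_255_426__271_170_15, e0_255_426__271_170_16, e0_255_426__271_170_17, e0_255_426__271_170_18, e0_255_426__271_170_19, e0_255_426__271_170_20, e0_255_426__271_170_21, e0_255_426__271_170_22, e0_255_426__271_170_23, e0_255_426__271_170_24, e0_255_426__271_170_25, e0_255_426__271_170_26, e0_255_426__271_170_27, e0_255_426__271_170_28, e0_255_426__271_170_29,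 e0_255_426__271_170_30, e0_255_426__271_170_31, e0_255_426__271_170_32, e0_255_426__271_170_33, e0_255_426__271_170_34, e0_255_426__271_170_35, e0_255_426__271_170_36, e0_255_426__271_170_37, e0_255_426__271_170_38, e0_255_426__271_170_39], by decide +kernel, by decide +kernel⟩
def e0_255_426__283_170_0 : Ent 5 := ⟨[a0, a255, a426], [a283, a170, a5], (M a192 (F (T t375 (T t376 (L l220 (T t400 N))))))⟩
def e0_255_426__283_170_1 : Ent 5 := ⟨[a0, a255, a426], [a283, a170, a10], (M a192 (L l462 (F (T t375 (T t376 (L l220 (T t400 (K a90 (M a250 (F (T t752 (L l180 (L l2094 (T t753 N)))))) (K a250 (M a90 (F (T t399 (L l220 (T t400 (T t376 N)))))) N)))))))))⟩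
def e0_255_426__283_170_2 : Ent 5 := ⟨[a0, a255, a426], [a283, a170, a15], (M a819 (F (T t754 (L l73 (T t755 (T t756 N))))))⟩
def e0_255_426__283_170_3 : Ent 5 := ⟨[a0, a255, a426], [a283, a170, a17], (M a192 (F (T t375 (T t376 (L l220 (T t400 N))))))⟩
def e0_255_426__283_170_4 : Ent 5 := ⟨[a0, a255, a426], [a283, a170, a34], (M a192 (L l402 (F (T t375 (T t376 (L l220 (T t400 (K a102 (M a238 (F (T t757 (L l208 (L l2154 (T t758 N)))))) (K a238 (M a102 (F (T t399 (L l220 (T t400 (T t376 N)))))) N)))))))))⟩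
def e0_255_426__283_170_5 : Ent 5 := ⟨[a0, a255, a426], [a283, a170, a39], (M a192 (F (T t375 (T t376 (L l220 (T t400 N))))))⟩
def e0_255_426__283_170_6 : Ent 5 := ⟨[a0, a255, a426], [a283, a170, a51], (M a192 (F (T t757 (L l3129 (T t376 (L l220 (T t400 N)))))))⟩
def e0_255_426__283_170_7 : Ent 5 := ⟨[a0, a255, a426], [a283, a170, a68], (M a192 (F (T t375 (T t376 (L l220 (T t400 N))))))⟩
def e0_255_426__283_170_8 : Ent 5 := ⟨[a0, a255, a426], [a283, a170, a80], (M a192 (F (T t375 (T t376 (L l220 (T t400 N))))))⟩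
def e0_255_426__283_170_9 : Ent 5 := ⟨[a0, a255, a426], [a283, a170, a85], (M a192 (F (L l347 (T t375 (L l2339 (T t376 (L l220 (L l347 (T t400 N)))))))))⟩
def e0_255_426__283_170_10 : Ent 5 := ⟨[a0, a255, a426], [a283, a170, a90], (M a192 (L l462 (F (T t375 (T t376 (L l220 (T t400 (K a10 (M a250 (F (T t752 (L l180 (L l2094 (T t753 N)))))) (K a250 (M a10 (F (T t752 (L l151 (L l220 (T t759 N)))))) N)))))))))⟩
def e0_255_426__283_170_11 : Ent 5 := ⟨[a0, a255, a426], [a283, a170, a95], (M a192 (F (T t375 (L l2367 (T t376 (L l220 (T t400 N)))))))⟩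
def e0_255_426__283_170_12 : Ent 5 := ⟨[a0, a255, a426], [a283, a170, a102], (M a192 (L l402 (F (T t375 (T t376 (L l220 (T t400 (K a34 (M a238 (F (T t757 (L l208 (L l2154 (T t758 N)))))) (K a238 (M a34 (F (T t752 (L l150 (L l220 (T t760 N)))))) N)))))))))⟩
def e0_255_426__283_170_13 : Ent 5 := ⟨[a0, a255, a426], [a283, a170, a119], (M a192 (F (T t375 (L l2487 (T t376 (L l220 (T t400 N)))))))⟩
def e0_255_426__283_170_14 : Ent 5 := ⟨[a0, a255, a426], [a283, a170, a136], (M a192 (L l208 (F (T t375 (T t376 (L l156 (L l220 (T t400 (K a153 (M a187 (F (T t752 (L l402 (L l2524 (T t761 N)))))) (K a187 (M a153 (F (T t399 (L l156 (L l220 (T t400 (T t376 N))))))) N))))))))))⟩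
def e0_255_426__283_170_15 : Ent 5 := ⟨[a0, a255, a426], [a283, a170, a153], (M a192 (L l208 (F (T t375 (T t376 (L l220 (T t400 (K a136 (M a187 (F (T t752 (L l402 (L l2524 (T t761 N)))))) (K a187 (M a136 (F (T t752 (L l226 (L l464 (T t762 N)))))) N)))))))))⟩
def e0_255_426__283_170_16 : Ent 5 := ⟨[a0, a255, a426], [a283, a170, a160], (M a192 (L l180 (F (T t375 (T t376 (L l192 (L l220 (T t400 (K a165 (M a175 (F (T t752 (L l462 (L l2584 (T t763 N)))))) (K a175 (M a165 (F (T t399 (L l192 (L l220 (T t400 (T t376 N))))))) N))))))))))⟩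
def e0_255_426__283_170_17 : Ent 5 := ⟨[a0, a255, a426], [a283, a170, a165], (M a192 (L l180 (F (T t375 (T t376 (L l220 (T t400 (K a160 (M a175 (F (T t752 (L l462 (L l2584 (T t763 N)))))) (K a175 (M a160 (F (T t752 (L l227 (L l483 (T t764 N)))))) N)))))))))⟩
def e0_255_426__283_170_18 : Ent 5 := ⟨[a0, a255, a426], [a283, a170, a175], (M a192 (L l180 (F (T t375 (T t376 (L l220 (T t400 (K a160 (M a165 (F (T t399 (L l192 (L l220 (T t400 (T t376 N))))))) (K a165 (M a160 (F (T t752 (L l227 (L l483 (T t764 N)))))) N)))))))))⟩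
def e0_255_426__283_170_19 : Ent 5 := ⟨[a0, a255, a426], [a283, a170, a187], (M a192 (L l208 (F (T t375 (T t376 (L l220 (T t400 (K a136 (M a153 (F (T t399 (L l156 (L l220 (T t400 (T t376 N))))))) (K a153 (M a136 (F (T t752 (L l226 (L l464 (T t762 N)))))) N)))))))))⟩
def e0_255_426__283_170_20 : Ent 5 := ⟨[a0, a255, a426], [a283, a170, a204], (M a192 (F (T t757 (L l2758 (T t376 (L l220 (T t400 N)))))))⟩
def e0_255_426__283_170_21 : Ent 5 := ⟨[a0, a255, a426], [a283, a170, a216], (M a192 (F (T t375 (T t376 (L l220 (T t400 N))))))⟩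
def e0_255_426__283_170_22 : Ent 5 := ⟨[a0, a255, a426], [a283, a170, a221], (M a192 (F (L l243 (T t375 (L l3227 (T t376 (L l220 (L l243 (T t400 N)))))))))⟩
def e0_255_426__283_170_23 : Ent 5 := ⟨[a0, a255, a426], [a283, a170, a238], (M a192 (L l402 (F (T t375 (T t376 (L l220 (T t400 (K a34 (M a102 (F (T t399 (L l220 (T t400 (T t376 N)))))) (K a102 (M a34 (F (T t752 (L l150 (L l220 (T t760 N)))))) N)))))))))⟩
def e0_255_426__283_170_24 : Ent 5 := ⟨[a0, a255, a426], [a283, a170, a240], (M a192 (F (T t757 (L l2908 (T t376 (L l220 (T t400 N)))))))⟩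
def e0_255_426__283_170_25 : Ent 5 := ⟨[a0, a255, a426], [a283, a170, a245], (M a192 (F (L l275 (T t375 (L l3347 (T t376 (L l220 (L l275 (T t400 N)))))))))⟩
def e0_255_426__283_170_26 : Ent 5 := ⟨[a0, a255, a426], [a283, a170, a250], (M a192 (L l462 (F (T t375 (T t376 (L l220 (T t400 (K a10 (M a90 (F (T t399 (L l220 (T t400 (T t376 N)))))) (K a90 (M a10 (F (T t752 (L l151 (L l220 (T t759 N)))))) N)))))))))⟩
def e0_255_426__283_170_27 : Ent 5 := ⟨[a0, a255, a426], [a283, a170, a256], (M a192 (F (T t757 (L l220 (T t765 (L l220 (T t766 (L l220 (T t767 (L l220 (L l588 (T t768 (L l390 (T t769 (K a831 (Fr a768 a597 l3375 (Fr a128 a64 l304 (V t770))) N)))))))))))))))⟩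
def e0_255_426__283_170_28 : Ent 5 := ⟨[a0, a255, a426], [a283, a170, a261], (M a192 (F (T t375 (L l528 (T t376 (L l220 (L l528 (T t400 N))))))))⟩
def e0_255_426__283_170_29 : Ent 5 := ⟨[a0, a255, a426], [a283, a170, a266], (M a192 (F (T t771 (L l220 (L l528 (T t400 (L l528 (T t376 N))))))))⟩
def e0_255_426__283_170_30 : Ent 5 := ⟨[a0, a255, a426], [a283, a170, a271], (M a192 (L l593 (F (T t375 (L l528 (T t376 (L l220 (L l528 (T t400 (K a307 (M a295 (F (T t399 (L l220 (L l528 (L l564 (T t400 (L l528 (L l564 (T t376 N)))))))))) (K a295 (M a307 (F (T t399 (T t772 (L l220 (L l528 (T t400 N))))))) N)))))))))))⟩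
def e0_255_426__283_170_31 : Ent 5 := ⟨[a0, a255, a426], [a283, a170, a273], (M a192 (F (T t375 (L l564 (T t376 (L l220 (L l564 (T t400 N))))))))⟩
def e0_255_426__283_170_32 : Ent 5 := ⟨[a0, a255, a426], [a283, a170, a290], (M a192 (F (T t771 (L l220 (L l564 (T t400 (L l564 (T t376 N))))))))⟩
def e0_255_426__283_170_33 : Ent 5 := ⟨[a0, a255, a426], [a283, a170, a295], (M a192 (L l593 (F (T t375 (T t376 (L l220 (T t400 (K a307 (M a271 (F (T t399 (T t773 (L l220 (L l564 (T t400 N))))))) (K a271 (M a307 (F (T t399 (T t772 (L l220 (L l528 (T t400 N))))))) N)))))))))⟩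
def e0_255_426__283_170_34 : Ent 5 := ⟨[a0, a255, a426], [a283, a170, a307], (M a192 (L l593 (F (T t375 (L l564 (T t376 (L l220 (L l564 (T t400 (K a295 (M a271 (F (T t399 (T t773 (L l220 (L l564 (T t400 N))))))) (K a271 (M a295 (F (T t399 (L l220 (L l528 (L l564 (T t400 (L l528 (L l564 (T t376 N)))))))))) N)))))))))))⟩
def e0_255_426__283_170_35 : Ent 5 := ⟨[a0, a255, a426], [a283, a170, a324], (M a192 (F (T t375 (L l848 (T t376 (L l220 (L l848 (T t400 N))))))))⟩
def e0_255_426__283_170_36 : Ent 5 := ⟨[a0, a255, a426], [a283, a170, a336], (M a192 (F (T t375 (L l968 (T t376 (L l220 (L l968 (T t400 N))))))))⟩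
def e0_255_426__283_170_37 : Ent 5 := ⟨[a0, a255, a426], [a283, a170, a341], (M a192 (F (T t375 (L l2339 (T t376 (L l390 (T t774 (L l2468 (T t775 (K a768 (M a960 (F (T t776 (L l1628 (T t777 (L l390 (L l1628 (L l2295 (T t778 (L l2295 (T t779 N))))))))))) N))))))))))⟩
def e0_255_426__283_170_38 : Ent 5 := ⟨[a0, a255, a426], [a283, a170, a346], (M a192 (L l877 (F (T t375 (L l2367 (T t376 (L l220 (T t400 (K a472 (M a409 (F (T t771 (T t780 N)))) (K a409 (M a472 (F (T t771 (L l220 (T t400 (L l2367 (L l3227 (T t376 N)))))))) N))))))))))⟩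
def e0_255_426__283_170_39 : Ent 5 := ⟨[a0, a255, a426], [a283, a170, a351], (M a192 (F (T t375 (T t376 (L l220 (L l2461 (T t400 N)))))))⟩
def e0_255_426__283_170_40 : Ent 5 := ⟨[a0, a255, a426], [a283, a170, a358], (M a192 (F (T t375 (L l2487 (T t376 (L l220 (T t400 N)))))))⟩
def e0_255_426__283_170_41 : Ent 5 := ⟨[a0, a255, a426], [a283, a170, a375], (M a192 (F (T t375 (T t376 (L l220 (L l2431 (T t400 N)))))))⟩
def e0_255_426__283_170_42 : Ent 5 := ⟨[a0, a255, a426], [a283, a170, a392], (M a192 (F (T t771 (L l220 (L l848 (T t400 (L l676 (L l848 (T t376 N)))))))))⟩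
def e0_255_426__283_170_43 : Ent 5 := ⟨[a0, a255, a426], [a283, a170, a409], (M a192 (L l877 (F (T t375 (L l3227 (T t376 (L l220 (T t400 (K a472 (M a346 (F (T t771 (T t781 N)))) (K a346 (M a472 (F (T t771 (L l220 (T t400 (L l2367 (L l3227 (T t376 N)))))))) N))))))))))⟩
def e0_255_426__283_170_44 : Ent 5 := ⟨[a0, a255, a426], [a283, a170, a416], (M a192 (F (T t771 (L l220 (L l968 (T t400 (L l712 (L l968 (T t376 N)))))))))⟩
def e0_255_426__283_170_45 : Ent 5 := ⟨[a0, a255, a426], [a283, a170, a421], (M a192 (F (T t375 (L l3347 (T t376 (L l220 (T t400 N)))))))⟩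
def e0_255_426__283_170_46 : Ent 5 := ⟨[a0, a255, a426], [a283, a170, a431], (M a192 (F (T t375 (T t376 (L l220 (T t400 N))))))⟩
def e0_255_426__283_170_47 : Ent 5 := ⟨[a0, a255, a426], [a283, a170, a443], (M a192 (F (T t375 (T t376 (L l220 (T t400 N))))))⟩
def e0_255_426__283_170_48 : Ent 5 := ⟨[a0, a255, a426], [a283, a170, a460], (M a192 (F (T t375 (L l848 (T t376 (L l220 (L l848 (T t400 N))))))))⟩
def e0_255_426__283_170_49 : Ent 5 := ⟨[a0, a255, a426], [a283, a170, a472], (M a192 (L l877 (F (T t375 (T t376 (L l220 (T t400 (K a409 (M a346 (F (T t771 (T t781 N)))) (K a346 (M a409 (F (T t771 (T t780 N)))) N)))))))))⟩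
def e0_255_426__283_170_50 : Ent 5 := ⟨[a0, a255, a426], [a283, a170, a477], (M a192 (F (T t375 (T t376 (L l220 (T t400 N))))))⟩
def e0_255_426__283_170_51 : Ent 5 := ⟨[a0, a255, a426], [a283, a170, a494], (M a192 (F (T t375 (T t376 (L l220 (T t400 N))))))⟩
def e0_255_426__283_170_52 : Ent 5 := ⟨[a0, a255, a426], [a283, a170, a496], (M a192 (F (T t375 (L l968 (T t376 (L l220 (L l968 (T t400 N))))))))⟩
def e0_255_426__283_170_53 : Ent 5 := ⟨[a0, a255, a426], [a283, a170, a501], (M a192 (F (T t375 (T t376 (L l220 (T t400 N))))))⟩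
def e0_255_426__283_170_54 : Ent 5 := ⟨[a0, a255, a426], [a283, a170, a506], (M a192 (F (T t375 (T t376 (L l220 (T t400 N))))))⟩
def e0_255_426__283_170_55 : Ent 5 := ⟨[a0, a255, a426], [a283, a170, a511], (M a192 (F (T t375 (T t376 (L l220 (T t765 (L l220 (T t782 N))))))))⟩
def e0_255_426__283_170_56 : Ent 5 := ⟨[a0, a255, a426], [a283, a170, a512], (M a192 (F (T t757 (L l220 (T t400 (L l220 (L l1344 (L l1516 (T t783 (L l390 (L l1108 (T t784 N))))))))))))⟩
def e0_255_426__283_170_57 : Ent 5 := ⟨[a0, a255, a426], [a283, a170, a517], (M a192 (F (T t771 (L l220 (T t400 (L l1495 (T t376 N)))))))⟩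
def e0_255_426__283_170_58 : Ent 5 := ⟨[a0, a255, a426], [a283, a170, a522], (M a192 (F (T t375 (T t376 (L l220 (T t400 N))))))⟩
def e0_255_426__283_170_59 : Ent 5 := ⟨[a0, a255, a426], [a283, a170, a527], (M a192 (F (T t375 (L l1379 (T t376 (L l220 (T t400 N)))))))⟩
def e0_255_426__283_170_60 : Ent 5 := ⟨[a0, a255, a426], [a283, a170, a529], (M a192 (F (T t771 (L l220 (T t400 (L l1405 (T t376 N)))))))⟩
def e0_255_426__283_170_61 : Ent 5 := ⟨[a0, a255, a426], [a283, a170, a546], (M a192 (F (T t375 (T t376 (L l220 (T t400 N))))))⟩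
def e0_255_426__283_170_62 : Ent 5 := ⟨[a0, a255, a426], [a283, a170, a551], (M a819 (F (T t785 (T t755 (T t756 N)))))⟩
def e0_255_426__283_170_63 : Ent 5 := ⟨[a0, a255, a426], [a283, a170, a563], (M a192 (F (T t375 (L l1529 (T t376 (L l220 (T t400 N)))))))⟩
def e0_255_426__283_170_64 : Ent 5 := ⟨[a0, a255, a426], [a283, a170, a580], (M a192 (F (T t771 (L l220 (T t400 (L l1166 (T t376 N)))))))⟩
def e0_255_426__283_170_65 : Ent 5 := ⟨[a0, a255, a426], [a283, a170, a592], (M a192 (F (T t771 (L l220 (T t400 (L l1134 (T t376 N)))))))⟩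
def e0_255_426__283_170_66 : Ent 5 := ⟨[a0, a255, a426], [a283, a170, a597], (M a960 (F (L l1387 (T t786 (L l1387 (L l2339 (T t787 (L l220 (L l1387 (L l2511 (T t788 (L l220 (L l1387 (L l1516 (L l2511 (T t789 (K a533 (M a661 (F (T t790 (L l220 (L l1108 (L l1516 (L l2123 (L l2511 (T t791 (L l1108 (L l1516 (T t792 N)))))))))))) (K a661 (M a192 (L l1387 (F (T t793 (L l390 (L l2987 (T t794 (L l220 (L l3203 (T t400 (K a533 (Fr a725 a490 l2943 (V t795)) (K a725 (M a533 (F (T t793 (L l220 (L l2771 (L l3203 (T t400 (L l1260 (L l1336 (L l1559 (L l2771 (L l3203 (T t796 N))))))))))))) N)))))))))))) (K a725 (M a661 (F (T t797 (T t798 (L l220 (L l1516 (L l2511 (T t791 (L l1516 (T t792 N)))))))))) (K a298 (M a192 (F (T t799 (L l1387 (L l3203 (T t800 (L l220 (L l588 (L l2166 (L l3203 (T t400 N))))))))))) (K a362 (M a192 (L l2511 (F (T t801 (L l1387 (L l3030 (L l3203 (T t800 (L l220 (L l3203 (T t400 (K a832 (M a127 (F (L l220 (L l2339 (T t802 (L l1039 (L l1516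 (T t803 N)))))))) (K a127 (M a832 (F (T t804 (L l1039 (L l1516 (T t803 N)))))) N))))))))))))) (K a490 (M a192 (F (T t801 (L l816 (L l3203 (T t777 (L l220 (L l3203 (T t400 N))))))))) N))))))))))))))))))))))⟩
def e0_255_426__283_170_67 : Ent 5 := ⟨[a0, a255, a426], [a283, a170, a602], (M a192 (F (T t375 (L l1134 (T t376 (L l220 (T t400 N)))))))⟩
def e0_255_426__283_170_68 : Ent 5 := ⟨[a0, a255, a426], [a283, a170, a607], (M a192 (F (T t375 (L l1134 (T t376 (L l220 (T t400 N)))))))⟩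
def e0_255_426__283_170_69 : Ent 5 := ⟨[a0, a255, a426], [a283, a170, a614], (M a192 (F (T t375 (L l1166 (T t376 (L l220 (T t400 N)))))))⟩
def e0_255_426__283_170_70 : Ent 5 := ⟨[a0, a255, a426], [a283, a170, a631], (M a192 (F (T t375 (L l1166 (T t376 (L l220 (T t400 N)))))))⟩
def e0_255_426__283_170_71 : Ent 5 := ⟨[a0, a255, a426], [a283, a170, a648], (M a192 (F (T t375 (T t376 (L l220 (L l2536 (T t400 N)))))))⟩
def e0_255_426__283_170_72 : Ent 5 := ⟨[a0, a255, a426], [a283, a170, a665], (M a192 (F (T t375 (L l1405 (T t376 (L l220 (T t400 N)))))))⟩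
def e0_255_426__283_170_73 : Ent 5 := ⟨[a0, a255, a426], [a283, a170, a672], (M a192 (F (T t375 (T t376 (L l220 (L l2656 (T t400 N)))))))⟩
def e0_255_426__283_170_74 : Ent 5 := ⟨[a0, a255, a426], [a283, a170, a677], (M a192 (F (T t375 (L l1495 (T t376 (L l220 (T t400 N)))))))⟩
def e0_255_426__283_170_75 : Ent 5 := ⟨[a0, a255, a426], [a283, a170, a682], (M a192 (F (T t375 (L l1516 (T t376 (L l220 (L l1430 (L l1516 (L l2684 (T t377 (L l220 (L l1430 (L l2684 (T t378 N))))))))))))))⟩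
def e0_255_426__283_170_76 : Ent 5 := ⟨[a0, a255, a426], [a283, a170, a687], (M a192 (F (T t375 (T t376 (L l220 (T t400 N))))))⟩
def e0_255_426__283_170_77 : Ent 5 := ⟨[a0, a255, a426], [a283, a170, a699], (M a192 (F (T t375 (T t376 (L l220 (T t400 N))))))⟩
def e0_255_426__283_170_78 : Ent 5 := ⟨[a0, a255, a426], [a283, a170, a716], (M a192 (F (T t375 (L l1272 (T t376 (L l220 (T t400 N)))))))⟩
def e0_255_426__283_170_79 : Ent 5 := ⟨[a0, a255, a426], [a283, a170, a728], (M a192 (F (T t375 (T t376 (L l220 (T t400 N))))))⟩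
def e0_255_426__283_170_80 : Ent 5 := ⟨[a0, a255, a426], [a283, a170, a733], (M a192 (F (T t375 (L l1405 (T t376 (L l220 (T t400 N)))))))⟩
def e0_255_426__283_170_81 : Ent 5 := ⟨[a0, a255, a426], [a283, a170, a750], (M a192 (F (T t375 (T t376 (L l220 (T t400 N))))))⟩
def e0_255_426__283_170_82 : Ent 5 := ⟨[a0, a255, a426], [a283, a170, a752], (M a192 (F (T t375 (L l1308 (T t376 (L l220 (T t400 N)))))))⟩
def e0_255_426__283_170_83 : Ent 5 := ⟨[a0, a255, a426], [a283, a170, a757], (M a192 (F (T t375 (L l1495 (T t376 (L l220 (T t400 N)))))))⟩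
def e0_255_426__283_170_84 : Ent 5 := ⟨[a0, a255, a426], [a283, a170, a762], (M a192 (F (T t375 (T t376 (L l220 (T t400 N))))))⟩
def e0_255_426__283_170_85 : Ent 5 := ⟨[a0, a255, a426], [a283, a170, a767], (M a192 (F (T t375 (L l1336 (L l1516 (T t376 (L l220 (T t805 (L l220 (T t806 N))))))))))⟩
def e0_255_426__283_170_86 : Ent 5 := ⟨[a0, a255, a426], [a283, a170, a768], (M a960 (F (L l2295 (T t786 (L l1628 (L l2295 (T t807 (L l2036 (L l2295 (T t808 (L l220 (L l2295 (T t809 (L l2295 (T t810 (K a533 (M a362 (L l2295 (F (T t811 (T t812 (K a298 (Fr a63 a661 l3159 (V t813)) (K a63 (Fr a298 a490 l910 (V t814)) N))))))) (K a341 (M a48 (F (L l2008 (T t815 (L l643 (L l1892 (L l2295 (T t816 N)))))))) (K a725 (M a48 (F (T t817 (L l404 (L l1892 (T t818 (L l1892 (T t819 N)))))))) (K a298 (M a661 (L l2295 (F (T t797 (L l2036 (T t820 (L l390 (L l588 (L l2166 (T t821 (K a533 (Fr a63 a362 l3159 (V t822)) (K a63 (M a533 (F (T t823 (L l220 (L l1628 (L l2166 (L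 l3160 (T t824 N)))))))) N)))))))))))) (K a362 (M a1008 (F (L l2260 (T t825 (L l1018 (L l3195 (T t826 (L l2115 (T t827 N))))))))) (K a490 (M a48 (F (T t828 (L l404 (L l1892 (T t818 (L l1892 (T t819 N)))))))) (K a63 (M a992 (L l2295 (F (T t829 (L l180 (T t830 (K a533 (M a298 (F (T t831 (L l38 (L l404 (L l2260 (T t832 N))))))) (K a298 (M a533 (F (T t833 (T t829 (L l220 (L l1628 (L l2166 (L l3160 (T t834 N))))))))) N)))))))) N))))))))))))))))))))))⟩
def e0_255_426__283_170_87 : Ent 5 := ⟨[a0, a255, a426], [a283, a170, a773], (M a192 (F (T t757 (L l3347 (T t376 (L l220 (T t400 N)))))))⟩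
def e0_255_426__283_170_88 : Ent 5 := ⟨[a0, a255, a426], [a283, a170, a778], (M a192 (F (T t399 (L l220 (L l1614 (T t400 (T t376 N)))))))⟩
def e0_255_426__283_170_89 : Ent 5 := ⟨[a0, a255, a426], [a283, a170, a783], (M a192 (F (T t757 (L l1899 (T t376 (L l220 (T t400 N)))))))⟩
def e0_255_426__283_170_90 : Ent 5 := ⟨[a0, a255, a426], [a283, a170, a785], (M a192 (F (T t757 (L l3227 (T t376 (L l220 (T t400 N)))))))⟩
def e0_255_426__283_170_91 : Ent 5 := ⟨[a0, a255, a426], [a283, a170, a802], (M a192 (F (T t399 (L l220 (L l1586 (T t400 (T t376 N)))))))⟩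
def e0_255_426__283_170_92 : Ent 5 := ⟨[a0, a255, a426], [a283, a170, a807], (M a192 (F (T t375 (T t376 (L l220 (T t400 N))))))⟩
def e0_255_426__283_170_93 : Ent 5 := ⟨[a0, a255, a426], [a283, a170, a819], (M a15 (F (T t835 (L l462 (T t836 (L l1633 (T t837 N)))))))⟩
def e0_255_426__283_170_94 : Ent 5 := ⟨[a0, a255, a426], [a283, a170, a836], (M a192 (F (T t771 (L l220 (T t400 (L l2487 (T t376 N)))))))⟩
def e0_255_426__283_170_95 : Ent 5 := ⟨[a0, a255, a426], [a283, a170, a848], (M a192 (F (T t771 (L l220 (T t400 (L l2367 (T t376 N)))))))⟩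
def e0_255_426__283_170_96 : Ent 5 := ⟨[a0, a255, a426], [a283, a170, a853], (M a192 (F (T t771 (L l220 (L l1704 (T t400 (L l2339 (T t376 N))))))))⟩
def e0_255_426__283_170_97 : Ent 5 := ⟨[a0, a255, a426], [a283, a170, a858], (M a192 (F (T t375 (T t376 (L l220 (T t400 N))))))⟩
def e0_255_426__283_170_98 : Ent 5 := ⟨[a0, a255, a426], [a283, a170, a863], (M a192 (F (T t375 (T t376 (L l220 (L l1697 (T t400 N)))))))⟩
def e0_255_426__283_170_99 : Ent 5 := ⟨[a0, a255, a426], [a283, a170, a870], (M a192 (F (T t375 (T t376 (L l220 (T t400 N))))))⟩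
def e0_255_426__283_170_100 : Ent 5 := ⟨[a0, a255, a426], [a283, a170, a887], (M a192 (F (T t375 (T t376 (L l220 (L l1673 (T t400 N)))))))⟩
def e0_255_426__283_170_101 : Ent 5 := ⟨[a0, a255, a426], [a283, a170, a904], (M a192 (F (T t771 (L l220 (T t400 (T t376 N))))))⟩
def e0_255_426__283_170_102 : Ent 5 := ⟨[a0, a255, a426], [a283, a170, a921], (M a192 (F (T t375 (T t376 (L l220 (T t400 N))))))⟩
def e0_255_426__283_170_103 : Ent 5 := ⟨[a0, a255, a426], [a283, a170, a928], (M a192 (F (T t771 (L l220 (T t400 (T t376 N))))))⟩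
def e0_255_426__283_170_104 : Ent 5 := ⟨[a0, a255, a426], [a283, a170, a933], (M a192 (F (T t375 (T t376 (L l220 (T t400 N))))))⟩
def e0_255_426__283_170_105 : Ent 5 := ⟨[a0, a255, a426], [a283, a170, a938], (M a192 (F (T t399 (L l220 (L l1950 (T t400 (T t376 N)))))))⟩
def e0_255_426__283_170_106 : Ent 5 := ⟨[a0, a255, a426], [a283, a170, a943], (M a192 (F (T t375 (T t376 (L l220 (T t400 N))))))⟩
def e0_255_426__283_170_107 : Ent 5 := ⟨[a0, a255, a426], [a283, a170, a955], (M a192 (F (T t375 (T t376 (L l220 (T t400 N))))))⟩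
def e0_255_426__283_170_108 : Ent 5 := ⟨[a0, a255, a426], [a283, a170, a972], (M a192 (F (T t757 (L l1792 (T t376 (L l220 (T t400 N)))))))⟩
def e0_255_426__283_170_109 : Ent 5 := ⟨[a0, a255, a426], [a283, a170, a984], (M a192 (F (T t375 (T t376 (L l220 (T t400 N))))))⟩
def e0_255_426__283_170_110 : Ent 5 := ⟨[a0, a255, a426], [a283, a170, a989], (M a192 (F (T t375 (T t376 (L l220 (T t400 N))))))⟩
def e0_255_426__283_170_111 : Ent 5 := ⟨[a0, a255, a426], [a283, a170, a1006], (M a192 (F (T t375 (T t376 (L l220 (T t400 N))))))⟩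
def e0_255_426__283_170_112 : Ent 5 := ⟨[a0, a255, a426], [a283, a170, a1008], (M a192 (F (T t757 (L l1828 (T t376 (L l220 (T t400 N)))))))⟩
def e0_255_426__283_170_113 : Ent 5 := ⟨[a0, a255, a426], [a283, a170, a1013], (M a192 (F (T t375 (T t376 (L l220 (T t400 N))))))⟩
def e0_255_426__283_170_114 : Ent 5 := ⟨[a0, a255, a426], [a283, a170, a1018], (M a192 (F (T t375 (T t376 (L l220 (T t400 N))))))⟩
def e0_255_426__283_170_115 : Ent 5 := ⟨[a0, a255, a426], [a283, a170, a1023], (M a192 (F (T t757 (L l1856 (T t376 (L l220 (L l3073 (T t838 (L l220 (L l1993 (T t839 N)))))))))))⟩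
def b0_255_426__283_170 : Blk 5 := ⟨[0, 255, 426], [283, 170], [5, 10, 15, 17, 34, 39, 51, 68, 80, 85, 90, 95, 102, 119, 136, 153, 160, 165, 175, 187, 204, 216, 221, 238, 240, 245, 250, 256, 261, 266, 271, 273, 290, 295, 307, 324, 336, 341, 346, 351, 358, 375, 392, 409, 416, 421, 431, 443, 460, 472, 477, 494, 496, 501, 506, 511, 512, 517, 522, 527, 529, 546, 551, 563, 580, 592, 597, 602, 607, 614, 631, 648, 665, 672, 677, 682, 687, 699, 716, 728, 733, 750, 752, 757, 762, 767, 768, 773, 778, 783, 785, 802, 807, 819, 836, 848, 853, 858, 863, 870, 887, 904, 921, 928, 933, 938, 943, 955, 972, 984, 989, 1006, 1008, 1013, 1018, 1023], [e0_255_426__283_170_0, e0_255_426__283_170_1, e0_255_426__283_170_2, e0_255_426__283_170_3, e0_255_426__283_170_4, e0_255_426__283_170_5, e0_255_426__283_170_6, e0_255_426__283_170_7, e0_255_426__283_170_8, e0_255_426__283_170_9, e0_255_426__283_170_10, e0_255_426__283_170_11, e0_255_426__283_170_12, e0_255_426__283_170_13,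 e0_255_426__283_170_14, e0_255_426__283_170_15, e0_255_426__283_170_16, e0_255_426__283_170_17, e0_255_426__283_170_18, e0_255_426__283_170_19, e0_255_426__283_170_20, e0_255_426__283_170_21, e0_255_426__283_170_22, e0_255_426__283_170_23, e0_255_426__283_170_24, e0_255_426__283_170_25, e0_255_426__283_170_26, e0_255_426__283_170_27, e0_255_426__283_170_28, e0_255_426__283_170_29, e0_255_426__283_170_30, e0_255_426__283_170_31, e0_255_426__283_170_32, e0_255_426__283_170_33, e0_255_426__283_170_34, e0_255_426__283_170_35, e0_255_426__283_170_36, e0_255_426__283_170_37, e0_255_426__283_170_38, e0_255_426__283_170_39, e0_255_426__283_170_40, e0_255_426__283_170_41, e0_255_426__283_170_42, e0_255_426__283_170_43, e0_255_426__283_170_44, e0_255_426__283_170_45, e0_255_426__283_170_46, e0_255_426__283_170_47, e0_255_426__283_170_48, e0_255_426__283_170_49, e0_255_426__283_170_50, e0_255_426__283_170_51, e0_255_426__283_170_52, e0_255_426__283_170_53,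 e0_255_426__283_170_54, e0_255_426__283_170_55, e0_255_426__283_170_56, e0_255_426__283_170_57, e0_255_426__283_170_58, e0_255_426__283_170_59, e0_255_426__283_170_60, e0_255_426__283_170_61, e0_255_426__283_170_62, e0_255_426__283_170_63, e0_255_426__283_170_64, e0_255_426__283_170_65, e0_255_426__283_170_66, e0_255_426__283_170_67, e0_255_426__283_170_68, e0_255_426__283_170_69, e0_255_426__283_170_70, e0_255_426__283_170_71, e0_255_426__283_170_72, e0_255_426__283_170_73, e0_255_426__283_170_74, e0_255_426__283_170_75, e0_255_426__283_170_76, e0_255_426__283_170_77, e0_255_426__283_170_78, e0_255_426__283_170_79, e0_255_426__283_170_80, e0_255_426__283_170_81, e0_255_426__283_170_82, e0_255_426__283_170_83, e0_255_426__283_170_84, e0_255_426__283_170_85, e0_255_426__283_170_86, e0_255_426__283_170_87, e0_255_426__283_170_88, e0_255_426__283_170_89, e0_255_426__283_170_90, e0_255_426__283_170_91, e0_255_426__283_170_92, e0_255_426__283_170_93,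 e0_255_426__283_170_94, e0_255_426__283_170_95, e0_255_426__283_170_96, e0_255_426__283_170_97, e0_255_426__283_170_98, e0_255_426__283_170_99, e0_255_426__283_170_100, e0_255_426__283_170_101, e0_255_426__283_170_102, e0_255_426__283_170_103, e0_255_426__283_170_104, e0_255_426__283_170_105, e0_255_426__283_170_106, e0_255_426__283_170_107, e0_255_426__283_170_108, e0_255_426__283_170_109, e0_255_426__283_170_110, e0_255_426__283_170_111, e0_255_426__283_170_112, e0_255_426__283_170_113, e0_255_426__283_170_114, e0_255_426__283_170_115], by decide +kernel, by decide +kernel⟩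
def e0_255_426__346_170_0 : Ent 5 := ⟨[a0, a255, a426], [a346, a170, a17], (M a192 (F (T t375 (L l2367 (T t376 (L l220 (T t400 N)))))))⟩
def e0_255_426__346_170_1 : Ent 5 := ⟨[a0, a255, a426], [a346, a170, a27], (M a192 (L l2997 (F (T t375 (L l2367 (T t376 (L l220 (T t400 (K a984 (M a665 (F (T t375 (L l402 (T t840 N))))) (K a665 (M a984 (F (T t771 (L l220 (T t400 (L l1405 (L l2367 (T t376 N)))))))) N))))))))))⟩
def e0_255_426__346_170_2 : Ent 5 := ⟨[a0, a255, a426], [a346, a170, a34], (M a192 (L l402 (F (T t375 (L l2367 (T t376 (L l220 (T t400 (K a102 (M a238 (F (T t771 (L l208 (L l2154 (T t758 N)))))) (K a238 (M a102 (F (T t771 (L l220 (T t400 (L l2367 (T t376 N))))))) N))))))))))⟩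
def e0_255_426__346_170_3 : Ent 5 := ⟨[a0, a255, a426], [a346, a170, a39], (M a192 (F (T t375 (L l2367 (T t376 (L l220 (T t400 N)))))))⟩
def e0_255_426__346_170_4 : Ent 5 := ⟨[a0, a255, a426], [a346, a170, a51], (M a192 (F (L l2265 (T t375 (L l2367 (L l3129 (T t376 (L l220 (T t400 N)))))))))⟩
def e0_255_426__346_170_5 : Ent 5 := ⟨[a0, a255, a426], [a346, a170, a102], (M a192 (L l402 (F (T t375 (L l2367 (T t376 (L l220 (T t400 (K a34 (M a238 (F (T t771 (L l208 (L l2154 (T t758 N)))))) (K a238 (M a34 (F (T t771 (L l150 (L l220 (T t760 N)))))) N))))))))))⟩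
def e0_255_426__346_170_6 : Ent 5 := ⟨[a0, a255, a426], [a346, a170, a114], (M a192 (F (T t375 (L l2367 (T t376 (L l220 (T t400 N)))))))⟩
def e0_255_426__346_170_7 : Ent 5 := ⟨[a0, a255, a426], [a346, a170, a119], (M a192 (F (T t375 (L l2367 (L l2487 (T t376 (L l220 (T t400 N))))))))⟩
def e0_255_426__346_170_8 : Ent 5 := ⟨[a0, a255, a426], [a346, a170, a177], (M a192 (F (T t375 (L l2367 (T t376 (L l220 (T t400 N)))))))⟩
def e0_255_426__346_170_9 : Ent 5 := ⟨[a0, a255, a426], [a346, a170, a187], (M a192 (L l208 (F (T t375 (L l2367 (T t376 (L l220 (T t400 (K a136 (M a153 (F (T t771 (L l156 (L l220 (T t400 (L l2367 (T t376 N)))))))) (K a153 (M a136 (F (T t375 (L l226 (L l464 (T t762 N)))))) N))))))))))⟩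
def e0_255_426__346_170_10 : Ent 5 := ⟨[a0, a255, a426], [a346, a170, a273], (M a192 (F (T t375 (L l564 (L l2367 (T t376 (L l220 (L l564 (T t400 N)))))))))⟩
def e0_255_426__346_170_11 : Ent 5 := ⟨[a0, a255, a426], [a346, a170, a283], (M a192 (L l877 (F (T t375 (L l2367 (T t376 (L l220 (T t400 (K a472 (M a409 (F (T t771 (T t780 N)))) (K a409 (M a472 (F (T t771 (L l220 (T t400 (L l2367 (L l3227 (T t376 N)))))))) N))))))))))⟩
def e0_255_426__346_170_12 : Ent 5 := ⟨[a0, a255, a426], [a346, a170, a290], (M a192 (F (T t771 (L l220 (L l564 (T t400 (L l564 (L l2367 (T t376 N)))))))))⟩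
def e0_255_426__346_170_13 : Ent 5 := ⟨[a0, a255, a426], [a346, a170, a295], (M a192 (F (T t375 (L l2367 (T t376 (L l220 (T t400 N)))))))⟩
def e0_255_426__346_170_14 : Ent 5 := ⟨[a0, a255, a426], [a346, a170, a307], (M a192 (F (T t375 (L l564 (L l2367 (T t376 (L l220 (L l564 (T t400 N)))))))))⟩
def e0_255_426__346_170_15 : Ent 5 := ⟨[a0, a255, a426], [a346, a170, a358], (M a192 (L l668 (F (T t375 (L l2367 (L l2487 (T t376 (L l220 (T t400 (K a370 (M a334 (F (T t771 (L l220 (T t400 (L l2367 (L l2487 (T t376 N)))))))) (K a334 (M a370 (F (T t771 (L l220 (T t400 (L l2367 (L l2487 (T t376 N)))))))) N)))))))))))⟩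
def e0_255_426__346_170_16 : Ent 5 := ⟨[a0, a255, a426], [a346, a170, a370], (M a192 (L l668 (F (T t375 (L l2367 (T t376 (L l220 (T t400 (K a358 (M a334 (F (T t771 (L l220 (T t400 (L l2367 (L l2487 (T t376 N)))))))) (K a334 (M a358 (F (T t771 (T t843 N)))) N))))))))))⟩
def e0_255_426__346_170_17 : Ent 5 := ⟨[a0, a255, a426], [a346, a170, a375], (M a192 (F (T t375 (L l2367 (T t376 (L l220 (L l2431 (T t400 N))))))))⟩
def e0_255_426__346_170_18 : Ent 5 := ⟨[a0, a255, a426], [a346, a170, a433], (M a192 (F (T t375 (L l2367 (T t376 (L l220 (T t400 N)))))))⟩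
def e0_255_426__346_170_19 : Ent 5 := ⟨[a0, a255, a426], [a346, a170, a443], (M a192 (F (T t375 (L l2367 (T t376 (L l220 (T t400 N)))))))⟩
def e0_255_426__346_170_20 : Ent 5 := ⟨[a0, a255, a426], [a346, a170, a529], (M a192 (F (T t771 (L l220 (T t400 (L l1405 (L l2367 (T t376 N))))))))⟩
def e0_255_426__346_170_21 : Ent 5 := ⟨[a0, a255, a426], [a346, a170, a539], (M a192 (F (T t375 (L l2367 (T t376 (L l220 (T t400 N)))))))⟩
def e0_255_426__346_170_22 : Ent 5 := ⟨[a0, a255, a426], [a346, a170, a546], (M a192 (F (T t375 (L l2367 (T t376 (L l220 (T t400 N)))))))⟩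
def e0_255_426__346_170_23 : Ent 5 := ⟨[a0, a255, a426], [a346, a170, a551], (M a192 (F (T t375 (L l2367 (T t376 (L l220 (T t400 N)))))))⟩
def e0_255_426__346_170_24 : Ent 5 := ⟨[a0, a255, a426], [a346, a170, a563], (M a192 (F (T t375 (L l1529 (L l2367 (T t376 (L l220 (T t400 N))))))))⟩
def e0_255_426__346_170_25 : Ent 5 := ⟨[a0, a255, a426], [a346, a170, a614], (M a192 (L l2472 (F (T t375 (L l1166 (L l2367 (T t376 (L l220 (T t400 (K a882 (M a78 (F (T t771 (L l220 (T t400 (L l1166 (L l2367 (T t376 N)))))))) (K a78 (M a882 (F (T t771 (L l220 (T t400 (L l1166 (L l2367 (T t376 N)))))))) N)))))))))))⟩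
def e0_255_426__346_170_26 : Ent 5 := ⟨[a0, a255, a426], [a346, a170, a626], (M a192 (F (T t375 (L l2367 (T t376 (L l220 (T t400 N)))))))⟩
def e0_255_426__346_170_27 : Ent 5 := ⟨[a0, a255, a426], [a346, a170, a631], (M a192 (F (T t375 (L l1166 (L l2367 (T t376 (L l220 (T t400 N))))))))⟩
def e0_255_426__346_170_28 : Ent 5 := ⟨[a0, a255, a426], [a346, a170, a689], (M a192 (F (T t375 (L l2367 (T t376 (L l220 (T t400 N)))))))⟩
def e0_255_426__346_170_29 : Ent 5 := ⟨[a0, a255, a426], [a346, a170, a699], (M a192 (F (T t375 (L l2367 (T t376 (L l220 (T t400 N)))))))⟩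
def e0_255_426__346_170_30 : Ent 5 := ⟨[a0, a255, a426], [a346, a170, a785], (M a192 (F (T t771 (L l220 (T t400 (L l2367 (L l3227 (T t376 N))))))))⟩
def e0_255_426__346_170_31 : Ent 5 := ⟨[a0, a255, a426], [a346, a170, a795], (M a192 (F (T t375 (L l2367 (T t376 (L l220 (T t400 N)))))))⟩
def e0_255_426__346_170_32 : Ent 5 := ⟨[a0, a255, a426], [a346, a170, a802], (M a192 (F (L l1586 (T t771 (L l2367 (T t376 (L l220 (L l1586 (T t400 N)))))))))⟩
def e0_255_426__346_170_33 : Ent 5 := ⟨[a0, a255, a426], [a346, a170, a807], (M a192 (F (T t375 (L l2367 (T t376 (L l220 (T t400 N)))))))⟩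
def e0_255_426__346_170_34 : Ent 5 := ⟨[a0, a255, a426], [a346, a170, a819], (M a192 (F (L l1604 (T t375 (L l2049 (L l2367 (T t376 (L l220 (T t400 N)))))))))⟩
def e0_255_426__346_170_35 : Ent 5 := ⟨[a0, a255, a426], [a346, a170, a870], (M a192 (F (T t375 (L l2367 (T t376 (L l220 (T t400 N)))))))⟩
def e0_255_426__346_170_36 : Ent 5 := ⟨[a0, a255, a426], [a346, a170, a882], (M a192 (L l2472 (F (T t375 (L l2367 (T t376 (L l220 (T t400 (K a614 (M a78 (F (T t771 (L l220 (T t400 (L l1166 (L l2367 (T t376 N)))))))) (K a78 (M a614 (F (T t771 (L l208 (T t844 N))))) N))))))))))⟩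
def e0_255_426__346_170_37 : Ent 5 := ⟨[a0, a255, a426], [a346, a170, a887], (M a192 (F (T t375 (L l2367 (T t376 (L l220 (L l1673 (T t400 N))))))))⟩
def e0_255_426__346_170_38 : Ent 5 := ⟨[a0, a255, a426], [a346, a170, a945], (M a192 (F (T t375 (L l2367 (T t376 (L l220 (T t400 N)))))))⟩
def e0_255_426__346_170_39 : Ent 5 := ⟨[a0, a255, a426], [a346, a170, a955], (M a192 (F (T t375 (L l2367 (T t376 (L l220 (T t400 N)))))))⟩
def b0_255_426__346_170 : Blk 5 := ⟨[0, 255, 426], [346, 170], [17, 27, 34, 39, 51, 102, 114, 119, 177, 187, 273, 283, 290, 295, 307, 358, 370, 375, 433, 443, 529, 539, 546, 551, 563, 614, 626, 631, 689, 699, 785, 795, 802, 807, 819, 870, 882, 887, 945, 955], [e0_255_426__346_170_0, e0_255_426__346_170_1, e0_255_426__346_170_2, e0_255_426__346_170_3, e0_255_426__346_170_4, e0_255_426__346_170_5, e0_255_426__346_170_6, e0_255_426__346_170_7, e0_255_426__346_170_8, e0_255_426__346_170_9, e0_255_426__346_170_10, e0_255_426__346_170_11,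 e0_255_426__346_170_12, e0_255_426__346_170_13, e0_255_426__346_170_14, e0_255_426__346_170_15, e0_255_426__346_170_16, e0_255_426__346_170_17, e0_255_426__346_170_18, e0_255_426__346_170_19, e0_255_426__346_170_20, e0_255_426__346_170_21, e0_255_426__346_170_22, e0_255_426__346_170_23, e0_255_426__346_170_24, e0_255_426__346_170_25, e0_255_426__346_170_26, e0_255_426__346_170_27, e0_255_426__346_170_28, e0_255_426__346_170_29, e0_255_426__346_170_30, e0_255_426__346_170_31, e0_255_426__346_170_32, e0_255_426__346_170_33, e0_255_426__346_170_34, e0_255_426__346_170_35, e0_255_426__346_170_36, e0_255_426__346_170_37, e0_255_426__346_170_38, e0_255_426__346_170_39], by decide +kernel, by decide +kernel⟩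
def e0_255_426__351_170_0 : Ent 5 := ⟨[a0, a255, a426], [a351, a170, a17], (M a192 (F (T t375 (T t376 (L l220 (L l2461 (T t400 N)))))))⟩
def e0_255_426__351_170_1 : Ent 5 := ⟨[a0, a255, a426], [a351, a170, a27], (M a192 (F (T t375 (T t376 (L l220 (L l2461 (T t400 N)))))))⟩
def e0_255_426__351_170_2 : Ent 5 := ⟨[a0, a255, a426], [a351, a170, a34], (M a192 (L l402 (F (T t375 (T t376 (L l220 (L l2461 (T t400 (K a102 (M a238 (F (T t752 (L l208 (L l2154 (T t758 N)))))) (K a238 (M a102 (F (T t399 (L l220 (L l2461 (T t400 (T t376 N))))))) N))))))))))⟩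
def e0_255_426__351_170_3 : Ent 5 := ⟨[a0, a255, a426], [a351, a170, a39], (M a192 (F (T t375 (T t376 (L l220 (L l2461 (T t400 N)))))))⟩
def e0_255_426__351_170_4 : Ent 5 := ⟨[a0, a255, a426], [a351, a170, a51], (M a192 (F (T t757 (L l3129 (T t376 (L l220 (L l2461 (T t400 N))))))))⟩
def e0_255_426__351_170_5 : Ent 5 := ⟨[a0, a255, a426], [a351, a170, a102], (M a192 (L l402 (F (T t375 (T t376 (L l220 (L l2461 (T t400 (K a34 (M a238 (F (T t752 (L l208 (L l2154 (T t758 N)))))) (K a238 (M a34 (F (T t752 (L l150 (L l220 (T t760 N)))))) N))))))))))⟩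
def e0_255_426__351_170_6 : Ent 5 := ⟨[a0, a255, a426], [a351, a170, a114], (M a192 (F (T t375 (T t376 (L l220 (L l2461 (T t400 N)))))))⟩
def e0_255_426__351_170_7 : Ent 5 := ⟨[a0, a255, a426], [a351, a170, a119], (M a192 (F (T t375 (L l2487 (T t376 (L l220 (L l2461 (T t400 N))))))))⟩
def e0_255_426__351_170_8 : Ent 5 := ⟨[a0, a255, a426], [a351, a170, a177], (M a192 (F (T t375 (T t376 (L l220 (L l2461 (T t400 N)))))))⟩
def e0_255_426__351_170_9 : Ent 5 := ⟨[a0, a255, a426], [a351, a170, a187], (M a192 (L l208 (F (T t375 (T t376 (L l220 (L l2461 (T t400 (K a136 (M a153 (F (T t399 (L l156 (L l220 (L l2461 (T t400 (T t376 N)))))))) (K a153 (M a136 (F (T t375 (L l226 (L l464 (T t762 N)))))) N))))))))))⟩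
def e0_255_426__351_170_10 : Ent 5 := ⟨[a0, a255, a426], [a351, a170, a273], (M a192 (F (T t375 (L l564 (T t376 (L l220 (L l564 (L l2461 (T t400 N)))))))))⟩
def e0_255_426__351_170_11 : Ent 5 := ⟨[a0, a255, a426], [a351, a170, a283], (M a192 (F (T t375 (T t376 (L l220 (L l2461 (T t400 N)))))))⟩
def e0_255_426__351_170_12 : Ent 5 := ⟨[a0, a255, a426], [a351, a170, a290], (M a192 (F (T t757 (L l564 (T t376 (L l220 (L l564 (L l2461 (T t400 N)))))))))⟩
def e0_255_426__351_170_13 : Ent 5 := ⟨[a0, a255, a426], [a351, a170, a295], (M a192 (F (T t375 (T t376 (L l220 (L l2461 (T t400 N)))))))⟩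
def e0_255_426__351_170_14 : Ent 5 := ⟨[a0, a255, a426], [a351, a170, a307], (M a192 (F (T t375 (L l564 (T t376 (L l220 (L l564 (L l2461 (T t400 N)))))))))⟩
def e0_255_426__351_170_15 : Ent 5 := ⟨[a0, a255, a426], [a351, a170, a358], (M a192 (F (T t375 (L l2487 (T t376 (L l220 (L l2461 (T t400 N))))))))⟩
def e0_255_426__351_170_16 : Ent 5 := ⟨[a0, a255, a426], [a351, a170, a370], (M a192 (F (T t375 (T t376 (L l220 (L l2461 (T t400 N)))))))⟩
def e0_255_426__351_170_17 : Ent 5 := ⟨[a0, a255, a426], [a351, a170, a375], (M a192 (F (T t375 (T t376 (L l220 (L l2431 (L l2461 (T t400 N))))))))⟩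
def e0_255_426__351_170_18 : Ent 5 := ⟨[a0, a255, a426], [a351, a170, a433], (M a192 (F (T t375 (T t376 (L l220 (L l2461 (T t400 N)))))))⟩
def e0_255_426__351_170_19 : Ent 5 := ⟨[a0, a255, a426], [a351, a170, a443], (M a192 (F (T t375 (T t376 (L l220 (L l2461 (T t400 N)))))))⟩
def e0_255_426__351_170_20 : Ent 5 := ⟨[a0, a255, a426], [a351, a170, a529], (M a192 (F (T t771 (L l220 (L l2461 (T t400 (L l1405 (T t376 N))))))))⟩
def e0_255_426__351_170_21 : Ent 5 := ⟨[a0, a255, a426], [a351, a170, a539], (M a192 (F (T t375 (T t376 (L l220 (L l2461 (T t400 N)))))))⟩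
def e0_255_426__351_170_22 : Ent 5 := ⟨[a0, a255, a426], [a351, a170, a546], (M a192 (F (T t375 (T t376 (L l220 (L l2461 (T t400 N)))))))⟩
def e0_255_426__351_170_23 : Ent 5 := ⟨[a0, a255, a426], [a351, a170, a551], (M a192 (F (T t375 (T t376 (L l220 (L l2461 (T t400 N)))))))⟩
def e0_255_426__351_170_24 : Ent 5 := ⟨[a0, a255, a426], [a351, a170, a563], (M a192 (F (T t375 (L l1529 (T t376 (L l220 (L l2461 (T t400 N))))))))⟩
def e0_255_426__351_170_25 : Ent 5 := ⟨[a0, a255, a426], [a351, a170, a614], (M a192 (F (T t375 (L l1166 (T t376 (L l220 (L l2461 (T t400 N))))))))⟩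
def e0_255_426__351_170_26 : Ent 5 := ⟨[a0, a255, a426], [a351, a170, a626], (M a192 (F (T t375 (T t376 (L l220 (L l2461 (T t400 N)))))))⟩
def e0_255_426__351_170_27 : Ent 5 := ⟨[a0, a255, a426], [a351, a170, a631], (M a192 (F (T t375 (L l1166 (T t376 (L l220 (L l2461 (T t400 N))))))))⟩
def e0_255_426__351_170_28 : Ent 5 := ⟨[a0, a255, a426], [a351, a170, a689], (M a192 (F (T t375 (T t376 (L l220 (L l2461 (T t400 N)))))))⟩
def e0_255_426__351_170_29 : Ent 5 := ⟨[a0, a255, a426], [a351, a170, a699], (M a192 (F (T t375 (T t376 (L l220 (L l2461 (T t400 N)))))))⟩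
def e0_255_426__351_170_30 : Ent 5 := ⟨[a0, a255, a426], [a351, a170, a785], (M a192 (F (T t771 (L l220 (L l2461 (T t400 (L l3227 (T t376 N))))))))⟩
def e0_255_426__351_170_31 : Ent 5 := ⟨[a0, a255, a426], [a351, a170, a795], (M a192 (F (T t375 (T t376 (L l220 (L l2461 (T t400 N)))))))⟩
def e0_255_426__351_170_32 : Ent 5 := ⟨[a0, a255, a426], [a351, a170, a802], (M a192 (F (T t399 (L l220 (L l1586 (L l2461 (T t400 (T t376 N))))))))⟩
def e0_255_426__351_170_33 : Ent 5 := ⟨[a0, a255, a426], [a351, a170, a807], (M a192 (F (T t375 (T t376 (L l220 (L l2461 (T t400 N)))))))⟩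
def e0_255_426__351_170_34 : Ent 5 := ⟨[a0, a255, a426], [a351, a170, a819], (M a192 (F (T t757 (L l2049 (T t376 (L l220 (L l2461 (T t400 N))))))))⟩
def e0_255_426__351_170_35 : Ent 5 := ⟨[a0, a255, a426], [a351, a170, a870], (M a192 (F (T t375 (T t376 (L l220 (L l2461 (T t400 N)))))))⟩
def e0_255_426__351_170_36 : Ent 5 := ⟨[a0, a255, a426], [a351, a170, a882], (M a192 (F (T t375 (T t376 (L l220 (L l2461 (T t400 N)))))))⟩
def e0_255_426__351_170_37 : Ent 5 := ⟨[a0, a255, a426], [a351, a170, a887], (M a192 (F (T t375 (T t376 (L l220 (L l1673 (L l2461 (T t400 N))))))))⟩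
def e0_255_426__351_170_38 : Ent 5 := ⟨[a0, a255, a426], [a351, a170, a945], (M a192 (F (T t375 (T t376 (L l220 (L l2461 (T t400 N)))))))⟩
def e0_255_426__351_170_39 : Ent 5 := ⟨[a0, a255, a426], [a351, a170, a955], (M a192 (F (T t375 (T t376 (L l220 (L l2461 (T t400 N)))))))⟩
def b0_255_426__351_170 : Blk 5 := ⟨[0, 255, 426], [351, 170], [17, 27, 34, 39, 51, 102, 114, 119, 177, 187, 273, 283, 290, 295, 307, 358, 370, 375, 433, 443, 529, 539, 546, 551, 563, 614, 626, 631, 689, 699, 785, 795, 802, 807, 819, 870, 882, 887, 945, 955], [e0_255_426__351_170_0, e0_255_426__351_170_1, e0_255_426__351_170_2, e0_255_426__351_170_3, e0_255_426__351_170_4, e0_255_426__351_170_5, e0_255_426__351_170_6, e0_255_426__351_170_7, e0_255_426__351_170_8, e0_255_426__351_170_9, e0_255_426__351_170_10, e0_255_426__351_170_11, e0_255_426__351_170_12, e0_255_426__351_170_13, e0_255_426__351_170_14, e0_255_426__351_170_15, e0_255_426__351_170_16, e0_255_426__351_170_17,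 e0_255_426__351_170_18, e0_255_426__351_170_19, e0_255_426__351_170_20, e0_255_426__351_170_21, e0_255_426__351_170_22, e0_255_426__351_170_23, e0_255_426__351_170_24, e0_255_426__351_170_25, e0_255_426__351_170_26, e0_255_426__351_170_27, e0_255_426__351_170_28, e0_255_426__351_170_29, e0_255_426__351_170_30, e0_255_426__351_170_31, e0_255_426__351_170_32, e0_255_426__351_170_33, e0_255_426__351_170_34, e0_255_426__351_170_35, e0_255_426__351_170_36, e0_255_426__351_170_37, e0_255_426__351_170_38, e0_255_426__351_170_39], by decide +kernel, by decide +kernel⟩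
def e0_255_426__431_170_0 : Ent 5 := ⟨[a0, a255, a426], [a431, a170, a17], (M a192 (F (T t375 (T t376 (L l220 (T t400 N))))))⟩
def e0_255_426__431_170_1 : Ent 5 := ⟨[a0, a255, a426], [a431, a170, a27], (M a192 (F (T t375 (T t376 (L l220 (T t400 N))))))⟩
def e0_255_426__431_170_2 : Ent 5 := ⟨[a0, a255, a426], [a431, a170, a34], (M a192 (L l402 (F (T t375 (T t376 (L l220 (T t400 (K a102 (M a238 (F (T t752 (L l208 (L l2154 (T t758 N)))))) (K a238 (M a102 (F (T t752 (L l220 (T t400 (T t376 N)))))) N)))))))))⟩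
def e0_255_426__431_170_3 : Ent 5 := ⟨[a0, a255, a426], [a431, a170, a39], (M a192 (F (T t375 (T t376 (L l220 (T t400 N))))))⟩
def e0_255_426__431_170_4 : Ent 5 := ⟨[a0, a255, a426], [a431, a170, a51], (M a192 (F (T t841 (L l220 (T t400 (L l3129 (T t376 N)))))))⟩
def e0_255_426__431_170_5 : Ent 5 := ⟨[a0, a255, a426], [a431, a170, a102], (M a192 (L l402 (F (T t375 (T t376 (L l220 (T t400 (K a34 (M a238 (F (T t752 (L l208 (L l2154 (T t758 N)))))) (K a238 (M a34 (F (T t752 (L l150 (L l220 (T t760 N)))))) N)))))))))⟩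
def e0_255_426__431_170_6 : Ent 5 := ⟨[a0, a255, a426], [a431, a170, a114], (M a192 (F (T t375 (T t376 (L l220 (T t400 N))))))⟩
def e0_255_426__431_170_7 : Ent 5 := ⟨[a0, a255, a426], [a431, a170, a119], (M a192 (F (T t375 (L l2487 (T t376 (L l220 (T t400 N)))))))⟩
def e0_255_426__431_170_8 : Ent 5 := ⟨[a0, a255, a426], [a431, a170, a177], (M a192 (F (T t375 (T t376 (L l220 (T t400 N))))))⟩
def e0_255_426__431_170_9 : Ent 5 := ⟨[a0, a255, a426], [a431, a170, a187], (M a192 (L l208 (F (T t375 (T t376 (L l220 (T t400 (K a136 (M a153 (F (T t842 (T t376 (L l156 (L l220 (T t400 N))))))) (K a153 (M a136 (F (T t752 (L l226 (L l464 (T t762 N)))))) N)))))))))⟩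
def e0_255_426__431_170_10 : Ent 5 := ⟨[a0, a255, a426], [a431, a170, a273], (M a192 (F (T t375 (L l564 (T t376 (L l220 (L l564 (T t400 N))))))))⟩
def e0_255_426__431_170_11 : Ent 5 := ⟨[a0, a255, a426], [a431, a170, a283], (M a192 (F (T t375 (T t376 (L l220 (T t400 N))))))⟩
def e0_255_426__431_170_12 : Ent 5 := ⟨[a0, a255, a426], [a431, a170, a290], (M a192 (F (T t752 (L l220 (L l564 (T t400 (L l564 (T t376 N))))))))⟩
def e0_255_426__431_170_13 : Ent 5 := ⟨[a0, a255, a426], [a431, a170, a295], (M a192 (F (T t375 (T t376 (L l220 (T t400 N))))))⟩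
def e0_255_426__431_170_14 : Ent 5 := ⟨[a0, a255, a426], [a431, a170, a307], (M a192 (F (T t375 (L l564 (T t376 (L l220 (L l564 (T t400 N))))))))⟩
def e0_255_426__431_170_15 : Ent 5 := ⟨[a0, a255, a426], [a431, a170, a358], (M a192 (F (T t375 (L l2487 (T t376 (L l220 (T t400 N)))))))⟩
def e0_255_426__431_170_16 : Ent 5 := ⟨[a0, a255, a426], [a431, a170, a370], (M a192 (F (T t375 (T t376 (L l220 (T t400 N))))))⟩
def e0_255_426__431_170_17 : Ent 5 := ⟨[a0, a255, a426], [a431, a170, a375], (M a192 (F (T t375 (T t376 (L l220 (L l2431 (T t400 N)))))))⟩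
def e0_255_426__431_170_18 : Ent 5 := ⟨[a0, a255, a426], [a431, a170, a433], (M a192 (F (T t375 (T t376 (L l220 (T t400 N))))))⟩
def e0_255_426__431_170_19 : Ent 5 := ⟨[a0, a255, a426], [a431, a170, a443], (M a192 (F (T t375 (T t376 (L l220 (T t400 N))))))⟩
def e0_255_426__431_170_20 : Ent 5 := ⟨[a0, a255, a426], [a431, a170, a529], (M a192 (F (L l2265 (T t375 (L l1405 (T t376 (L l220 (T t400 N))))))))⟩
def e0_255_426__431_170_21 : Ent 5 := ⟨[a0, a255, a426], [a431, a170, a539], (M a192 (F (T t375 (T t376 (L l220 (T t400 N))))))⟩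
def e0_255_426__431_170_22 : Ent 5 := ⟨[a0, a255, a426], [a431, a170, a546], (M a192 (F (T t375 (T t376 (L l220 (T t400 N))))))⟩
def e0_255_426__431_170_23 : Ent 5 := ⟨[a0, a255, a426], [a431, a170, a551], (M a192 (F (T t375 (T t376 (L l220 (T t400 N))))))⟩
def e0_255_426__431_170_24 : Ent 5 := ⟨[a0, a255, a426], [a431, a170, a563], (M a192 (F (T t375 (L l1529 (T t376 (L l220 (T t400 N)))))))⟩
def e0_255_426__431_170_25 : Ent 5 := ⟨[a0, a255, a426], [a431, a170, a614], (M a192 (F (T t375 (L l1166 (T t376 (L l220 (T t400 N)))))))⟩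
def e0_255_426__431_170_26 : Ent 5 := ⟨[a0, a255, a426], [a431, a170, a626], (M a192 (F (T t375 (T t376 (L l220 (T t400 N))))))⟩
def e0_255_426__431_170_27 : Ent 5 := ⟨[a0, a255, a426], [a431, a170, a631], (M a192 (F (T t375 (L l1166 (T t376 (L l220 (T t400 N)))))))⟩
def e0_255_426__431_170_28 : Ent 5 := ⟨[a0, a255, a426], [a431, a170, a689], (M a192 (F (T t375 (T t376 (L l220 (T t400 N))))))⟩
def e0_255_426__431_170_29 : Ent 5 := ⟨[a0, a255, a426], [a431, a170, a699], (M a192 (F (T t375 (T t376 (L l220 (T t400 N))))))⟩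
def e0_255_426__431_170_30 : Ent 5 := ⟨[a0, a255, a426], [a431, a170, a785], (M a192 (F (L l1604 (T t375 (L l3227 (T t376 (L l220 (T t400 N))))))))⟩
def e0_255_426__431_170_31 : Ent 5 := ⟨[a0, a255, a426], [a431, a170, a795], (M a192 (F (T t375 (T t376 (L l220 (T t400 N))))))⟩
def e0_255_426__431_170_32 : Ent 5 := ⟨[a0, a255, a426], [a431, a170, a802], (M a192 (F (T t376 (L l733 (L l1586 (T t757 (L l220 (L l1586 (T t400 N)))))))))⟩
def e0_255_426__431_170_33 : Ent 5 := ⟨[a0, a255, a426], [a431, a170, a807], (M a192 (F (T t375 (T t376 (L l220 (T t400 N))))))⟩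
def e0_255_426__431_170_34 : Ent 5 := ⟨[a0, a255, a426], [a431, a170, a819], (M a192 (F (T t841 (L l220 (T t400 (L l2049 (T t376 N)))))))⟩
def e0_255_426__431_170_35 : Ent 5 := ⟨[a0, a255, a426], [a431, a170, a870], (M a192 (F (T t375 (T t376 (L l220 (T t400 N))))))⟩
def e0_255_426__431_170_36 : Ent 5 := ⟨[a0, a255, a426], [a431, a170, a882], (M a192 (F (T t375 (T t376 (L l220 (T t400 N))))))⟩
def e0_255_426__431_170_37 : Ent 5 := ⟨[a0, a255, a426], [a431, a170, a887], (M a192 (F (T t375 (T t376 (L l220 (L l1673 (T t400 N)))))))⟩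
def e0_255_426__431_170_38 : Ent 5 := ⟨[a0, a255, a426], [a431, a170, a945], (M a192 (F (T t375 (T t376 (L l220 (T t400 N))))))⟩
def e0_255_426__431_170_39 : Ent 5 := ⟨[a0, a255, a426], [a431, a170, a955], (M a192 (F (T t375 (T t376 (L l220 (T t400 N))))))⟩
def b0_255_426__431_170 : Blk 5 := ⟨[0, 255, 426], [431, 170], [17, 27, 34, 39, 51, 102, 114, 119, 177, 187, 273, 283, 290, 295, 307, 358, 370, 375, 433, 443, 529, 539, 546, 551, 563, 614, 626, 631, 689, 699, 785, 795, 802, 807, 819, 870, 882, 887, 945, 955], [e0_255_426__431_170_0, e0_255_426__431_170_1, e0_255_426__431_170_2, e0_255_426__431_170_3, e0_255_426__431_170_4, e0_255_426__431_170_5, e0_255_426__431_170_6, e0_255_426__431_170_7, e0_255_426__431_170_8, e0_255_426__431_170_9, e0_255_426__431_170_10, e0_255_426__431_170_11, e0_255_426__431_170_12, e0_255_426__431_170_13, e0_255_426__431_170_14, e0_255_426__431_170_15, e0_255_426__431_170_16, e0_255_426__431_170_17, e0_255_426__431_170_18,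 e0_255_426__431_170_19, e0_255_426__431_170_20, e0_255_426__431_170_21, e0_255_426__431_170_22, e0_255_426__431_170_23, e0_255_426__431_170_24, e0_255_426__431_170_25, e0_255_426__431_170_26, e0_255_426__431_170_27, e0_255_426__431_170_28, e0_255_426__431_170_29, e0_255_426__431_170_30, e0_255_426__431_170_31, e0_255_426__431_170_32, e0_255_426__431_170_33, e0_255_426__431_170_34, e0_255_426__431_170_35, e0_255_426__431_170_36, e0_255_426__431_170_37, e0_255_426__431_170_38, e0_255_426__431_170_39], by decide +kernel, by decide +kernel⟩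
def e0_255_426__517_170_0 : Ent 5 := ⟨[a0, a255, a426], [a517, a170, a17], (M a192 (F (T t771 (L l220 (T t400 (L l1495 (T t376 N)))))))⟩
def e0_255_426__517_170_1 : Ent 5 := ⟨[a0, a255, a426], [a517, a170, a27], (M a192 (F (T t771 (L l220 (T t400 (L l1495 (T t376 N)))))))⟩
def e0_255_426__517_170_2 : Ent 5 := ⟨[a0, a255, a426], [a517, a170, a34], (M a192 (L l402 (F (T t771 (L l220 (T t400 (L l1495 (T t376 (K a102 (M a238 (F (T t771 (L l208 (L l2154 (T t758 N)))))) (K a238 (M a102 (F (T t771 (L l220 (T t400 (L l1495 (T t376 N))))))) N))))))))))⟩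
def e0_255_426__517_170_3 : Ent 5 := ⟨[a0, a255, a426], [a517, a170, a39], (M a192 (F (T t771 (L l220 (T t400 (L l1495 (T t376 N)))))))⟩
def e0_255_426__517_170_4 : Ent 5 := ⟨[a0, a255, a426], [a517, a170, a51], (M a192 (F (T t757 (L l1495 (L l3129 (T t376 (L l220 (T t400 N))))))))⟩
def e0_255_426__517_170_5 : Ent 5 := ⟨[a0, a255, a426], [a517, a170, a102], (M a192 (L l402 (F (T t771 (L l220 (T t400 (L l1495 (T t376 (K a34 (M a238 (F (T t771 (L l208 (L l2154 (T t758 N)))))) (K a238 (M a34 (F (T t757 (L l150 (L l220 (T t760 N)))))) N))))))))))⟩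
def e0_255_426__517_170_6 : Ent 5 := ⟨[a0, a255, a426], [a517, a170, a114], (M a192 (F (T t771 (L l220 (T t400 (L l1495 (T t376 N)))))))⟩
def e0_255_426__517_170_7 : Ent 5 := ⟨[a0, a255, a426], [a517, a170, a119], (M a192 (F (T t771 (L l220 (T t400 (L l1495 (L l2487 (T t376 N))))))))⟩
def e0_255_426__517_170_8 : Ent 5 := ⟨[a0, a255, a426], [a517, a170, a177], (M a192 (F (T t771 (L l220 (T t400 (L l1495 (T t376 N)))))))⟩
def e0_255_426__517_170_9 : Ent 5 := ⟨[a0, a255, a426], [a517, a170, a187], (M a192 (L l208 (F (T t771 (L l220 (T t400 (L l1495 (T t376 (K a136 (M a153 (F (T t771 (L l156 (L l220 (T t400 (L l1495 (T t376 N)))))))) (K a153 (M a136 (F (T t771 (L l226 (L l464 (T t762 N)))))) N))))))))))⟩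
def e0_255_426__517_170_10 : Ent 5 := ⟨[a0, a255, a426], [a517, a170, a273], (M a192 (F (T t771 (L l220 (L l564 (T t400 (L l564 (L l1495 (T t376 N)))))))))⟩
def e0_255_426__517_170_11 : Ent 5 := ⟨[a0, a255, a426], [a517, a170, a283], (M a192 (F (T t771 (L l220 (T t400 (L l1495 (T t376 N)))))))⟩
def e0_255_426__517_170_12 : Ent 5 := ⟨[a0, a255, a426], [a517, a170, a290], (M a192 (F (T t757 (L l564 (L l1495 (T t376 (L l220 (L l564 (T t400 N)))))))))⟩
def e0_255_426__517_170_13 : Ent 5 := ⟨[a0, a255, a426], [a517, a170, a295], (M a192 (F (T t771 (L l220 (T t400 (L l1495 (T t376 N)))))))⟩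
def e0_255_426__517_170_14 : Ent 5 := ⟨[a0, a255, a426], [a517, a170, a307], (M a192 (F (T t771 (L l220 (L l564 (T t400 (L l564 (L l1495 (T t376 N)))))))))⟩
def e0_255_426__517_170_15 : Ent 5 := ⟨[a0, a255, a426], [a517, a170, a358], (M a192 (F (T t771 (L l220 (T t400 (L l1495 (L l2487 (T t376 N))))))))⟩
def e0_255_426__517_170_16 : Ent 5 := ⟨[a0, a255, a426], [a517, a170, a370], (M a192 (F (T t771 (L l220 (T t400 (L l1495 (T t376 N)))))))⟩
def e0_255_426__517_170_17 : Ent 5 := ⟨[a0, a255, a426], [a517, a170, a375], (M a192 (F (T t771 (L l220 (L l2431 (T t400 (L l1495 (T t376 N))))))))⟩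
def e0_255_426__517_170_18 : Ent 5 := ⟨[a0, a255, a426], [a517, a170, a433], (M a192 (F (T t771 (L l220 (T t400 (L l1495 (T t376 N)))))))⟩
def e0_255_426__517_170_19 : Ent 5 := ⟨[a0, a255, a426], [a517, a170, a443], (M a192 (F (L l2115 (T t375 (L l1495 (T t376 (L l220 (T t400 N))))))))⟩
def e0_255_426__517_170_20 : Ent 5 := ⟨[a0, a255, a426], [a517, a170, a529], (M a192 (F (T t757 (L l1405 (L l1495 (T t376 (L l220 (T t400 N))))))))⟩
def e0_255_426__517_170_21 : Ent 5 := ⟨[a0, a255, a426], [a517, a170, a539], (M a192 (F (T t771 (L l220 (T t400 (L l1495 (T t376 N)))))))⟩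
def e0_255_426__517_170_22 : Ent 5 := ⟨[a0, a255, a426], [a517, a170, a546], (M a192 (F (T t771 (L l220 (T t400 (L l1495 (T t376 N)))))))⟩
def e0_255_426__517_170_23 : Ent 5 := ⟨[a0, a255, a426], [a517, a170, a551], (M a192 (F (T t771 (L l220 (T t400 (L l1495 (T t376 N)))))))⟩
def e0_255_426__517_170_24 : Ent 5 := ⟨[a0, a255, a426], [a517, a170, a563], (M a192 (F (T t771 (L l220 (T t400 (L l1495 (L l1529 (T t376 N))))))))⟩
def e0_255_426__517_170_25 : Ent 5 := ⟨[a0, a255, a426], [a517, a170, a614], (M a192 (F (T t771 (L l220 (T t400 (L l1166 (L l1495 (T t376 N))))))))⟩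
def e0_255_426__517_170_26 : Ent 5 := ⟨[a0, a255, a426], [a517, a170, a626], (M a192 (F (T t771 (L l220 (T t400 (L l1495 (T t376 N)))))))⟩
def e0_255_426__517_170_27 : Ent 5 := ⟨[a0, a255, a426], [a517, a170, a631], (M a192 (F (T t771 (L l220 (T t400 (L l1166 (L l1495 (T t376 N))))))))⟩
def e0_255_426__517_170_28 : Ent 5 := ⟨[a0, a255, a426], [a517, a170, a689], (M a192 (F (T t771 (L l220 (T t400 (L l1495 (T t376 N)))))))⟩
def e0_255_426__517_170_29 : Ent 5 := ⟨[a0, a255, a426], [a517, a170, a699], (M a192 (F (T t771 (L l220 (T t400 (L l1495 (T t376 N)))))))⟩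
def e0_255_426__517_170_30 : Ent 5 := ⟨[a0, a255, a426], [a517, a170, a785], (M a192 (F (T t757 (L l1495 (L l3227 (T t376 (L l220 (T t400 N))))))))⟩
def e0_255_426__517_170_31 : Ent 5 := ⟨[a0, a255, a426], [a517, a170, a795], (M a192 (F (T t771 (L l220 (T t400 (L l1495 (T t376 N)))))))⟩
def e0_255_426__517_170_32 : Ent 5 := ⟨[a0, a255, a426], [a517, a170, a802], (M a192 (F (L l1586 (T t771 (L l1495 (T t376 (L l220 (L l1586 (T t400 N)))))))))⟩
def e0_255_426__517_170_33 : Ent 5 := ⟨[a0, a255, a426], [a517, a170, a807], (M a192 (F (T t771 (L l220 (T t400 (L l1495 (T t376 N)))))))⟩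
def e0_255_426__517_170_34 : Ent 5 := ⟨[a0, a255, a426], [a517, a170, a819], (M a192 (F (T t757 (L l1495 (L l2049 (T t376 (L l220 (T t400 N))))))))⟩
def e0_255_426__517_170_35 : Ent 5 := ⟨[a0, a255, a426], [a517, a170, a870], (M a192 (F (T t771 (L l220 (T t400 (L l1495 (T t376 N)))))))⟩
def e0_255_426__517_170_36 : Ent 5 := ⟨[a0, a255, a426], [a517, a170, a882], (M a192 (F (T t771 (L l220 (T t400 (L l1495 (T t376 N)))))))⟩
def e0_255_426__517_170_37 : Ent 5 := ⟨[a0, a255, a426], [a517, a170, a887], (M a192 (F (T t771 (L l220 (L l1673 (T t400 (L l1495 (T t376 N))))))))⟩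
def e0_255_426__517_170_38 : Ent 5 := ⟨[a0, a255, a426], [a517, a170, a945], (M a192 (F (T t771 (L l220 (T t400 (L l1495 (T t376 N)))))))⟩
def e0_255_426__517_170_39 : Ent 5 := ⟨[a0, a255, a426], [a517, a170, a955], (M a192 (F (T t771 (L l220 (T t400 (L l1495 (T t376 N)))))))⟩
def b0_255_426__517_170 : Blk 5 := ⟨[0, 255, 426], [517, 170], [17, 27, 34, 39, 51, 102, 114, 119, 177, 187, 273, 283, 290, 295, 307, 358, 370, 375, 433, 443, 529, 539, 546, 551, 563, 614, 626, 631, 689, 699, 785, 795, 802, 807, 819, 870, 882, 887, 945, 955], [e0_255_426__517_170_0, e0_255_426__517_170_1, e0_255_426__517_170_2, e0_255_426__517_170_3, e0_255_426__517_170_4, e0_255_426__517_170_5, e0_255_426__517_170_6, e0_255_426__517_170_7, e0_255_426__517_170_8, e0_255_426__517_170_9, e0_255_426__517_170_10, e0_255_426__517_170_11, e0_255_426__517_170_12, e0_255_426__517_170_13, e0_255_426__517_170_14, e0_255_426__517_170_15, e0_255_426__517_170_16, e0_255_426__517_170_17,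 e0_255_426__517_170_18, e0_255_426__517_170_19, e0_255_426__517_170_20, e0_255_426__517_170_21, e0_255_426__517_170_22, e0_255_426__517_170_23, e0_255_426__517_170_24, e0_255_426__517_170_25, e0_255_426__517_170_26, e0_255_426__517_170_27, e0_255_426__517_170_28, e0_255_426__517_170_29, e0_255_426__517_170_30, e0_255_426__517_170_31, e0_255_426__517_170_32, e0_255_426__517_170_33, e0_255_426__517_170_34, e0_255_426__517_170_35, e0_255_426__517_170_36, e0_255_426__517_170_37, e0_255_426__517_170_38, e0_255_426__517_170_39], by decide +kernel, by decide +kernel⟩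
def e0_255_426__522_170_0 : Ent 5 := ⟨[a0, a255, a426], [a522, a170, a17], (M a192 (F (T t375 (T t376 (L l220 (T t400 N))))))⟩
def e0_255_426__522_170_1 : Ent 5 := ⟨[a0, a255, a426], [a522, a170, a27], (M a192 (F (T t375 (T t376 (L l220 (T t400 N))))))⟩
def e0_255_426__522_170_2 : Ent 5 := ⟨[a0, a255, a426], [a522, a170, a34], (M a192 (L l402 (F (T t375 (T t376 (L l220 (T t400 (K a102 (M a238 (F (T t752 (L l208 (L l2154 (T t758 N)))))) (K a238 (M a102 (F (T t399 (L l220 (T t400 (T t376 N)))))) N)))))))))⟩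
def e0_255_426__522_170_3 : Ent 5 := ⟨[a0, a255, a426], [a522, a170, a39], (M a192 (F (T t375 (T t376 (L l220 (T t400 N))))))⟩
def e0_255_426__522_170_4 : Ent 5 := ⟨[a0, a255, a426], [a522, a170, a51], (M a192 (F (T t757 (L l3129 (T t376 (L l220 (T t400 N)))))))⟩
def e0_255_426__522_170_5 : Ent 5 := ⟨[a0, a255, a426], [a522, a170, a102], (M a192 (L l402 (F (T t375 (T t376 (L l220 (T t400 (K a34 (M a238 (F (T t752 (L l208 (L l2154 (T t758 N)))))) (K a238 (M a34 (F (T t752 (L l150 (L l220 (T t760 N)))))) N)))))))))⟩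
def e0_255_426__522_170_6 : Ent 5 := ⟨[a0, a255, a426], [a522, a170, a114], (M a192 (F (T t375 (T t376 (L l220 (T t400 N))))))⟩
def e0_255_426__522_170_7 : Ent 5 := ⟨[a0, a255, a426], [a522, a170, a119], (M a192 (F (T t375 (L l2487 (T t376 (L l220 (T t400 N)))))))⟩
def e0_255_426__522_170_8 : Ent 5 := ⟨[a0, a255, a426], [a522, a170, a177], (M a192 (F (T t375 (T t376 (L l220 (T t400 N))))))⟩
def e0_255_426__522_170_9 : Ent 5 := ⟨[a0, a255, a426], [a522, a170, a187], (M a192 (L l208 (F (T t375 (T t376 (L l220 (T t400 (K a136 (M a153 (F (T t399 (L l156 (L l220 (T t400 (T t376 N))))))) (K a153 (M a136 (F (T t375 (L l226 (L l464 (L l2096 (T t762 N))))))) N)))))))))⟩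
def e0_255_426__522_170_10 : Ent 5 := ⟨[a0, a255, a426], [a522, a170, a273], (M a192 (F (T t375 (L l564 (T t376 (L l220 (L l564 (T t400 N))))))))⟩
def e0_255_426__522_170_11 : Ent 5 := ⟨[a0, a255, a426], [a522, a170, a283], (M a192 (F (T t375 (T t376 (L l220 (T t400 N))))))⟩
def e0_255_426__522_170_12 : Ent 5 := ⟨[a0, a255, a426], [a522, a170, a290], (M a192 (F (T t757 (L l564 (T t376 (L l220 (L l564 (T t400 N))))))))⟩
def e0_255_426__522_170_13 : Ent 5 := ⟨[a0, a255, a426], [a522, a170, a295], (M a192 (F (T t375 (T t376 (L l220 (T t400 N))))))⟩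
def e0_255_426__522_170_14 : Ent 5 := ⟨[a0, a255, a426], [a522, a170, a307], (M a192 (F (T t375 (L l564 (T t376 (L l220 (L l564 (T t400 N))))))))⟩
def e0_255_426__522_170_15 : Ent 5 := ⟨[a0, a255, a426], [a522, a170, a358], (M a192 (F (T t375 (L l2487 (T t376 (L l220 (T t400 N)))))))⟩
def e0_255_426__522_170_16 : Ent 5 := ⟨[a0, a255, a426], [a522, a170, a370], (M a192 (F (T t375 (T t376 (L l220 (T t400 N))))))⟩
def e0_255_426__522_170_17 : Ent 5 := ⟨[a0, a255, a426], [a522, a170, a375], (M a192 (F (T t375 (T t376 (L l220 (L l2431 (T t400 N)))))))⟩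
def e0_255_426__522_170_18 : Ent 5 := ⟨[a0, a255, a426], [a522, a170, a433], (M a192 (F (T t375 (T t376 (L l220 (T t400 N))))))⟩
def e0_255_426__522_170_19 : Ent 5 := ⟨[a0, a255, a426], [a522, a170, a443], (M a192 (F (T t375 (T t376 (L l220 (T t400 N))))))⟩
def e0_255_426__522_170_20 : Ent 5 := ⟨[a0, a255, a426], [a522, a170, a529], (M a192 (F (T t771 (L l220 (T t400 (L l1405 (T t376 N)))))))⟩
def e0_255_426__522_170_21 : Ent 5 := ⟨[a0, a255, a426], [a522, a170, a539], (M a192 (F (T t375 (T t376 (L l220 (T t400 N))))))⟩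
def e0_255_426__522_170_22 : Ent 5 := ⟨[a0, a255, a426], [a522, a170, a546], (M a192 (F (T t375 (T t376 (L l220 (T t400 N))))))⟩
def e0_255_426__522_170_23 : Ent 5 := ⟨[a0, a255, a426], [a522, a170, a551], (M a192 (F (T t375 (T t376 (L l220 (T t400 N))))))⟩
def e0_255_426__522_170_24 : Ent 5 := ⟨[a0, a255, a426], [a522, a170, a563], (M a192 (F (T t375 (L l1529 (T t376 (L l220 (T t400 N)))))))⟩
def e0_255_426__522_170_25 : Ent 5 := ⟨[a0, a255, a426], [a522, a170, a614], (M a192 (F (T t375 (L l1166 (T t376 (L l220 (T t400 N)))))))⟩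
def e0_255_426__522_170_26 : Ent 5 := ⟨[a0, a255, a426], [a522, a170, a626], (M a192 (F (T t375 (T t376 (L l220 (T t400 N))))))⟩
def e0_255_426__522_170_27 : Ent 5 := ⟨[a0, a255, a426], [a522, a170, a631], (M a192 (F (T t375 (L l1166 (T t376 (L l220 (T t400 N)))))))⟩
def e0_255_426__522_170_28 : Ent 5 := ⟨[a0, a255, a426], [a522, a170, a689], (M a192 (F (T t375 (T t376 (L l220 (T t400 N))))))⟩
def e0_255_426__522_170_29 : Ent 5 := ⟨[a0, a255, a426], [a522, a170, a699], (M a192 (F (T t375 (T t376 (L l220 (T t400 N))))))⟩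
def e0_255_426__522_170_30 : Ent 5 := ⟨[a0, a255, a426], [a522, a170, a785], (M a192 (F (T t771 (L l220 (T t400 (L l3227 (T t376 N)))))))⟩
def e0_255_426__522_170_31 : Ent 5 := ⟨[a0, a255, a426], [a522, a170, a795], (M a192 (F (T t375 (T t376 (L l220 (T t400 N))))))⟩
def e0_255_426__522_170_32 : Ent 5 := ⟨[a0, a255, a426], [a522, a170, a802], (M a192 (F (T t399 (L l220 (L l1586 (T t400 (T t376 N)))))))⟩
def e0_255_426__522_170_33 : Ent 5 := ⟨[a0, a255, a426], [a522, a170, a807], (M a192 (F (T t375 (T t376 (L l220 (T t400 N))))))⟩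
def e0_255_426__522_170_34 : Ent 5 := ⟨[a0, a255, a426], [a522, a170, a819], (M a192 (F (T t757 (L l2049 (T t376 (L l220 (T t400 N)))))))⟩
def e0_255_426__522_170_35 : Ent 5 := ⟨[a0, a255, a426], [a522, a170, a870], (M a192 (F (T t375 (T t376 (L l220 (T t400 N))))))⟩
def e0_255_426__522_170_36 : Ent 5 := ⟨[a0, a255, a426], [a522, a170, a882], (M a192 (F (T t375 (T t376 (L l220 (T t400 N))))))⟩
def e0_255_426__522_170_37 : Ent 5 := ⟨[a0, a255, a426], [a522, a170, a887], (M a192 (F (T t375 (T t376 (L l220 (L l1673 (T t400 N)))))))⟩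
def e0_255_426__522_170_38 : Ent 5 := ⟨[a0, a255, a426], [a522, a170, a945], (M a192 (F (T t375 (T t376 (L l220 (T t400 N))))))⟩
def e0_255_426__522_170_39 : Ent 5 := ⟨[a0, a255, a426], [a522, a170, a955], (M a192 (F (T t375 (T t376 (L l220 (T t400 N))))))⟩
def b0_255_426__522_170 : Blk 5 := ⟨[0, 255, 426], [522, 170], [17, 27, 34, 39, 51, 102, 114, 119, 177, 187, 273, 283, 290, 295, 307, 358, 370, 375, 433, 443, 529, 539, 546, 551, 563, 614, 626, 631, 689, 699, 785, 795, 802, 807, 819, 870, 882, 887, 945, 955], [e0_255_426__522_170_0, e0_255_426__522_170_1, e0_255_426__522_170_2, e0_255_426__522_170_3, e0_255_426__522_170_4, e0_255_426__522_170_5, e0_255_426__522_170_6, e0_255_426__522_170_7, e0_255_426__522_170_8, e0_255_426__522_170_9, e0_255_426__522_170_10, e0_255_426__522_170_11, e0_255_426__522_170_12, e0_255_426__522_170_13, e0_255_426__522_170_14, e0_255_426__522_170_15, e0_255_426__522_170_16, e0_255_426__522_170_17, e0_255_426__522_170_18,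 e0_255_426__522_170_19, e0_255_426__522_170_20, e0_255_426__522_170_21, e0_255_426__522_170_22, e0_255_426__522_170_23, e0_255_426__522_170_24, e0_255_426__522_170_25, e0_255_426__522_170_26, e0_255_426__522_170_27, e0_255_426__522_170_28, e0_255_426__522_170_29, e0_255_426__522_170_30, e0_255_426__522_170_31, e0_255_426__522_170_32, e0_255_426__522_170_33, e0_255_426__522_170_34, e0_255_426__522_170_35, e0_255_426__522_170_36, e0_255_426__522_170_37, e0_255_426__522_170_38, e0_255_426__522_170_39], by decide +kernel, by decide +kernel⟩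
def e0_255_426__527_170_0 : Ent 5 := ⟨[a0, a255, a426], [a527, a170, a17], (M a192 (F (T t375 (L l1379 (T t376 (L l220 (T t400 N)))))))⟩
def e0_255_426__527_170_1 : Ent 5 := ⟨[a0, a255, a426], [a527, a170, a27], (M a192 (F (T t375 (L l1379 (T t376 (L l220 (T t400 N)))))))⟩
def e0_255_426__527_170_2 : Ent 5 := ⟨[a0, a255, a426], [a527, a170, a34], (M a192 (L l402 (F (T t375 (L l1379 (T t376 (L l220 (T t400 (K a102 (M a238 (F (T t752 (L l208 (L l2154 (T t758 N)))))) (K a238 (M a102 (F (T t399 (L l220 (T t400 (L l1379 (T t376 N))))))) N))))))))))⟩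
def e0_255_426__527_170_3 : Ent 5 := ⟨[a0, a255, a426], [a527, a170, a39], (M a192 (F (T t375 (L l1379 (T t376 (L l220 (T t400 N)))))))⟩
def e0_255_426__527_170_4 : Ent 5 := ⟨[a0, a255, a426], [a527, a170, a51], (M a192 (F (T t757 (L l1379 (L l3129 (T t376 (L l220 (T t400 N))))))))⟩
def e0_255_426__527_170_5 : Ent 5 := ⟨[a0, a255, a426], [a527, a170, a102], (M a192 (L l402 (F (T t375 (L l1379 (T t376 (L l220 (T t400 (K a34 (M a238 (F (T t752 (L l208 (L l2154 (T t758 N)))))) (K a238 (M a34 (F (T t752 (L l150 (L l220 (T t760 N)))))) N))))))))))⟩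
def e0_255_426__527_170_6 : Ent 5 := ⟨[a0, a255, a426], [a527, a170, a114], (M a192 (F (T t375 (L l1379 (T t376 (L l220 (T t400 N)))))))⟩
def e0_255_426__527_170_7 : Ent 5 := ⟨[a0, a255, a426], [a527, a170, a119], (M a192 (F (T t375 (L l1379 (L l2487 (T t376 (L l220 (T t400 N))))))))⟩
def e0_255_426__527_170_8 : Ent 5 := ⟨[a0, a255, a426], [a527, a170, a177], (M a192 (F (T t375 (L l1379 (T t376 (L l220 (T t400 N)))))))⟩
def e0_255_426__527_170_9 : Ent 5 := ⟨[a0, a255, a426], [a527, a170, a187], (M a192 (L l208 (F (T t375 (L l1379 (T t376 (L l220 (T t400 (K a136 (M a153 (F (T t399 (L l156 (L l220 (T t400 (L l1379 (T t376 N)))))))) (K a153 (M a136 (F (T t752 (L l226 (L l464 (T t762 N)))))) N))))))))))⟩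
def e0_255_426__527_170_10 : Ent 5 := ⟨[a0, a255, a426], [a527, a170, a273], (M a192 (F (T t375 (L l564 (L l1379 (T t376 (L l220 (L l564 (T t400 N)))))))))⟩
def e0_255_426__527_170_11 : Ent 5 := ⟨[a0, a255, a426], [a527, a170, a283], (M a192 (F (T t375 (L l1379 (T t376 (L l220 (T t400 N)))))))⟩
def e0_255_426__527_170_12 : Ent 5 := ⟨[a0, a255, a426], [a527, a170, a290], (M a192 (F (T t771 (L l220 (L l564 (T t400 (L l564 (L l1379 (T t376 N)))))))))⟩
def e0_255_426__527_170_13 : Ent 5 := ⟨[a0, a255, a426], [a527, a170, a295], (M a192 (F (T t375 (L l1379 (T t376 (L l220 (T t400 N)))))))⟩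
def e0_255_426__527_170_14 : Ent 5 := ⟨[a0, a255, a426], [a527, a170, a307], (M a192 (F (T t375 (L l564 (L l1379 (T t376 (L l220 (L l564 (T t400 N)))))))))⟩
def e0_255_426__527_170_15 : Ent 5 := ⟨[a0, a255, a426], [a527, a170, a358], (M a192 (F (T t375 (L l1379 (L l2487 (T t376 (L l220 (T t400 N))))))))⟩
def e0_255_426__527_170_16 : Ent 5 := ⟨[a0, a255, a426], [a527, a170, a370], (M a192 (F (T t375 (L l1379 (T t376 (L l220 (T t400 N)))))))⟩
def e0_255_426__527_170_17 : Ent 5 := ⟨[a0, a255, a426], [a527, a170, a375], (M a192 (F (T t375 (L l1379 (T t376 (L l220 (L l2431 (T t400 N))))))))⟩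
def e0_255_426__527_170_18 : Ent 5 := ⟨[a0, a255, a426], [a527, a170, a433], (M a192 (F (T t375 (L l1379 (T t376 (L l220 (T t400 N)))))))⟩
def e0_255_426__527_170_19 : Ent 5 := ⟨[a0, a255, a426], [a527, a170, a443], (M a192 (F (T t375 (L l1379 (T t376 (L l220 (T t400 N)))))))⟩
def e0_255_426__527_170_20 : Ent 5 := ⟨[a0, a255, a426], [a527, a170, a529], (M a192 (F (T t771 (L l220 (T t400 (L l1379 (L l1405 (T t376 N))))))))⟩
def e0_255_426__527_170_21 : Ent 5 := ⟨[a0, a255, a426], [a527, a170, a539], (M a192 (L l1113 (F (T t375 (L l1379 (T t376 (L l220 (T t400 (K a563 (M a551 (F (T t399 (L l220 (T t400 (L l1379 (L l1529 (T t376 N)))))))) (K a551 (M a563 (F (T t399 (L l220 (T t400 (L l1379 (T t376 N))))))) N))))))))))⟩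
def e0_255_426__527_170_22 : Ent 5 := ⟨[a0, a255, a426], [a527, a170, a546], (M a192 (F (T t375 (L l1379 (T t376 (L l220 (T t400 N)))))))⟩
def e0_255_426__527_170_23 : Ent 5 := ⟨[a0, a255, a426], [a527, a170, a551], (M a192 (L l1113 (F (T t375 (L l1379 (T t376 (L l220 (T t400 (K a563 (M a539 (F (T t399 (L l220 (T t400 (L l1379 (L l1529 (T t376 N)))))))) (K a539 (M a563 (F (T t399 (L l220 (T t400 (L l1379 (T t376 N))))))) N))))))))))⟩
def e0_255_426__527_170_24 : Ent 5 := ⟨[a0, a255, a426], [a527, a170, a563], (M a192 (L l1113 (F (T t375 (L l1379 (L l1529 (T t376 (L l220 (T t400 (K a551 (M a539 (F (T t399 (L l220 (T t400 (L l1379 (L l1529 (T t376 N)))))))) (K a539 (M a551 (F (T t399 (L l220 (T t400 (L l1379 (L l1529 (T t376 N)))))))) N)))))))))))⟩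
def e0_255_426__527_170_25 : Ent 5 := ⟨[a0, a255, a426], [a527, a170, a614], (M a192 (F (T t375 (L l1166 (L l1379 (T t376 (L l220 (T t400 N))))))))⟩
def e0_255_426__527_170_26 : Ent 5 := ⟨[a0, a255, a426], [a527, a170, a626], (M a192 (F (T t375 (L l1379 (T t376 (L l220 (T t400 N)))))))⟩
def e0_255_426__527_170_27 : Ent 5 := ⟨[a0, a255, a426], [a527, a170, a631], (M a192 (F (T t375 (L l1166 (L l1379 (T t376 (L l220 (T t400 N))))))))⟩
def e0_255_426__527_170_28 : Ent 5 := ⟨[a0, a255, a426], [a527, a170, a689], (M a192 (F (T t375 (L l1379 (T t376 (L l220 (T t400 N)))))))⟩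
def e0_255_426__527_170_29 : Ent 5 := ⟨[a0, a255, a426], [a527, a170, a699], (M a192 (F (T t375 (L l1379 (T t376 (L l220 (T t400 N)))))))⟩
def e0_255_426__527_170_30 : Ent 5 := ⟨[a0, a255, a426], [a527, a170, a785], (M a192 (F (T t757 (L l1379 (L l3227 (T t376 (L l220 (T t400 N))))))))⟩
def e0_255_426__527_170_31 : Ent 5 := ⟨[a0, a255, a426], [a527, a170, a795], (M a192 (F (T t375 (L l1379 (T t376 (L l220 (T t400 N)))))))⟩
def e0_255_426__527_170_32 : Ent 5 := ⟨[a0, a255, a426], [a527, a170, a802], (M a192 (F (T t399 (L l220 (L l1586 (T t400 (L l1379 (T t376 N))))))))⟩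
def e0_255_426__527_170_33 : Ent 5 := ⟨[a0, a255, a426], [a527, a170, a807], (M a192 (F (T t375 (L l1379 (T t376 (L l220 (T t400 N)))))))⟩
def e0_255_426__527_170_34 : Ent 5 := ⟨[a0, a255, a426], [a527, a170, a819], (M a192 (F (T t757 (L l1379 (L l2049 (T t376 (L l220 (T t400 N))))))))⟩
def e0_255_426__527_170_35 : Ent 5 := ⟨[a0, a255, a426], [a527, a170, a870], (M a192 (F (T t375 (L l1379 (T t376 (L l220 (T t400 N)))))))⟩
def e0_255_426__527_170_36 : Ent 5 := ⟨[a0, a255, a426], [a527, a170, a882], (M a192 (F (T t375 (L l1379 (T t376 (L l220 (T t400 N)))))))⟩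
def e0_255_426__527_170_37 : Ent 5 := ⟨[a0, a255, a426], [a527, a170, a887], (M a192 (F (T t375 (L l1379 (T t376 (L l220 (L l1673 (T t400 N))))))))⟩
def e0_255_426__527_170_38 : Ent 5 := ⟨[a0, a255, a426], [a527, a170, a945], (M a192 (F (T t375 (L l1379 (T t376 (L l220 (T t400 N)))))))⟩
def e0_255_426__527_170_39 : Ent 5 := ⟨[a0, a255, a426], [a527, a170, a955], (M a192 (F (T t375 (L l1379 (T t376 (L l220 (T t400 N)))))))⟩
def b0_255_426__527_170 : Blk 5 := ⟨[0, 255, 426], [527, 170], [17, 27, 34, 39, 51, 102, 114, 119, 177, 187, 273, 283, 290, 295, 307, 358, 370, 375, 433, 443, 529, 539, 546, 551, 563, 614, 626, 631, 689, 699, 785, 795, 802, 807, 819, 870, 882, 887, 945, 955], [e0_255_426__527_170_0, e0_255_426__527_170_1, e0_255_426__527_170_2, e0_255_426__527_170_3, e0_255_426__527_170_4, e0_255_426__527_170_5, e0_255_426__527_170_6, e0_255_426__527_170_7, e0_255_426__527_170_8, e0_255_426__527_170_9, e0_255_426__527_170_10, e0_255_426__527_170_11,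 e0_255_426__527_170_12, e0_255_426__527_170_13, e0_255_426__527_170_14, e0_255_426__527_170_15, e0_255_426__527_170_16, e0_255_426__527_170_17, e0_255_426__527_170_18, e0_255_426__527_170_19, e0_255_426__527_170_20, e0_255_426__527_170_21, e0_255_426__527_170_22, e0_255_426__527_170_23, e0_255_426__527_170_24, e0_255_426__527_170_25, e0_255_426__527_170_26, e0_255_426__527_170_27, e0_255_426__527_170_28, e0_255_426__527_170_29, e0_255_426__527_170_30, e0_255_426__527_170_31, e0_255_426__527_170_32, e0_255_426__527_170_33, e0_255_426__527_170_34, e0_255_426__527_170_35, e0_255_426__527_170_36, e0_255_426__527_170_37, e0_255_426__527_170_38, e0_255_426__527_170_39], by decide +kernel, by decide +kernel⟩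

end Pool.Agent.Lib_TTT.K5
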