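import Pool.Agent.Lib_TTT.K5Base
import Pool.Agent.Lib_TTT.K5T00
import Pool.Agent.Lib_TTT.K5T01

/-! Certificates in `4^5`. -/

set_option autoImplicit false
set_option maxRecDepth 200000

namespace Pool.Agent.Lib_TTT.K5

open Lib_TTT AC DC

def e0_255_426__539_170_0 : Ent 5 := ⟨[a0, a255, a426], [a539, a170, a5], (M a192 (F (T t375 (T t376 (L l220 (T t400 N))))))⟩
def e0_255_426__539_170_1 : Ent 5 := ⟨[a0, a255, a426], [a539, a170, a10], (M a192 (L l462 (F (T t375 (T t376 (L l220 (T t400 (K a90 (M a250 (F (T t752 (L l180 (L l2094 (T t753 N)))))) (K a250 (M a90 (F (T t399 (L l220 (T t400 (T t376 N)))))) N)))))))))⟩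
def e0_255_426__539_170_2 : Ent 5 := ⟨[a0, a255, a426], [a539, a170, a15], (M a192 (F (T t757 (L l2979 (T t376 (L l220 (T t400 N)))))))⟩
def e0_255_426__539_170_3 : Ent 5 := ⟨[a0, a255, a426], [a539, a170, a17], (M a192 (F (T t375 (T t376 (L l220 (T t400 N))))))⟩
def e0_255_426__539_170_4 : Ent 5 := ⟨[a0, a255, a426], [a539, a170, a34], (M a192 (L l402 (F (T t375 (T t376 (L l220 (T t400 (K a102 (M a238 (F (T t752 (L l208 (L l2154 (T t758 N)))))) (K a238 (M a102 (F (T t399 (L l220 (T t400 (T t376 N)))))) N)))))))))⟩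
def e0_255_426__539_170_5 : Ent 5 := ⟨[a0, a255, a426], [a539, a170, a39], (M a192 (F (T t375 (T t376 (L l220 (T t400 N))))))⟩
def e0_255_426__539_170_6 : Ent 5 := ⟨[a0, a255, a426], [a539, a170, a51], (M a783 (F (T t845 (L l73 (T t846 (T t847 N))))))⟩
def e0_255_426__539_170_7 : Ent 5 := ⟨[a0, a255, a426], [a539, a170, a68], (M a192 (F (T t375 (T t376 (L l220 (T t400 N))))))⟩
def e0_255_426__539_170_8 : Ent 5 := ⟨[a0, a255, a426], [a539, a170, a80], (M a192 (F (T t375 (T t376 (L l220 (T t400 N))))))⟩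
def e0_255_426__539_170_9 : Ent 5 := ⟨[a0, a255, a426], [a539, a170, a85], (M a192 (F (L l347 (T t375 (L l2339 (T t376 (L l220 (L l347 (T t400 N)))))))))⟩
def e0_255_426__539_170_10 : Ent 5 := ⟨[a0, a255, a426], [a539, a170, a90], (M a192 (L l462 (F (T t375 (T t376 (L l220 (T t400 (K a10 (M a250 (F (T t752 (L l180 (L l2094 (T t753 N)))))) (K a250 (M a10 (F (T t752 (L l151 (L l220 (T t759 N)))))) N)))))))))⟩
def e0_255_426__539_170_11 : Ent 5 := ⟨[a0, a255, a426], [a539, a170, a95], (M a192 (F (T t375 (L l2367 (T t376 (L l220 (T t400 N)))))))⟩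
def e0_255_426__539_170_12 : Ent 5 := ⟨[a0, a255, a426], [a539, a170, a102], (M a192 (L l402 (F (T t375 (T t376 (L l220 (T t400 (K a34 (M a238 (F (T t752 (L l208 (L l2154 (T t758 N)))))) (K a238 (M a34 (F (T t752 (L l150 (L l220 (T t760 N)))))) N)))))))))⟩
def e0_255_426__539_170_13 : Ent 5 := ⟨[a0, a255, a426], [a539, a170, a119], (M a192 (F (T t375 (L l2487 (T t376 (L l220 (T t400 N)))))))⟩
def e0_255_426__539_170_14 : Ent 5 := ⟨[a0, a255, a426], [a539, a170, a136], (M a192 (L l208 (F (T t375 (T t376 (L l156 (L l220 (T t400 (K a153 (M a187 (F (T t752 (L l402 (L l2524 (T t761 N)))))) (K a187 (M a153 (F (T t399 (L l156 (L l220 (T t400 (T t376 N))))))) N))))))))))⟩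
def e0_255_426__539_170_15 : Ent 5 := ⟨[a0, a255, a426], [a539, a170, a153], (M a192 (L l208 (F (T t375 (T t376 (L l220 (T t400 (K a136 (M a187 (F (T t752 (L l402 (L l2524 (T t761 N)))))) (K a187 (M a136 (F (T t752 (L l226 (L l464 (T t762 N)))))) N)))))))))⟩
def e0_255_426__539_170_16 : Ent 5 := ⟨[a0, a255, a426], [a539, a170, a160], (M a192 (L l180 (F (T t375 (T t376 (L l192 (L l220 (T t400 (K a165 (M a175 (F (T t752 (L l462 (L l2584 (T t763 N)))))) (K a175 (M a165 (F (T t399 (L l192 (L l220 (T t400 (T t376 N))))))) N))))))))))⟩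
def e0_255_426__539_170_17 : Ent 5 := ⟨[a0, a255, a426], [a539, a170, a165], (M a192 (L l180 (F (T t375 (T t376 (L l220 (T t400 (K a160 (M a175 (F (T t752 (L l462 (L l2584 (T t763 N)))))) (K a175 (M a160 (F (T t752 (L l227 (L l483 (T t764 N)))))) N)))))))))⟩
def e0_255_426__539_170_18 : Ent 5 := ⟨[a0, a255, a426], [a539, a170, a175], (M a192 (L l180 (F (T t375 (T t376 (L l220 (T t400 (K a160 (M a165 (F (T t399 (L l192 (L l220 (T t400 (T t376 N))))))) (K a165 (M a160 (F (T t752 (L l227 (L l483 (T t764 N)))))) N)))))))))⟩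
def e0_255_426__539_170_19 : Ent 5 := ⟨[a0, a255, a426], [a539, a170, a187], (M a192 (L l208 (F (T t375 (T t376 (L l220 (T t400 (K a136 (M a153 (F (T t399 (L l156 (L l220 (T t400 (T t376 N))))))) (K a153 (M a136 (F (T t752 (L l226 (L l464 (T t762 N)))))) N)))))))))⟩
def e0_255_426__539_170_20 : Ent 5 := ⟨[a0, a255, a426], [a539, a170, a204], (M a192 (F (T t757 (L l2758 (T t376 (L l220 (T t400 N)))))))⟩
def e0_255_426__539_170_21 : Ent 5 := ⟨[a0, a255, a426], [a539, a170, a216], (M a192 (F (T t375 (T t376 (L l220 (T t400 N))))))⟩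
def e0_255_426__539_170_22 : Ent 5 := ⟨[a0, a255, a426], [a539, a170, a221], (M a192 (F (L l243 (T t375 (L l3227 (T t376 (L l220 (L l243 (T t400 N)))))))))⟩
def e0_255_426__539_170_23 : Ent 5 := ⟨[a0, a255, a426], [a539, a170, a238], (M a192 (L l402 (F (T t375 (T t376 (L l220 (T t400 (K a34 (M a102 (F (T t399 (L l220 (T t400 (T t376 N)))))) (K a102 (M a34 (F (T t752 (L l150 (L l220 (T t760 N)))))) N)))))))))⟩
def e0_255_426__539_170_24 : Ent 5 := ⟨[a0, a255, a426], [a539, a170, a240], (M a192 (F (T t757 (L l2908 (T t376 (L l220 (T t400 N)))))))⟩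
def e0_255_426__539_170_25 : Ent 5 := ⟨[a0, a255, a426], [a539, a170, a245], (M a192 (F (L l275 (T t375 (L l3347 (T t376 (L l220 (L l275 (T t400 N)))))))))⟩
def e0_255_426__539_170_26 : Ent 5 := ⟨[a0, a255, a426], [a539, a170, a250], (M a192 (L l462 (F (T t375 (T t376 (L l220 (T t400 (K a10 (M a90 (F (T t399 (L l220 (T t400 (T t376 N)))))) (K a90 (M a10 (F (T t752 (L l151 (L l220 (T t759 N)))))) N)))))))))⟩
def e0_255_426__539_170_27 : Ent 5 := ⟨[a0, a255, a426], [a539, a170, a256], (M a192 (F (T t757 (L l220 (T t765 (L l220 (T t766 (L l220 (T t767 (L l220 (L l588 (T t768 (L l390 (T t769 (K a831 (Fr a768 a597 l3375 (Fr a128 a64 l304 (V t770))) N)))))))))))))))⟩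
def e0_255_426__539_170_28 : Ent 5 := ⟨[a0, a255, a426], [a539, a170, a261], (M a192 (F (T t375 (L l528 (T t376 (L l220 (L l528 (T t400 N))))))))⟩
def e0_255_426__539_170_29 : Ent 5 := ⟨[a0, a255, a426], [a539, a170, a266], (M a192 (F (T t771 (L l220 (L l528 (T t400 (L l528 (T t376 N))))))))⟩
def e0_255_426__539_170_30 : Ent 5 := ⟨[a0, a255, a426], [a539, a170, a271], (M a192 (F (T t375 (L l528 (T t376 (L l220 (L l528 (T t400 N))))))))⟩
def e0_255_426__539_170_31 : Ent 5 := ⟨[a0, a255, a426], [a539, a170, a273], (M a192 (F (T t375 (L l564 (T t376 (L l220 (L l564 (T t400 N))))))))⟩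
def e0_255_426__539_170_32 : Ent 5 := ⟨[a0, a255, a426], [a539, a170, a290], (M a192 (F (T t771 (L l220 (L l564 (T t400 (L l564 (T t376 N))))))))⟩
def e0_255_426__539_170_33 : Ent 5 := ⟨[a0, a255, a426], [a539, a170, a295], (M a51 (F (T t848 (L l1113 (T t849 (L l402 (T t850 N)))))))⟩
def e0_255_426__539_170_34 : Ent 5 := ⟨[a0, a255, a426], [a539, a170, a307], (M a192 (F (T t375 (L l564 (T t376 (L l220 (L l564 (T t400 N))))))))⟩
def e0_255_426__539_170_35 : Ent 5 := ⟨[a0, a255, a426], [a539, a170, a324], (M a192 (F (T t375 (L l848 (T t376 (L l220 (L l848 (T t400 N))))))))⟩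
def e0_255_426__539_170_36 : Ent 5 := ⟨[a0, a255, a426], [a539, a170, a336], (M a192 (F (T t375 (L l968 (T t376 (L l220 (L l968 (T t400 N))))))))⟩
def e0_255_426__539_170_37 : Ent 5 := ⟨[a0, a255, a426], [a539, a170, a341], (M a192 (F (T t375 (L l2339 (T t376 (L l390 (T t774 (L l2468 (T t775 (K a768 (M a960 (F (T t776 (L l1628 (T t777 (L l390 (L l1628 (L l2295 (T t778 (L l2295 (T t779 N))))))))))) N))))))))))⟩
def e0_255_426__539_170_38 : Ent 5 := ⟨[a0, a255, a426], [a539, a170, a346], (M a192 (F (T t375 (L l2367 (T t376 (L l220 (T t400 N)))))))⟩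
def e0_255_426__539_170_39 : Ent 5 := ⟨[a0, a255, a426], [a539, a170, a351], (M a192 (F (T t375 (T t376 (L l220 (L l2461 (T t400 N)))))))⟩
def e0_255_426__539_170_40 : Ent 5 := ⟨[a0, a255, a426], [a539, a170, a358], (M a192 (F (T t375 (L l2487 (T t376 (L l220 (T t400 N)))))))⟩
def e0_255_426__539_170_41 : Ent 5 := ⟨[a0, a255, a426], [a539, a170, a375], (M a192 (F (T t375 (T t376 (L l220 (L l2431 (T t400 N)))))))⟩
def e0_255_426__539_170_42 : Ent 5 := ⟨[a0, a255, a426], [a539, a170, a392], (M a192 (F (T t771 (L l220 (L l848 (T t400 (L l676 (L l848 (T t376 N)))))))))⟩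
def e0_255_426__539_170_43 : Ent 5 := ⟨[a0, a255, a426], [a539, a170, a409], (M a192 (F (T t375 (L l3227 (T t376 (L l220 (T t400 N)))))))⟩
def e0_255_426__539_170_44 : Ent 5 := ⟨[a0, a255, a426], [a539, a170, a416], (M a192 (F (T t771 (L l220 (L l968 (T t400 (L l712 (L l968 (T t376 N)))))))))⟩
def e0_255_426__539_170_45 : Ent 5 := ⟨[a0, a255, a426], [a539, a170, a421], (M a192 (F (T t375 (L l3347 (T t376 (L l220 (T t400 N)))))))⟩
def e0_255_426__539_170_46 : Ent 5 := ⟨[a0, a255, a426], [a539, a170, a431], (M a192 (F (T t375 (T t376 (L l220 (T t400 N))))))⟩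
def e0_255_426__539_170_47 : Ent 5 := ⟨[a0, a255, a426], [a539, a170, a443], (M a192 (F (T t375 (T t376 (L l220 (T t400 N))))))⟩
def e0_255_426__539_170_48 : Ent 5 := ⟨[a0, a255, a426], [a539, a170, a460], (M a192 (F (T t375 (L l848 (T t376 (L l220 (L l848 (T t400 N))))))))⟩
def e0_255_426__539_170_49 : Ent 5 := ⟨[a0, a255, a426], [a539, a170, a472], (M a192 (F (T t375 (T t376 (L l220 (T t400 N))))))⟩
def e0_255_426__539_170_50 : Ent 5 := ⟨[a0, a255, a426], [a539, a170, a477], (M a192 (F (T t375 (T t376 (L l220 (T t400 N))))))⟩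
def e0_255_426__539_170_51 : Ent 5 := ⟨[a0, a255, a426], [a539, a170, a494], (M a192 (F (T t375 (T t376 (L l220 (T t400 N))))))⟩
def e0_255_426__539_170_52 : Ent 5 := ⟨[a0, a255, a426], [a539, a170, a496], (M a192 (F (T t375 (L l968 (T t376 (L l220 (L l968 (T t400 N))))))))⟩
def e0_255_426__539_170_53 : Ent 5 := ⟨[a0, a255, a426], [a539, a170, a501], (M a192 (F (T t375 (T t376 (L l220 (T t400 N))))))⟩
def e0_255_426__539_170_54 : Ent 5 := ⟨[a0, a255, a426], [a539, a170, a506], (M a192 (F (T t375 (T t376 (L l220 (T t400 N))))))⟩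
def e0_255_426__539_170_55 : Ent 5 := ⟨[a0, a255, a426], [a539, a170, a511], (M a192 (F (T t375 (T t376 (L l220 (T t765 (L l220 (T t782 N))))))))⟩
def e0_255_426__539_170_56 : Ent 5 := ⟨[a0, a255, a426], [a539, a170, a512], (M a192 (F (T t757 (L l220 (T t400 (L l220 (L l1344 (L l1516 (T t783 (L l390 (L l1108 (T t784 N))))))))))))⟩
def e0_255_426__539_170_57 : Ent 5 := ⟨[a0, a255, a426], [a539, a170, a517], (M a192 (F (T t771 (L l220 (T t400 (L l1495 (T t376 N)))))))⟩
def e0_255_426__539_170_58 : Ent 5 := ⟨[a0, a255, a426], [a539, a170, a522], (M a192 (F (T t375 (T t376 (L l220 (T t400 N))))))⟩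
def e0_255_426__539_170_59 : Ent 5 := ⟨[a0, a255, a426], [a539, a170, a527], (M a192 (L l1113 (F (T t375 (L l1379 (T t376 (L l220 (T t400 (K a563 (M a551 (F (T t399 (L l220 (T t400 (L l1379 (L l1529 (T t376 N)))))))) (K a551 (M a563 (F (T t399 (L l220 (T t400 (L l1379 (T t376 N))))))) N))))))))))⟩
def e0_255_426__539_170_60 : Ent 5 := ⟨[a0, a255, a426], [a539, a170, a529], (M a192 (F (T t771 (L l220 (T t400 (L l1405 (T t376 N)))))))⟩
def e0_255_426__539_170_61 : Ent 5 := ⟨[a0, a255, a426], [a539, a170, a546], (M a192 (F (T t375 (T t376 (L l220 (T t400 N))))))⟩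
def e0_255_426__539_170_62 : Ent 5 := ⟨[a0, a255, a426], [a539, a170, a551], (M a192 (L l1113 (F (T t375 (T t376 (L l220 (T t400 (K a563 (M a527 (F (T t399 (L l220 (T t400 (L l1529 (T t376 N))))))) (K a527 (M a563 (F (T t399 (L l220 (T t400 (L l1379 (T t376 N))))))) N)))))))))⟩
def e0_255_426__539_170_63 : Ent 5 := ⟨[a0, a255, a426], [a539, a170, a563], (M a192 (L l1113 (F (T t375 (L l1529 (T t376 (L l220 (T t400 (K a551 (M a527 (F (T t399 (L l220 (T t400 (L l1529 (T t376 N))))))) (K a527 (M a551 (F (T t399 (L l220 (T t400 (L l1379 (L l1529 (T t376 N)))))))) N))))))))))⟩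
def e0_255_426__539_170_64 : Ent 5 := ⟨[a0, a255, a426], [a539, a170, a580], (M a192 (F (T t771 (L l220 (T t400 (L l1166 (T t376 N)))))))⟩
def e0_255_426__539_170_65 : Ent 5 := ⟨[a0, a255, a426], [a539, a170, a592], (M a192 (F (T t771 (L l220 (T t400 (L l1134 (T t376 N)))))))⟩
def e0_255_426__539_170_66 : Ent 5 := ⟨[a0, a255, a426], [a539, a170, a597], (M a960 (F (L l1387 (T t786 (L l1387 (L l2339 (T t787 (L l220 (L l1387 (L l2511 (T t788 (L l220 (L l1387 (L l1516 (L l2511 (T t789 (K a533 (M a661 (F (T t790 (L l220 (L l1108 (L l1516 (L l2123 (L l2511 (T t791 (L l1108 (L l1516 (T t792 N)))))))))))) (K a661 (M a192 (L l1387 (F (T t793 (L l390 (L l2987 (T t794 (L l220 (L l3203 (T t400 (K a533 (Fr a725 a490 l2943 (V t795)) (K a725 (M a533 (F (T t793 (L l220 (L l2771 (L l3203 (T t400 (L l1260 (L l1336 (L l1559 (L l2771 (L l3203 (T t796 N))))))))))))) N)))))))))))) (K a725 (M a661 (F (T t797 (T t798 (L l220 (L l1516 (L l2511 (T t791 (L l1516 (T t792 N))))))))))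 (K a298 (M a192 (F (T t799 (L l1387 (L l3203 (T t800 (L l220 (L l588 (L l2166 (L l3203 (T t400 N))))))))))) (K a362 (M a192 (L l2511 (F (T t801 (L l1387 (L l3030 (L l3203 (T t800 (L l220 (L l3203 (T t400 (K a832 (M a127 (F (L l220 (L l2339 (T t802 (L l1039 (L l1516 (T t803 N)))))))) (K a127 (M a832 (F (T t804 (L l1039 (L l1516 (T t803 N)))))) N))))))))))))) (K a490 (M a192 (F (T t801 (L l816 (L l3203 (T t777 (L l220 (L l3203 (T t400 N))))))))) N))))))))))))))))))))))⟩
def e0_255_426__539_170_67 : Ent 5 := ⟨[a0, a255, a426], [a539, a170, a602], (M a192 (L l1397 (F (T t375 (L l1134 (T t376 (L l220 (T t400 (K a728 (M a665 (F (T t771 (L l402 (T t840 N))))) (K a665 (M a728 (F (T t771 (L l220 (T t400 (L l1134 (L l1405 (T t376 N)))))))) N))))))))))⟩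
def e0_255_426__539_170_68 : Ent 5 := ⟨[a0, a255, a426], [a539, a170, a607], (M a192 (F (T t375 (L l1134 (T t376 (L l220 (T t400 N)))))))⟩
def e0_255_426__539_170_69 : Ent 5 := ⟨[a0, a255, a426], [a539, a170, a614], (M a192 (F (T t375 (L l1166 (T t376 (L l220 (T t400 N)))))))⟩
def e0_255_426__539_170_70 : Ent 5 := ⟨[a0, a255, a426], [a539, a170, a631], (M a192 (F (T t375 (L l1166 (T t376 (L l220 (T t400 N)))))))⟩
def e0_255_426__539_170_71 : Ent 5 := ⟨[a0, a255, a426], [a539, a170, a648], (M a192 (F (T t375 (T t376 (L l220 (L l2536 (T t400 N)))))))⟩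
def e0_255_426__539_170_72 : Ent 5 := ⟨[a0, a255, a426], [a539, a170, a665], (M a192 (L l1397 (F (T t375 (L l1405 (T t376 (L l220 (T t400 (K a728 (M a602 (F (T t771 (L l180 (T t851 N))))) (K a602 (M a728 (F (T t771 (L l220 (T t400 (L l1134 (L l1405 (T t376 N)))))))) N))))))))))⟩
def e0_255_426__539_170_73 : Ent 5 := ⟨[a0, a255, a426], [a539, a170, a672], (M a192 (F (T t375 (T t376 (L l220 (L l2656 (T t400 N)))))))⟩
def e0_255_426__539_170_74 : Ent 5 := ⟨[a0, a255, a426], [a539, a170, a677], (M a192 (F (T t375 (L l1495 (T t376 (L l220 (T t400 N)))))))⟩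
def e0_255_426__539_170_75 : Ent 5 := ⟨[a0, a255, a426], [a539, a170, a682], (M a192 (F (T t375 (L l1516 (T t376 (L l220 (L l1430 (L l1516 (L l2684 (T t377 (L l220 (L l1430 (L l2684 (T t378 N))))))))))))))⟩
def e0_255_426__539_170_76 : Ent 5 := ⟨[a0, a255, a426], [a539, a170, a687], (M a192 (F (T t375 (T t376 (L l220 (T t400 N))))))⟩
def e0_255_426__539_170_77 : Ent 5 := ⟨[a0, a255, a426], [a539, a170, a699], (M a192 (F (T t375 (T t376 (L l220 (T t400 N))))))⟩
def e0_255_426__539_170_78 : Ent 5 := ⟨[a0, a255, a426], [a539, a170, a716], (M a192 (F (T t375 (L l1272 (T t376 (L l220 (T t400 N)))))))⟩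
def e0_255_426__539_170_79 : Ent 5 := ⟨[a0, a255, a426], [a539, a170, a728], (M a192 (L l1397 (F (T t375 (T t376 (L l220 (T t400 (K a665 (M a602 (F (T t771 (L l180 (T t851 N))))) (K a602 (M a665 (F (T t771 (L l402 (T t840 N))))) N)))))))))⟩
def e0_255_426__539_170_80 : Ent 5 := ⟨[a0, a255, a426], [a539, a170, a733], (M a192 (F (T t375 (L l1405 (T t376 (L l220 (T t400 N)))))))⟩
def e0_255_426__539_170_81 : Ent 5 := ⟨[a0, a255, a426], [a539, a170, a750], (M a192 (F (T t375 (T t376 (L l220 (T t400 N))))))⟩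
def e0_255_426__539_170_82 : Ent 5 := ⟨[a0, a255, a426], [a539, a170, a752], (M a192 (F (T t375 (L l1308 (T t376 (L l220 (T t400 N)))))))⟩
def e0_255_426__539_170_83 : Ent 5 := ⟨[a0, a255, a426], [a539, a170, a757], (M a192 (F (T t375 (L l1495 (T t376 (L l220 (T t400 N)))))))⟩
def e0_255_426__539_170_84 : Ent 5 := ⟨[a0, a255, a426], [a539, a170, a762], (M a192 (F (T t375 (T t376 (L l220 (T t400 N))))))⟩
def e0_255_426__539_170_85 : Ent 5 := ⟨[a0, a255, a426], [a539, a170, a767], (M a192 (F (T t375 (L l1336 (L l1516 (T t376 (L l220 (T t805 (L l220 (T t806 N))))))))))⟩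
def e0_255_426__539_170_86 : Ent 5 := ⟨[a0, a255, a426], [a539, a170, a768], (M a960 (F (L l2295 (T t786 (L l1628 (L l2295 (T t807 (L l2036 (L l2295 (T t808 (L l220 (L l2295 (T t809 (L l2295 (T t810 (K a533 (M a362 (L l2295 (F (T t811 (T t812 (K a298 (Fr a63 a661 l3159 (V t813)) (K a63 (Fr a298 a490 l910 (V t814)) N))))))) (K a341 (M a48 (F (L l2008 (T t815 (L l643 (L l1892 (L l2295 (T t816 N)))))))) (K a725 (M a48 (F (T t817 (L l404 (L l1892 (T t818 (L l1892 (T t819 N)))))))) (K a298 (M a661 (L l2295 (F (T t797 (L l2036 (T t820 (L l390 (L l588 (L l2166 (T t821 (K a533 (Fr a63 a362 l3159 (V t822)) (K a63 (M a533 (F (T t823 (L l220 (L l1628 (L l2166 (L l3160 (T t824 N)))))))) N)))))))))))) (K a362 (M a1008 (F (L l2260 (T t825 (L l1018 (L l3195 (T t826 (L l2115 (T t827 N))))))))) (K a490 (M a48 (F (T t828 (L l404 (L l1892 (T t818 (L l1892 (T t819 N)))))))) (K a63 (M a992 (L l2295 (F (T t829 (L l180 (T t830 (K a533 (M a298 (F (T t831 (L l38 (L l404 (L l2260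 (T t832 N))))))) (K a298 (M a533 (F (T t833 (T t829 (L l220 (L l1628 (L l2166 (L l3160 (T t834 N))))))))) N)))))))) N))))))))))))))))))))))⟩
def e0_255_426__539_170_87 : Ent 5 := ⟨[a0, a255, a426], [a539, a170, a773], (M a192 (F (T t757 (L l3347 (T t376 (L l220 (T t400 N)))))))⟩
def e0_255_426__539_170_88 : Ent 5 := ⟨[a0, a255, a426], [a539, a170, a778], (M a192 (F (T t399 (L l220 (L l1614 (T t400 (T t376 N)))))))⟩
def e0_255_426__539_170_89 : Ent 5 := ⟨[a0, a255, a426], [a539, a170, a783], (M a51 (F (T t852 (L l1113 (L l1633 (T t849 (L l402 (T t850 N))))))))⟩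
def e0_255_426__539_170_90 : Ent 5 := ⟨[a0, a255, a426], [a539, a170, a785], (M a192 (F (T t757 (L l3227 (T t376 (L l220 (T t400 N)))))))⟩
def e0_255_426__539_170_91 : Ent 5 := ⟨[a0, a255, a426], [a539, a170, a802], (M a192 (F (T t399 (L l220 (L l1586 (T t400 (T t376 N)))))))⟩
def e0_255_426__539_170_92 : Ent 5 := ⟨[a0, a255, a426], [a539, a170, a807], (M a192 (F (T t375 (T t376 (L l220 (T t400 N))))))⟩
def e0_255_426__539_170_93 : Ent 5 := ⟨[a0, a255, a426], [a539, a170, a819], (M a192 (F (T t757 (L l2049 (T t376 (L l220 (T t400 N)))))))⟩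
def e0_255_426__539_170_94 : Ent 5 := ⟨[a0, a255, a426], [a539, a170, a836], (M a192 (F (T t771 (L l220 (T t400 (L l2487 (T t376 N)))))))⟩
def e0_255_426__539_170_95 : Ent 5 := ⟨[a0, a255, a426], [a539, a170, a848], (M a192 (F (T t771 (L l220 (T t400 (L l2367 (T t376 N)))))))⟩
def e0_255_426__539_170_96 : Ent 5 := ⟨[a0, a255, a426], [a539, a170, a853], (M a192 (F (T t771 (L l220 (L l1704 (T t400 (L l2339 (T t376 N))))))))⟩
def e0_255_426__539_170_97 : Ent 5 := ⟨[a0, a255, a426], [a539, a170, a858], (M a192 (F (T t375 (T t376 (L l220 (T t400 N))))))⟩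
def e0_255_426__539_170_98 : Ent 5 := ⟨[a0, a255, a426], [a539, a170, a863], (M a192 (F (T t375 (T t376 (L l220 (L l1697 (T t400 N)))))))⟩
def e0_255_426__539_170_99 : Ent 5 := ⟨[a0, a255, a426], [a539, a170, a870], (M a192 (F (T t375 (T t376 (L l220 (T t400 N))))))⟩
def e0_255_426__539_170_100 : Ent 5 := ⟨[a0, a255, a426], [a539, a170, a887], (M a192 (F (T t375 (T t376 (L l220 (L l1673 (T t400 N)))))))⟩
def e0_255_426__539_170_101 : Ent 5 := ⟨[a0, a255, a426], [a539, a170, a904], (M a192 (F (T t771 (L l220 (T t400 (T t376 N))))))⟩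
def e0_255_426__539_170_102 : Ent 5 := ⟨[a0, a255, a426], [a539, a170, a921], (M a192 (F (T t375 (T t376 (L l220 (T t400 N))))))⟩
def e0_255_426__539_170_103 : Ent 5 := ⟨[a0, a255, a426], [a539, a170, a928], (M a192 (F (T t771 (L l220 (T t400 (T t376 N))))))⟩
def e0_255_426__539_170_104 : Ent 5 := ⟨[a0, a255, a426], [a539, a170, a933], (M a192 (F (T t375 (T t376 (L l220 (T t400 N))))))⟩
def e0_255_426__539_170_105 : Ent 5 := ⟨[a0, a255, a426], [a539, a170, a938], (M a192 (F (T t399 (L l220 (L l1950 (T t400 (T t376 N)))))))⟩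
def e0_255_426__539_170_106 : Ent 5 := ⟨[a0, a255, a426], [a539, a170, a943], (M a192 (F (T t375 (T t376 (L l220 (T t400 N))))))⟩
def e0_255_426__539_170_107 : Ent 5 := ⟨[a0, a255, a426], [a539, a170, a955], (M a192 (F (T t375 (T t376 (L l220 (T t400 N))))))⟩
def e0_255_426__539_170_108 : Ent 5 := ⟨[a0, a255, a426], [a539, a170, a972], (M a192 (F (T t757 (L l1792 (T t376 (L l220 (T t400 N)))))))⟩
def e0_255_426__539_170_109 : Ent 5 := ⟨[a0, a255, a426], [a539, a170, a984], (M a192 (F (T t375 (T t376 (L l220 (T t400 N))))))⟩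
def e0_255_426__539_170_110 : Ent 5 := ⟨[a0, a255, a426], [a539, a170, a989], (M a192 (F (T t375 (T t376 (L l220 (T t400 N))))))⟩
def e0_255_426__539_170_111 : Ent 5 := ⟨[a0, a255, a426], [a539, a170, a1006], (M a192 (F (T t375 (T t376 (L l220 (T t400 N))))))⟩
def e0_255_426__539_170_112 : Ent 5 := ⟨[a0, a255, a426], [a539, a170, a1008], (M a192 (F (T t757 (L l1828 (T t376 (L l220 (T t400 N)))))))⟩
def e0_255_426__539_170_113 : Ent 5 := ⟨[a0, a255, a426], [a539, a170, a1013], (M a192 (F (T t375 (T t376 (L l220 (T t400 N))))))⟩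
def e0_255_426__539_170_114 : Ent 5 := ⟨[a0, a255, a426], [a539, a170, a1018], (M a192 (F (T t375 (T t376 (L l220 (T t400 N))))))⟩
def e0_255_426__539_170_115 : Ent 5 := ⟨[a0, a255, a426], [a539, a170, a1023], (M a192 (F (T t757 (L l1856 (T t376 (L l220 (L l3073 (T t838 (L l220 (L l1993 (T t839 N)))))))))))⟩
def b0_255_426__539_170 : Blk 5 := ⟨[0, 255, 426], [539, 170], [5, 10, 15, 17, 34, 39, 51, 68, 80, 85, 90, 95, 102, 119, 136, 153, 160, 165, 175, 187, 204, 216, 221, 238, 240, 245, 250, 256, 261, 266, 271, 273, 290, 295, 307, 324, 336, 341, 346, 351, 358, 375, 392, 409, 416, 421, 431, 443, 460, 472, 477, 494, 496, 501, 506, 511, 512, 517, 522, 527, 529, 546, 551, 563, 580, 592, 597, 602, 607, 614, 631, 648, 665, 672, 677, 682, 687, 699, 716, 728, 733, 750, 752, 757, 762, 767, 768, 773, 778, 783, 785, 802, 807, 819, 836, 848, 853, 858, 863, 870, 887, 904, 921, 928, 933, 938, 943, 955, 972, 984, 989, 1006, 1008, 1013, 1018, 1023], [e0_255_426__539_170_0,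 e0_255_426__539_170_1, e0_255_426__539_170_2, e0_255_426__539_170_3, e0_255_426__539_170_4, e0_255_426__539_170_5, e0_255_426__539_170_6, e0_255_426__539_170_7, e0_255_426__539_170_8, e0_255_426__539_170_9, e0_255_426__539_170_10, e0_255_426__539_170_11, e0_255_426__539_170_12, e0_255_426__539_170_13, e0_255_426__539_170_14, e0_255_426__539_170_15, e0_255_426__539_170_16, e0_255_426__539_170_17, e0_255_426__539_170_18, e0_255_426__539_170_19, e0_255_426__539_170_20, e0_255_426__539_170_21, e0_255_426__539_170_22, e0_255_426__539_170_23, e0_255_426__539_170_24, e0_255_426__539_170_25, e0_255_426__539_170_26, e0_255_426__539_170_27, e0_255_426__539_170_28, e0_255_426__539_170_29, e0_255_426__539_170_30, e0_255_426__539_170_31, e0_255_426__539_170_32, e0_255_426__539_170_33, e0_255_426__539_170_34, e0_255_426__539_170_35, e0_255_426__539_170_36, e0_255_426__539_170_37, e0_255_426__539_170_38, e0_255_426__539_170_39, e0_255_426__539_170_40, e0_255_426__539_170_41,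 e0_255_426__539_170_42, e0_255_426__539_170_43, e0_255_426__539_170_44, e0_255_426__539_170_45, e0_255_426__539_170_46, e0_255_426__539_170_47, e0_255_426__539_170_48, e0_255_426__539_170_49, e0_255_426__539_170_50, e0_255_426__539_170_51, e0_255_426__539_170_52, e0_255_426__539_170_53, e0_255_426__539_170_54, e0_255_426__539_170_55, e0_255_426__539_170_56, e0_255_426__539_170_57, e0_255_426__539_170_58, e0_255_426__539_170_59, e0_255_426__539_170_60, e0_255_426__539_170_61, e0_255_426__539_170_62, e0_255_426__539_170_63, e0_255_426__539_170_64, e0_255_426__539_170_65, e0_255_426__539_170_66, e0_255_426__539_170_67, e0_255_426__539_170_68, e0_255_426__539_170_69, e0_255_426__539_170_70, e0_255_426__539_170_71, e0_255_426__539_170_72, e0_255_426__539_170_73, e0_255_426__539_170_74, e0_255_426__539_170_75, e0_255_426__539_170_76, e0_255_426__539_170_77, e0_255_426__539_170_78, e0_255_426__539_170_79, e0_255_426__539_170_80, e0_255_426__539_170_81, e0_255_426__539_170_82,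 e0_255_426__539_170_83, e0_255_426__539_170_84, e0_255_426__539_170_85, e0_255_426__539_170_86, e0_255_426__539_170_87, e0_255_426__539_170_88, e0_255_426__539_170_89, e0_255_426__539_170_90, e0_255_426__539_170_91, e0_255_426__539_170_92, e0_255_426__539_170_93, e0_255_426__539_170_94, e0_255_426__539_170_95, e0_255_426__539_170_96, e0_255_426__539_170_97, e0_255_426__539_170_98, e0_255_426__539_170_99, e0_255_426__539_170_100, e0_255_426__539_170_101, e0_255_426__539_170_102, e0_255_426__539_170_103, e0_255_426__539_170_104, e0_255_426__539_170_105, e0_255_426__539_170_106, e0_255_426__539_170_107, e0_255_426__539_170_108, e0_255_426__539_170_109, e0_255_426__539_170_110, e0_255_426__539_170_111, e0_255_426__539_170_112, e0_255_426__539_170_113, e0_255_426__539_170_114, e0_255_426__539_170_115], by decide +kernel, by decide +kernel⟩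
def e0_255_426__607_170_0 : Ent 5 := ⟨[a0, a255, a426], [a607, a170, a17], (M a192 (F (T t375 (L l1134 (T t376 (L l220 (T t400 N)))))))⟩
def e0_255_426__607_170_1 : Ent 5 := ⟨[a0, a255, a426], [a607, a170, a27], (M a192 (F (T t375 (L l1134 (T t376 (L l220 (T t400 N)))))))⟩
def e0_255_426__607_170_2 : Ent 5 := ⟨[a0, a255, a426], [a607, a170, a34], (M a192 (L l402 (F (T t375 (L l1134 (T t376 (L l220 (T t400 (K a102 (M a238 (F (T t757 (L l208 (L l2154 (T t758 N)))))) (K a238 (M a102 (F (T t842 (L l1134 (T t376 (L l220 (T t400 N))))))) N))))))))))⟩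
def e0_255_426__607_170_3 : Ent 5 := ⟨[a0, a255, a426], [a607, a170, a39], (M a192 (F (T t375 (L l1134 (T t376 (L l220 (T t400 N)))))))⟩
def e0_255_426__607_170_4 : Ent 5 := ⟨[a0, a255, a426], [a607, a170, a51], (M a192 (F (T t757 (L l1134 (L l3129 (T t376 (L l220 (T t400 N))))))))⟩
def e0_255_426__607_170_5 : Ent 5 := ⟨[a0, a255, a426], [a607, a170, a102], (M a192 (L l402 (F (T t375 (L l1134 (T t376 (L l220 (T t400 (K a34 (M a238 (F (T t757 (L l208 (L l2154 (T t758 N)))))) (K a238 (M a34 (F (T t842 (L l150 (L l220 (T t760 N)))))) N))))))))))⟩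
def e0_255_426__607_170_6 : Ent 5 := ⟨[a0, a255, a426], [a607, a170, a114], (M a192 (F (T t375 (L l1134 (T t376 (L l220 (T t400 N)))))))⟩
def e0_255_426__607_170_7 : Ent 5 := ⟨[a0, a255, a426], [a607, a170, a119], (M a192 (F (T t375 (L l1134 (L l2487 (T t376 (L l220 (T t400 N))))))))⟩
def e0_255_426__607_170_8 : Ent 5 := ⟨[a0, a255, a426], [a607, a170, a177], (M a192 (F (T t375 (L l1134 (T t376 (L l220 (T t400 N)))))))⟩
def e0_255_426__607_170_9 : Ent 5 := ⟨[a0, a255, a426], [a607, a170, a187], (M a192 (L l208 (F (T t375 (L l1134 (T t376 (L l220 (T t400 (K a136 (M a153 (F (T t842 (L l1134 (T t376 (L l156 (L l220 (T t400 N)))))))) (K a153 (M a136 (F (T t375 (L l226 (L l464 (T t762 N)))))) N))))))))))⟩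
def e0_255_426__607_170_10 : Ent 5 := ⟨[a0, a255, a426], [a607, a170, a273], (M a192 (F (T t375 (L l564 (L l1134 (T t376 (L l220 (L l564 (T t400 N)))))))))⟩
def e0_255_426__607_170_11 : Ent 5 := ⟨[a0, a255, a426], [a607, a170, a283], (M a192 (F (T t375 (L l1134 (T t376 (L l220 (T t400 N)))))))⟩
def e0_255_426__607_170_12 : Ent 5 := ⟨[a0, a255, a426], [a607, a170, a290], (M a192 (F (T t771 (L l220 (L l564 (T t400 (L l564 (L l1134 (T t376 N)))))))))⟩
def e0_255_426__607_170_13 : Ent 5 := ⟨[a0, a255, a426], [a607, a170, a295], (M a192 (F (T t375 (L l1134 (T t376 (L l220 (T t400 N)))))))⟩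
def e0_255_426__607_170_14 : Ent 5 := ⟨[a0, a255, a426], [a607, a170, a307], (M a192 (F (T t375 (L l564 (L l1134 (T t376 (L l220 (L l564 (T t400 N)))))))))⟩
def e0_255_426__607_170_15 : Ent 5 := ⟨[a0, a255, a426], [a607, a170, a358], (M a192 (F (T t375 (L l1134 (L l2487 (T t376 (L l220 (T t400 N))))))))⟩
def e0_255_426__607_170_16 : Ent 5 := ⟨[a0, a255, a426], [a607, a170, a370], (M a192 (F (T t375 (L l1134 (T t376 (L l220 (T t400 N)))))))⟩
def e0_255_426__607_170_17 : Ent 5 := ⟨[a0, a255, a426], [a607, a170, a375], (M a192 (F (T t375 (L l1134 (T t376 (L l220 (L l2431 (T t400 N))))))))⟩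
def e0_255_426__607_170_18 : Ent 5 := ⟨[a0, a255, a426], [a607, a170, a433], (M a192 (F (T t375 (L l1134 (T t376 (L l220 (T t400 N)))))))⟩
def e0_255_426__607_170_19 : Ent 5 := ⟨[a0, a255, a426], [a607, a170, a443], (M a192 (F (T t375 (L l1134 (T t376 (L l220 (T t400 N)))))))⟩
def e0_255_426__607_170_20 : Ent 5 := ⟨[a0, a255, a426], [a607, a170, a529], (M a192 (F (T t771 (L l220 (T t400 (L l1134 (L l1405 (T t376 N))))))))⟩
def e0_255_426__607_170_21 : Ent 5 := ⟨[a0, a255, a426], [a607, a170, a539], (M a192 (F (T t375 (L l1134 (T t376 (L l220 (T t400 N)))))))⟩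
def e0_255_426__607_170_22 : Ent 5 := ⟨[a0, a255, a426], [a607, a170, a546], (M a192 (F (T t375 (L l1134 (T t376 (L l220 (T t400 N)))))))⟩
def e0_255_426__607_170_23 : Ent 5 := ⟨[a0, a255, a426], [a607, a170, a551], (M a192 (F (T t375 (L l1134 (T t376 (L l220 (T t400 N)))))))⟩
def e0_255_426__607_170_24 : Ent 5 := ⟨[a0, a255, a426], [a607, a170, a563], (M a192 (F (T t375 (L l1134 (L l1529 (T t376 (L l220 (T t400 N))))))))⟩
def e0_255_426__607_170_25 : Ent 5 := ⟨[a0, a255, a426], [a607, a170, a614], (M a192 (F (T t375 (L l1134 (L l1166 (T t376 (L l220 (T t400 N))))))))⟩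
def e0_255_426__607_170_26 : Ent 5 := ⟨[a0, a255, a426], [a607, a170, a626], (M a192 (F (T t375 (L l1134 (T t376 (L l220 (T t400 N)))))))⟩
def e0_255_426__607_170_27 : Ent 5 := ⟨[a0, a255, a426], [a607, a170, a631], (M a192 (F (T t375 (L l1134 (L l1166 (T t376 (L l220 (T t400 N))))))))⟩
def e0_255_426__607_170_28 : Ent 5 := ⟨[a0, a255, a426], [a607, a170, a689], (M a192 (F (T t375 (L l1134 (T t376 (L l220 (T t400 N)))))))⟩
def e0_255_426__607_170_29 : Ent 5 := ⟨[a0, a255, a426], [a607, a170, a699], (M a192 (F (T t375 (L l1134 (T t376 (L l220 (T t400 N)))))))⟩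
def e0_255_426__607_170_30 : Ent 5 := ⟨[a0, a255, a426], [a607, a170, a785], (M a192 (F (T t757 (L l1134 (L l3227 (T t376 (L l220 (T t400 N))))))))⟩
def e0_255_426__607_170_31 : Ent 5 := ⟨[a0, a255, a426], [a607, a170, a795], (M a192 (F (T t375 (L l1134 (T t376 (L l220 (T t400 N)))))))⟩
def e0_255_426__607_170_32 : Ent 5 := ⟨[a0, a255, a426], [a607, a170, a802], (M a192 (F (L l1586 (T t771 (L l1134 (T t376 (L l220 (L l1586 (T t400 N)))))))))⟩
def e0_255_426__607_170_33 : Ent 5 := ⟨[a0, a255, a426], [a607, a170, a807], (M a192 (F (T t375 (L l1134 (T t376 (L l220 (T t400 N)))))))⟩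
def e0_255_426__607_170_34 : Ent 5 := ⟨[a0, a255, a426], [a607, a170, a819], (M a192 (F (T t757 (L l1134 (L l2049 (T t376 (L l220 (T t400 N))))))))⟩
def e0_255_426__607_170_35 : Ent 5 := ⟨[a0, a255, a426], [a607, a170, a870], (M a192 (F (T t375 (L l1134 (T t376 (L l220 (T t400 N)))))))⟩
def e0_255_426__607_170_36 : Ent 5 := ⟨[a0, a255, a426], [a607, a170, a882], (M a192 (F (T t375 (L l1134 (T t376 (L l220 (T t400 N)))))))⟩
def e0_255_426__607_170_37 : Ent 5 := ⟨[a0, a255, a426], [a607, a170, a887], (M a192 (F (T t375 (L l1134 (T t376 (L l220 (L l1673 (T t400 N))))))))⟩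
def e0_255_426__607_170_38 : Ent 5 := ⟨[a0, a255, a426], [a607, a170, a945], (M a192 (F (T t375 (L l1134 (T t376 (L l220 (T t400 N)))))))⟩
def e0_255_426__607_170_39 : Ent 5 := ⟨[a0, a255, a426], [a607, a170, a955], (M a192 (F (T t375 (L l1134 (T t376 (L l220 (T t400 N)))))))⟩
def b0_255_426__607_170 : Blk 5 := ⟨[0, 255, 426], [607, 170], [17, 27, 34, 39, 51, 102, 114, 119, 177, 187, 273, 283, 290, 295, 307, 358, 370, 375, 433, 443, 529, 539, 546, 551, 563, 614, 626, 631, 689, 699, 785, 795, 802, 807, 819, 870, 882, 887, 945, 955], [e0_255_426__607_170_0, e0_255_426__607_170_1, e0_255_426__607_170_2, e0_255_426__607_170_3, e0_255_426__607_170_4, e0_255_426__607_170_5, e0_255_426__607_170_6, e0_255_426__607_170_7, e0_255_426__607_170_8, e0_255_426__607_170_9, e0_255_426__607_170_10, e0_255_426__607_170_11, e0_255_426__607_170_12, e0_255_426__607_170_13, e0_255_426__607_170_14, e0_255_426__607_170_15, e0_255_426__607_170_16, e0_255_426__607_170_17, e0_255_426__607_170_18,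 e0_255_426__607_170_19, e0_255_426__607_170_20, e0_255_426__607_170_21, e0_255_426__607_170_22, e0_255_426__607_170_23, e0_255_426__607_170_24, e0_255_426__607_170_25, e0_255_426__607_170_26, e0_255_426__607_170_27, e0_255_426__607_170_28, e0_255_426__607_170_29, e0_255_426__607_170_30, e0_255_426__607_170_31, e0_255_426__607_170_32, e0_255_426__607_170_33, e0_255_426__607_170_34, e0_255_426__607_170_35, e0_255_426__607_170_36, e0_255_426__607_170_37, e0_255_426__607_170_38, e0_255_426__607_170_39], by decide +kernel, by decide +kernel⟩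
def e0_255_426__687_170_0 : Ent 5 := ⟨[a0, a255, a426], [a687, a170, a17], (M a192 (F (T t375 (T t376 (L l220 (T t400 N))))))⟩
def e0_255_426__687_170_1 : Ent 5 := ⟨[a0, a255, a426], [a687, a170, a27], (M a192 (F (T t375 (T t376 (L l220 (T t400 N))))))⟩
def e0_255_426__687_170_2 : Ent 5 := ⟨[a0, a255, a426], [a687, a170, a34], (M a192 (L l402 (F (T t375 (T t376 (L l220 (T t400 (K a102 (M a238 (F (T t752 (L l208 (L l2154 (T t758 N)))))) (K a238 (M a102 (F (T t399 (L l220 (T t400 (T t376 N)))))) N)))))))))⟩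
def e0_255_426__687_170_3 : Ent 5 := ⟨[a0, a255, a426], [a687, a170, a39], (M a192 (F (T t375 (T t376 (L l220 (T t400 N))))))⟩
def e0_255_426__687_170_4 : Ent 5 := ⟨[a0, a255, a426], [a687, a170, a51], (M a192 (F (T t757 (L l3129 (T t376 (L l220 (T t400 N)))))))⟩
def e0_255_426__687_170_5 : Ent 5 := ⟨[a0, a255, a426], [a687, a170, a102], (M a192 (L l402 (F (T t375 (T t376 (L l220 (T t400 (K a34 (M a238 (F (T t752 (L l208 (L l2154 (T t758 N)))))) (K a238 (M a34 (F (T t752 (L l150 (L l220 (T t760 N)))))) N)))))))))⟩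
def e0_255_426__687_170_6 : Ent 5 := ⟨[a0, a255, a426], [a687, a170, a114], (M a192 (F (T t375 (T t376 (L l220 (T t400 N))))))⟩
def e0_255_426__687_170_7 : Ent 5 := ⟨[a0, a255, a426], [a687, a170, a119], (M a192 (F (T t375 (L l2487 (T t376 (L l220 (T t400 N)))))))⟩
def e0_255_426__687_170_8 : Ent 5 := ⟨[a0, a255, a426], [a687, a170, a177], (M a192 (F (T t375 (T t376 (L l220 (T t400 N))))))⟩
def e0_255_426__687_170_9 : Ent 5 := ⟨[a0, a255, a426], [a687, a170, a187], (M a192 (L l208 (F (T t375 (T t376 (L l220 (T t400 (K a136 (M a153 (F (T t399 (L l156 (L l220 (T t400 (T t376 N))))))) (K a153 (M a136 (F (T t752 (L l226 (L l464 (T t762 N)))))) N)))))))))⟩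
def e0_255_426__687_170_10 : Ent 5 := ⟨[a0, a255, a426], [a687, a170, a273], (M a192 (F (T t375 (L l564 (T t376 (L l220 (L l564 (T t400 N))))))))⟩
def e0_255_426__687_170_11 : Ent 5 := ⟨[a0, a255, a426], [a687, a170, a283], (M a192 (F (T t375 (T t376 (L l220 (T t400 N))))))⟩
def e0_255_426__687_170_12 : Ent 5 := ⟨[a0, a255, a426], [a687, a170, a290], (M a192 (F (T t757 (L l564 (T t376 (L l220 (L l564 (T t400 N))))))))⟩
def e0_255_426__687_170_13 : Ent 5 := ⟨[a0, a255, a426], [a687, a170, a295], (M a192 (F (T t375 (T t376 (L l220 (T t400 N))))))⟩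
def e0_255_426__687_170_14 : Ent 5 := ⟨[a0, a255, a426], [a687, a170, a307], (M a192 (F (T t375 (L l564 (T t376 (L l220 (L l564 (T t400 N))))))))⟩
def e0_255_426__687_170_15 : Ent 5 := ⟨[a0, a255, a426], [a687, a170, a358], (M a192 (F (T t375 (L l2487 (T t376 (L l220 (T t400 N)))))))⟩
def e0_255_426__687_170_16 : Ent 5 := ⟨[a0, a255, a426], [a687, a170, a370], (M a192 (F (T t375 (T t376 (L l220 (T t400 N))))))⟩
def e0_255_426__687_170_17 : Ent 5 := ⟨[a0, a255, a426], [a687, a170, a375], (M a192 (F (T t375 (T t376 (L l220 (L l2431 (T t400 N)))))))⟩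
def e0_255_426__687_170_18 : Ent 5 := ⟨[a0, a255, a426], [a687, a170, a433], (M a192 (F (T t375 (T t376 (L l220 (T t400 N))))))⟩
def e0_255_426__687_170_19 : Ent 5 := ⟨[a0, a255, a426], [a687, a170, a443], (M a192 (F (T t375 (T t376 (L l220 (T t400 N))))))⟩
def e0_255_426__687_170_20 : Ent 5 := ⟨[a0, a255, a426], [a687, a170, a529], (M a192 (F (T t771 (L l220 (T t400 (L l1405 (T t376 N)))))))⟩
def e0_255_426__687_170_21 : Ent 5 := ⟨[a0, a255, a426], [a687, a170, a539], (M a192 (F (T t375 (T t376 (L l220 (T t400 N))))))⟩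
def e0_255_426__687_170_22 : Ent 5 := ⟨[a0, a255, a426], [a687, a170, a546], (M a192 (F (T t375 (T t376 (L l220 (T t400 N))))))⟩
def e0_255_426__687_170_23 : Ent 5 := ⟨[a0, a255, a426], [a687, a170, a551], (M a192 (F (T t375 (T t376 (L l220 (T t400 N))))))⟩
def e0_255_426__687_170_24 : Ent 5 := ⟨[a0, a255, a426], [a687, a170, a563], (M a192 (F (T t375 (L l1529 (T t376 (L l220 (T t400 N)))))))⟩
def e0_255_426__687_170_25 : Ent 5 := ⟨[a0, a255, a426], [a687, a170, a614], (M a192 (F (T t375 (L l1166 (T t376 (L l220 (T t400 N)))))))⟩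
def e0_255_426__687_170_26 : Ent 5 := ⟨[a0, a255, a426], [a687, a170, a626], (M a192 (F (T t375 (T t376 (L l220 (T t400 N))))))⟩
def e0_255_426__687_170_27 : Ent 5 := ⟨[a0, a255, a426], [a687, a170, a631], (M a192 (F (T t375 (L l1166 (T t376 (L l220 (T t400 N)))))))⟩
def e0_255_426__687_170_28 : Ent 5 := ⟨[a0, a255, a426], [a687, a170, a689], (M a192 (F (T t375 (T t376 (L l220 (T t400 N))))))⟩
def e0_255_426__687_170_29 : Ent 5 := ⟨[a0, a255, a426], [a687, a170, a699], (M a192 (F (T t375 (T t376 (L l220 (T t400 N))))))⟩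
def e0_255_426__687_170_30 : Ent 5 := ⟨[a0, a255, a426], [a687, a170, a785], (M a192 (F (T t771 (L l220 (T t400 (L l3227 (T t376 N)))))))⟩
def e0_255_426__687_170_31 : Ent 5 := ⟨[a0, a255, a426], [a687, a170, a795], (M a192 (F (T t375 (T t376 (L l220 (T t400 N))))))⟩
def e0_255_426__687_170_32 : Ent 5 := ⟨[a0, a255, a426], [a687, a170, a802], (M a192 (F (T t399 (L l220 (L l1586 (T t400 (T t376 N)))))))⟩
def e0_255_426__687_170_33 : Ent 5 := ⟨[a0, a255, a426], [a687, a170, a807], (M a192 (F (T t375 (T t376 (L l220 (T t400 N))))))⟩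
def e0_255_426__687_170_34 : Ent 5 := ⟨[a0, a255, a426], [a687, a170, a819], (M a192 (F (T t757 (L l2049 (T t376 (L l220 (T t400 N)))))))⟩
def e0_255_426__687_170_35 : Ent 5 := ⟨[a0, a255, a426], [a687, a170, a870], (M a192 (F (T t375 (T t376 (L l220 (T t400 N))))))⟩
def e0_255_426__687_170_36 : Ent 5 := ⟨[a0, a255, a426], [a687, a170, a882], (M a192 (F (T t375 (T t376 (L l220 (T t400 N))))))⟩
def e0_255_426__687_170_37 : Ent 5 := ⟨[a0, a255, a426], [a687, a170, a887], (M a192 (F (T t375 (T t376 (L l220 (L l1673 (T t400 N)))))))⟩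
def e0_255_426__687_170_38 : Ent 5 := ⟨[a0, a255, a426], [a687, a170, a945], (M a192 (F (T t375 (T t376 (L l220 (T t400 N))))))⟩
def e0_255_426__687_170_39 : Ent 5 := ⟨[a0, a255, a426], [a687, a170, a955], (M a192 (F (T t375 (T t376 (L l220 (T t400 N))))))⟩
def b0_255_426__687_170 : Blk 5 := ⟨[0, 255, 426], [687, 170], [17, 27, 34, 39, 51, 102, 114, 119, 177, 187, 273, 283, 290, 295, 307, 358, 370, 375, 433, 443, 529, 539, 546, 551, 563, 614, 626, 631, 689, 699, 785, 795, 802, 807, 819, 870, 882, 887, 945, 955], [e0_255_426__687_170_0, e0_255_426__687_170_1, e0_255_426__687_170_2, e0_255_426__687_170_3, e0_255_426__687_170_4, e0_255_426__687_170_5, e0_255_426__687_170_6, e0_255_426__687_170_7, e0_255_426__687_170_8, e0_255_426__687_170_9, e0_255_426__687_170_10, e0_255_426__687_170_11, e0_255_426__687_170_12, e0_255_426__687_170_13, e0_255_426__687_170_14, e0_255_426__687_170_15, e0_255_426__687_170_16, e0_255_426__687_170_17, e0_255_426__687_170_18,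 e0_255_426__687_170_19, e0_255_426__687_170_20, e0_255_426__687_170_21, e0_255_426__687_170_22, e0_255_426__687_170_23, e0_255_426__687_170_24, e0_255_426__687_170_25, e0_255_426__687_170_26, e0_255_426__687_170_27, e0_255_426__687_170_28, e0_255_426__687_170_29, e0_255_426__687_170_30, e0_255_426__687_170_31, e0_255_426__687_170_32, e0_255_426__687_170_33, e0_255_426__687_170_34, e0_255_426__687_170_35, e0_255_426__687_170_36, e0_255_426__687_170_37, e0_255_426__687_170_38, e0_255_426__687_170_39], by decide +kernel, by decide +kernel⟩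
def e0_255_426__773_170_0 : Ent 5 := ⟨[a0, a255, a426], [a773, a170, a17], (M a192 (F (T t757 (L l3347 (T t376 (L l220 (T t400 N)))))))⟩
def e0_255_426__773_170_1 : Ent 5 := ⟨[a0, a255, a426], [a773, a170, a27], (M a192 (F (T t757 (L l3347 (T t376 (L l220 (T t400 N)))))))⟩
def e0_255_426__773_170_2 : Ent 5 := ⟨[a0, a255, a426], [a773, a170, a34], (M a192 (L l402 (F (T t771 (L l220 (T t400 (L l3347 (T t376 (K a102 (M a238 (F (T t771 (L l208 (L l2154 (T t758 N)))))) (K a238 (M a102 (F (T t771 (L l220 (T t400 (L l3347 (T t376 N))))))) N))))))))))⟩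
def e0_255_426__773_170_3 : Ent 5 := ⟨[a0, a255, a426], [a773, a170, a39], (M a192 (F (T t757 (L l3347 (T t376 (L l220 (T t400 N)))))))⟩
def e0_255_426__773_170_4 : Ent 5 := ⟨[a0, a255, a426], [a773, a170, a51], (M a192 (F (T t757 (L l3129 (L l3347 (T t376 (L l220 (T t400 N))))))))⟩
def e0_255_426__773_170_5 : Ent 5 := ⟨[a0, a255, a426], [a773, a170, a102], (M a192 (L l402 (F (T t757 (L l3347 (T t376 (L l220 (T t400 (K a34 (M a238 (F (T t771 (L l208 (L l2154 (T t758 N)))))) (K a238 (M a34 (F (T t757 (L l150 (L l220 (T t760 N)))))) N))))))))))⟩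
def e0_255_426__773_170_6 : Ent 5 := ⟨[a0, a255, a426], [a773, a170, a114], (M a192 (F (T t757 (L l3347 (T t376 (L l220 (T t400 N)))))))⟩
def e0_255_426__773_170_7 : Ent 5 := ⟨[a0, a255, a426], [a773, a170, a119], (M a192 (F (T t757 (L l2487 (L l3347 (T t376 (L l220 (T t400 N))))))))⟩
def e0_255_426__773_170_8 : Ent 5 := ⟨[a0, a255, a426], [a773, a170, a177], (M a192 (F (T t757 (L l3347 (T t376 (L l220 (T t400 N)))))))⟩
def e0_255_426__773_170_9 : Ent 5 := ⟨[a0, a255, a426], [a773, a170, a187], (M a192 (L l208 (F (T t757 (L l3347 (T t376 (L l220 (T t400 (K a136 (M a153 (F (T t771 (L l156 (L l220 (T t400 (L l3347 (T t376 N)))))))) (K a153 (M a136 (F (T t757 (L l226 (L l464 (T t762 N)))))) N))))))))))⟩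
def e0_255_426__773_170_10 : Ent 5 := ⟨[a0, a255, a426], [a773, a170, a273], (M a192 (F (T t757 (L l564 (L l3347 (T t376 (L l220 (L l564 (T t400 N)))))))))⟩
def e0_255_426__773_170_11 : Ent 5 := ⟨[a0, a255, a426], [a773, a170, a283], (M a192 (F (T t757 (L l3347 (T t376 (L l220 (T t400 N)))))))⟩
def e0_255_426__773_170_12 : Ent 5 := ⟨[a0, a255, a426], [a773, a170, a290], (M a192 (F (T t757 (L l564 (L l3347 (T t376 (L l220 (L l564 (T t400 N)))))))))⟩
def e0_255_426__773_170_13 : Ent 5 := ⟨[a0, a255, a426], [a773, a170, a295], (M a192 (F (T t757 (L l3347 (T t376 (L l220 (T t400 N)))))))⟩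
def e0_255_426__773_170_14 : Ent 5 := ⟨[a0, a255, a426], [a773, a170, a307], (M a192 (F (T t757 (L l564 (L l3347 (T t376 (L l220 (L l564 (T t400 N)))))))))⟩
def e0_255_426__773_170_15 : Ent 5 := ⟨[a0, a255, a426], [a773, a170, a358], (M a192 (F (T t771 (L l220 (T t400 (L l2487 (L l3347 (T t376 N))))))))⟩
def e0_255_426__773_170_16 : Ent 5 := ⟨[a0, a255, a426], [a773, a170, a370], (M a192 (F (T t757 (L l3347 (T t376 (L l220 (T t400 N)))))))⟩
def e0_255_426__773_170_17 : Ent 5 := ⟨[a0, a255, a426], [a773, a170, a375], (M a192 (F (T t771 (L l220 (L l2431 (T t400 (L l3347 (T t376 N))))))))⟩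
def e0_255_426__773_170_18 : Ent 5 := ⟨[a0, a255, a426], [a773, a170, a433], (M a192 (F (T t757 (L l3347 (T t376 (L l220 (T t400 N)))))))⟩
def e0_255_426__773_170_19 : Ent 5 := ⟨[a0, a255, a426], [a773, a170, a443], (M a192 (F (L l1568 (T t375 (L l3347 (T t376 (L l220 (T t400 N))))))))⟩
def e0_255_426__773_170_20 : Ent 5 := ⟨[a0, a255, a426], [a773, a170, a529], (M a192 (F (T t757 (L l1405 (L l3347 (T t376 (L l220 (T t400 N))))))))⟩
def e0_255_426__773_170_21 : Ent 5 := ⟨[a0, a255, a426], [a773, a170, a539], (M a192 (F (T t757 (L l3347 (T t376 (L l220 (T t400 N)))))))⟩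
def e0_255_426__773_170_22 : Ent 5 := ⟨[a0, a255, a426], [a773, a170, a546], (M a192 (F (T t771 (L l220 (T t400 (L l3347 (T t376 N)))))))⟩
def e0_255_426__773_170_23 : Ent 5 := ⟨[a0, a255, a426], [a773, a170, a551], (M a192 (F (T t757 (L l3347 (T t376 (L l220 (T t400 N)))))))⟩
def e0_255_426__773_170_24 : Ent 5 := ⟨[a0, a255, a426], [a773, a170, a563], (M a192 (F (T t757 (L l1529 (L l3347 (T t376 (L l220 (T t400 N))))))))⟩
def e0_255_426__773_170_25 : Ent 5 := ⟨[a0, a255, a426], [a773, a170, a614], (M a192 (F (T t771 (L l220 (T t400 (L l1166 (L l3347 (T t376 N))))))))⟩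
def e0_255_426__773_170_26 : Ent 5 := ⟨[a0, a255, a426], [a773, a170, a626], (M a192 (F (T t757 (L l3347 (T t376 (L l220 (T t400 N)))))))⟩
def e0_255_426__773_170_27 : Ent 5 := ⟨[a0, a255, a426], [a773, a170, a631], (M a192 (F (T t757 (L l1166 (L l3347 (T t376 (L l220 (T t400 N))))))))⟩
def e0_255_426__773_170_28 : Ent 5 := ⟨[a0, a255, a426], [a773, a170, a689], (M a192 (F (T t757 (L l3347 (T t376 (L l220 (T t400 N)))))))⟩
def e0_255_426__773_170_29 : Ent 5 := ⟨[a0, a255, a426], [a773, a170, a699], (M a192 (F (T t771 (L l220 (T t400 (L l3347 (T t376 N)))))))⟩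
def e0_255_426__773_170_30 : Ent 5 := ⟨[a0, a255, a426], [a773, a170, a785], (M a192 (F (T t757 (L l3227 (L l3347 (T t376 (L l220 (T t400 N))))))))⟩
def e0_255_426__773_170_31 : Ent 5 := ⟨[a0, a255, a426], [a773, a170, a795], (M a192 (F (T t757 (L l3347 (T t376 (L l220 (T t400 N)))))))⟩
def e0_255_426__773_170_32 : Ent 5 := ⟨[a0, a255, a426], [a773, a170, a802], (M a192 (F (L l1586 (T t771 (L l3347 (T t376 (L l220 (L l1586 (T t400 N)))))))))⟩
def e0_255_426__773_170_33 : Ent 5 := ⟨[a0, a255, a426], [a773, a170, a807], (M a192 (F (T t757 (L l3347 (T t376 (L l220 (T t400 N)))))))⟩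
def e0_255_426__773_170_34 : Ent 5 := ⟨[a0, a255, a426], [a773, a170, a819], (M a192 (F (T t757 (L l2049 (L l3347 (T t376 (L l220 (T t400 N))))))))⟩
def e0_255_426__773_170_35 : Ent 5 := ⟨[a0, a255, a426], [a773, a170, a870], (M a192 (F (T t757 (L l3347 (T t376 (L l220 (T t400 N)))))))⟩
def e0_255_426__773_170_36 : Ent 5 := ⟨[a0, a255, a426], [a773, a170, a882], (M a192 (F (T t757 (L l3347 (T t376 (L l220 (T t400 N)))))))⟩
def e0_255_426__773_170_37 : Ent 5 := ⟨[a0, a255, a426], [a773, a170, a887], (M a192 (F (T t771 (L l220 (L l1673 (T t400 (L l3347 (T t376 N))))))))⟩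
def e0_255_426__773_170_38 : Ent 5 := ⟨[a0, a255, a426], [a773, a170, a945], (M a192 (F (T t757 (L l3347 (T t376 (L l220 (T t400 N)))))))⟩
def e0_255_426__773_170_39 : Ent 5 := ⟨[a0, a255, a426], [a773, a170, a955], (M a192 (F (T t771 (L l220 (T t400 (L l3347 (T t376 N)))))))⟩
def b0_255_426__773_170 : Blk 5 := ⟨[0, 255, 426], [773, 170], [17, 27, 34, 39, 51, 102, 114, 119, 177, 187, 273, 283, 290, 295, 307, 358, 370, 375, 433, 443, 529, 539, 546, 551, 563, 614, 626, 631, 689, 699, 785, 795, 802, 807, 819, 870, 882, 887, 945, 955], [e0_255_426__773_170_0, e0_255_426__773_170_1, e0_255_426__773_170_2, e0_255_426__773_170_3, e0_255_426__773_170_4, e0_255_426__773_170_5, e0_255_426__773_170_6, e0_255_426__773_170_7, e0_255_426__773_170_8, e0_255_426__773_170_9, e0_255_426__773_170_10, e0_255_426__773_170_11, e0_255_426__773_170_12, e0_255_426__773_170_13, e0_255_426__773_170_14, e0_255_426__773_170_15, e0_255_426__773_170_16, e0_255_426__773_170_17, e0_255_426__773_170_18,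 e0_255_426__773_170_19, e0_255_426__773_170_20, e0_255_426__773_170_21, e0_255_426__773_170_22, e0_255_426__773_170_23, e0_255_426__773_170_24, e0_255_426__773_170_25, e0_255_426__773_170_26, e0_255_426__773_170_27, e0_255_426__773_170_28, e0_255_426__773_170_29, e0_255_426__773_170_30, e0_255_426__773_170_31, e0_255_426__773_170_32, e0_255_426__773_170_33, e0_255_426__773_170_34, e0_255_426__773_170_35, e0_255_426__773_170_36, e0_255_426__773_170_37, e0_255_426__773_170_38, e0_255_426__773_170_39], by decide +kernel, by decide +kernel⟩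
def e0_255_426__778_170_0 : Ent 5 := ⟨[a0, a255, a426], [a778, a170, a17], (M a192 (F (T t399 (L l220 (L l1614 (T t400 (T t376 N)))))))⟩
def e0_255_426__778_170_1 : Ent 5 := ⟨[a0, a255, a426], [a778, a170, a27], (M a192 (F (T t399 (L l220 (L l1614 (T t400 (T t376 N)))))))⟩
def e0_255_426__778_170_2 : Ent 5 := ⟨[a0, a255, a426], [a778, a170, a34], (M a192 (L l402 (F (T t399 (L l220 (L l1614 (T t400 (T t376 (K a102 (M a238 (F (T t399 (L l208 (L l2154 (T t758 N)))))) (K a238 (M a102 (F (T t399 (L l220 (L l1614 (T t400 (T t376 N))))))) N))))))))))⟩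
def e0_255_426__778_170_3 : Ent 5 := ⟨[a0, a255, a426], [a778, a170, a39], (M a192 (F (T t399 (L l220 (L l1614 (T t400 (T t376 N)))))))⟩
def e0_255_426__778_170_4 : Ent 5 := ⟨[a0, a255, a426], [a778, a170, a51], (M a192 (F (T t866 (L l220 (L l1614 (T t400 (L l3129 (T t376 N))))))))⟩
def e0_255_426__778_170_5 : Ent 5 := ⟨[a0, a255, a426], [a778, a170, a102], (M a192 (L l402 (F (T t399 (L l220 (L l1614 (T t400 (T t376 (K a34 (M a238 (F (T t399 (L l208 (L l2154 (T t758 N)))))) (K a238 (M a34 (F (T t399 (L l150 (L l220 (T t760 N)))))) N))))))))))⟩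
def e0_255_426__778_170_6 : Ent 5 := ⟨[a0, a255, a426], [a778, a170, a114], (M a192 (F (T t399 (L l220 (L l1614 (T t400 (T t376 N)))))))⟩
def e0_255_426__778_170_7 : Ent 5 := ⟨[a0, a255, a426], [a778, a170, a119], (M a192 (F (L l1614 (T t771 (L l2487 (T t376 (L l220 (L l1614 (T t400 N)))))))))⟩
def e0_255_426__778_170_8 : Ent 5 := ⟨[a0, a255, a426], [a778, a170, a177], (M a192 (F (T t399 (L l220 (L l1614 (T t400 (T t376 N)))))))⟩
def e0_255_426__778_170_9 : Ent 5 := ⟨[a0, a255, a426], [a778, a170, a187], (M a192 (L l208 (F (T t399 (L l220 (L l1614 (T t400 (T t376 (K a136 (M a153 (F (T t399 (L l156 (L l220 (L l1614 (T t400 (T t376 N)))))))) (K a153 (M a136 (F (T t399 (L l226 (L l464 (T t762 N)))))) N))))))))))⟩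
def e0_255_426__778_170_10 : Ent 5 := ⟨[a0, a255, a426], [a778, a170, a273], (M a192 (F (T t399 (L l220 (L l564 (L l1614 (T t400 (L l564 (T t376 N)))))))))⟩
def e0_255_426__778_170_11 : Ent 5 := ⟨[a0, a255, a426], [a778, a170, a283], (M a192 (F (T t399 (L l220 (L l1614 (T t400 (T t376 N)))))))⟩
def e0_255_426__778_170_12 : Ent 5 := ⟨[a0, a255, a426], [a778, a170, a290], (M a192 (F (T t399 (L l220 (L l564 (L l1614 (T t400 (L l564 (T t376 N)))))))))⟩
def e0_255_426__778_170_13 : Ent 5 := ⟨[a0, a255, a426], [a778, a170, a295], (M a192 (F (T t399 (L l220 (L l1614 (T t400 (T t376 N)))))))⟩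
def e0_255_426__778_170_14 : Ent 5 := ⟨[a0, a255, a426], [a778, a170, a307], (M a192 (F (T t399 (L l220 (L l564 (L l1614 (T t400 (L l564 (T t376 N)))))))))⟩
def e0_255_426__778_170_15 : Ent 5 := ⟨[a0, a255, a426], [a778, a170, a358], (M a192 (F (L l1614 (T t771 (L l2487 (T t376 (L l220 (L l1614 (T t400 N)))))))))⟩
def e0_255_426__778_170_16 : Ent 5 := ⟨[a0, a255, a426], [a778, a170, a370], (M a192 (F (T t399 (L l220 (L l1614 (T t400 (T t376 N)))))))⟩
def e0_255_426__778_170_17 : Ent 5 := ⟨[a0, a255, a426], [a778, a170, a375], (M a192 (F (T t399 (L l220 (L l1614 (L l2431 (T t400 (T t376 N))))))))⟩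
def e0_255_426__778_170_18 : Ent 5 := ⟨[a0, a255, a426], [a778, a170, a433], (M a192 (F (T t399 (L l220 (L l1614 (T t400 (T t376 N)))))))⟩
def e0_255_426__778_170_19 : Ent 5 := ⟨[a0, a255, a426], [a778, a170, a443], (M a192 (F (T t376 (L l709 (L l1614 (T t757 (L l220 (L l1614 (T t400 N)))))))))⟩
def e0_255_426__778_170_20 : Ent 5 := ⟨[a0, a255, a426], [a778, a170, a529], (M a192 (F (L l1614 (T t771 (L l1405 (T t376 (L l220 (L l1614 (T t400 N)))))))))⟩
def e0_255_426__778_170_21 : Ent 5 := ⟨[a0, a255, a426], [a778, a170, a539], (M a192 (F (T t399 (L l220 (L l1614 (T t400 (T t376 N)))))))⟩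
def e0_255_426__778_170_22 : Ent 5 := ⟨[a0, a255, a426], [a778, a170, a546], (M a192 (F (T t399 (L l220 (L l1614 (T t400 (T t376 N)))))))⟩
def e0_255_426__778_170_23 : Ent 5 := ⟨[a0, a255, a426], [a778, a170, a551], (M a192 (F (T t399 (L l220 (L l1614 (T t400 (T t376 N)))))))⟩
def e0_255_426__778_170_24 : Ent 5 := ⟨[a0, a255, a426], [a778, a170, a563], (M a192 (F (T t399 (L l220 (L l1614 (T t400 (L l1529 (T t376 N))))))))⟩
def e0_255_426__778_170_25 : Ent 5 := ⟨[a0, a255, a426], [a778, a170, a614], (M a192 (F (L l1614 (T t771 (L l1166 (T t376 (L l220 (L l1614 (T t400 N)))))))))⟩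
def e0_255_426__778_170_26 : Ent 5 := ⟨[a0, a255, a426], [a778, a170, a626], (M a192 (F (T t399 (L l220 (L l1614 (T t400 (T t376 N)))))))⟩
def e0_255_426__778_170_27 : Ent 5 := ⟨[a0, a255, a426], [a778, a170, a631], (M a192 (F (L l1614 (T t771 (L l1166 (T t376 (L l220 (L l1614 (T t400 N)))))))))⟩
def e0_255_426__778_170_28 : Ent 5 := ⟨[a0, a255, a426], [a778, a170, a689], (M a192 (F (T t399 (L l220 (L l1614 (T t400 (T t376 N)))))))⟩
def e0_255_426__778_170_29 : Ent 5 := ⟨[a0, a255, a426], [a778, a170, a699], (M a192 (F (T t399 (L l220 (L l1614 (T t400 (T t376 N)))))))⟩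
def e0_255_426__778_170_30 : Ent 5 := ⟨[a0, a255, a426], [a778, a170, a785], (M a192 (F (L l1614 (T t771 (L l3227 (T t376 (L l220 (L l1614 (T t400 N)))))))))⟩
def e0_255_426__778_170_31 : Ent 5 := ⟨[a0, a255, a426], [a778, a170, a795], (M a192 (F (T t399 (L l220 (L l1614 (T t400 (T t376 N)))))))⟩
def e0_255_426__778_170_32 : Ent 5 := ⟨[a0, a255, a426], [a778, a170, a802], (M a192 (F (T t399 (L l220 (L l1586 (L l1614 (T t400 (T t376 N))))))))⟩
def e0_255_426__778_170_33 : Ent 5 := ⟨[a0, a255, a426], [a778, a170, a807], (M a192 (F (T t399 (L l220 (L l1614 (T t400 (T t376 N)))))))⟩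
def e0_255_426__778_170_34 : Ent 5 := ⟨[a0, a255, a426], [a778, a170, a819], (M a192 (F (T t866 (L l220 (L l1614 (T t400 (L l2049 (T t376 N))))))))⟩
def e0_255_426__778_170_35 : Ent 5 := ⟨[a0, a255, a426], [a778, a170, a870], (M a192 (F (T t399 (L l220 (L l1614 (T t400 (T t376 N)))))))⟩
def e0_255_426__778_170_36 : Ent 5 := ⟨[a0, a255, a426], [a778, a170, a882], (M a192 (F (T t399 (L l220 (L l1614 (T t400 (T t376 N)))))))⟩
def e0_255_426__778_170_37 : Ent 5 := ⟨[a0, a255, a426], [a778, a170, a887], (M a192 (F (T t399 (L l220 (L l1614 (L l1673 (T t400 (T t376 N))))))))⟩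
def e0_255_426__778_170_38 : Ent 5 := ⟨[a0, a255, a426], [a778, a170, a945], (M a192 (F (T t399 (L l220 (L l1614 (T t400 (T t376 N)))))))⟩
def e0_255_426__778_170_39 : Ent 5 := ⟨[a0, a255, a426], [a778, a170, a955], (M a192 (F (T t399 (L l220 (L l1614 (T t400 (T t376 N)))))))⟩
def b0_255_426__778_170 : Blk 5 := ⟨[0, 255, 426], [778, 170], [17, 27, 34, 39, 51, 102, 114, 119, 177, 187, 273, 283, 290, 295, 307, 358, 370, 375, 433, 443, 529, 539, 546, 551, 563, 614, 626, 631, 689, 699, 785, 795, 802, 807, 819, 870, 882, 887, 945, 955], [e0_255_426__778_170_0, e0_255_426__778_170_1, e0_255_426__778_170_2, e0_255_426__778_170_3, e0_255_426__778_170_4, e0_255_426__778_170_5, e0_255_426__778_170_6, e0_255_426__778_170_7, e0_255_426__778_170_8, e0_255_426__778_170_9, e0_255_426__778_170_10, e0_255_426__778_170_11, e0_255_426__778_170_12, e0_255_426__778_170_13, e0_255_426__778_170_14, e0_255_426__778_170_15, e0_255_426__778_170_16, e0_255_426__778_170_17, e0_255_426__778_170_18,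 e0_255_426__778_170_19, e0_255_426__778_170_20, e0_255_426__778_170_21, e0_255_426__778_170_22, e0_255_426__778_170_23, e0_255_426__778_170_24, e0_255_426__778_170_25, e0_255_426__778_170_26, e0_255_426__778_170_27, e0_255_426__778_170_28, e0_255_426__778_170_29, e0_255_426__778_170_30, e0_255_426__778_170_31, e0_255_426__778_170_32, e0_255_426__778_170_33, e0_255_426__778_170_34, e0_255_426__778_170_35, e0_255_426__778_170_36, e0_255_426__778_170_37, e0_255_426__778_170_38, e0_255_426__778_170_39], by decide +kernel, by decide +kernel⟩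
def e0_255_426__783_170_0 : Ent 5 := ⟨[a0, a255, a426], [a783, a170, a17], (M a192 (F (T t757 (L l1899 (T t376 (L l220 (T t400 N)))))))⟩
def e0_255_426__783_170_1 : Ent 5 := ⟨[a0, a255, a426], [a783, a170, a27], (M a192 (F (T t757 (L l1899 (T t376 (L l220 (T t400 N)))))))⟩
def e0_255_426__783_170_2 : Ent 5 := ⟨[a0, a255, a426], [a783, a170, a34], (M a192 (L l402 (F (T t757 (L l1899 (T t376 (L l220 (T t400 (K a102 (M a238 (F (T t757 (L l208 (L l2154 (T t758 N)))))) (K a238 (M a102 (F (T t757 (L l1899 (T t376 (L l220 (T t400 N))))))) N))))))))))⟩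
def e0_255_426__783_170_3 : Ent 5 := ⟨[a0, a255, a426], [a783, a170, a39], (M a192 (F (T t757 (L l1899 (T t376 (L l220 (T t400 N)))))))⟩
def e0_255_426__783_170_4 : Ent 5 := ⟨[a0, a255, a426], [a783, a170, a51], (M a192 (L l2287 (F (T t757 (L l1899 (L l3129 (T t376 (L l220 (T t400 (K a295 (M a539 (F (T t757 (L l1899 (L l3129 (T t376 (L l220 (T t400 N)))))))) (K a539 (M a295 (F (T t757 (L l1899 (L l3129 (T t376 (L l220 (T t400 N)))))))) N)))))))))))⟩
def e0_255_426__783_170_5 : Ent 5 := ⟨[a0, a255, a426], [a783, a170, a102], (M a192 (L l402 (F (T t757 (L l1899 (T t376 (L l220 (T t400 (K a34 (M a238 (F (T t757 (L l208 (L l2154 (T t758 N)))))) (K a238 (M a34 (F (T t757 (L l150 (L l220 (T t760 N)))))) N))))))))))⟩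
def e0_255_426__783_170_6 : Ent 5 := ⟨[a0, a255, a426], [a783, a170, a114], (M a192 (F (T t757 (L l1899 (T t376 (L l220 (T t400 N)))))))⟩
def e0_255_426__783_170_7 : Ent 5 := ⟨[a0, a255, a426], [a783, a170, a119], (M a192 (F (T t757 (L l1899 (L l2487 (T t376 (L l220 (T t400 N))))))))⟩
def e0_255_426__783_170_8 : Ent 5 := ⟨[a0, a255, a426], [a783, a170, a177], (M a192 (F (T t757 (L l1899 (T t376 (L l220 (T t400 N)))))))⟩
def e0_255_426__783_170_9 : Ent 5 := ⟨[a0, a255, a426], [a783, a170, a187], (M a192 (L l208 (F (T t757 (L l1899 (T t376 (L l220 (T t400 (K a136 (M a153 (F (T t757 (L l1899 (T t376 (L l156 (L l220 (T t400 N)))))))) (K a153 (M a136 (F (T t757 (L l226 (L l464 (L l2102 (T t762 N))))))) N))))))))))⟩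
def e0_255_426__783_170_10 : Ent 5 := ⟨[a0, a255, a426], [a783, a170, a273], (M a192 (F (T t757 (L l564 (L l1899 (T t376 (L l220 (L l564 (T t400 N)))))))))⟩
def e0_255_426__783_170_11 : Ent 5 := ⟨[a0, a255, a426], [a783, a170, a283], (M a192 (F (T t757 (L l1899 (T t376 (L l220 (T t400 N)))))))⟩
def e0_255_426__783_170_12 : Ent 5 := ⟨[a0, a255, a426], [a783, a170, a290], (M a192 (F (T t757 (L l564 (L l1899 (T t376 (L l220 (L l564 (T t400 N)))))))))⟩
def e0_255_426__783_170_13 : Ent 5 := ⟨[a0, a255, a426], [a783, a170, a295], (M a51 (F (T t867 (L l402 (T t850 (L l1633 (T t849 N)))))))⟩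
def e0_255_426__783_170_14 : Ent 5 := ⟨[a0, a255, a426], [a783, a170, a307], (M a192 (F (T t757 (L l564 (L l1899 (T t376 (L l220 (L l564 (T t400 N)))))))))⟩
def e0_255_426__783_170_15 : Ent 5 := ⟨[a0, a255, a426], [a783, a170, a358], (M a192 (F (L l1568 (T t375 (L l1899 (L l2487 (T t376 (L l220 (T t400 N)))))))))⟩
def e0_255_426__783_170_16 : Ent 5 := ⟨[a0, a255, a426], [a783, a170, a370], (M a192 (F (T t757 (L l1899 (T t376 (L l220 (T t400 N)))))))⟩
def e0_255_426__783_170_17 : Ent 5 := ⟨[a0, a255, a426], [a783, a170, a375], (M a192 (F (T t757 (L l1899 (T t376 (L l220 (L l2431 (T t400 N))))))))⟩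
def e0_255_426__783_170_18 : Ent 5 := ⟨[a0, a255, a426], [a783, a170, a433], (M a192 (F (T t757 (L l1899 (T t376 (L l220 (T t400 N)))))))⟩
def e0_255_426__783_170_19 : Ent 5 := ⟨[a0, a255, a426], [a783, a170, a443], (M a192 (F (T t841 (L l220 (T t400 (L l1899 (T t376 N)))))))⟩
def e0_255_426__783_170_20 : Ent 5 := ⟨[a0, a255, a426], [a783, a170, a529], (M a192 (F (T t757 (L l1405 (L l1899 (T t376 (L l220 (T t400 N))))))))⟩
def e0_255_426__783_170_21 : Ent 5 := ⟨[a0, a255, a426], [a783, a170, a539], (M a51 (F (T t852 (L l1113 (L l1633 (T t849 (L l402 (T t850 N))))))))⟩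
def e0_255_426__783_170_22 : Ent 5 := ⟨[a0, a255, a426], [a783, a170, a546], (M a192 (F (T t757 (L l1899 (T t376 (L l220 (T t400 N)))))))⟩
def e0_255_426__783_170_23 : Ent 5 := ⟨[a0, a255, a426], [a783, a170, a551], (M a192 (F (T t757 (L l1899 (T t376 (L l220 (T t400 N)))))))⟩
def e0_255_426__783_170_24 : Ent 5 := ⟨[a0, a255, a426], [a783, a170, a563], (M a192 (F (T t757 (L l1529 (L l1899 (T t376 (L l220 (T t400 N))))))))⟩
def e0_255_426__783_170_25 : Ent 5 := ⟨[a0, a255, a426], [a783, a170, a614], (M a192 (F (L l1568 (T t375 (L l1166 (L l1899 (T t376 (L l220 (T t400 N)))))))))⟩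
def e0_255_426__783_170_26 : Ent 5 := ⟨[a0, a255, a426], [a783, a170, a626], (M a192 (F (T t757 (L l1899 (T t376 (L l220 (T t400 N)))))))⟩
def e0_255_426__783_170_27 : Ent 5 := ⟨[a0, a255, a426], [a783, a170, a631], (M a192 (F (T t757 (L l1166 (L l1899 (T t376 (L l220 (T t400 N))))))))⟩
def e0_255_426__783_170_28 : Ent 5 := ⟨[a0, a255, a426], [a783, a170, a689], (M a192 (F (T t757 (L l1899 (T t376 (L l220 (T t400 N)))))))⟩
def e0_255_426__783_170_29 : Ent 5 := ⟨[a0, a255, a426], [a783, a170, a699], (M a192 (F (T t757 (L l1899 (T t376 (L l220 (T t400 N)))))))⟩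
def e0_255_426__783_170_30 : Ent 5 := ⟨[a0, a255, a426], [a783, a170, a785], (M a192 (F (T t757 (L l1899 (L l3227 (T t376 (L l220 (T t400 N))))))))⟩
def e0_255_426__783_170_31 : Ent 5 := ⟨[a0, a255, a426], [a783, a170, a795], (M a819 (F (T t754 (L l2287 (T t755 (T t756 N))))))⟩
def e0_255_426__783_170_32 : Ent 5 := ⟨[a0, a255, a426], [a783, a170, a802], (M a192 (F (T t866 (L l220 (L l1586 (T t400 (L l1899 (T t376 N))))))))⟩
def e0_255_426__783_170_33 : Ent 5 := ⟨[a0, a255, a426], [a783, a170, a807], (M a819 (F (T t754 (L l2287 (T t755 (T t756 N))))))⟩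
def e0_255_426__783_170_34 : Ent 5 := ⟨[a0, a255, a426], [a783, a170, a819], (M a192 (L l1633 (F (T t757 (L l1899 (L l2049 (T t376 (L l220 (T t400 (K a807 (M a795 (F (T t757 (L l1899 (L l2049 (T t376 (L l220 (T t400 N)))))))) (K a795 (M a807 (F (T t757 (L l1899 (L l2049 (T t376 (L l220 (T t400 N)))))))) N)))))))))))⟩
def e0_255_426__783_170_35 : Ent 5 := ⟨[a0, a255, a426], [a783, a170, a870], (M a192 (F (T t757 (L l1899 (T t376 (L l220 (T t400 N)))))))⟩
def e0_255_426__783_170_36 : Ent 5 := ⟨[a0, a255, a426], [a783, a170, a882], (M a192 (F (T t757 (L l1899 (T t376 (L l220 (T t400 N)))))))⟩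
def e0_255_426__783_170_37 : Ent 5 := ⟨[a0, a255, a426], [a783, a170, a887], (M a192 (F (T t757 (L l1899 (T t376 (L l220 (L l1673 (T t400 N))))))))⟩
def e0_255_426__783_170_38 : Ent 5 := ⟨[a0, a255, a426], [a783, a170, a945], (M a192 (F (T t757 (L l1899 (T t376 (L l220 (T t400 N)))))))⟩
def e0_255_426__783_170_39 : Ent 5 := ⟨[a0, a255, a426], [a783, a170, a955], (M a192 (F (T t757 (L l1899 (T t376 (L l220 (T t400 N)))))))⟩
def b0_255_426__783_170 : Blk 5 := ⟨[0, 255, 426], [783, 170], [17, 27, 34, 39, 51, 102, 114, 119, 177, 187, 273, 283, 290, 295, 307, 358, 370, 375, 433, 443, 529, 539, 546, 551, 563, 614, 626, 631, 689, 699, 785, 795, 802, 807, 819, 870, 882, 887, 945, 955], [e0_255_426__783_170_0, e0_255_426__783_170_1, e0_255_426__783_170_2, e0_255_426__783_170_3, e0_255_426__783_170_4, e0_255_426__783_170_5, e0_255_426__783_170_6, e0_255_426__783_170_7, e0_255_426__783_170_8, e0_255_426__783_170_9, e0_255_426__783_170_10, e0_255_426__783_170_11,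 e0_255_426__783_170_12, e0_255_426__783_170_13, e0_255_426__783_170_14, e0_255_426__783_170_15, e0_255_426__783_170_16, e0_255_426__783_170_17, e0_255_426__783_170_18, e0_255_426__783_170_19, e0_255_426__783_170_20, e0_255_426__783_170_21, e0_255_426__783_170_22, e0_255_426__783_170_23, e0_255_426__783_170_24, e0_255_426__783_170_25, e0_255_426__783_170_26, e0_255_426__783_170_27, e0_255_426__783_170_28, e0_255_426__783_170_29, e0_255_426__783_170_30, e0_255_426__783_170_31, e0_255_426__783_170_32, e0_255_426__783_170_33, e0_255_426__783_170_34, e0_255_426__783_170_35, e0_255_426__783_170_36, e0_255_426__783_170_37, e0_255_426__783_170_38, e0_255_426__783_170_39], by decide +kernel, by decide +kernel⟩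
def e0_255_426__795_170_0 : Ent 5 := ⟨[a0, a255, a426], [a795, a170, a5], (M a192 (F (T t375 (T t376 (L l220 (T t400 N))))))⟩
def e0_255_426__795_170_1 : Ent 5 := ⟨[a0, a255, a426], [a795, a170, a10], (M a192 (L l462 (F (T t375 (T t376 (L l220 (T t400 (K a90 (M a250 (F (T t752 (L l180 (L l2094 (T t753 N)))))) (K a250 (M a90 (F (T t399 (L l220 (T t400 (T t376 N)))))) N)))))))))⟩
def e0_255_426__795_170_2 : Ent 5 := ⟨[a0, a255, a426], [a795, a170, a15], (M a192 (F (T t757 (L l2979 (T t376 (L l220 (T t400 N)))))))⟩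
def e0_255_426__795_170_3 : Ent 5 := ⟨[a0, a255, a426], [a795, a170, a17], (M a192 (F (T t375 (T t376 (L l220 (T t400 N))))))⟩
def e0_255_426__795_170_4 : Ent 5 := ⟨[a0, a255, a426], [a795, a170, a34], (M a192 (L l402 (F (T t375 (T t376 (L l220 (T t400 (K a102 (M a238 (F (T t757 (L l208 (L l2154 (T t758 N)))))) (K a238 (M a102 (F (T t399 (L l220 (T t400 (T t376 N)))))) N)))))))))⟩
def e0_255_426__795_170_5 : Ent 5 := ⟨[a0, a255, a426], [a795, a170, a39], (M a192 (F (T t375 (T t376 (L l220 (T t400 N))))))⟩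
def e0_255_426__795_170_6 : Ent 5 := ⟨[a0, a255, a426], [a795, a170, a51], (M a192 (F (T t757 (L l3129 (T t376 (L l220 (T t400 N)))))))⟩
def e0_255_426__795_170_7 : Ent 5 := ⟨[a0, a255, a426], [a795, a170, a68], (M a192 (F (T t375 (T t376 (L l220 (T t400 N))))))⟩
def e0_255_426__795_170_8 : Ent 5 := ⟨[a0, a255, a426], [a795, a170, a80], (M a192 (F (T t375 (T t376 (L l220 (T t400 N))))))⟩
def e0_255_426__795_170_9 : Ent 5 := ⟨[a0, a255, a426], [a795, a170, a85], (M a192 (F (L l347 (T t375 (L l2339 (T t376 (L l220 (L l347 (T t400 N)))))))))⟩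
def e0_255_426__795_170_10 : Ent 5 := ⟨[a0, a255, a426], [a795, a170, a90], (M a192 (L l462 (F (T t375 (T t376 (L l220 (T t400 (K a10 (M a250 (F (T t752 (L l180 (L l2094 (T t753 N)))))) (K a250 (M a10 (F (T t752 (L l151 (L l220 (T t759 N)))))) N)))))))))⟩
def e0_255_426__795_170_11 : Ent 5 := ⟨[a0, a255, a426], [a795, a170, a95], (M a192 (F (T t375 (L l2367 (T t376 (L l220 (T t400 N)))))))⟩
def e0_255_426__795_170_12 : Ent 5 := ⟨[a0, a255, a426], [a795, a170, a102], (M a192 (L l402 (F (T t375 (T t376 (L l220 (T t400 (K a34 (M a238 (F (T t757 (L l208 (L l2154 (T t758 N)))))) (K a238 (M a34 (F (T t752 (L l150 (L l220 (T t760 N)))))) N)))))))))⟩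
def e0_255_426__795_170_13 : Ent 5 := ⟨[a0, a255, a426], [a795, a170, a119], (M a192 (F (T t375 (L l2487 (T t376 (L l220 (T t400 N)))))))⟩
def e0_255_426__795_170_14 : Ent 5 := ⟨[a0, a255, a426], [a795, a170, a136], (M a192 (L l208 (F (T t375 (T t376 (L l156 (L l220 (T t400 (K a153 (M a187 (F (T t752 (L l402 (L l2524 (T t761 N)))))) (K a187 (M a153 (F (T t399 (L l156 (L l220 (T t400 (T t376 N))))))) N))))))))))⟩
def e0_255_426__795_170_15 : Ent 5 := ⟨[a0, a255, a426], [a795, a170, a153], (M a192 (L l208 (F (T t375 (T t376 (L l220 (T t400 (K a136 (M a187 (F (T t752 (L l402 (L l2524 (T t761 N)))))) (K a187 (M a136 (F (T t752 (L l226 (L l464 (T t762 N)))))) N)))))))))⟩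
def e0_255_426__795_170_16 : Ent 5 := ⟨[a0, a255, a426], [a795, a170, a160], (M a192 (L l180 (F (T t375 (T t376 (L l192 (L l220 (T t400 (K a165 (M a175 (F (T t752 (L l462 (L l2584 (T t763 N)))))) (K a175 (M a165 (F (T t399 (L l192 (L l220 (T t400 (T t376 N))))))) N))))))))))⟩
def e0_255_426__795_170_17 : Ent 5 := ⟨[a0, a255, a426], [a795, a170, a165], (M a192 (L l180 (F (T t375 (T t376 (L l220 (T t400 (K a160 (M a175 (F (T t752 (L l462 (L l2584 (T t763 N)))))) (K a175 (M a160 (F (T t752 (L l227 (L l483 (T t764 N)))))) N)))))))))⟩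
def e0_255_426__795_170_18 : Ent 5 := ⟨[a0, a255, a426], [a795, a170, a175], (M a192 (L l180 (F (T t375 (T t376 (L l220 (T t400 (K a160 (M a165 (F (T t399 (L l192 (L l220 (T t400 (T t376 N))))))) (K a165 (M a160 (F (T t752 (L l227 (L l483 (T t764 N)))))) N)))))))))⟩
def e0_255_426__795_170_19 : Ent 5 := ⟨[a0, a255, a426], [a795, a170, a187], (M a192 (L l208 (F (T t375 (T t376 (L l220 (T t400 (K a136 (M a153 (F (T t399 (L l156 (L l220 (T t400 (T t376 N))))))) (K a153 (M a136 (F (T t752 (L l226 (L l464 (T t762 N)))))) N)))))))))⟩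
def e0_255_426__795_170_20 : Ent 5 := ⟨[a0, a255, a426], [a795, a170, a204], (M a192 (F (T t757 (L l2758 (T t376 (L l220 (T t400 N)))))))⟩
def e0_255_426__795_170_21 : Ent 5 := ⟨[a0, a255, a426], [a795, a170, a216], (M a192 (L l3212 (F (T t375 (T t376 (L l220 (T t400 (K a409 (M a602 (F (T t771 (L l180 (T t851 N))))) (K a602 (M a409 (F (T t771 (T t780 N)))) N)))))))))⟩
def e0_255_426__795_170_22 : Ent 5 := ⟨[a0, a255, a426], [a795, a170, a221], (M a192 (F (L l243 (T t375 (L l3227 (T t376 (L l220 (L l243 (T t400 N)))))))))⟩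
def e0_255_426__795_170_23 : Ent 5 := ⟨[a0, a255, a426], [a795, a170, a238], (M a192 (L l402 (F (T t375 (T t376 (L l220 (T t400 (K a34 (M a102 (F (T t399 (L l220 (T t400 (T t376 N)))))) (K a102 (M a34 (F (T t752 (L l150 (L l220 (T t760 N)))))) N)))))))))⟩
def e0_255_426__795_170_24 : Ent 5 := ⟨[a0, a255, a426], [a795, a170, a240], (M a192 (F (T t757 (L l2908 (T t376 (L l220 (T t400 N)))))))⟩
def e0_255_426__795_170_25 : Ent 5 := ⟨[a0, a255, a426], [a795, a170, a245], (M a192 (F (L l275 (T t375 (L l3347 (T t376 (L l220 (L l275 (T t400 N)))))))))⟩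
def e0_255_426__795_170_26 : Ent 5 := ⟨[a0, a255, a426], [a795, a170, a250], (M a192 (L l462 (F (T t375 (T t376 (L l220 (T t400 (K a10 (M a90 (F (T t399 (L l220 (T t400 (T t376 N)))))) (K a90 (M a10 (F (T t752 (L l151 (L l220 (T t759 N)))))) N)))))))))⟩
def e0_255_426__795_170_27 : Ent 5 := ⟨[a0, a255, a426], [a795, a170, a256], (M a192 (F (T t757 (L l220 (T t765 (L l220 (T t766 (L l220 (T t767 (L l220 (L l588 (T t768 (L l390 (T t769 (K a831 (Fr a768 a597 l3375 (Fr a128 a64 l304 (V t770))) N)))))))))))))))⟩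
def e0_255_426__795_170_28 : Ent 5 := ⟨[a0, a255, a426], [a795, a170, a261], (M a192 (F (T t375 (L l528 (T t376 (L l220 (L l528 (T t400 N))))))))⟩
def e0_255_426__795_170_29 : Ent 5 := ⟨[a0, a255, a426], [a795, a170, a266], (M a192 (F (T t771 (L l220 (L l528 (T t400 (L l528 (T t376 N))))))))⟩
def e0_255_426__795_170_30 : Ent 5 := ⟨[a0, a255, a426], [a795, a170, a271], (M a192 (F (T t375 (L l528 (T t376 (L l220 (L l528 (T t400 N))))))))⟩
def e0_255_426__795_170_31 : Ent 5 := ⟨[a0, a255, a426], [a795, a170, a273], (M a192 (F (T t375 (L l564 (T t376 (L l220 (L l564 (T t400 N))))))))⟩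
def e0_255_426__795_170_32 : Ent 5 := ⟨[a0, a255, a426], [a795, a170, a290], (M a192 (F (T t771 (L l220 (L l564 (T t400 (L l564 (T t376 N))))))))⟩
def e0_255_426__795_170_33 : Ent 5 := ⟨[a0, a255, a426], [a795, a170, a295], (M a192 (F (T t375 (T t376 (L l220 (T t400 N))))))⟩
def e0_255_426__795_170_34 : Ent 5 := ⟨[a0, a255, a426], [a795, a170, a307], (M a192 (F (T t375 (L l564 (T t376 (L l220 (L l564 (T t400 N))))))))⟩
def e0_255_426__795_170_35 : Ent 5 := ⟨[a0, a255, a426], [a795, a170, a324], (M a192 (F (T t375 (L l848 (T t376 (L l220 (L l848 (T t400 N))))))))⟩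
def e0_255_426__795_170_36 : Ent 5 := ⟨[a0, a255, a426], [a795, a170, a336], (M a192 (F (T t375 (L l968 (T t376 (L l220 (L l968 (T t400 N))))))))⟩
def e0_255_426__795_170_37 : Ent 5 := ⟨[a0, a255, a426], [a795, a170, a341], (M a192 (F (T t375 (L l2339 (T t376 (L l390 (T t774 (L l2468 (T t775 (K a768 (M a960 (F (T t776 (L l1628 (T t777 (L l390 (L l1628 (L l2295 (T t778 (L l2295 (T t779 N))))))))))) N))))))))))⟩
def e0_255_426__795_170_38 : Ent 5 := ⟨[a0, a255, a426], [a795, a170, a346], (M a192 (F (T t375 (L l2367 (T t376 (L l220 (T t400 N)))))))⟩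
def e0_255_426__795_170_39 : Ent 5 := ⟨[a0, a255, a426], [a795, a170, a351], (M a192 (F (T t375 (T t376 (L l220 (L l2461 (T t400 N)))))))⟩
def e0_255_426__795_170_40 : Ent 5 := ⟨[a0, a255, a426], [a795, a170, a358], (M a192 (F (T t375 (L l2487 (T t376 (L l220 (T t400 N)))))))⟩
def e0_255_426__795_170_41 : Ent 5 := ⟨[a0, a255, a426], [a795, a170, a375], (M a192 (F (T t375 (T t376 (L l220 (L l2431 (T t400 N)))))))⟩
def e0_255_426__795_170_42 : Ent 5 := ⟨[a0, a255, a426], [a795, a170, a392], (M a192 (F (T t771 (L l220 (L l848 (T t400 (L l676 (L l848 (T t376 N)))))))))⟩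
def e0_255_426__795_170_43 : Ent 5 := ⟨[a0, a255, a426], [a795, a170, a409], (M a192 (L l3212 (F (T t375 (L l3227 (T t376 (L l220 (T t400 (K a216 (M a602 (F (T t771 (L l180 (T t851 N))))) (K a602 (M a216 (F (T t771 (L l220 (T t400 (L l1134 (L l3227 (T t376 N)))))))) N))))))))))⟩
def e0_255_426__795_170_44 : Ent 5 := ⟨[a0, a255, a426], [a795, a170, a416], (M a192 (F (T t771 (L l220 (L l968 (T t400 (L l712 (L l968 (T t376 N)))))))))⟩
def e0_255_426__795_170_45 : Ent 5 := ⟨[a0, a255, a426], [a795, a170, a421], (M a192 (F (T t375 (L l3347 (T t376 (L l220 (T t400 N)))))))⟩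
def e0_255_426__795_170_46 : Ent 5 := ⟨[a0, a255, a426], [a795, a170, a431], (M a192 (F (T t375 (T t376 (L l220 (T t400 N))))))⟩
def e0_255_426__795_170_47 : Ent 5 := ⟨[a0, a255, a426], [a795, a170, a443], (M a192 (F (T t375 (T t376 (L l220 (T t400 N))))))⟩
def e0_255_426__795_170_48 : Ent 5 := ⟨[a0, a255, a426], [a795, a170, a460], (M a192 (F (T t375 (L l848 (T t376 (L l220 (L l848 (T t400 N))))))))⟩
def e0_255_426__795_170_49 : Ent 5 := ⟨[a0, a255, a426], [a795, a170, a472], (M a192 (F (T t375 (T t376 (L l220 (T t400 N))))))⟩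
def e0_255_426__795_170_50 : Ent 5 := ⟨[a0, a255, a426], [a795, a170, a477], (M a192 (F (T t375 (T t376 (L l220 (T t400 N))))))⟩
def e0_255_426__795_170_51 : Ent 5 := ⟨[a0, a255, a426], [a795, a170, a494], (M a192 (F (T t375 (T t376 (L l220 (T t400 N))))))⟩
def e0_255_426__795_170_52 : Ent 5 := ⟨[a0, a255, a426], [a795, a170, a496], (M a192 (F (T t375 (L l968 (T t376 (L l220 (L l968 (T t400 N))))))))⟩
def e0_255_426__795_170_53 : Ent 5 := ⟨[a0, a255, a426], [a795, a170, a501], (M a192 (F (T t375 (T t376 (L l220 (T t400 N))))))⟩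
def e0_255_426__795_170_54 : Ent 5 := ⟨[a0, a255, a426], [a795, a170, a506], (M a192 (F (T t375 (T t376 (L l220 (T t400 N))))))⟩
def e0_255_426__795_170_55 : Ent 5 := ⟨[a0, a255, a426], [a795, a170, a511], (M a192 (F (T t375 (T t376 (L l220 (T t765 (L l220 (T t782 N))))))))⟩
def e0_255_426__795_170_56 : Ent 5 := ⟨[a0, a255, a426], [a795, a170, a512], (M a192 (F (T t757 (L l220 (T t400 (L l220 (L l1344 (L l1516 (T t783 (L l390 (L l1108 (T t784 N))))))))))))⟩
def e0_255_426__795_170_57 : Ent 5 := ⟨[a0, a255, a426], [a795, a170, a517], (M a192 (F (T t771 (L l220 (T t400 (L l1495 (T t376 N)))))))⟩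
def e0_255_426__795_170_58 : Ent 5 := ⟨[a0, a255, a426], [a795, a170, a522], (M a192 (F (T t375 (T t376 (L l220 (T t400 N))))))⟩
def e0_255_426__795_170_59 : Ent 5 := ⟨[a0, a255, a426], [a795, a170, a527], (M a192 (F (T t375 (L l1379 (T t376 (L l220 (T t400 N)))))))⟩
def e0_255_426__795_170_60 : Ent 5 := ⟨[a0, a255, a426], [a795, a170, a529], (M a192 (F (T t771 (L l220 (T t400 (L l1405 (T t376 N)))))))⟩
def e0_255_426__795_170_61 : Ent 5 := ⟨[a0, a255, a426], [a795, a170, a546], (M a192 (F (T t375 (T t376 (L l220 (T t400 N))))))⟩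
def e0_255_426__795_170_62 : Ent 5 := ⟨[a0, a255, a426], [a795, a170, a551], (M a192 (F (T t375 (T t376 (L l220 (T t400 N))))))⟩
def e0_255_426__795_170_63 : Ent 5 := ⟨[a0, a255, a426], [a795, a170, a563], (M a192 (F (T t375 (L l1529 (T t376 (L l220 (T t400 N)))))))⟩
def e0_255_426__795_170_64 : Ent 5 := ⟨[a0, a255, a426], [a795, a170, a580], (M a192 (F (T t771 (L l220 (T t400 (L l1166 (T t376 N)))))))⟩
def e0_255_426__795_170_65 : Ent 5 := ⟨[a0, a255, a426], [a795, a170, a592], (M a192 (F (T t771 (L l220 (T t400 (L l1134 (T t376 N)))))))⟩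
def e0_255_426__795_170_66 : Ent 5 := ⟨[a0, a255, a426], [a795, a170, a597], (M a960 (F (L l1387 (T t786 (L l1387 (L l2339 (T t787 (L l220 (L l1387 (L l2511 (T t788 (L l220 (L l1387 (L l1516 (L l2511 (T t789 (K a533 (M a661 (F (T t790 (L l220 (L l1108 (L l1516 (L l2123 (L l2511 (T t791 (L l1108 (L l1516 (T t792 N)))))))))))) (K a661 (M a192 (L l1387 (F (T t793 (L l390 (L l2987 (T t794 (L l220 (L l3203 (T t400 (K a533 (Fr a725 a490 l2943 (V t795)) (K a725 (M a533 (F (T t793 (L l220 (L l2771 (L l3203 (T t400 (L l1260 (L l1336 (L l1559 (L l2771 (L l3203 (T t796 N))))))))))))) N)))))))))))) (K a725 (M a661 (F (T t797 (T t798 (L l220 (L l1516 (L l2511 (T t791 (L l1516 (T t792 N)))))))))) (K a298 (M a192 (F (T t799 (L l1387 (L l3203 (T t800 (L l220 (L l588 (L l2166 (L l3203 (T t400 N))))))))))) (K a362 (M a192 (L l2511 (F (T t801 (L l1387 (L l3030 (L l3203 (T t800 (L l220 (L l3203 (T t400 (K a832 (M a127 (F (L l220 (L l2339 (T t802 (L l1039 (L l1516 (T t803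 N)))))))) (K a127 (M a832 (F (T t804 (L l1039 (L l1516 (T t803 N)))))) N))))))))))))) (K a490 (M a192 (F (T t801 (L l816 (L l3203 (T t777 (L l220 (L l3203 (T t400 N))))))))) N))))))))))))))))))))))⟩
def e0_255_426__795_170_67 : Ent 5 := ⟨[a0, a255, a426], [a795, a170, a602], (M a192 (L l3212 (F (T t375 (L l1134 (T t376 (L l220 (T t400 (K a216 (M a409 (F (T t771 (T t780 N)))) (K a409 (M a216 (F (T t771 (L l220 (T t400 (L l1134 (L l3227 (T t376 N)))))))) N))))))))))⟩
def e0_255_426__795_170_68 : Ent 5 := ⟨[a0, a255, a426], [a795, a170, a607], (M a192 (F (T t375 (L l1134 (T t376 (L l220 (T t400 N)))))))⟩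
def e0_255_426__795_170_69 : Ent 5 := ⟨[a0, a255, a426], [a795, a170, a614], (M a192 (F (T t375 (L l1166 (T t376 (L l220 (T t400 N)))))))⟩
def e0_255_426__795_170_70 : Ent 5 := ⟨[a0, a255, a426], [a795, a170, a631], (M a192 (F (T t375 (L l1166 (T t376 (L l220 (T t400 N)))))))⟩
def e0_255_426__795_170_71 : Ent 5 := ⟨[a0, a255, a426], [a795, a170, a648], (M a192 (F (T t375 (T t376 (L l220 (L l2536 (T t400 N)))))))⟩
def e0_255_426__795_170_72 : Ent 5 := ⟨[a0, a255, a426], [a795, a170, a665], (M a192 (F (T t375 (L l1405 (T t376 (L l220 (T t400 N)))))))⟩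
def e0_255_426__795_170_73 : Ent 5 := ⟨[a0, a255, a426], [a795, a170, a672], (M a192 (F (T t375 (T t376 (L l220 (L l2656 (T t400 N)))))))⟩
def e0_255_426__795_170_74 : Ent 5 := ⟨[a0, a255, a426], [a795, a170, a677], (M a192 (F (T t375 (L l1495 (T t376 (L l220 (T t400 N)))))))⟩
def e0_255_426__795_170_75 : Ent 5 := ⟨[a0, a255, a426], [a795, a170, a682], (M a192 (F (T t375 (L l1516 (T t376 (L l220 (L l1430 (L l1516 (L l2684 (T t377 (L l220 (L l1430 (L l2684 (T t378 N))))))))))))))⟩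
def e0_255_426__795_170_76 : Ent 5 := ⟨[a0, a255, a426], [a795, a170, a687], (M a192 (F (T t375 (T t376 (L l220 (T t400 N))))))⟩
def e0_255_426__795_170_77 : Ent 5 := ⟨[a0, a255, a426], [a795, a170, a699], (M a192 (F (T t375 (T t376 (L l220 (T t400 N))))))⟩
def e0_255_426__795_170_78 : Ent 5 := ⟨[a0, a255, a426], [a795, a170, a716], (M a192 (F (T t375 (L l1272 (T t376 (L l220 (T t400 N)))))))⟩
def e0_255_426__795_170_79 : Ent 5 := ⟨[a0, a255, a426], [a795, a170, a728], (M a192 (F (T t375 (T t376 (L l220 (T t400 N))))))⟩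
def e0_255_426__795_170_80 : Ent 5 := ⟨[a0, a255, a426], [a795, a170, a733], (M a192 (F (T t375 (L l1405 (T t376 (L l220 (T t400 N)))))))⟩
def e0_255_426__795_170_81 : Ent 5 := ⟨[a0, a255, a426], [a795, a170, a750], (M a192 (F (T t375 (T t376 (L l220 (T t400 N))))))⟩
def e0_255_426__795_170_82 : Ent 5 := ⟨[a0, a255, a426], [a795, a170, a752], (M a192 (F (T t375 (L l1308 (T t376 (L l220 (T t400 N)))))))⟩
def e0_255_426__795_170_83 : Ent 5 := ⟨[a0, a255, a426], [a795, a170, a757], (M a192 (F (T t375 (L l1495 (T t376 (L l220 (T t400 N)))))))⟩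
def e0_255_426__795_170_84 : Ent 5 := ⟨[a0, a255, a426], [a795, a170, a762], (M a192 (F (T t375 (T t376 (L l220 (T t400 N))))))⟩
def e0_255_426__795_170_85 : Ent 5 := ⟨[a0, a255, a426], [a795, a170, a767], (M a192 (F (T t375 (L l1336 (L l1516 (T t376 (L l220 (T t805 (L l220 (T t806 N))))))))))⟩
def e0_255_426__795_170_86 : Ent 5 := ⟨[a0, a255, a426], [a795, a170, a768], (M a960 (F (L l2295 (T t786 (L l1628 (L l2295 (T t807 (L l2036 (L l2295 (T t808 (L l220 (L l2295 (T t809 (L l2295 (T t810 (K a533 (M a362 (L l2295 (F (T t811 (T t812 (K a298 (Fr a63 a661 l3159 (V t813)) (K a63 (Fr a298 a490 l910 (V t814)) N))))))) (K a341 (M a48 (F (L l2008 (T t815 (L l643 (L l1892 (L l2295 (T t816 N)))))))) (K a725 (M a48 (F (T t817 (L l404 (L l1892 (T t818 (L l1892 (T t819 N)))))))) (K a298 (M a661 (L l2295 (F (T t797 (L l2036 (T t820 (L l390 (L l588 (L l2166 (T t821 (K a533 (Fr a63 a362 l3159 (V t822)) (K a63 (M a533 (F (T t823 (L l220 (L l1628 (L l2166 (L l3160 (T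 t824 N)))))))) N)))))))))))) (K a362 (M a1008 (F (L l2260 (T t825 (L l1018 (L l3195 (T t826 (L l2115 (T t827 N))))))))) (K a490 (M a48 (F (T t828 (L l404 (L l1892 (T t818 (L l1892 (T t819 N)))))))) (K a63 (M a992 (L l2295 (F (T t829 (L l180 (T t830 (K a533 (M a298 (F (T t831 (L l38 (L l404 (L l2260 (T t832 N))))))) (K a298 (M a533 (F (T t833 (T t829 (L l220 (L l1628 (L l2166 (L l3160 (T t834 N))))))))) N)))))))) N))))))))))))))))))))))⟩
def e0_255_426__795_170_87 : Ent 5 := ⟨[a0, a255, a426], [a795, a170, a773], (M a192 (F (T t757 (L l3347 (T t376 (L l220 (T t400 N)))))))⟩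
def e0_255_426__795_170_88 : Ent 5 := ⟨[a0, a255, a426], [a795, a170, a778], (M a192 (F (T t399 (L l220 (L l1614 (T t400 (T t376 N)))))))⟩
def e0_255_426__795_170_89 : Ent 5 := ⟨[a0, a255, a426], [a795, a170, a783], (M a819 (F (T t754 (L l2287 (T t755 (T t756 N))))))⟩
def e0_255_426__795_170_90 : Ent 5 := ⟨[a0, a255, a426], [a795, a170, a785], (M a192 (F (T t757 (L l3227 (T t376 (L l220 (T t400 N)))))))⟩
def e0_255_426__795_170_91 : Ent 5 := ⟨[a0, a255, a426], [a795, a170, a802], (M a192 (F (T t399 (L l220 (L l1586 (T t400 (T t376 N)))))))⟩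
def e0_255_426__795_170_92 : Ent 5 := ⟨[a0, a255, a426], [a795, a170, a807], (M a819 (F (T t785 (T t755 (T t756 N)))))⟩
def e0_255_426__795_170_93 : Ent 5 := ⟨[a0, a255, a426], [a795, a170, a819], (M a783 (F (T t845 (L l2257 (T t846 (T t847 N))))))⟩
def e0_255_426__795_170_94 : Ent 5 := ⟨[a0, a255, a426], [a795, a170, a836], (M a192 (F (T t771 (L l220 (T t400 (L l2487 (T t376 N)))))))⟩
def e0_255_426__795_170_95 : Ent 5 := ⟨[a0, a255, a426], [a795, a170, a848], (M a192 (F (T t771 (L l220 (T t400 (L l2367 (T t376 N)))))))⟩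
def e0_255_426__795_170_96 : Ent 5 := ⟨[a0, a255, a426], [a795, a170, a853], (M a192 (F (T t771 (L l220 (L l1704 (T t400 (L l2339 (T t376 N))))))))⟩
def e0_255_426__795_170_97 : Ent 5 := ⟨[a0, a255, a426], [a795, a170, a858], (M a192 (L l1917 (F (T t375 (T t376 (L l220 (T t400 (K a984 (M a921 (F (T t399 (L l220 (T t400 (T t376 N)))))) (K a921 (M a984 (F (T t399 (L l220 (T t400 (T t376 N)))))) N)))))))))⟩
def e0_255_426__795_170_98 : Ent 5 := ⟨[a0, a255, a426], [a795, a170, a863], (M a192 (F (T t375 (T t376 (L l220 (L l1697 (T t400 N)))))))⟩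
def e0_255_426__795_170_99 : Ent 5 := ⟨[a0, a255, a426], [a795, a170, a870], (M a192 (F (T t375 (T t376 (L l220 (T t400 N))))))⟩
def e0_255_426__795_170_100 : Ent 5 := ⟨[a0, a255, a426], [a795, a170, a887], (M a192 (F (T t375 (T t376 (L l220 (L l1673 (T t400 N)))))))⟩
def e0_255_426__795_170_101 : Ent 5 := ⟨[a0, a255, a426], [a795, a170, a904], (M a192 (F (T t771 (L l220 (T t400 (T t376 N))))))⟩
def e0_255_426__795_170_102 : Ent 5 := ⟨[a0, a255, a426], [a795, a170, a921], (M a192 (L l1917 (F (T t375 (T t376 (L l220 (T t400 (K a984 (M a858 (F (T t399 (L l220 (T t400 (T t376 N)))))) (K a858 (M a984 (F (T t399 (L l220 (T t400 (T t376 N)))))) N)))))))))⟩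
def e0_255_426__795_170_103 : Ent 5 := ⟨[a0, a255, a426], [a795, a170, a928], (M a192 (F (T t771 (L l220 (T t400 (T t376 N))))))⟩
def e0_255_426__795_170_104 : Ent 5 := ⟨[a0, a255, a426], [a795, a170, a933], (M a192 (F (T t375 (T t376 (L l220 (T t400 N))))))⟩
def e0_255_426__795_170_105 : Ent 5 := ⟨[a0, a255, a426], [a795, a170, a938], (M a192 (F (T t399 (L l220 (L l1950 (T t400 (T t376 N)))))))⟩
def e0_255_426__795_170_106 : Ent 5 := ⟨[a0, a255, a426], [a795, a170, a943], (M a192 (F (T t375 (T t376 (L l220 (T t400 N))))))⟩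
def e0_255_426__795_170_107 : Ent 5 := ⟨[a0, a255, a426], [a795, a170, a955], (M a192 (F (T t375 (T t376 (L l220 (T t400 N))))))⟩
def e0_255_426__795_170_108 : Ent 5 := ⟨[a0, a255, a426], [a795, a170, a972], (M a192 (F (T t757 (L l1792 (T t376 (L l220 (T t400 N)))))))⟩
def e0_255_426__795_170_109 : Ent 5 := ⟨[a0, a255, a426], [a795, a170, a984], (M a192 (L l1917 (F (T t375 (T t376 (L l220 (T t400 (K a921 (M a858 (F (T t399 (L l220 (T t400 (T t376 N)))))) (K a858 (M a921 (F (T t399 (L l220 (T t400 (T t376 N)))))) N)))))))))⟩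
def e0_255_426__795_170_110 : Ent 5 := ⟨[a0, a255, a426], [a795, a170, a989], (M a192 (F (T t375 (T t376 (L l220 (T t400 N))))))⟩
def e0_255_426__795_170_111 : Ent 5 := ⟨[a0, a255, a426], [a795, a170, a1006], (M a192 (F (T t375 (T t376 (L l220 (T t400 N))))))⟩
def e0_255_426__795_170_112 : Ent 5 := ⟨[a0, a255, a426], [a795, a170, a1008], (M a192 (F (T t757 (L l1828 (T t376 (L l220 (T t400 N)))))))⟩
def e0_255_426__795_170_113 : Ent 5 := ⟨[a0, a255, a426], [a795, a170, a1013], (M a192 (F (T t375 (T t376 (L l220 (T t400 N))))))⟩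
def e0_255_426__795_170_114 : Ent 5 := ⟨[a0, a255, a426], [a795, a170, a1018], (M a192 (F (T t375 (T t376 (L l220 (T t400 N))))))⟩
def e0_255_426__795_170_115 : Ent 5 := ⟨[a0, a255, a426], [a795, a170, a1023], (M a192 (F (T t757 (L l1856 (T t376 (L l220 (L l3073 (T t838 (L l220 (L l1993 (T t839 N)))))))))))⟩
def b0_255_426__795_170 : Blk 5 := ⟨[0, 255, 426], [795, 170], [5, 10, 15, 17, 34, 39, 51, 68, 80, 85, 90, 95, 102, 119, 136, 153, 160, 165, 175, 187, 204, 216, 221, 238, 240, 245, 250, 256, 261, 266, 271, 273, 290, 295, 307, 324, 336, 341, 346, 351, 358, 375, 392, 409, 416, 421, 431, 443, 460, 472, 477, 494, 496, 501, 506, 511, 512, 517, 522, 527, 529, 546, 551, 563, 580, 592, 597, 602, 607, 614, 631, 648, 665, 672, 677, 682, 687, 699, 716, 728, 733, 750, 752, 757, 762, 767, 768, 773, 778, 783, 785, 802, 807, 819, 836, 848, 853, 858, 863, 870, 887, 904, 921, 928, 933, 938, 943, 955, 972, 984, 989, 1006, 1008, 1013, 1018, 1023], [e0_255_426__795_170_0,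 e0_255_426__795_170_1, e0_255_426__795_170_2, e0_255_426__795_170_3, e0_255_426__795_170_4, e0_255_426__795_170_5, e0_255_426__795_170_6, e0_255_426__795_170_7, e0_255_426__795_170_8, e0_255_426__795_170_9, e0_255_426__795_170_10, e0_255_426__795_170_11, e0_255_426__795_170_12, e0_255_426__795_170_13, e0_255_426__795_170_14, e0_255_426__795_170_15, e0_255_426__795_170_16, e0_255_426__795_170_17, e0_255_426__795_170_18, e0_255_426__795_170_19, e0_255_426__795_170_20, e0_255_426__795_170_21, e0_255_426__795_170_22, e0_255_426__795_170_23, e0_255_426__795_170_24, e0_255_426__795_170_25, e0_255_426__795_170_26, e0_255_426__795_170_27, e0_255_426__795_170_28, e0_255_426__795_170_29, e0_255_426__795_170_30, e0_255_426__795_170_31, e0_255_426__795_170_32, e0_255_426__795_170_33, e0_255_426__795_170_34, e0_255_426__795_170_35, e0_255_426__795_170_36, e0_255_426__795_170_37, e0_255_426__795_170_38, e0_255_426__795_170_39, e0_255_426__795_170_40, e0_255_426__795_170_41,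 e0_255_426__795_170_42, e0_255_426__795_170_43, e0_255_426__795_170_44, e0_255_426__795_170_45, e0_255_426__795_170_46, e0_255_426__795_170_47, e0_255_426__795_170_48, e0_255_426__795_170_49, e0_255_426__795_170_50, e0_255_426__795_170_51, e0_255_426__795_170_52, e0_255_426__795_170_53, e0_255_426__795_170_54, e0_255_426__795_170_55, e0_255_426__795_170_56, e0_255_426__795_170_57, e0_255_426__795_170_58, e0_255_426__795_170_59, e0_255_426__795_170_60, e0_255_426__795_170_61, e0_255_426__795_170_62, e0_255_426__795_170_63, e0_255_426__795_170_64, e0_255_426__795_170_65, e0_255_426__795_170_66, e0_255_426__795_170_67, e0_255_426__795_170_68, e0_255_426__795_170_69, e0_255_426__795_170_70, e0_255_426__795_170_71, e0_255_426__795_170_72, e0_255_426__795_170_73, e0_255_426__795_170_74, e0_255_426__795_170_75, e0_255_426__795_170_76, e0_255_426__795_170_77, e0_255_426__795_170_78, e0_255_426__795_170_79, e0_255_426__795_170_80, e0_255_426__795_170_81, e0_255_426__795_170_82,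 e0_255_426__795_170_83, e0_255_426__795_170_84, e0_255_426__795_170_85, e0_255_426__795_170_86, e0_255_426__795_170_87, e0_255_426__795_170_88, e0_255_426__795_170_89, e0_255_426__795_170_90, e0_255_426__795_170_91, e0_255_426__795_170_92, e0_255_426__795_170_93, e0_255_426__795_170_94, e0_255_426__795_170_95, e0_255_426__795_170_96, e0_255_426__795_170_97, e0_255_426__795_170_98, e0_255_426__795_170_99, e0_255_426__795_170_100, e0_255_426__795_170_101, e0_255_426__795_170_102, e0_255_426__795_170_103, e0_255_426__795_170_104, e0_255_426__795_170_105, e0_255_426__795_170_106, e0_255_426__795_170_107, e0_255_426__795_170_108, e0_255_426__795_170_109, e0_255_426__795_170_110, e0_255_426__795_170_111, e0_255_426__795_170_112, e0_255_426__795_170_113, e0_255_426__795_170_114, e0_255_426__795_170_115], by decide +kernel, by decide +kernel⟩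
def e0_255_426__858_170_0 : Ent 5 := ⟨[a0, a255, a426], [a858, a170, a17], (M a192 (F (T t375 (T t376 (L l220 (T t400 N))))))⟩
def e0_255_426__858_170_1 : Ent 5 := ⟨[a0, a255, a426], [a858, a170, a27], (M a192 (F (T t375 (T t376 (L l220 (T t400 N))))))⟩
def e0_255_426__858_170_2 : Ent 5 := ⟨[a0, a255, a426], [a858, a170, a34], (M a192 (L l402 (F (T t375 (T t376 (L l220 (T t400 (K a102 (M a238 (F (T t752 (L l208 (L l2154 (T t758 N)))))) (K a238 (M a102 (F (T t399 (L l220 (T t400 (T t376 N)))))) N)))))))))⟩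
def e0_255_426__858_170_3 : Ent 5 := ⟨[a0, a255, a426], [a858, a170, a39], (M a192 (F (T t375 (T t376 (L l220 (T t400 N))))))⟩
def e0_255_426__858_170_4 : Ent 5 := ⟨[a0, a255, a426], [a858, a170, a51], (M a192 (F (T t757 (L l3129 (T t376 (L l220 (T t400 N)))))))⟩
def e0_255_426__858_170_5 : Ent 5 := ⟨[a0, a255, a426], [a858, a170, a102], (M a192 (L l402 (F (T t375 (T t376 (L l220 (T t400 (K a34 (M a238 (F (T t752 (L l208 (L l2154 (T t758 N)))))) (K a238 (M a34 (F (T t752 (L l150 (L l220 (T t760 N)))))) N)))))))))⟩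
def e0_255_426__858_170_6 : Ent 5 := ⟨[a0, a255, a426], [a858, a170, a114], (M a192 (F (T t375 (T t376 (L l220 (T t400 N))))))⟩
def e0_255_426__858_170_7 : Ent 5 := ⟨[a0, a255, a426], [a858, a170, a119], (M a192 (F (T t375 (L l2487 (T t376 (L l220 (T t400 N)))))))⟩
def e0_255_426__858_170_8 : Ent 5 := ⟨[a0, a255, a426], [a858, a170, a177], (M a192 (F (T t375 (T t376 (L l220 (T t400 N))))))⟩
def e0_255_426__858_170_9 : Ent 5 := ⟨[a0, a255, a426], [a858, a170, a187], (M a192 (L l208 (F (T t375 (T t376 (L l220 (T t400 (K a136 (M a153 (F (T t399 (L l156 (L l220 (T t400 (T t376 N))))))) (K a153 (M a136 (F (T t752 (L l226 (L l464 (T t762 N)))))) N)))))))))⟩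
def e0_255_426__858_170_10 : Ent 5 := ⟨[a0, a255, a426], [a858, a170, a273], (M a192 (F (T t375 (L l564 (T t376 (L l220 (L l564 (T t400 N))))))))⟩
def e0_255_426__858_170_11 : Ent 5 := ⟨[a0, a255, a426], [a858, a170, a283], (M a192 (F (T t375 (T t376 (L l220 (T t400 N))))))⟩
def e0_255_426__858_170_12 : Ent 5 := ⟨[a0, a255, a426], [a858, a170, a290], (M a192 (F (T t771 (L l220 (L l564 (T t400 (L l564 (T t376 N))))))))⟩
def e0_255_426__858_170_13 : Ent 5 := ⟨[a0, a255, a426], [a858, a170, a295], (M a192 (F (T t375 (T t376 (L l220 (T t400 N))))))⟩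
def e0_255_426__858_170_14 : Ent 5 := ⟨[a0, a255, a426], [a858, a170, a307], (M a192 (F (T t375 (L l564 (T t376 (L l220 (L l564 (T t400 N))))))))⟩
def e0_255_426__858_170_15 : Ent 5 := ⟨[a0, a255, a426], [a858, a170, a358], (M a192 (F (T t375 (L l2487 (T t376 (L l220 (T t400 N)))))))⟩
def e0_255_426__858_170_16 : Ent 5 := ⟨[a0, a255, a426], [a858, a170, a370], (M a192 (F (T t375 (T t376 (L l220 (T t400 N))))))⟩
def e0_255_426__858_170_17 : Ent 5 := ⟨[a0, a255, a426], [a858, a170, a375], (M a192 (F (T t375 (T t376 (L l220 (L l2431 (T t400 N)))))))⟩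
def e0_255_426__858_170_18 : Ent 5 := ⟨[a0, a255, a426], [a858, a170, a433], (M a192 (F (T t375 (T t376 (L l220 (T t400 N))))))⟩
def e0_255_426__858_170_19 : Ent 5 := ⟨[a0, a255, a426], [a858, a170, a443], (M a192 (F (T t375 (T t376 (L l220 (T t400 N))))))⟩
def e0_255_426__858_170_20 : Ent 5 := ⟨[a0, a255, a426], [a858, a170, a529], (M a192 (F (T t771 (L l220 (T t400 (L l1405 (T t376 N)))))))⟩
def e0_255_426__858_170_21 : Ent 5 := ⟨[a0, a255, a426], [a858, a170, a539], (M a192 (F (T t375 (T t376 (L l220 (T t400 N))))))⟩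
def e0_255_426__858_170_22 : Ent 5 := ⟨[a0, a255, a426], [a858, a170, a546], (M a192 (F (T t375 (T t376 (L l220 (T t400 N))))))⟩
def e0_255_426__858_170_23 : Ent 5 := ⟨[a0, a255, a426], [a858, a170, a551], (M a192 (F (T t375 (T t376 (L l220 (T t400 N))))))⟩
def e0_255_426__858_170_24 : Ent 5 := ⟨[a0, a255, a426], [a858, a170, a563], (M a192 (F (T t375 (L l1529 (T t376 (L l220 (T t400 N)))))))⟩
def e0_255_426__858_170_25 : Ent 5 := ⟨[a0, a255, a426], [a858, a170, a614], (M a192 (F (T t375 (L l1166 (T t376 (L l220 (T t400 N)))))))⟩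
def e0_255_426__858_170_26 : Ent 5 := ⟨[a0, a255, a426], [a858, a170, a626], (M a192 (F (T t375 (T t376 (L l220 (T t400 N))))))⟩
def e0_255_426__858_170_27 : Ent 5 := ⟨[a0, a255, a426], [a858, a170, a631], (M a192 (F (T t375 (L l1166 (T t376 (L l220 (T t400 N)))))))⟩
def e0_255_426__858_170_28 : Ent 5 := ⟨[a0, a255, a426], [a858, a170, a689], (M a192 (F (T t375 (T t376 (L l220 (T t400 N))))))⟩
def e0_255_426__858_170_29 : Ent 5 := ⟨[a0, a255, a426], [a858, a170, a699], (M a192 (F (T t375 (T t376 (L l220 (T t400 N))))))⟩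
def e0_255_426__858_170_30 : Ent 5 := ⟨[a0, a255, a426], [a858, a170, a785], (M a192 (F (T t757 (L l3227 (T t376 (L l220 (T t400 N)))))))⟩
def e0_255_426__858_170_31 : Ent 5 := ⟨[a0, a255, a426], [a858, a170, a795], (M a192 (L l1917 (F (T t375 (T t376 (L l220 (T t400 (K a984 (M a921 (F (T t399 (L l220 (T t400 (T t376 N)))))) (K a921 (M a984 (F (T t399 (L l220 (T t400 (T t376 N)))))) N)))))))))⟩
def e0_255_426__858_170_32 : Ent 5 := ⟨[a0, a255, a426], [a858, a170, a802], (M a192 (F (T t399 (L l220 (L l1586 (T t400 (T t376 N)))))))⟩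
def e0_255_426__858_170_33 : Ent 5 := ⟨[a0, a255, a426], [a858, a170, a807], (M a192 (F (T t375 (T t376 (L l220 (T t400 N))))))⟩
def e0_255_426__858_170_34 : Ent 5 := ⟨[a0, a255, a426], [a858, a170, a819], (M a192 (F (T t757 (L l2049 (T t376 (L l220 (T t400 N)))))))⟩
def e0_255_426__858_170_35 : Ent 5 := ⟨[a0, a255, a426], [a858, a170, a870], (M a192 (L l1708 (F (T t375 (T t376 (L l220 (T t400 (K a882 (M a846 (F (T t399 (L l220 (T t400 (T t376 N)))))) (K a846 (M a882 (F (T t399 (L l220 (T t400 (T t376 N)))))) N)))))))))⟩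
def e0_255_426__858_170_36 : Ent 5 := ⟨[a0, a255, a426], [a858, a170, a882], (M a192 (L l1708 (F (T t375 (T t376 (L l220 (T t400 (K a870 (M a846 (F (T t399 (L l220 (T t400 (T t376 N)))))) (K a846 (M a870 (F (T t399 (L l220 (T t400 (T t376 N)))))) N)))))))))⟩
def e0_255_426__858_170_37 : Ent 5 := ⟨[a0, a255, a426], [a858, a170, a887], (M a192 (F (T t375 (T t376 (L l220 (L l1673 (T t400 N)))))))⟩
def e0_255_426__858_170_38 : Ent 5 := ⟨[a0, a255, a426], [a858, a170, a945], (M a192 (F (T t375 (T t376 (L l220 (T t400 N))))))⟩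
def e0_255_426__858_170_39 : Ent 5 := ⟨[a0, a255, a426], [a858, a170, a955], (M a192 (F (T t375 (T t376 (L l220 (T t400 N))))))⟩
def b0_255_426__858_170 : Blk 5 := ⟨[0, 255, 426], [858, 170], [17, 27, 34, 39, 51, 102, 114, 119, 177, 187, 273, 283, 290, 295, 307, 358, 370, 375, 433, 443, 529, 539, 546, 551, 563, 614, 626, 631, 689, 699, 785, 795, 802, 807, 819, 870, 882, 887, 945, 955], [e0_255_426__858_170_0, e0_255_426__858_170_1, e0_255_426__858_170_2, e0_255_426__858_170_3, e0_255_426__858_170_4, e0_255_426__858_170_5, e0_255_426__858_170_6, e0_255_426__858_170_7, e0_255_426__858_170_8, e0_255_426__858_170_9, e0_255_426__858_170_10, e0_255_426__858_170_11, e0_255_426__858_170_12, e0_255_426__858_170_13, e0_255_426__858_170_14, e0_255_426__858_170_15, e0_255_426__858_170_16, e0_255_426__858_170_17, e0_255_426__858_170_18, e0_255_426__858_170_19, e0_255_426__858_170_20, e0_255_426__858_170_21, e0_255_426__858_170_22, e0_255_426__858_170_23, e0_255_426__858_170_24,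 e0_255_426__858_170_25, e0_255_426__858_170_26, e0_255_426__858_170_27, e0_255_426__858_170_28, e0_255_426__858_170_29, e0_255_426__858_170_30, e0_255_426__858_170_31, e0_255_426__858_170_32, e0_255_426__858_170_33, e0_255_426__858_170_34, e0_255_426__858_170_35, e0_255_426__858_170_36, e0_255_426__858_170_37, e0_255_426__858_170_38, e0_255_426__858_170_39], by decide +kernel, by decide +kernel⟩
def e0_255_426__863_170_0 : Ent 5 := ⟨[a0, a255, a426], [a863, a170, a17], (M a192 (F (T t375 (T t376 (L l220 (L l1697 (T t400 N)))))))⟩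
def e0_255_426__863_170_1 : Ent 5 := ⟨[a0, a255, a426], [a863, a170, a27], (M a192 (F (T t375 (T t376 (L l220 (L l1697 (T t400 N)))))))⟩
def e0_255_426__863_170_2 : Ent 5 := ⟨[a0, a255, a426], [a863, a170, a34], (M a192 (L l402 (F (T t375 (T t376 (L l220 (L l1697 (T t400 (K a102 (M a238 (F (T t752 (L l208 (L l2154 (T t758 N)))))) (K a238 (M a102 (F (T t399 (L l220 (L l1697 (T t400 (T t376 N))))))) N))))))))))⟩
def e0_255_426__863_170_3 : Ent 5 := ⟨[a0, a255, a426], [a863, a170, a39], (M a192 (F (T t375 (T t376 (L l220 (L l1697 (T t400 N)))))))⟩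
def e0_255_426__863_170_4 : Ent 5 := ⟨[a0, a255, a426], [a863, a170, a51], (M a192 (F (T t757 (L l3129 (T t376 (L l220 (L l1697 (T t400 N))))))))⟩
def e0_255_426__863_170_5 : Ent 5 := ⟨[a0, a255, a426], [a863, a170, a102], (M a192 (L l402 (F (T t375 (T t376 (L l220 (L l1697 (T t400 (K a34 (M a238 (F (T t752 (L l208 (L l2154 (T t758 N)))))) (K a238 (M a34 (F (T t752 (L l150 (L l220 (T t760 N)))))) N))))))))))⟩
def e0_255_426__863_170_6 : Ent 5 := ⟨[a0, a255, a426], [a863, a170, a114], (M a192 (F (T t375 (T t376 (L l220 (L l1697 (T t400 N)))))))⟩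
def e0_255_426__863_170_7 : Ent 5 := ⟨[a0, a255, a426], [a863, a170, a119], (M a192 (F (T t375 (L l2487 (T t376 (L l220 (L l1697 (T t400 N))))))))⟩
def e0_255_426__863_170_8 : Ent 5 := ⟨[a0, a255, a426], [a863, a170, a177], (M a192 (F (T t375 (T t376 (L l220 (L l1697 (T t400 N)))))))⟩
def e0_255_426__863_170_9 : Ent 5 := ⟨[a0, a255, a426], [a863, a170, a187], (M a192 (L l208 (F (T t375 (T t376 (L l220 (L l1697 (T t400 (K a136 (M a153 (F (T t399 (L l156 (L l220 (L l1697 (T t400 (T t376 N)))))))) (K a153 (M a136 (F (T t375 (L l226 (L l464 (T t762 N)))))) N))))))))))⟩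
def e0_255_426__863_170_10 : Ent 5 := ⟨[a0, a255, a426], [a863, a170, a273], (M a192 (F (T t375 (L l564 (T t376 (L l220 (L l564 (L l1697 (T t400 N)))))))))⟩
def e0_255_426__863_170_11 : Ent 5 := ⟨[a0, a255, a426], [a863, a170, a283], (M a192 (F (T t375 (T t376 (L l220 (L l1697 (T t400 N)))))))⟩
def e0_255_426__863_170_12 : Ent 5 := ⟨[a0, a255, a426], [a863, a170, a290], (M a192 (F (T t757 (L l564 (T t376 (L l220 (L l564 (L l1697 (T t400 N)))))))))⟩
def e0_255_426__863_170_13 : Ent 5 := ⟨[a0, a255, a426], [a863, a170, a295], (M a192 (F (T t375 (T t376 (L l220 (L l1697 (T t400 N)))))))⟩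
def e0_255_426__863_170_14 : Ent 5 := ⟨[a0, a255, a426], [a863, a170, a307], (M a192 (F (T t375 (L l564 (T t376 (L l220 (L l564 (L l1697 (T t400 N)))))))))⟩
def e0_255_426__863_170_15 : Ent 5 := ⟨[a0, a255, a426], [a863, a170, a358], (M a192 (F (T t375 (L l2487 (T t376 (L l220 (L l1697 (T t400 N))))))))⟩
def e0_255_426__863_170_16 : Ent 5 := ⟨[a0, a255, a426], [a863, a170, a370], (M a192 (F (T t375 (T t376 (L l220 (L l1697 (T t400 N)))))))⟩
def e0_255_426__863_170_17 : Ent 5 := ⟨[a0, a255, a426], [a863, a170, a375], (M a192 (F (T t375 (T t376 (L l220 (L l1697 (L l2431 (T t400 N))))))))⟩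
def e0_255_426__863_170_18 : Ent 5 := ⟨[a0, a255, a426], [a863, a170, a433], (M a192 (F (T t375 (T t376 (L l220 (L l1697 (T t400 N)))))))⟩
def e0_255_426__863_170_19 : Ent 5 := ⟨[a0, a255, a426], [a863, a170, a443], (M a192 (F (T t375 (T t376 (L l220 (L l1697 (T t400 N)))))))⟩
def e0_255_426__863_170_20 : Ent 5 := ⟨[a0, a255, a426], [a863, a170, a529], (M a192 (F (T t771 (L l220 (L l1697 (T t400 (L l1405 (T t376 N))))))))⟩
def e0_255_426__863_170_21 : Ent 5 := ⟨[a0, a255, a426], [a863, a170, a539], (M a192 (F (T t375 (T t376 (L l220 (L l1697 (T t400 N)))))))⟩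
def e0_255_426__863_170_22 : Ent 5 := ⟨[a0, a255, a426], [a863, a170, a546], (M a192 (F (T t375 (T t376 (L l220 (L l1697 (T t400 N)))))))⟩
def e0_255_426__863_170_23 : Ent 5 := ⟨[a0, a255, a426], [a863, a170, a551], (M a192 (F (T t375 (T t376 (L l220 (L l1697 (T t400 N)))))))⟩
def e0_255_426__863_170_24 : Ent 5 := ⟨[a0, a255, a426], [a863, a170, a563], (M a192 (F (T t375 (L l1529 (T t376 (L l220 (L l1697 (T t400 N))))))))⟩
def e0_255_426__863_170_25 : Ent 5 := ⟨[a0, a255, a426], [a863, a170, a614], (M a192 (F (T t375 (L l1166 (T t376 (L l220 (L l1697 (T t400 N))))))))⟩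
def e0_255_426__863_170_26 : Ent 5 := ⟨[a0, a255, a426], [a863, a170, a626], (M a192 (F (T t375 (T t376 (L l220 (L l1697 (T t400 N)))))))⟩
def e0_255_426__863_170_27 : Ent 5 := ⟨[a0, a255, a426], [a863, a170, a631], (M a192 (F (T t375 (L l1166 (T t376 (L l220 (L l1697 (T t400 N))))))))⟩
def e0_255_426__863_170_28 : Ent 5 := ⟨[a0, a255, a426], [a863, a170, a689], (M a192 (F (T t375 (T t376 (L l220 (L l1697 (T t400 N)))))))⟩
def e0_255_426__863_170_29 : Ent 5 := ⟨[a0, a255, a426], [a863, a170, a699], (M a192 (F (T t375 (T t376 (L l220 (L l1697 (T t400 N)))))))⟩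
def e0_255_426__863_170_30 : Ent 5 := ⟨[a0, a255, a426], [a863, a170, a785], (M a192 (F (T t771 (L l220 (L l1697 (T t400 (L l3227 (T t376 N))))))))⟩
def e0_255_426__863_170_31 : Ent 5 := ⟨[a0, a255, a426], [a863, a170, a795], (M a192 (F (T t375 (T t376 (L l220 (L l1697 (T t400 N)))))))⟩
def e0_255_426__863_170_32 : Ent 5 := ⟨[a0, a255, a426], [a863, a170, a802], (M a192 (F (T t399 (L l220 (L l1586 (L l1697 (T t400 (T t376 N))))))))⟩
def e0_255_426__863_170_33 : Ent 5 := ⟨[a0, a255, a426], [a863, a170, a807], (M a192 (F (T t375 (T t376 (L l220 (L l1697 (T t400 N)))))))⟩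
def e0_255_426__863_170_34 : Ent 5 := ⟨[a0, a255, a426], [a863, a170, a819], (M a192 (F (T t757 (L l2049 (T t376 (L l220 (L l1697 (T t400 N))))))))⟩
def e0_255_426__863_170_35 : Ent 5 := ⟨[a0, a255, a426], [a863, a170, a870], (M a192 (F (T t375 (T t376 (L l220 (L l1697 (T t400 N)))))))⟩
def e0_255_426__863_170_36 : Ent 5 := ⟨[a0, a255, a426], [a863, a170, a882], (M a192 (F (T t375 (T t376 (L l220 (L l1697 (T t400 N)))))))⟩
def e0_255_426__863_170_37 : Ent 5 := ⟨[a0, a255, a426], [a863, a170, a887], (M a192 (F (T t375 (T t376 (L l220 (L l1673 (L l1697 (T t400 N))))))))⟩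
def e0_255_426__863_170_38 : Ent 5 := ⟨[a0, a255, a426], [a863, a170, a945], (M a192 (F (T t375 (T t376 (L l220 (L l1697 (T t400 N)))))))⟩
def e0_255_426__863_170_39 : Ent 5 := ⟨[a0, a255, a426], [a863, a170, a955], (M a192 (F (T t375 (T t376 (L l220 (L l1697 (T t400 N)))))))⟩
def b0_255_426__863_170 : Blk 5 := ⟨[0, 255, 426], [863, 170], [17, 27, 34, 39, 51, 102, 114, 119, 177, 187, 273, 283, 290, 295, 307, 358, 370, 375, 433, 443, 529, 539, 546, 551, 563, 614, 626, 631, 689, 699, 785, 795, 802, 807, 819, 870, 882, 887, 945, 955], [e0_255_426__863_170_0, e0_255_426__863_170_1, e0_255_426__863_170_2, e0_255_426__863_170_3, e0_255_426__863_170_4, e0_255_426__863_170_5, e0_255_426__863_170_6, e0_255_426__863_170_7, e0_255_426__863_170_8, e0_255_426__863_170_9, e0_255_426__863_170_10, e0_255_426__863_170_11, e0_255_426__863_170_12, e0_255_426__863_170_13, e0_255_426__863_170_14, e0_255_426__863_170_15, e0_255_426__863_170_16, e0_255_426__863_170_17, e0_255_426__863_170_18,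 e0_255_426__863_170_19, e0_255_426__863_170_20, e0_255_426__863_170_21, e0_255_426__863_170_22, e0_255_426__863_170_23, e0_255_426__863_170_24, e0_255_426__863_170_25, e0_255_426__863_170_26, e0_255_426__863_170_27, e0_255_426__863_170_28, e0_255_426__863_170_29, e0_255_426__863_170_30, e0_255_426__863_170_31, e0_255_426__863_170_32, e0_255_426__863_170_33, e0_255_426__863_170_34, e0_255_426__863_170_35, e0_255_426__863_170_36, e0_255_426__863_170_37, e0_255_426__863_170_38, e0_255_426__863_170_39], by decide +kernel, by decide +kernel⟩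
def e0_255_426__943_170_0 : Ent 5 := ⟨[a0, a255, a426], [a943, a170, a17], (M a192 (F (T t375 (T t376 (L l220 (T t400 N))))))⟩
def e0_255_426__943_170_1 : Ent 5 := ⟨[a0, a255, a426], [a943, a170, a27], (M a192 (F (T t375 (T t376 (L l220 (T t400 N))))))⟩
def e0_255_426__943_170_2 : Ent 5 := ⟨[a0, a255, a426], [a943, a170, a34], (M a192 (L l402 (F (T t375 (T t376 (L l220 (T t400 (K a102 (M a238 (F (T t752 (L l208 (L l2154 (T t758 N)))))) (K a238 (M a102 (F (T t399 (L l220 (T t400 (T t376 N)))))) N)))))))))⟩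
def e0_255_426__943_170_3 : Ent 5 := ⟨[a0, a255, a426], [a943, a170, a39], (M a192 (F (T t375 (T t376 (L l220 (T t400 N))))))⟩
def e0_255_426__943_170_4 : Ent 5 := ⟨[a0, a255, a426], [a943, a170, a51], (M a192 (F (T t757 (L l3129 (T t376 (L l220 (T t400 N)))))))⟩
def e0_255_426__943_170_5 : Ent 5 := ⟨[a0, a255, a426], [a943, a170, a102], (M a192 (L l402 (F (T t375 (T t376 (L l220 (T t400 (K a34 (M a238 (F (T t752 (L l208 (L l2154 (T t758 N)))))) (K a238 (M a34 (F (T t752 (L l150 (L l220 (T t760 N)))))) N)))))))))⟩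
def e0_255_426__943_170_6 : Ent 5 := ⟨[a0, a255, a426], [a943, a170, a114], (M a192 (F (T t375 (T t376 (L l220 (T t400 N))))))⟩
def e0_255_426__943_170_7 : Ent 5 := ⟨[a0, a255, a426], [a943, a170, a119], (M a192 (F (T t375 (L l2487 (T t376 (L l220 (T t400 N)))))))⟩
def e0_255_426__943_170_8 : Ent 5 := ⟨[a0, a255, a426], [a943, a170, a177], (M a192 (F (T t375 (T t376 (L l220 (T t400 N))))))⟩
def e0_255_426__943_170_9 : Ent 5 := ⟨[a0, a255, a426], [a943, a170, a187], (M a192 (L l208 (F (T t375 (T t376 (L l220 (T t400 (K a136 (M a153 (F (T t399 (L l156 (L l220 (T t400 (T t376 N))))))) (K a153 (M a136 (F (T t752 (L l226 (L l464 (T t762 N)))))) N)))))))))⟩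
def e0_255_426__943_170_10 : Ent 5 := ⟨[a0, a255, a426], [a943, a170, a273], (M a192 (F (T t375 (L l564 (T t376 (L l220 (L l564 (T t400 N))))))))⟩
def e0_255_426__943_170_11 : Ent 5 := ⟨[a0, a255, a426], [a943, a170, a283], (M a192 (F (T t375 (T t376 (L l220 (T t400 N))))))⟩
def e0_255_426__943_170_12 : Ent 5 := ⟨[a0, a255, a426], [a943, a170, a290], (M a192 (F (T t757 (L l564 (T t376 (L l220 (L l564 (T t400 N))))))))⟩
def e0_255_426__943_170_13 : Ent 5 := ⟨[a0, a255, a426], [a943, a170, a295], (M a192 (F (T t375 (T t376 (L l220 (T t400 N))))))⟩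
def e0_255_426__943_170_14 : Ent 5 := ⟨[a0, a255, a426], [a943, a170, a307], (M a192 (F (T t375 (L l564 (T t376 (L l220 (L l564 (T t400 N))))))))⟩
def e0_255_426__943_170_15 : Ent 5 := ⟨[a0, a255, a426], [a943, a170, a358], (M a192 (F (T t375 (L l2487 (T t376 (L l220 (T t400 N)))))))⟩
def e0_255_426__943_170_16 : Ent 5 := ⟨[a0, a255, a426], [a943, a170, a370], (M a192 (F (T t375 (T t376 (L l220 (T t400 N))))))⟩
def e0_255_426__943_170_17 : Ent 5 := ⟨[a0, a255, a426], [a943, a170, a375], (M a192 (F (T t375 (T t376 (L l220 (L l2431 (T t400 N)))))))⟩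
def e0_255_426__943_170_18 : Ent 5 := ⟨[a0, a255, a426], [a943, a170, a433], (M a192 (F (T t375 (T t376 (L l220 (T t400 N))))))⟩
def e0_255_426__943_170_19 : Ent 5 := ⟨[a0, a255, a426], [a943, a170, a443], (M a192 (F (T t375 (T t376 (L l220 (T t400 N))))))⟩
def e0_255_426__943_170_20 : Ent 5 := ⟨[a0, a255, a426], [a943, a170, a529], (M a192 (F (T t771 (L l220 (T t400 (L l1405 (T t376 N)))))))⟩
def e0_255_426__943_170_21 : Ent 5 := ⟨[a0, a255, a426], [a943, a170, a539], (M a192 (F (T t375 (T t376 (L l220 (T t400 N))))))⟩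
def e0_255_426__943_170_22 : Ent 5 := ⟨[a0, a255, a426], [a943, a170, a546], (M a192 (F (T t375 (T t376 (L l220 (T t400 N))))))⟩
def e0_255_426__943_170_23 : Ent 5 := ⟨[a0, a255, a426], [a943, a170, a551], (M a192 (F (T t375 (T t376 (L l220 (T t400 N))))))⟩
def e0_255_426__943_170_24 : Ent 5 := ⟨[a0, a255, a426], [a943, a170, a563], (M a192 (F (T t375 (L l1529 (T t376 (L l220 (T t400 N)))))))⟩
def e0_255_426__943_170_25 : Ent 5 := ⟨[a0, a255, a426], [a943, a170, a614], (M a192 (F (T t375 (L l1166 (T t376 (L l220 (T t400 N)))))))⟩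
def e0_255_426__943_170_26 : Ent 5 := ⟨[a0, a255, a426], [a943, a170, a626], (M a192 (F (T t375 (T t376 (L l220 (T t400 N))))))⟩
def e0_255_426__943_170_27 : Ent 5 := ⟨[a0, a255, a426], [a943, a170, a631], (M a192 (F (T t375 (L l1166 (T t376 (L l220 (T t400 N)))))))⟩
def e0_255_426__943_170_28 : Ent 5 := ⟨[a0, a255, a426], [a943, a170, a689], (M a192 (F (T t375 (T t376 (L l220 (T t400 N))))))⟩
def e0_255_426__943_170_29 : Ent 5 := ⟨[a0, a255, a426], [a943, a170, a699], (M a192 (F (T t375 (T t376 (L l220 (T t400 N))))))⟩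
def e0_255_426__943_170_30 : Ent 5 := ⟨[a0, a255, a426], [a943, a170, a785], (M a192 (F (T t771 (L l220 (T t400 (L l3227 (T t376 N)))))))⟩
def e0_255_426__943_170_31 : Ent 5 := ⟨[a0, a255, a426], [a943, a170, a795], (M a192 (F (T t375 (T t376 (L l220 (T t400 N))))))⟩
def e0_255_426__943_170_32 : Ent 5 := ⟨[a0, a255, a426], [a943, a170, a802], (M a192 (F (T t399 (L l220 (L l1586 (T t400 (T t376 N)))))))⟩
def e0_255_426__943_170_33 : Ent 5 := ⟨[a0, a255, a426], [a943, a170, a807], (M a192 (F (T t375 (T t376 (L l220 (T t400 N))))))⟩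
def e0_255_426__943_170_34 : Ent 5 := ⟨[a0, a255, a426], [a943, a170, a819], (M a192 (F (T t757 (L l2049 (T t376 (L l220 (T t400 N)))))))⟩
def e0_255_426__943_170_35 : Ent 5 := ⟨[a0, a255, a426], [a943, a170, a870], (M a192 (F (T t375 (T t376 (L l220 (T t400 N))))))⟩
def e0_255_426__943_170_36 : Ent 5 := ⟨[a0, a255, a426], [a943, a170, a882], (M a192 (F (T t375 (T t376 (L l220 (T t400 N))))))⟩
def e0_255_426__943_170_37 : Ent 5 := ⟨[a0, a255, a426], [a943, a170, a887], (M a192 (F (T t375 (T t376 (L l220 (L l1673 (T t400 N)))))))⟩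
def e0_255_426__943_170_38 : Ent 5 := ⟨[a0, a255, a426], [a943, a170, a945], (M a192 (F (T t375 (T t376 (L l220 (T t400 N))))))⟩
def e0_255_426__943_170_39 : Ent 5 := ⟨[a0, a255, a426], [a943, a170, a955], (M a192 (F (T t375 (T t376 (L l220 (T t400 N))))))⟩
def b0_255_426__943_170 : Blk 5 := ⟨[0, 255, 426], [943, 170], [17, 27, 34, 39, 51, 102, 114, 119, 177, 187, 273, 283, 290, 295, 307, 358, 370, 375, 433, 443, 529, 539, 546, 551, 563, 614, 626, 631, 689, 699, 785, 795, 802, 807, 819, 870, 882, 887, 945, 955], [e0_255_426__943_170_0, e0_255_426__943_170_1, e0_255_426__943_170_2, e0_255_426__943_170_3, e0_255_426__943_170_4, e0_255_426__943_170_5, e0_255_426__943_170_6, e0_255_426__943_170_7, e0_255_426__943_170_8, e0_255_426__943_170_9, e0_255_426__943_170_10, e0_255_426__943_170_11, e0_255_426__943_170_12, e0_255_426__943_170_13, e0_255_426__943_170_14, e0_255_426__943_170_15, e0_255_426__943_170_16, e0_255_426__943_170_17, e0_255_426__943_170_18,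 e0_255_426__943_170_19, e0_255_426__943_170_20, e0_255_426__943_170_21, e0_255_426__943_170_22, e0_255_426__943_170_23, e0_255_426__943_170_24, e0_255_426__943_170_25, e0_255_426__943_170_26, e0_255_426__943_170_27, e0_255_426__943_170_28, e0_255_426__943_170_29, e0_255_426__943_170_30, e0_255_426__943_170_31, e0_255_426__943_170_32, e0_255_426__943_170_33, e0_255_426__943_170_34, e0_255_426__943_170_35, e0_255_426__943_170_36, e0_255_426__943_170_37, e0_255_426__943_170_38, e0_255_426__943_170_39], by decide +kernel, by decide +kernel⟩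
def e0_255_1008__602_170_0 : Ent 5 := ⟨[a0, a255, a1008], [a602, a170, a17], (M a256 (F (T t853 (L l2598 (L l3354 (T t854 (T t855 (L l1134 (T t856 N)))))))))⟩
def e0_255_1008__602_170_1 : Ent 5 := ⟨[a0, a255, a1008], [a602, a170, a27], (M a256 (F (T t853 (L l73 (L l2598 (L l3354 (T t854 (T t855 (L l1134 (T t856 N))))))))))⟩
def e0_255_1008__602_170_2 : Ent 5 := ⟨[a0, a255, a1008], [a602, a170, a34], (M a256 (L l402 (F (T t853 (L l2598 (L l3354 (T t854 (T t855 (L l1134 (T t856 (K a102 (M a238 (F (T t857 (L l2598 (L l3354 (T t858 N)))))) (K a238 (M a102 (F (T t853 (L l2598 (L l3264 (L l3354 (T t854 (T t855 (L l1134 (T t856 N)))))))))) N))))))))))))⟩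
def e0_255_1008__602_170_3 : Ent 5 := ⟨[a0, a255, a1008], [a602, a170, a39], (M a256 (F (T t853 (L l73 (L l2598 (L l3354 (T t854 (T t855 (L l1134 (T t856 N))))))))))⟩
def e0_255_1008__602_170_4 : Ent 5 := ⟨[a0, a255, a1008], [a602, a170, a51], (M a256 (F (T t853 (L l73 (L l2598 (L l3354 (T t854 (T t855 (L l1134 (T t856 N))))))))))⟩
def e0_255_1008__602_170_5 : Ent 5 := ⟨[a0, a255, a1008], [a602, a170, a102], (M a256 (L l402 (F (T t853 (L l2598 (L l3354 (T t854 (T t855 (L l1134 (T t856 (K a34 (M a238 (F (T t857 (L l2598 (L l3354 (T t858 N)))))) (K a238 (M a34 (F (T t859 (T t855 N)))) N))))))))))))⟩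
def e0_255_1008__602_170_6 : Ent 5 := ⟨[a0, a255, a1008], [a602, a170, a114], (M a256 (L l2502 (F (T t853 (L l2598 (L l3354 (T t854 (T t855 (L l1134 (T t856 (K a358 (M a846 (F (T t853 (L l922 (L l2598 (L l3354 (T t854 (T t855 (L l1134 (L l2487 (T t856 N))))))))))) (K a846 (M a358 (F (T t853 (L l208 (L l2598 (L l3354 (T t860 (L l2598 (L l3354 (T t858 N)))))))))) N))))))))))))⟩
def e0_255_1008__602_170_7 : Ent 5 := ⟨[a0, a255, a1008], [a602, a170, a119], (M a256 (F (T t853 (L l2598 (L l3354 (T t854 (T t855 (L l1134 (L l2487 (T t856 N))))))))))⟩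
def e0_255_1008__602_170_8 : Ent 5 := ⟨[a0, a255, a1008], [a602, a170, a177], (M a256 (F (T t853 (L l2598 (L l3354 (T t854 (T t855 (L l1134 (T t856 N)))))))))⟩
def e0_255_1008__602_170_9 : Ent 5 := ⟨[a0, a255, a1008], [a602, a170, a187], (M a256 (L l208 (F (T t853 (L l2598 (L l2709 (L l3354 (T t854 (T t855 (L l1134 (T t856 (K a136 (M a153 (F (T t853 (L l2598 (L l2709 (L l3354 (T t854 (T t855 (L l1134 (T t856 N)))))))))) (K a153 (M a136 (F (T t861 (T t855 N)))) N)))))))))))))⟩
def e0_255_1008__602_170_10 : Ent 5 := ⟨[a0, a255, a1008], [a602, a170, a273], (M a256 (F (T t853 (L l2598 (L l3354 (T t854 (T t855 (L l1134 (T t856 N)))))))))⟩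
def e0_255_1008__602_170_11 : Ent 5 := ⟨[a0, a255, a1008], [a602, a170, a283], (M a256 (F (T t853 (L l2257 (L l2598 (L l3354 (T t854 (T t855 (L l1134 (T t856 N))))))))))⟩
def e0_255_1008__602_170_12 : Ent 5 := ⟨[a0, a255, a1008], [a602, a170, a290], (M a256 (F (T t853 (L l922 (L l2598 (L l3354 (T t854 (T t855 (L l1134 (T t856 N))))))))))⟩
def e0_255_1008__602_170_13 : Ent 5 := ⟨[a0, a255, a1008], [a602, a170, a295], (M a256 (F (T t853 (L l2598 (L l3354 (T t854 (T t855 (L l1134 (T t856 N)))))))))⟩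
def e0_255_1008__602_170_14 : Ent 5 := ⟨[a0, a255, a1008], [a602, a170, a307], (M a256 (F (L l2360 (T t862 (L l2598 (L l3354 (T t854 (T t855 (L l959 (L l1134 (T t856 N)))))))))))⟩
def e0_255_1008__602_170_15 : Ent 5 := ⟨[a0, a255, a1008], [a602, a170, a358], (M a256 (L l2502 (F (T t853 (L l922 (L l2598 (L l3354 (T t854 (T t855 (L l1134 (L l2487 (T t856 (K a114 (M a846 (F (T t853 (L l922 (L l2598 (L l3354 (T t854 (T t855 (L l1134 (L l2487 (T t856 N))))))))))) (K a846 (M a114 (F (T t853 (L l922 (L l2598 (L l3354 (T t854 (T t855 (L l1134 (L l2487 (T t856 N))))))))))) N))))))))))))))⟩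
def e0_255_1008__602_170_16 : Ent 5 := ⟨[a0, a255, a1008], [a602, a170, a370], (M a256 (F (L l2360 (T t862 (L l2598 (L l3354 (T t854 (T t855 (L l1134 (T t856 N))))))))))⟩
def e0_255_1008__602_170_17 : Ent 5 := ⟨[a0, a255, a1008], [a602, a170, a375], (M a256 (F (T t853 (L l2598 (L l3354 (T t854 (T t855 (L l959 (L l1134 (T t856 N))))))))))⟩
def e0_255_1008__602_170_18 : Ent 5 := ⟨[a0, a255, a1008], [a602, a170, a433], (M a256 (F (L l2360 (T t862 (L l2598 (L l3354 (T t854 (T t855 (L l1134 (T t856 N))))))))))⟩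
def e0_255_1008__602_170_19 : Ent 5 := ⟨[a0, a255, a1008], [a602, a170, a443], (M a256 (F (T t853 (L l728 (L l2598 (L l3354 (T t854 (T t855 (L l959 (L l1134 (T t856 N)))))))))))⟩
def e0_255_1008__602_170_20 : Ent 5 := ⟨[a0, a255, a1008], [a602, a170, a529], (M a256 (F (L l1084 (T t853 (L l1084 (L l2598 (L l3354 (T t854 (T t855 (L l1084 (L l1134 (L l1405 (T t856 N)))))))))))))⟩
def e0_255_1008__602_170_21 : Ent 5 := ⟨[a0, a255, a1008], [a602, a170, a539], (M a256 (L l1397 (F (T t853 (L l2598 (L l3354 (T t854 (T t855 (L l1134 (T t856 (K a728 (M a665 (F (T t853 (L l208 (L l2598 (L l3354 (T t863 (L l2598 (L l3354 (T t858 N)))))))))) (K a665 (M a728 (F (T t853 (L l2598 (L l2709 (L l3354 (T t854 (T t855 (L l1134 (L l1405 (T t856 N))))))))))) N))))))))))))⟩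
def e0_255_1008__602_170_22 : Ent 5 := ⟨[a0, a255, a1008], [a602, a170, a546], (M a256 (F (L l1084 (T t853 (L l1084 (L l2598 (L l3354 (T t854 (T t855 (L l1084 (L l1134 (T t856 N))))))))))))⟩
def e0_255_1008__602_170_23 : Ent 5 := ⟨[a0, a255, a1008], [a602, a170, a551], (M a256 (F (T t853 (L l2257 (L l2598 (L l3354 (T t854 (T t855 (L l1134 (T t856 N))))))))))⟩
def e0_255_1008__602_170_24 : Ent 5 := ⟨[a0, a255, a1008], [a602, a170, a563], (M a256 (F (L l1084 (T t853 (L l1084 (L l2598 (L l3354 (T t854 (L l1479 (T t855 (L l1084 (L l1134 (T t856 N)))))))))))))⟩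
def e0_255_1008__602_170_25 : Ent 5 := ⟨[a0, a255, a1008], [a602, a170, a614], (M a256 (L l1188 (F (T t853 (L l2598 (L l3264 (L l3354 (T t854 (T t855 (L l1134 (L l1166 (T t856 (K a626 (M a590 (F (T t853 (L l2598 (L l3264 (L l3354 (T t854 (T t855 (L l1134 (L l1166 (T t856 N))))))))))) (K a590 (M a626 (F (T t853 (L l2598 (L l3264 (L l3354 (T t854 (T t855 (L l1134 (L l1166 (T t856 N))))))))))) N))))))))))))))⟩
def e0_255_1008__602_170_26 : Ent 5 := ⟨[a0, a255, a1008], [a602, a170, a626], (M a256 (L l1188 (F (T t853 (L l2598 (L l3354 (T t854 (T t855 (L l1134 (T t856 (K a614 (M a590 (F (T t853 (L l2598 (L l3264 (L l3354 (T t854 (T t855 (L l1134 (L l1166 (T t856 N))))))))))) (K a590 (M a614 (F (T t853 (L l402 (L l2598 (L l3354 (T t864 (L l2598 (L l3354 (T t858 N)))))))))) N))))))))))))⟩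
def e0_255_1008__602_170_27 : Ent 5 := ⟨[a0, a255, a1008], [a602, a170, a631], (M a256 (F (T t853 (L l2598 (L l3354 (T t854 (L l1479 (T t855 (L l1134 (L l1166 (T t856 N)))))))))))⟩
def e0_255_1008__602_170_28 : Ent 5 := ⟨[a0, a255, a1008], [a602, a170, a689], (M a256 (F (T t853 (L l2598 (L l3354 (T t854 (T t855 (L l1134 (T t856 N)))))))))⟩
def e0_255_1008__602_170_29 : Ent 5 := ⟨[a0, a255, a1008], [a602, a170, a699], (M a256 (F (T t853 (L l2598 (L l3354 (T t854 (L l1479 (T t855 (L l1134 (T t856 N))))))))))⟩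
def e0_255_1008__602_170_30 : Ent 5 := ⟨[a0, a255, a1008], [a602, a170, a785], (M a256 (F (T t853 (L l2598 (L l3354 (T t854 (T t855 (L l1134 (L l3227 (T t856 N))))))))))⟩
def e0_255_1008__602_170_31 : Ent 5 := ⟨[a0, a255, a1008], [a602, a170, a795], (M a256 (L l3212 (F (T t853 (L l2598 (L l3354 (T t854 (T t855 (L l1134 (T t856 (K a216 (M a409 (F (T t853 (L l2598 (L l3354 (T t865 (L l2598 (L l3354 (T t858 N))))))))) (K a409 (M a216 (F (T t853 (L l728 (L l2598 (L l3354 (T t854 (T t855 (L l1134 (L l3227 (T t856 N))))))))))) N))))))))))))⟩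
def e0_255_1008__602_170_32 : Ent 5 := ⟨[a0, a255, a1008], [a602, a170, a802], (M a256 (F (T t853 (L l2598 (L l3264 (L l3354 (T t854 (T t855 (L l1134 (T t856 N))))))))))⟩
def e0_255_1008__602_170_33 : Ent 5 := ⟨[a0, a255, a1008], [a602, a170, a807], (M a256 (F (T t853 (L l2598 (L l3354 (T t854 (T t855 (L l1134 (T t856 N)))))))))⟩
def e0_255_1008__602_170_34 : Ent 5 := ⟨[a0, a255, a1008], [a602, a170, a819], (M a256 (F (T t853 (L l2257 (L l2598 (L l3354 (T t854 (T t855 (L l1134 (T t856 N))))))))))⟩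
def e0_255_1008__602_170_35 : Ent 5 := ⟨[a0, a255, a1008], [a602, a170, a870], (M a256 (F (T t853 (L l2598 (L l3354 (T t854 (T t855 (L l1134 (T t856 N)))))))))⟩
def e0_255_1008__602_170_36 : Ent 5 := ⟨[a0, a255, a1008], [a602, a170, a882], (M a256 (F (T t853 (L l2598 (L l3354 (T t854 (T t855 (L l1134 (T t856 N)))))))))⟩
def e0_255_1008__602_170_37 : Ent 5 := ⟨[a0, a255, a1008], [a602, a170, a887], (M a256 (F (T t853 (L l2598 (L l3354 (T t854 (T t855 (L l1134 (T t856 N)))))))))⟩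
def e0_255_1008__602_170_38 : Ent 5 := ⟨[a0, a255, a1008], [a602, a170, a945], (M a256 (F (T t853 (L l2598 (L l3354 (T t854 (T t855 (L l1134 (T t856 N)))))))))⟩
def e0_255_1008__602_170_39 : Ent 5 := ⟨[a0, a255, a1008], [a602, a170, a955], (M a256 (F (T t853 (L l2598 (L l3354 (T t854 (T t855 (L l1134 (T t856 N)))))))))⟩
def b0_255_1008__602_170 : Blk 5 := ⟨[0, 255, 1008], [602, 170], [17, 27, 34, 39, 51, 102, 114, 119, 177, 187, 273, 283, 290, 295, 307, 358, 370, 375, 433, 443, 529, 539, 546, 551, 563, 614, 626, 631, 689, 699, 785, 795, 802, 807, 819, 870, 882, 887, 945, 955], [e0_255_1008__602_170_0, e0_255_1008__602_170_1, e0_255_1008__602_170_2, e0_255_1008__602_170_3, e0_255_1008__602_170_4, e0_255_1008__602_170_5, e0_255_1008__602_170_6, e0_255_1008__602_170_7, e0_255_1008__602_170_8, e0_255_1008__602_170_9, e0_255_1008__602_170_10, e0_255_1008__602_170_11, e0_255_1008__602_170_12, e0_255_1008__602_170_13, e0_255_1008__602_170_14, e0_255_1008__602_170_15,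 e0_255_1008__602_170_16, e0_255_1008__602_170_17, e0_255_1008__602_170_18, e0_255_1008__602_170_19, e0_255_1008__602_170_20, e0_255_1008__602_170_21, e0_255_1008__602_170_22, e0_255_1008__602_170_23, e0_255_1008__602_170_24, e0_255_1008__602_170_25, e0_255_1008__602_170_26, e0_255_1008__602_170_27, e0_255_1008__602_170_28, e0_255_1008__602_170_29, e0_255_1008__602_170_30, e0_255_1008__602_170_31, e0_255_1008__602_170_32, e0_255_1008__602_170_33, e0_255_1008__602_170_34, e0_255_1008__602_170_35, e0_255_1008__602_170_36, e0_255_1008__602_170_37, e0_255_1008__602_170_38, e0_255_1008__602_170_39], by decide +kernel, by decide +kernel⟩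
def e0_256_192__341_768_0 : Ent 5 := ⟨[a0, a256, a192], [a341, a768, a6], (M a336 (F (T t889 (L l3340 (T t890 (L l1864 (L l2008 (L l2468 (T t891 (L l888 (L l1600 (L l3340 (T t892 (L l888 (L l1600 (L l2360 (T t893 N)))))))))))))))))⟩
def e0_256_192__341_768_1 : Ent 5 := ⟨[a0, a256, a192], [a341, a768, a7], (M a336 (F (T t889 (L l3340 (T t890 (L l1864 (L l2008 (L l2468 (T t891 (L l888 (L l1600 (L l3340 (T t892 (L l888 (L l1600 (L l2360 (T t893 N)))))))))))))))))⟩
def e0_256_192__341_768_2 : Ent 5 := ⟨[a0, a256, a192], [a341, a768, a11], (M a336 (F (T t889 (L l3340 (T t890 (L l1864 (L l2008 (L l2468 (T t891 (L l888 (L l1600 (L l3340 (T t892 (L l888 (L l1600 (L l2360 (T t893 N)))))))))))))))))⟩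
def e0_256_192__341_768_3 : Ent 5 := ⟨[a0, a256, a192], [a341, a768, a27], (M a336 (F (T t889 (L l3340 (T t890 (L l1864 (L l2008 (L l2468 (T t891 (L l888 (L l1600 (L l3340 (T t892 (L l888 (L l1600 (L l2360 (T t893 N)))))))))))))))))⟩
def e0_256_192__341_768_4 : Ent 5 := ⟨[a0, a256, a192], [a341, a768, a70], (M a336 (F (T t889 (L l3340 (T t890 (L l1864 (L l2008 (L l2468 (T t891 (L l888 (L l1600 (L l3340 (T t892 (L l888 (L l1600 (L l2360 (T t893 N)))))))))))))))))⟩
def e0_256_192__341_768_5 : Ent 5 := ⟨[a0, a256, a192], [a341, a768, a71], (M a336 (F (T t889 (L l3340 (T t890 (L l1864 (L l2008 (L l2468 (T t891 (L l888 (L l1600 (L l3340 (T t892 (L l888 (L l1600 (L l2360 (T t893 N)))))))))))))))))⟩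
def e0_256_192__341_768_6 : Ent 5 := ⟨[a0, a256, a192], [a341, a768, a75], (M a336 (F (T t889 (L l3340 (T t890 (L l1864 (L l2008 (L l2468 (T t891 (L l888 (L l1600 (L l3340 (T t892 (L l888 (L l1600 (L l2360 (T t893 N)))))))))))))))))⟩
def e0_256_192__341_768_7 : Ent 5 := ⟨[a0, a256, a192], [a341, a768, a91], (M a336 (F (T t889 (L l3340 (T t890 (L l1864 (L l2008 (L l2468 (T t891 (L l888 (L l1600 (L l3340 (T t892 (L l888 (L l1600 (L l2360 (T t893 N)))))))))))))))))⟩
def e0_256_192__341_768_8 : Ent 5 := ⟨[a0, a256, a192], [a341, a768, a134], (M a336 (F (T t889 (L l3340 (T t890 (L l1864 (L l2008 (L l2468 (T t891 (L l888 (L l1600 (L l3340 (T t892 (L l888 (L l1600 (L l2360 (T t893 N)))))))))))))))))⟩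
def e0_256_192__341_768_9 : Ent 5 := ⟨[a0, a256, a192], [a341, a768, a135], (M a336 (F (T t889 (L l3340 (T t890 (L l1864 (L l2008 (L l2468 (T t891 (L l888 (L l1600 (L l3340 (T t892 (L l888 (L l1600 (L l2360 (T t893 N)))))))))))))))))⟩
def e0_256_192__341_768_10 : Ent 5 := ⟨[a0, a256, a192], [a341, a768, a139], (M a336 (F (T t889 (L l3340 (T t890 (L l1864 (L l2008 (L l2468 (T t891 (L l888 (L l1600 (L l3340 (T t892 (L l888 (L l1600 (L l2360 (T t893 N)))))))))))))))))⟩
def e0_256_192__341_768_11 : Ent 5 := ⟨[a0, a256, a192], [a341, a768, a155], (M a336 (F (T t889 (L l3340 (T t890 (L l1864 (L l2008 (L l2468 (T t891 (L l888 (L l1600 (L l3340 (T t892 (L l888 (L l1600 (L l2360 (T t893 N)))))))))))))))))⟩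
def e0_256_192__341_768_12 : Ent 5 := ⟨[a0, a256, a192], [a341, a768, a198], (M a336 (F (T t889 (L l3340 (T t890 (L l1864 (L l2008 (L l2468 (T t891 (L l888 (L l1600 (L l3340 (T t892 (L l888 (L l1600 (L l2360 (T t893 N)))))))))))))))))⟩
def e0_256_192__341_768_13 : Ent 5 := ⟨[a0, a256, a192], [a341, a768, a199], (M a336 (F (T t889 (L l3340 (T t890 (L l1864 (L l2008 (L l2468 (T t891 (L l888 (L l1600 (L l3340 (T t892 (L l888 (L l1600 (L l2360 (T t893 N)))))))))))))))))⟩
def e0_256_192__341_768_14 : Ent 5 := ⟨[a0, a256, a192], [a341, a768, a203], (M a336 (F (T t889 (L l3340 (T t890 (L l1864 (L l2008 (L l2468 (T t891 (L l888 (L l1600 (L l3340 (T t892 (L l888 (L l1600 (L l2360 (T t893 N)))))))))))))))))⟩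
def e0_256_192__341_768_15 : Ent 5 := ⟨[a0, a256, a192], [a341, a768, a219], (M a336 (F (T t889 (L l3340 (T t890 (L l1864 (L l2008 (L l2468 (T t891 (L l888 (L l1600 (L l3340 (T t892 (L l888 (L l1600 (L l2360 (T t893 N)))))))))))))))))⟩
def e0_256_192__341_768_16 : Ent 5 := ⟨[a0, a256, a192], [a341, a768, a262], (M a336 (F (T t889 (L l3340 (T t890 (L l1864 (L l2008 (L l2468 (T t891 (L l888 (L l1600 (L l3340 (T t892 (L l888 (L l1600 (L l2360 (T t893 N)))))))))))))))))⟩
def e0_256_192__341_768_17 : Ent 5 := ⟨[a0, a256, a192], [a341, a768, a263], (M a336 (F (T t889 (L l3340 (T t890 (L l1864 (L l2008 (L l2468 (T t891 (L l888 (L l1600 (L l3340 (T t892 (L l888 (L l1600 (L l2360 (T t893 N)))))))))))))))))⟩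
def e0_256_192__341_768_18 : Ent 5 := ⟨[a0, a256, a192], [a341, a768, a267], (M a336 (F (T t889 (L l3340 (T t890 (L l1864 (L l2008 (L l2468 (T t891 (L l888 (L l1600 (L l3340 (T t892 (L l888 (L l1600 (L l2360 (T t893 N)))))))))))))))))⟩
def e0_256_192__341_768_19 : Ent 5 := ⟨[a0, a256, a192], [a341, a768, a283], (M a336 (F (T t889 (L l3340 (T t890 (L l1864 (L l2008 (L l2468 (T t891 (L l888 (L l1600 (L l3340 (T t892 (L l888 (L l1600 (L l2360 (T t893 N)))))))))))))))))⟩
def e0_256_192__341_768_20 : Ent 5 := ⟨[a0, a256, a192], [a341, a768, a326], (M a336 (F (T t889 (L l3340 (T t890 (L l1864 (L l2008 (L l2468 (T t891 (L l888 (L l1600 (L l3340 (T t892 (L l888 (L l1600 (L l2360 (T t893 N)))))))))))))))))⟩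
def e0_256_192__341_768_21 : Ent 5 := ⟨[a0, a256, a192], [a341, a768, a327], (M a336 (F (T t889 (L l3340 (T t890 (L l1864 (L l2008 (L l2468 (T t891 (L l888 (L l1600 (L l3340 (T t892 (L l888 (L l1600 (L l2360 (T t893 N)))))))))))))))))⟩
def e0_256_192__341_768_22 : Ent 5 := ⟨[a0, a256, a192], [a341, a768, a331], (M a336 (F (T t889 (L l3340 (T t890 (L l1864 (L l2008 (L l2468 (T t891 (L l888 (L l1600 (L l3340 (T t892 (L l888 (L l1600 (L l2360 (T t893 N)))))))))))))))))⟩
def e0_256_192__341_768_23 : Ent 5 := ⟨[a0, a256, a192], [a341, a768, a347], (M a336 (F (T t889 (L l3340 (T t890 (L l1864 (L l2008 (L l2468 (T t891 (L l888 (L l1600 (L l3340 (T t892 (L l888 (L l1600 (L l2360 (T t893 N)))))))))))))))))⟩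
def e0_256_192__341_768_24 : Ent 5 := ⟨[a0, a256, a192], [a341, a768, a390], (M a336 (F (T t889 (L l3340 (T t890 (L l1864 (L l2008 (L l2468 (T t891 (L l888 (L l1600 (L l3340 (T t892 (L l888 (L l1600 (L l2360 (T t893 N)))))))))))))))))⟩
def e0_256_192__341_768_25 : Ent 5 := ⟨[a0, a256, a192], [a341, a768, a391], (M a336 (F (T t889 (L l3340 (T t890 (L l1864 (L l2008 (L l2468 (T t891 (L l888 (L l1600 (L l3340 (T t892 (L l888 (L l1600 (L l2360 (T t893 N)))))))))))))))))⟩
def e0_256_192__341_768_26 : Ent 5 := ⟨[a0, a256, a192], [a341, a768, a395], (M a336 (F (T t889 (L l3340 (T t890 (L l1864 (L l2008 (L l2468 (T t891 (L l888 (L l1600 (L l3340 (T t892 (L l888 (L l1600 (L l2360 (T t893 N)))))))))))))))))⟩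
def e0_256_192__341_768_27 : Ent 5 := ⟨[a0, a256, a192], [a341, a768, a411], (M a336 (F (T t889 (L l3340 (T t890 (L l1864 (L l2008 (L l2468 (T t891 (L l888 (L l1600 (L l3340 (T t892 (L l888 (L l1600 (L l2360 (T t893 N)))))))))))))))))⟩
def e0_256_192__341_768_28 : Ent 5 := ⟨[a0, a256, a192], [a341, a768, a454], (M a336 (F (T t889 (L l3340 (T t890 (L l1864 (L l2008 (L l2468 (T t891 (L l888 (L l1600 (L l3340 (T t892 (L l888 (L l1600 (L l2360 (T t893 N)))))))))))))))))⟩
def e0_256_192__341_768_29 : Ent 5 := ⟨[a0, a256, a192], [a341, a768, a455], (M a336 (F (T t889 (L l3340 (T t890 (L l1864 (L l2008 (L l2468 (T t891 (L l888 (L l1600 (L l3340 (T t892 (L l888 (L l1600 (L l2360 (T t893 N)))))))))))))))))⟩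
def e0_256_192__341_768_30 : Ent 5 := ⟨[a0, a256, a192], [a341, a768, a459], (M a336 (F (T t889 (L l3340 (T t890 (L l1864 (L l2008 (L l2468 (T t891 (L l888 (L l1600 (L l3340 (T t892 (L l888 (L l1600 (L l2360 (T t893 N)))))))))))))))))⟩
def e0_256_192__341_768_31 : Ent 5 := ⟨[a0, a256, a192], [a341, a768, a475], (M a336 (F (T t889 (L l3340 (T t890 (L l1864 (L l2008 (L l2468 (T t891 (L l888 (L l1600 (L l3340 (T t892 (L l888 (L l1600 (L l2360 (T t893 N)))))))))))))))))⟩
def e0_256_192__341_768_32 : Ent 5 := ⟨[a0, a256, a192], [a341, a768, a518], (M a336 (F (T t889 (L l3340 (T t890 (L l1864 (L l2008 (L l2468 (T t891 (L l888 (L l1600 (L l3340 (T t892 (L l888 (L l1600 (L l2360 (T t893 N)))))))))))))))))⟩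
def e0_256_192__341_768_33 : Ent 5 := ⟨[a0, a256, a192], [a341, a768, a519], (M a336 (F (T t889 (L l3340 (T t890 (L l1864 (L l2008 (L l2468 (T t891 (L l888 (L l1600 (L l3340 (T t892 (L l888 (L l1600 (L l2360 (T t893 N)))))))))))))))))⟩
def e0_256_192__341_768_34 : Ent 5 := ⟨[a0, a256, a192], [a341, a768, a523], (M a336 (F (T t889 (L l3340 (T t890 (L l1864 (L l2008 (L l2468 (T t891 (L l888 (L l1600 (L l3340 (T t892 (L l888 (L l1600 (L l2360 (T t893 N)))))))))))))))))⟩
def e0_256_192__341_768_35 : Ent 5 := ⟨[a0, a256, a192], [a341, a768, a539], (M a336 (F (T t889 (L l3340 (T t890 (L l1864 (L l2008 (L l2468 (T t891 (L l888 (L l1600 (L l3340 (T t892 (L l888 (L l1600 (L l2360 (T t893 N)))))))))))))))))⟩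
def e0_256_192__341_768_36 : Ent 5 := ⟨[a0, a256, a192], [a341, a768, a582], (M a336 (F (T t889 (L l3340 (T t890 (L l1864 (L l2008 (L l2468 (T t891 (L l888 (L l1600 (L l3340 (T t892 (L l888 (L l1600 (L l2360 (T t893 N)))))))))))))))))⟩
def e0_256_192__341_768_37 : Ent 5 := ⟨[a0, a256, a192], [a341, a768, a583], (M a336 (F (T t889 (L l3340 (T t890 (L l1864 (L l2008 (L l2468 (T t891 (L l888 (L l1600 (L l3340 (T t892 (L l888 (L l1600 (L l2360 (T t893 N)))))))))))))))))⟩
def e0_256_192__341_768_38 : Ent 5 := ⟨[a0, a256, a192], [a341, a768, a587], (M a336 (F (T t889 (L l3340 (T t890 (L l1864 (L l2008 (L l2468 (T t891 (L l888 (L l1600 (L l3340 (T t892 (L l888 (L l1600 (L l2360 (T t893 N)))))))))))))))))⟩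
def e0_256_192__341_768_39 : Ent 5 := ⟨[a0, a256, a192], [a341, a768, a603], (M a336 (F (T t889 (L l3340 (T t890 (L l1864 (L l2008 (L l2468 (T t891 (L l888 (L l1600 (L l3340 (T t892 (L l888 (L l1600 (L l2360 (T t893 N)))))))))))))))))⟩
def e0_256_192__341_768_40 : Ent 5 := ⟨[a0, a256, a192], [a341, a768, a646], (M a336 (F (T t889 (L l3340 (T t890 (L l1864 (L l2008 (L l2468 (T t891 (L l888 (L l1600 (L l3340 (T t892 (L l888 (L l1600 (L l2360 (T t893 N)))))))))))))))))⟩
def e0_256_192__341_768_41 : Ent 5 := ⟨[a0, a256, a192], [a341, a768, a647], (M a336 (F (T t889 (L l3340 (T t890 (L l1864 (L l2008 (L l2468 (T t891 (L l888 (L l1600 (L l3340 (T t892 (L l888 (L l1600 (L l2360 (T t893 N)))))))))))))))))⟩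
def e0_256_192__341_768_42 : Ent 5 := ⟨[a0, a256, a192], [a341, a768, a651], (M a336 (F (T t889 (L l3340 (T t890 (L l1864 (L l2008 (L l2468 (T t891 (L l888 (L l1600 (L l3340 (T t892 (L l888 (L l1600 (L l2360 (T t893 N)))))))))))))))))⟩
def e0_256_192__341_768_43 : Ent 5 := ⟨[a0, a256, a192], [a341, a768, a667], (M a336 (F (T t889 (L l3340 (T t890 (L l1864 (L l2008 (L l2468 (T t891 (L l888 (L l1600 (L l3340 (T t892 (L l888 (L l1600 (L l2360 (T t893 N)))))))))))))))))⟩
def e0_256_192__341_768_44 : Ent 5 := ⟨[a0, a256, a192], [a341, a768, a710], (M a336 (F (T t889 (L l3340 (T t890 (L l1864 (L l2008 (L l2468 (T t891 (L l888 (L l1600 (L l3340 (T t892 (L l888 (L l1600 (L l2360 (T t893 N)))))))))))))))))⟩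
def e0_256_192__341_768_45 : Ent 5 := ⟨[a0, a256, a192], [a341, a768, a711], (M a336 (F (T t889 (L l3340 (T t890 (L l1864 (L l2008 (L l2468 (T t891 (L l888 (L l1600 (L l3340 (T t892 (L l888 (L l1600 (L l2360 (T t893 N)))))))))))))))))⟩
def e0_256_192__341_768_46 : Ent 5 := ⟨[a0, a256, a192], [a341, a768, a715], (M a336 (F (T t889 (L l3340 (T t890 (L l1864 (L l2008 (L l2468 (T t891 (L l888 (L l1600 (L l3340 (T t892 (L l888 (L l1600 (L l2360 (T t893 N)))))))))))))))))⟩
def e0_256_192__341_768_47 : Ent 5 := ⟨[a0, a256, a192], [a341, a768, a731], (M a336 (F (T t889 (L l3340 (T t890 (L l1864 (L l2008 (L l2468 (T t891 (L l888 (L l1600 (L l3340 (T t892 (L l888 (L l1600 (L l2360 (T t893 N)))))))))))))))))⟩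
def e0_256_192__341_768_48 : Ent 5 := ⟨[a0, a256, a192], [a341, a768, a774], (M a336 (F (T t889 (L l3340 (T t890 (L l1864 (L l2008 (L l2468 (T t891 (L l888 (L l1600 (L l3340 (T t892 (L l888 (L l1600 (L l2360 (T t893 N)))))))))))))))))⟩
def e0_256_192__341_768_49 : Ent 5 := ⟨[a0, a256, a192], [a341, a768, a775], (M a336 (F (T t889 (L l3340 (T t890 (L l1864 (L l2008 (L l2468 (T t891 (L l888 (L l1600 (L l3340 (T t892 (L l888 (L l1600 (L l2360 (T t893 N)))))))))))))))))⟩
def e0_256_192__341_768_50 : Ent 5 := ⟨[a0, a256, a192], [a341, a768, a779], (M a336 (F (T t889 (L l3340 (T t890 (L l1864 (L l2008 (L l2468 (T t891 (L l888 (L l1600 (L l3340 (T t892 (L l888 (L l1600 (L l2360 (T t893 N)))))))))))))))))⟩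
def e0_256_192__341_768_51 : Ent 5 := ⟨[a0, a256, a192], [a341, a768, a795], (M a336 (F (T t889 (L l3340 (T t890 (L l1864 (L l2008 (L l2468 (T t891 (L l888 (L l1600 (L l3340 (T t892 (L l888 (L l1600 (L l2360 (T t893 N)))))))))))))))))⟩
def e0_256_192__341_768_52 : Ent 5 := ⟨[a0, a256, a192], [a341, a768, a838], (M a336 (F (T t889 (L l3340 (T t890 (L l1864 (L l2008 (L l2468 (T t891 (L l888 (L l1600 (L l3340 (T t892 (L l888 (L l1600 (L l2360 (T t893 N)))))))))))))))))⟩
def e0_256_192__341_768_53 : Ent 5 := ⟨[a0, a256, a192], [a341, a768, a839], (M a336 (F (T t889 (L l3340 (T t890 (L l1864 (L l2008 (L l2468 (T t891 (L l888 (L l1600 (L l3340 (T t892 (L l888 (L l1600 (L l2360 (T t893 N)))))))))))))))))⟩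
def e0_256_192__341_768_54 : Ent 5 := ⟨[a0, a256, a192], [a341, a768, a843], (M a336 (F (T t889 (L l3340 (T t890 (L l1864 (L l2008 (L l2468 (T t891 (L l888 (L l1600 (L l3340 (T t892 (L l888 (L l1600 (L l2360 (T t893 N)))))))))))))))))⟩
def e0_256_192__341_768_55 : Ent 5 := ⟨[a0, a256, a192], [a341, a768, a859], (M a336 (F (T t889 (L l3340 (T t890 (L l1864 (L l2008 (L l2468 (T t891 (L l888 (L l1600 (L l3340 (T t892 (L l888 (L l1600 (L l2360 (T t893 N)))))))))))))))))⟩
def e0_256_192__341_768_56 : Ent 5 := ⟨[a0, a256, a192], [a341, a768, a902], (M a336 (F (T t889 (L l3340 (T t890 (L l1864 (L l2008 (L l2468 (T t891 (L l888 (L l1600 (L l3340 (T t892 (L l888 (L l1600 (L l2360 (T t893 N)))))))))))))))))⟩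
def e0_256_192__341_768_57 : Ent 5 := ⟨[a0, a256, a192], [a341, a768, a903], (M a336 (F (T t889 (L l3340 (T t890 (L l1864 (L l2008 (L l2468 (T t891 (L l888 (L l1600 (L l3340 (T t892 (L l888 (L l1600 (L l2360 (T t893 N)))))))))))))))))⟩
def e0_256_192__341_768_58 : Ent 5 := ⟨[a0, a256, a192], [a341, a768, a907], (M a336 (F (T t889 (L l3340 (T t890 (L l1864 (L l2008 (L l2468 (T t891 (L l888 (L l1600 (L l3340 (T t892 (L l888 (L l1600 (L l2360 (T t893 N)))))))))))))))))⟩
def e0_256_192__341_768_59 : Ent 5 := ⟨[a0, a256, a192], [a341, a768, a923], (M a336 (F (T t889 (L l3340 (T t890 (L l1864 (L l2008 (L l2468 (T t891 (L l888 (L l1600 (L l3340 (T t892 (L l888 (L l1600 (L l2360 (T t893 N)))))))))))))))))⟩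
def e0_256_192__341_768_60 : Ent 5 := ⟨[a0, a256, a192], [a341, a768, a966], (M a336 (F (T t889 (L l3340 (T t890 (L l1864 (L l2008 (L l2468 (T t891 (L l888 (L l1600 (L l3340 (T t892 (L l888 (L l1600 (L l2360 (T t893 N)))))))))))))))))⟩
def e0_256_192__341_768_61 : Ent 5 := ⟨[a0, a256, a192], [a341, a768, a967], (M a336 (F (T t889 (L l3340 (T t890 (L l1864 (L l2008 (L l2468 (T t891 (L l888 (L l1600 (L l3340 (T t892 (L l888 (L l1600 (L l2360 (T t893 N)))))))))))))))))⟩
def e0_256_192__341_768_62 : Ent 5 := ⟨[a0, a256, a192], [a341, a768, a971], (M a336 (F (T t889 (L l3340 (T t890 (L l1864 (L l2008 (L l2468 (T t891 (L l888 (L l1600 (L l3340 (T t892 (L l888 (L l1600 (L l2360 (T t893 N)))))))))))))))))⟩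
def e0_256_192__341_768_63 : Ent 5 := ⟨[a0, a256, a192], [a341, a768, a987], (M a336 (F (T t889 (L l3340 (T t890 (L l1864 (L l2008 (L l2468 (T t891 (L l888 (L l1600 (L l3340 (T t892 (L l888 (L l1600 (L l2360 (T t893 N)))))))))))))))))⟩
def b0_256_192__341_768 : Blk 5 := ⟨[0, 256, 192], [341, 768], [6, 7, 11, 27, 70, 71, 75, 91, 134, 135, 139, 155, 198, 199, 203, 219, 262, 263, 267, 283, 326, 327, 331, 347, 390, 391, 395, 411, 454, 455, 459, 475, 518, 519, 523, 539, 582, 583, 587, 603, 646, 647, 651, 667, 710, 711, 715, 731, 774, 775, 779, 795, 838, 839, 843, 859, 902, 903, 907, 923, 966, 967, 971, 987], [e0_256_192__341_768_0, e0_256_192__341_768_1, e0_256_192__341_768_2, e0_256_192__341_768_3, e0_256_192__341_768_4, e0_256_192__341_768_5, e0_256_192__341_768_6, e0_256_192__341_768_7, e0_256_192__341_768_8, e0_256_192__341_768_9, e0_256_192__341_768_10, e0_256_192__341_768_11, e0_256_192__341_768_12, e0_256_192__341_768_13, e0_256_192__341_768_14, e0_256_192__341_768_15,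 e0_256_192__341_768_16, e0_256_192__341_768_17, e0_256_192__341_768_18, e0_256_192__341_768_19, e0_256_192__341_768_20, e0_256_192__341_768_21, e0_256_192__341_768_22, e0_256_192__341_768_23, e0_256_192__341_768_24, e0_256_192__341_768_25, e0_256_192__341_768_26, e0_256_192__341_768_27, e0_256_192__341_768_28, e0_256_192__341_768_29, e0_256_192__341_768_30, e0_256_192__341_768_31, e0_256_192__341_768_32, e0_256_192__341_768_33, e0_256_192__341_768_34, e0_256_192__341_768_35, e0_256_192__341_768_36, e0_256_192__341_768_37, e0_256_192__341_768_38, e0_256_192__341_768_39, e0_256_192__341_768_40, e0_256_192__341_768_41, e0_256_192__341_768_42, e0_256_192__341_768_43, e0_256_192__341_768_44, e0_256_192__341_768_45, e0_256_192__341_768_46, e0_256_192__341_768_47, e0_256_192__341_768_48, e0_256_192__341_768_49, e0_256_192__341_768_50, e0_256_192__341_768_51, e0_256_192__341_768_52, e0_256_192__341_768_53, e0_256_192__341_768_54, e0_256_192__341_768_55, e0_256_192__341_768_56,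 e0_256_192__341_768_57, e0_256_192__341_768_58, e0_256_192__341_768_59, e0_256_192__341_768_60, e0_256_192__341_768_61, e0_256_192__341_768_62, e0_256_192__341_768_63], by decide +kernel, by decide +kernel⟩
def e0_256_320__341_512_0 : Ent 5 := ⟨[a0, a256, a320], [a341, a512, a6], (M a336 (F (T t873 (L l1344 (L l3008 (T t874 (L l1344 (T t875 N))))))))⟩
def e0_256_320__341_512_1 : Ent 5 := ⟨[a0, a256, a320], [a341, a512, a7], (M a336 (F (T t873 (L l1344 (L l3008 (T t874 (L l1344 (T t875 N))))))))⟩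
def e0_256_320__341_512_2 : Ent 5 := ⟨[a0, a256, a320], [a341, a512, a11], (M a336 (F (T t873 (L l1344 (L l3008 (T t874 (L l1344 (T t875 N))))))))⟩
def e0_256_320__341_512_3 : Ent 5 := ⟨[a0, a256, a320], [a341, a512, a27], (M a336 (F (T t873 (L l1344 (L l3008 (T t874 (L l1344 (T t875 N))))))))⟩
def e0_256_320__341_512_4 : Ent 5 := ⟨[a0, a256, a320], [a341, a512, a70], (M a336 (F (T t873 (L l1344 (L l3008 (T t874 (L l1344 (T t875 N))))))))⟩
def e0_256_320__341_512_5 : Ent 5 := ⟨[a0, a256, a320], [a341, a512, a71], (M a336 (F (T t873 (L l1344 (L l3008 (T t874 (L l1344 (T t875 N))))))))⟩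
def e0_256_320__341_512_6 : Ent 5 := ⟨[a0, a256, a320], [a341, a512, a75], (M a336 (F (T t873 (L l1344 (L l3008 (T t874 (L l1344 (T t875 N))))))))⟩
def e0_256_320__341_512_7 : Ent 5 := ⟨[a0, a256, a320], [a341, a512, a91], (M a336 (F (T t873 (L l1344 (L l3008 (T t874 (L l1344 (T t875 N))))))))⟩
def e0_256_320__341_512_8 : Ent 5 := ⟨[a0, a256, a320], [a341, a512, a134], (M a336 (F (T t873 (L l1344 (L l3008 (T t874 (L l1344 (T t875 N))))))))⟩
def e0_256_320__341_512_9 : Ent 5 := ⟨[a0, a256, a320], [a341, a512, a135], (M a336 (F (T t873 (L l1344 (L l3008 (T t874 (L l1344 (T t875 N))))))))⟩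
def e0_256_320__341_512_10 : Ent 5 := ⟨[a0, a256, a320], [a341, a512, a139], (M a336 (F (T t873 (L l1344 (L l3008 (T t874 (L l1344 (T t875 N))))))))⟩
def e0_256_320__341_512_11 : Ent 5 := ⟨[a0, a256, a320], [a341, a512, a155], (M a336 (F (T t873 (L l1344 (L l3008 (T t874 (L l1344 (T t875 N))))))))⟩
def e0_256_320__341_512_12 : Ent 5 := ⟨[a0, a256, a320], [a341, a512, a198], (M a336 (F (T t873 (L l1344 (L l3008 (T t874 (L l1344 (T t875 N))))))))⟩
def e0_256_320__341_512_13 : Ent 5 := ⟨[a0, a256, a320], [a341, a512, a199], (M a336 (F (T t873 (L l1344 (L l3008 (T t874 (L l1344 (T t875 N))))))))⟩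
def e0_256_320__341_512_14 : Ent 5 := ⟨[a0, a256, a320], [a341, a512, a203], (M a336 (F (T t873 (L l1344 (L l3008 (T t874 (L l1344 (T t875 N))))))))⟩
def e0_256_320__341_512_15 : Ent 5 := ⟨[a0, a256, a320], [a341, a512, a219], (M a336 (F (T t873 (L l1344 (L l3008 (T t874 (L l1344 (T t875 N))))))))⟩
def e0_256_320__341_512_16 : Ent 5 := ⟨[a0, a256, a320], [a341, a512, a262], (M a336 (F (T t873 (L l1344 (L l3008 (T t874 (L l1344 (T t875 N))))))))⟩
def e0_256_320__341_512_17 : Ent 5 := ⟨[a0, a256, a320], [a341, a512, a263], (M a336 (F (T t873 (L l1344 (L l3008 (T t874 (L l1344 (T t875 N))))))))⟩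
def e0_256_320__341_512_18 : Ent 5 := ⟨[a0, a256, a320], [a341, a512, a267], (M a336 (F (T t873 (L l1344 (L l3008 (T t874 (L l1344 (T t875 N))))))))⟩
def e0_256_320__341_512_19 : Ent 5 := ⟨[a0, a256, a320], [a341, a512, a283], (M a336 (F (T t873 (L l1344 (L l3008 (T t874 (L l1344 (T t875 N))))))))⟩
def e0_256_320__341_512_20 : Ent 5 := ⟨[a0, a256, a320], [a341, a512, a326], (M a336 (F (T t873 (L l1344 (L l3008 (T t874 (L l1344 (T t875 N))))))))⟩
def e0_256_320__341_512_21 : Ent 5 := ⟨[a0, a256, a320], [a341, a512, a327], (M a336 (F (T t873 (L l1344 (L l3008 (T t874 (L l1344 (T t875 N))))))))⟩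
def e0_256_320__341_512_22 : Ent 5 := ⟨[a0, a256, a320], [a341, a512, a331], (M a336 (F (T t873 (L l1344 (L l3008 (T t874 (L l1344 (T t875 N))))))))⟩
def e0_256_320__341_512_23 : Ent 5 := ⟨[a0, a256, a320], [a341, a512, a347], (M a336 (F (T t873 (L l1344 (L l3008 (T t874 (L l1344 (T t875 N))))))))⟩
def e0_256_320__341_512_24 : Ent 5 := ⟨[a0, a256, a320], [a341, a512, a390], (M a336 (F (T t873 (L l1344 (L l3008 (T t874 (L l1344 (T t875 N))))))))⟩
def e0_256_320__341_512_25 : Ent 5 := ⟨[a0, a256, a320], [a341, a512, a391], (M a336 (F (T t873 (L l1344 (L l3008 (T t874 (L l1344 (T t875 N))))))))⟩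
def e0_256_320__341_512_26 : Ent 5 := ⟨[a0, a256, a320], [a341, a512, a395], (M a336 (F (T t873 (L l1344 (L l3008 (T t874 (L l1344 (T t875 N))))))))⟩
def e0_256_320__341_512_27 : Ent 5 := ⟨[a0, a256, a320], [a341, a512, a411], (M a336 (F (T t873 (L l1344 (L l3008 (T t874 (L l1344 (T t875 N))))))))⟩
def e0_256_320__341_512_28 : Ent 5 := ⟨[a0, a256, a320], [a341, a512, a454], (M a336 (F (T t873 (L l1344 (L l3008 (T t874 (L l1344 (T t875 N))))))))⟩
def e0_256_320__341_512_29 : Ent 5 := ⟨[a0, a256, a320], [a341, a512, a455], (M a336 (F (T t873 (L l1344 (L l3008 (T t874 (L l1344 (T t875 N))))))))⟩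
def e0_256_320__341_512_30 : Ent 5 := ⟨[a0, a256, a320], [a341, a512, a459], (M a336 (F (T t873 (L l1344 (L l3008 (T t874 (L l1344 (T t875 N))))))))⟩
def e0_256_320__341_512_31 : Ent 5 := ⟨[a0, a256, a320], [a341, a512, a475], (M a336 (F (T t873 (L l1344 (L l3008 (T t874 (L l1344 (T t875 N))))))))⟩
def e0_256_320__341_512_32 : Ent 5 := ⟨[a0, a256, a320], [a341, a512, a518], (M a336 (F (T t873 (L l1344 (L l3008 (T t874 (L l1344 (T t875 N))))))))⟩
def e0_256_320__341_512_33 : Ent 5 := ⟨[a0, a256, a320], [a341, a512, a519], (M a336 (F (T t873 (L l1344 (L l3008 (T t874 (L l1344 (T t875 N))))))))⟩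
def e0_256_320__341_512_34 : Ent 5 := ⟨[a0, a256, a320], [a341, a512, a523], (M a336 (F (T t873 (L l1344 (L l3008 (T t874 (L l1344 (T t875 N))))))))⟩
def e0_256_320__341_512_35 : Ent 5 := ⟨[a0, a256, a320], [a341, a512, a539], (M a336 (F (T t873 (L l1344 (L l3008 (T t874 (L l1344 (T t875 N))))))))⟩
def e0_256_320__341_512_36 : Ent 5 := ⟨[a0, a256, a320], [a341, a512, a582], (M a336 (F (T t873 (L l1344 (L l3008 (T t874 (L l1344 (T t875 N))))))))⟩
def e0_256_320__341_512_37 : Ent 5 := ⟨[a0, a256, a320], [a341, a512, a583], (M a336 (F (T t873 (L l1344 (L l3008 (T t874 (L l1344 (T t875 N))))))))⟩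
def e0_256_320__341_512_38 : Ent 5 := ⟨[a0, a256, a320], [a341, a512, a587], (M a336 (F (T t873 (L l1344 (L l3008 (T t874 (L l1344 (T t875 N))))))))⟩
def e0_256_320__341_512_39 : Ent 5 := ⟨[a0, a256, a320], [a341, a512, a603], (M a336 (F (T t873 (L l1344 (L l3008 (T t874 (L l1344 (T t875 N))))))))⟩
def e0_256_320__341_512_40 : Ent 5 := ⟨[a0, a256, a320], [a341, a512, a646], (M a336 (F (T t873 (L l1344 (L l3008 (T t874 (L l1344 (T t875 N))))))))⟩
def e0_256_320__341_512_41 : Ent 5 := ⟨[a0, a256, a320], [a341, a512, a647], (M a336 (F (T t873 (L l1344 (L l3008 (T t874 (L l1344 (T t875 N))))))))⟩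
def e0_256_320__341_512_42 : Ent 5 := ⟨[a0, a256, a320], [a341, a512, a651], (M a336 (F (T t873 (L l1344 (L l3008 (T t874 (L l1344 (T t875 N))))))))⟩
def e0_256_320__341_512_43 : Ent 5 := ⟨[a0, a256, a320], [a341, a512, a667], (M a336 (F (T t873 (L l1344 (L l3008 (T t874 (L l1344 (T t875 N))))))))⟩
def e0_256_320__341_512_44 : Ent 5 := ⟨[a0, a256, a320], [a341, a512, a710], (M a336 (F (T t873 (L l1344 (L l3008 (T t874 (L l1344 (T t875 N))))))))⟩
def e0_256_320__341_512_45 : Ent 5 := ⟨[a0, a256, a320], [a341, a512, a711], (M a336 (F (T t873 (L l1344 (L l3008 (T t874 (L l1344 (T t875 N))))))))⟩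
def e0_256_320__341_512_46 : Ent 5 := ⟨[a0, a256, a320], [a341, a512, a715], (M a336 (F (T t873 (L l1344 (L l3008 (T t874 (L l1344 (T t875 N))))))))⟩
def e0_256_320__341_512_47 : Ent 5 := ⟨[a0, a256, a320], [a341, a512, a731], (M a336 (F (T t873 (L l1344 (L l3008 (T t874 (L l1344 (T t875 N))))))))⟩
def e0_256_320__341_512_48 : Ent 5 := ⟨[a0, a256, a320], [a341, a512, a774], (M a336 (F (T t873 (L l1344 (L l3008 (T t874 (L l1344 (T t875 N))))))))⟩
def e0_256_320__341_512_49 : Ent 5 := ⟨[a0, a256, a320], [a341, a512, a775], (M a336 (F (T t873 (L l1344 (L l3008 (T t874 (L l1344 (T t875 N))))))))⟩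
def e0_256_320__341_512_50 : Ent 5 := ⟨[a0, a256, a320], [a341, a512, a779], (M a336 (F (T t873 (L l1344 (L l3008 (T t874 (L l1344 (T t875 N))))))))⟩
def e0_256_320__341_512_51 : Ent 5 := ⟨[a0, a256, a320], [a341, a512, a795], (M a336 (F (T t873 (L l1344 (L l3008 (T t874 (L l1344 (T t875 N))))))))⟩
def e0_256_320__341_512_52 : Ent 5 := ⟨[a0, a256, a320], [a341, a512, a838], (M a336 (F (T t873 (L l1344 (L l3008 (T t874 (L l1344 (T t875 N))))))))⟩
def e0_256_320__341_512_53 : Ent 5 := ⟨[a0, a256, a320], [a341, a512, a839], (M a336 (F (T t873 (L l1344 (L l3008 (T t874 (L l1344 (T t875 N))))))))⟩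
def e0_256_320__341_512_54 : Ent 5 := ⟨[a0, a256, a320], [a341, a512, a843], (M a336 (F (T t873 (L l1344 (L l3008 (T t874 (L l1344 (T t875 N))))))))⟩
def e0_256_320__341_512_55 : Ent 5 := ⟨[a0, a256, a320], [a341, a512, a859], (M a336 (F (T t873 (L l1344 (L l3008 (T t874 (L l1344 (T t875 N))))))))⟩
def e0_256_320__341_512_56 : Ent 5 := ⟨[a0, a256, a320], [a341, a512, a902], (M a336 (F (T t873 (L l1344 (L l3008 (T t874 (L l1344 (T t875 N))))))))⟩
def e0_256_320__341_512_57 : Ent 5 := ⟨[a0, a256, a320], [a341, a512, a903], (M a336 (F (T t873 (L l1344 (L l3008 (T t874 (L l1344 (T t875 N))))))))⟩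
def e0_256_320__341_512_58 : Ent 5 := ⟨[a0, a256, a320], [a341, a512, a907], (M a336 (F (T t873 (L l1344 (L l3008 (T t874 (L l1344 (T t875 N))))))))⟩
def e0_256_320__341_512_59 : Ent 5 := ⟨[a0, a256, a320], [a341, a512, a923], (M a336 (F (T t873 (L l1344 (L l3008 (T t874 (L l1344 (T t875 N))))))))⟩
def e0_256_320__341_512_60 : Ent 5 := ⟨[a0, a256, a320], [a341, a512, a966], (M a336 (F (T t873 (L l1344 (L l3008 (T t874 (L l1344 (T t875 N))))))))⟩
def e0_256_320__341_512_61 : Ent 5 := ⟨[a0, a256, a320], [a341, a512, a967], (M a336 (F (T t873 (L l1344 (L l3008 (T t874 (L l1344 (T t875 N))))))))⟩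
def e0_256_320__341_512_62 : Ent 5 := ⟨[a0, a256, a320], [a341, a512, a971], (M a336 (F (T t873 (L l1344 (L l3008 (T t874 (L l1344 (T t875 N))))))))⟩
def e0_256_320__341_512_63 : Ent 5 := ⟨[a0, a256, a320], [a341, a512, a987], (M a336 (F (T t873 (L l1344 (L l3008 (T t874 (L l1344 (T t875 N))))))))⟩
def b0_256_320__341_512 : Blk 5 := ⟨[0, 256, 320], [341, 512], [6, 7, 11, 27, 70, 71, 75, 91, 134, 135, 139, 155, 198, 199, 203, 219, 262, 263, 267, 283, 326, 327, 331, 347, 390, 391, 395, 411, 454, 455, 459, 475, 518, 519, 523, 539, 582, 583, 587, 603, 646, 647, 651, 667, 710, 711, 715, 731, 774, 775, 779, 795, 838, 839, 843, 859, 902, 903, 907, 923, 966, 967, 971, 987], [e0_256_320__341_512_0, e0_256_320__341_512_1, e0_256_320__341_512_2, e0_256_320__341_512_3, e0_256_320__341_512_4, e0_256_320__341_512_5, e0_256_320__341_512_6, e0_256_320__341_512_7, e0_256_320__341_512_8, e0_256_320__341_512_9, e0_256_320__341_512_10, e0_256_320__341_512_11, e0_256_320__341_512_12,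 e0_256_320__341_512_13, e0_256_320__341_512_14, e0_256_320__341_512_15, e0_256_320__341_512_16, e0_256_320__341_512_17, e0_256_320__341_512_18, e0_256_320__341_512_19, e0_256_320__341_512_20, e0_256_320__341_512_21, e0_256_320__341_512_22, e0_256_320__341_512_23, e0_256_320__341_512_24, e0_256_320__341_512_25, e0_256_320__341_512_26, e0_256_320__341_512_27, e0_256_320__341_512_28, e0_256_320__341_512_29, e0_256_320__341_512_30, e0_256_320__341_512_31, e0_256_320__341_512_32, e0_256_320__341_512_33, e0_256_320__341_512_34, e0_256_320__341_512_35, e0_256_320__341_512_36, e0_256_320__341_512_37, e0_256_320__341_512_38, e0_256_320__341_512_39, e0_256_320__341_512_40, e0_256_320__341_512_41, e0_256_320__341_512_42, e0_256_320__341_512_43, e0_256_320__341_512_44, e0_256_320__341_512_45, e0_256_320__341_512_46, e0_256_320__341_512_47, e0_256_320__341_512_48, e0_256_320__341_512_49, e0_256_320__341_512_50, e0_256_320__341_512_51, e0_256_320__341_512_52, e0_256_320__341_512_53,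 e0_256_320__341_512_54, e0_256_320__341_512_55, e0_256_320__341_512_56, e0_256_320__341_512_57, e0_256_320__341_512_58, e0_256_320__341_512_59, e0_256_320__341_512_60, e0_256_320__341_512_61, e0_256_320__341_512_62, e0_256_320__341_512_63], by decide +kernel, by decide +kernel⟩
def e0_768_192__1023_256_0 : Ent 5 := ⟨[a0, a768, a192], [a1023, a256, a6], (M a592 (F (L l2864 (T t895 (L l968 (L l3080 (T t896 (L l824 (T t897 N)))))))))⟩
def e0_768_192__1023_256_1 : Ent 5 := ⟨[a0, a768, a192], [a1023, a256, a7], (M a592 (F (L l2864 (T t895 (L l968 (L l3080 (T t896 (L l824 (T t897 N)))))))))⟩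
def e0_768_192__1023_256_2 : Ent 5 := ⟨[a0, a768, a192], [a1023, a256, a11], (M a592 (F (L l2864 (T t895 (L l968 (L l3080 (T t896 (L l824 (T t897 N)))))))))⟩
def e0_768_192__1023_256_3 : Ent 5 := ⟨[a0, a768, a192], [a1023, a256, a27], (M a592 (F (L l2864 (T t895 (L l968 (L l3080 (T t896 (L l824 (T t897 N)))))))))⟩
def e0_768_192__1023_256_4 : Ent 5 := ⟨[a0, a768, a192], [a1023, a256, a70], (M a592 (F (L l2864 (T t895 (L l968 (L l3080 (T t896 (L l824 (T t897 N)))))))))⟩
def e0_768_192__1023_256_5 : Ent 5 := ⟨[a0, a768, a192], [a1023, a256, a71], (M a592 (F (L l2864 (T t895 (L l968 (L l3080 (T t896 (L l824 (T t897 N)))))))))⟩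
def e0_768_192__1023_256_6 : Ent 5 := ⟨[a0, a768, a192], [a1023, a256, a75], (M a592 (F (L l2864 (T t895 (L l968 (L l3080 (T t896 (L l824 (T t897 N)))))))))⟩
def e0_768_192__1023_256_7 : Ent 5 := ⟨[a0, a768, a192], [a1023, a256, a91], (M a592 (F (L l2864 (T t895 (L l968 (L l3080 (T t896 (L l824 (T t897 N)))))))))⟩
def e0_768_192__1023_256_8 : Ent 5 := ⟨[a0, a768, a192], [a1023, a256, a134], (M a592 (F (L l2864 (T t895 (L l968 (L l3080 (T t896 (L l824 (T t897 N)))))))))⟩
def e0_768_192__1023_256_9 : Ent 5 := ⟨[a0, a768, a192], [a1023, a256, a135], (M a592 (F (L l2864 (T t895 (L l968 (L l3080 (T t896 (L l824 (T t897 N)))))))))⟩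
def e0_768_192__1023_256_10 : Ent 5 := ⟨[a0, a768, a192], [a1023, a256, a139], (M a592 (F (L l2864 (T t895 (L l968 (L l3080 (T t896 (L l824 (T t897 N)))))))))⟩
def e0_768_192__1023_256_11 : Ent 5 := ⟨[a0, a768, a192], [a1023, a256, a155], (M a592 (F (L l2864 (T t895 (L l968 (L l3080 (T t896 (L l824 (T t897 N)))))))))⟩
def e0_768_192__1023_256_12 : Ent 5 := ⟨[a0, a768, a192], [a1023, a256, a198], (M a592 (F (L l2864 (T t895 (L l968 (L l3080 (T t896 (L l824 (T t897 N)))))))))⟩
def e0_768_192__1023_256_13 : Ent 5 := ⟨[a0, a768, a192], [a1023, a256, a199], (M a592 (F (L l2864 (T t895 (L l968 (L l3080 (T t896 (L l824 (T t897 N)))))))))⟩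
def e0_768_192__1023_256_14 : Ent 5 := ⟨[a0, a768, a192], [a1023, a256, a203], (M a592 (F (L l2864 (T t895 (L l968 (L l3080 (T t896 (L l824 (T t897 N)))))))))⟩
def e0_768_192__1023_256_15 : Ent 5 := ⟨[a0, a768, a192], [a1023, a256, a219], (M a592 (F (L l2864 (T t895 (L l968 (L l3080 (T t896 (L l824 (T t897 N)))))))))⟩
def e0_768_192__1023_256_16 : Ent 5 := ⟨[a0, a768, a192], [a1023, a256, a262], (M a592 (F (L l2864 (T t895 (L l968 (L l3080 (T t896 (L l824 (T t897 N)))))))))⟩
def e0_768_192__1023_256_17 : Ent 5 := ⟨[a0, a768, a192], [a1023, a256, a263], (M a592 (F (L l2864 (T t895 (L l968 (L l3080 (T t896 (L l824 (T t897 N)))))))))⟩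
def e0_768_192__1023_256_18 : Ent 5 := ⟨[a0, a768, a192], [a1023, a256, a267], (M a592 (F (L l2864 (T t895 (L l968 (L l3080 (T t896 (L l824 (T t897 N)))))))))⟩
def e0_768_192__1023_256_19 : Ent 5 := ⟨[a0, a768, a192], [a1023, a256, a283], (M a592 (F (L l2864 (T t895 (L l968 (L l3080 (T t896 (L l824 (T t897 N)))))))))⟩
def e0_768_192__1023_256_20 : Ent 5 := ⟨[a0, a768, a192], [a1023, a256, a326], (M a592 (F (L l2864 (T t895 (L l968 (L l3080 (T t896 (L l824 (T t897 N)))))))))⟩
def e0_768_192__1023_256_21 : Ent 5 := ⟨[a0, a768, a192], [a1023, a256, a327], (M a592 (F (L l2864 (T t895 (L l968 (L l3080 (T t896 (L l824 (T t897 N)))))))))⟩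
def e0_768_192__1023_256_22 : Ent 5 := ⟨[a0, a768, a192], [a1023, a256, a331], (M a592 (F (L l2864 (T t895 (L l968 (L l3080 (T t896 (L l824 (T t897 N)))))))))⟩
def e0_768_192__1023_256_23 : Ent 5 := ⟨[a0, a768, a192], [a1023, a256, a347], (M a592 (F (L l2864 (T t895 (L l968 (L l3080 (T t896 (L l824 (T t897 N)))))))))⟩
def e0_768_192__1023_256_24 : Ent 5 := ⟨[a0, a768, a192], [a1023, a256, a390], (M a592 (F (L l2864 (T t895 (L l968 (L l3080 (T t896 (L l824 (T t897 N)))))))))⟩
def e0_768_192__1023_256_25 : Ent 5 := ⟨[a0, a768, a192], [a1023, a256, a391], (M a592 (F (L l2864 (T t895 (L l968 (L l3080 (T t896 (L l824 (T t897 N)))))))))⟩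
def e0_768_192__1023_256_26 : Ent 5 := ⟨[a0, a768, a192], [a1023, a256, a395], (M a592 (F (L l2864 (T t895 (L l968 (L l3080 (T t896 (L l824 (T t897 N)))))))))⟩
def e0_768_192__1023_256_27 : Ent 5 := ⟨[a0, a768, a192], [a1023, a256, a411], (M a592 (F (L l2864 (T t895 (L l968 (L l3080 (T t896 (L l824 (T t897 N)))))))))⟩
def e0_768_192__1023_256_28 : Ent 5 := ⟨[a0, a768, a192], [a1023, a256, a454], (M a592 (F (L l2864 (T t895 (L l968 (L l3080 (T t896 (L l824 (T t897 N)))))))))⟩
def e0_768_192__1023_256_29 : Ent 5 := ⟨[a0, a768, a192], [a1023, a256, a455], (M a592 (F (L l2864 (T t895 (L l968 (L l3080 (T t896 (L l824 (T t897 N)))))))))⟩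
def e0_768_192__1023_256_30 : Ent 5 := ⟨[a0, a768, a192], [a1023, a256, a459], (M a592 (F (L l2864 (T t895 (L l968 (L l3080 (T t896 (L l824 (T t897 N)))))))))⟩
def e0_768_192__1023_256_31 : Ent 5 := ⟨[a0, a768, a192], [a1023, a256, a475], (M a592 (F (L l2864 (T t895 (L l968 (L l3080 (T t896 (L l824 (T t897 N)))))))))⟩
def e0_768_192__1023_256_32 : Ent 5 := ⟨[a0, a768, a192], [a1023, a256, a518], (M a592 (F (L l2864 (T t895 (L l968 (L l3080 (T t896 (L l824 (T t897 N)))))))))⟩
def e0_768_192__1023_256_33 : Ent 5 := ⟨[a0, a768, a192], [a1023, a256, a519], (M a592 (F (L l2864 (T t895 (L l968 (L l3080 (T t896 (L l824 (T t897 N)))))))))⟩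
def e0_768_192__1023_256_34 : Ent 5 := ⟨[a0, a768, a192], [a1023, a256, a523], (M a592 (F (L l2864 (T t895 (L l968 (L l3080 (T t896 (L l824 (T t897 N)))))))))⟩
def e0_768_192__1023_256_35 : Ent 5 := ⟨[a0, a768, a192], [a1023, a256, a539], (M a592 (F (L l2864 (T t895 (L l968 (L l3080 (T t896 (L l824 (T t897 N)))))))))⟩
def e0_768_192__1023_256_36 : Ent 5 := ⟨[a0, a768, a192], [a1023, a256, a582], (M a592 (F (L l2864 (T t895 (L l968 (L l3080 (T t896 (L l824 (T t897 N)))))))))⟩
def e0_768_192__1023_256_37 : Ent 5 := ⟨[a0, a768, a192], [a1023, a256, a583], (M a592 (F (L l2864 (T t895 (L l968 (L l3080 (T t896 (L l824 (T t897 N)))))))))⟩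
def e0_768_192__1023_256_38 : Ent 5 := ⟨[a0, a768, a192], [a1023, a256, a587], (M a592 (F (L l2864 (T t895 (L l968 (L l3080 (T t896 (L l824 (T t897 N)))))))))⟩
def e0_768_192__1023_256_39 : Ent 5 := ⟨[a0, a768, a192], [a1023, a256, a603], (M a592 (F (L l2864 (T t895 (L l968 (L l3080 (T t896 (L l824 (T t897 N)))))))))⟩
def e0_768_192__1023_256_40 : Ent 5 := ⟨[a0, a768, a192], [a1023, a256, a646], (M a592 (F (L l2864 (T t895 (L l968 (L l3080 (T t896 (L l824 (T t897 N)))))))))⟩
def e0_768_192__1023_256_41 : Ent 5 := ⟨[a0, a768, a192], [a1023, a256, a647], (M a592 (F (L l2864 (T t895 (L l968 (L l3080 (T t896 (L l824 (T t897 N)))))))))⟩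
def e0_768_192__1023_256_42 : Ent 5 := ⟨[a0, a768, a192], [a1023, a256, a651], (M a592 (F (L l2864 (T t895 (L l968 (L l3080 (T t896 (L l824 (T t897 N)))))))))⟩
def e0_768_192__1023_256_43 : Ent 5 := ⟨[a0, a768, a192], [a1023, a256, a667], (M a592 (F (L l2864 (T t895 (L l968 (L l3080 (T t896 (L l824 (T t897 N)))))))))⟩
def e0_768_192__1023_256_44 : Ent 5 := ⟨[a0, a768, a192], [a1023, a256, a710], (M a592 (F (L l2864 (T t895 (L l968 (L l3080 (T t896 (L l824 (T t897 N)))))))))⟩
def e0_768_192__1023_256_45 : Ent 5 := ⟨[a0, a768, a192], [a1023, a256, a711], (M a592 (F (L l2864 (T t895 (L l968 (L l3080 (T t896 (L l824 (T t897 N)))))))))⟩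
def e0_768_192__1023_256_46 : Ent 5 := ⟨[a0, a768, a192], [a1023, a256, a715], (M a592 (F (L l2864 (T t895 (L l968 (L l3080 (T t896 (L l824 (T t897 N)))))))))⟩
def e0_768_192__1023_256_47 : Ent 5 := ⟨[a0, a768, a192], [a1023, a256, a731], (M a592 (F (L l2864 (T t895 (L l968 (L l3080 (T t896 (L l824 (T t897 N)))))))))⟩
def e0_768_192__1023_256_48 : Ent 5 := ⟨[a0, a768, a192], [a1023, a256, a774], (M a592 (F (L l2864 (T t895 (L l968 (L l3080 (T t896 (L l824 (T t897 N)))))))))⟩
def e0_768_192__1023_256_49 : Ent 5 := ⟨[a0, a768, a192], [a1023, a256, a775], (M a592 (F (L l2864 (T t895 (L l968 (L l3080 (T t896 (L l824 (T t897 N)))))))))⟩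
def e0_768_192__1023_256_50 : Ent 5 := ⟨[a0, a768, a192], [a1023, a256, a779], (M a592 (F (L l2864 (T t895 (L l968 (L l3080 (T t896 (L l824 (T t897 N)))))))))⟩
def e0_768_192__1023_256_51 : Ent 5 := ⟨[a0, a768, a192], [a1023, a256, a795], (M a592 (F (L l2864 (T t895 (L l968 (L l3080 (T t896 (L l824 (T t897 N)))))))))⟩
def e0_768_192__1023_256_52 : Ent 5 := ⟨[a0, a768, a192], [a1023, a256, a838], (M a592 (F (L l2864 (T t895 (L l968 (L l3080 (T t896 (L l824 (T t897 N)))))))))⟩
def e0_768_192__1023_256_53 : Ent 5 := ⟨[a0, a768, a192], [a1023, a256, a839], (M a592 (F (L l2864 (T t895 (L l968 (L l3080 (T t896 (L l824 (T t897 N)))))))))⟩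
def e0_768_192__1023_256_54 : Ent 5 := ⟨[a0, a768, a192], [a1023, a256, a843], (M a592 (F (L l2864 (T t895 (L l968 (L l3080 (T t896 (L l824 (T t897 N)))))))))⟩
def e0_768_192__1023_256_55 : Ent 5 := ⟨[a0, a768, a192], [a1023, a256, a859], (M a592 (F (L l2864 (T t895 (L l968 (L l3080 (T t896 (L l824 (T t897 N)))))))))⟩
def e0_768_192__1023_256_56 : Ent 5 := ⟨[a0, a768, a192], [a1023, a256, a902], (M a592 (F (L l2864 (T t895 (L l968 (L l3080 (T t896 (L l824 (T t897 N)))))))))⟩
def e0_768_192__1023_256_57 : Ent 5 := ⟨[a0, a768, a192], [a1023, a256, a903], (M a592 (F (L l2864 (T t895 (L l968 (L l3080 (T t896 (L l824 (T t897 N)))))))))⟩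
def e0_768_192__1023_256_58 : Ent 5 := ⟨[a0, a768, a192], [a1023, a256, a907], (M a592 (F (L l2864 (T t895 (L l968 (L l3080 (T t896 (L l824 (T t897 N)))))))))⟩
def e0_768_192__1023_256_59 : Ent 5 := ⟨[a0, a768, a192], [a1023, a256, a923], (M a592 (F (L l2864 (T t895 (L l968 (L l3080 (T t896 (L l824 (T t897 N)))))))))⟩
def e0_768_192__1023_256_60 : Ent 5 := ⟨[a0, a768, a192], [a1023, a256, a966], (M a592 (F (L l2864 (T t895 (L l968 (L l3080 (T t896 (L l824 (T t897 N)))))))))⟩
def e0_768_192__1023_256_61 : Ent 5 := ⟨[a0, a768, a192], [a1023, a256, a967], (M a592 (F (L l2864 (T t895 (L l968 (L l3080 (T t896 (L l824 (T t897 N)))))))))⟩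
def e0_768_192__1023_256_62 : Ent 5 := ⟨[a0, a768, a192], [a1023, a256, a971], (M a592 (F (L l2864 (T t895 (L l968 (L l3080 (T t896 (L l824 (T t897 N)))))))))⟩
def e0_768_192__1023_256_63 : Ent 5 := ⟨[a0, a768, a192], [a1023, a256, a987], (M a592 (F (L l2864 (T t895 (L l968 (L l3080 (T t896 (L l824 (T t897 N)))))))))⟩
def b0_768_192__1023_256 : Blk 5 := ⟨[0, 768, 192], [1023, 256], [6, 7, 11, 27, 70, 71, 75, 91, 134, 135, 139, 155, 198, 199, 203, 219, 262, 263, 267, 283, 326, 327, 331, 347, 390, 391, 395, 411, 454, 455, 459, 475, 518, 519, 523, 539, 582, 583, 587, 603, 646, 647, 651, 667, 710, 711, 715, 731, 774, 775, 779, 795, 838, 839, 843, 859, 902, 903, 907, 923, 966, 967, 971, 987], [e0_768_192__1023_256_0, e0_768_192__1023_256_1, e0_768_192__1023_256_2, e0_768_192__1023_256_3, e0_768_192__1023_256_4, e0_768_192__1023_256_5, e0_768_192__1023_256_6, e0_768_192__1023_256_7, e0_768_192__1023_256_8, e0_768_192__1023_256_9, e0_768_192__1023_256_10, e0_768_192__1023_256_11,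 e0_768_192__1023_256_12, e0_768_192__1023_256_13, e0_768_192__1023_256_14, e0_768_192__1023_256_15, e0_768_192__1023_256_16, e0_768_192__1023_256_17, e0_768_192__1023_256_18, e0_768_192__1023_256_19, e0_768_192__1023_256_20, e0_768_192__1023_256_21, e0_768_192__1023_256_22, e0_768_192__1023_256_23, e0_768_192__1023_256_24, e0_768_192__1023_256_25, e0_768_192__1023_256_26, e0_768_192__1023_256_27, e0_768_192__1023_256_28, e0_768_192__1023_256_29, e0_768_192__1023_256_30, e0_768_192__1023_256_31, e0_768_192__1023_256_32, e0_768_192__1023_256_33, e0_768_192__1023_256_34, e0_768_192__1023_256_35, e0_768_192__1023_256_36, e0_768_192__1023_256_37, e0_768_192__1023_256_38, e0_768_192__1023_256_39, e0_768_192__1023_256_40, e0_768_192__1023_256_41, e0_768_192__1023_256_42, e0_768_192__1023_256_43, e0_768_192__1023_256_44, e0_768_192__1023_256_45, e0_768_192__1023_256_46, e0_768_192__1023_256_47, e0_768_192__1023_256_48, e0_768_192__1023_256_49, e0_768_192__1023_256_50,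 e0_768_192__1023_256_51, e0_768_192__1023_256_52, e0_768_192__1023_256_53, e0_768_192__1023_256_54, e0_768_192__1023_256_55, e0_768_192__1023_256_56, e0_768_192__1023_256_57, e0_768_192__1023_256_58, e0_768_192__1023_256_59, e0_768_192__1023_256_60, e0_768_192__1023_256_61, e0_768_192__1023_256_62, e0_768_192__1023_256_63], by decide +kernel, by decide +kernel⟩

end Pool.Agent.Lib_TTT.K5
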