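import Pool.Agent.Lib_TTT.K3C00
import Pool.Agent.Lib_TTT.K4C00
import Pool.Agent.Lib_TTT.K4C01
import Pool.Agent.Lib_TTT.K4C02
import Pool.Agent.Lib_TTT.K4C03
import Pool.Agent.Lib_TTT.K4C04
import Pool.Agent.Lib_TTT.K4C05
import Pool.Agent.Lib_TTT.K4C06
import Pool.Agent.Lib_TTT.K4C07
import Pool.Agent.Lib_TTT.K4C08
import Pool.Agent.Lib_TTT.K4C09
import Pool.Agent.Lib_TTT.K4C10
import Pool.Agent.Lib_TTT.K4C11
import Pool.Agent.Lib_TTT.K4C12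
import Pool.Agent.Lib_TTT.K4C13
import Pool.Agent.Lib_TTT.K4C14
import Pool.Agent.Lib_TTT.K4C15
import Pool.Agent.Lib_TTT.K4C16
import Pool.Agent.Lib_TTT.K4C17
import Pool.Agent.Lib_TTT.K4C18
import Pool.Agent.Lib_TTT.K4C19
import Pool.Agent.Lib_TTT.K4C20
import Pool.Agent.Lib_TTT.K4C21
import Pool.Agent.Lib_TTT.K4C22
import Pool.Agent.Lib_TTT.K4C23
import Pool.Agent.Lib_TTT.K4C24
import Pool.Agent.Lib_TTT.K4C25
import Pool.Agent.Lib_TTT.K4C26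
import Pool.Agent.Lib_TTT.K4C27
import Pool.Agent.Lib_TTT.K4C28
import Pool.Agent.Lib_TTT.K4C29
import Pool.Agent.Lib_TTT.K4C30
import Pool.Agent.Lib_TTT.K4C31
import Pool.Agent.Lib_TTT.K4C32
import Pool.Agent.Lib_TTT.K4C33
import Pool.Agent.Lib_TTT.K4C34
import Pool.Agent.Lib_TTT.K4C35
import Pool.Agent.Lib_TTT.K4C36
import Pool.Agent.Lib_TTT.K4C37
import Pool.Agent.Lib_TTT.K5C00
import Pool.Agent.Lib_TTT.K5C01
import Pool.Agent.Lib_TTT.K5C02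
import Pool.Agent.Lib_TTT.K5C03
import Pool.Agent.Lib_TTT.K5C04
import Pool.Agent.Lib_TTT.K5C05
import Pool.Agent.Lib_TTT.K5C06
import Pool.Agent.Lib_TTT.K5C07

/-! All certificates. -/
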