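import Pool.Agent.Lib_TTT.Defs

/-!
A won position gives a winning strategy.

Proof. Let `Good P Q m` say that `m` is a move as in one of the two constructors of `WinA`
(`m ∉ P`, `m ∉ Q`, and either some line is contained in `insert m P`, or some answer exists, no
answer completes a line of the second player, and every answer leads to a `WinA` position). For a
history `h` let `P h`, `Q h` be the finsets of its entries with even and odd index. Put `σ h` = a
chosen `m` with `Good (P h) (Q h) m` if there is one; otherwise some cell not in `h` if there is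
one; otherwise anything. The moves are legal: cells outside `P h ∪ Q h` are exactly the cells
outside `h`. Winning: let `l` be a complete play. Claim, by induction on `l.length - k` for even
`k ≤ l.length`: if `WinA (P (l.take k)) (Q (l.take k))` and no line is contained in
`Q (l.take k)`, the conclusion holds. Indeed the move `l[k]` is good (`k < l.length`, since a good
move exists and is not in `l.take k`, and `l` contains all cells); if it completes a line, take
`k + 1`; otherwise an answer exists, so `k + 1 < l.length`, the answer `r = l[k+1]` completes no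
line and leads to a `WinA` position; apply the induction hypothesis to `k + 2`. Start with
`k = 0` (no line is empty).
-/

set_option autoImplicit false

namespace Pool.Agent.Lib_TTT

/-- A move as in one of the two constructors of `WinA`. -/
private def StratGood {d : ℕ} (P Q : Finset (Pt d)) (m : Pt d) : Prop :=
  m ∉ P ∧ m ∉ Q ∧ ((∃ e, IsLn e ∧ e ⊆ insert m P) ∨
    ((∃ r, r ∉ insert m P ∧ r ∉ Q) ∧
      (∀ r, r ∉ insert m P → r ∉ Q → ∀ e, IsLn e → ¬ e ⊆ insert r Q) ∧
      (∀ r, r ∉ insert m P → r ∉ Q → WinA (insert m P) (insert r Q))))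

private theorem strat_good_of_win {d : ℕ} {P Q : Finset (Pt d)} (h : WinA P Q) :
    ∃ m, StratGood P Q m := by
  cases h with
  | fin _ _ m e hmP hmQ he hs => exact ⟨m, hmP, hmQ, Or.inl ⟨e, he, hs⟩⟩
  | mv _ _ m hmP hmQ hex hD hA => exact ⟨m, hmP, hmQ, Or.inr ⟨hex, hD, hA⟩⟩

open Classical in
/-- The stones of the first player. -/
private noncomputable def stratEv {d : ℕ} (h : List (Pt d)) : Finset (Pt d) :=
  Finset.univ.filter (fun x => ∃ i : ℕ, Even i ∧ h[i]? = some x)

open Classical in
/-- The stones of the second player. -/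
private noncomputable def stratOd {d : ℕ} (h : List (Pt d)) : Finset (Pt d) :=
  Finset.univ.filter (fun x => ∃ i : ℕ, Odd i ∧ h[i]? = some x)

private theorem strat_mem_ev {d : ℕ} (h : List (Pt d)) (x : Pt d) :
    x ∈ stratEv h ↔ ∃ i : ℕ, Even i ∧ h[i]? = some x := by
  simp [stratEv]

private theorem strat_mem_od {d : ℕ} (h : List (Pt d)) (x : Pt d) :
    x ∈ stratOd h ↔ ∃ i : ℕ, Odd i ∧ h[i]? = some x := by
  simp [stratOd]

private theorem strat_not_mem {d : ℕ} (h : List (Pt d)) (x : Pt d) (h1 : x ∉ stratEv h)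
    (h2 : x ∉ stratOd h) : x ∉ h := by
  intro hx
  obtain ⟨i, hi⟩ := List.mem_iff_getElem?.1 hx
  rcases Nat.even_or_odd i with he | ho
  · exact h1 ((strat_mem_ev h x).2 ⟨i, he, hi⟩)
  · exact h2 ((strat_mem_od h x).2 ⟨i, ho, hi⟩)

private theorem strat_mem_of_ev {d : ℕ} (h : List (Pt d)) (x : Pt d) (h1 : x ∈ stratEv h) :
    x ∈ h := by
  obtain ⟨i, -, hi⟩ := (strat_mem_ev h x).1 h1
  exact List.mem_iff_getElem?.2 ⟨i, hi⟩

private theorem strat_mem_of_od {d : ℕ} (h : List (Pt d)) (x : Pt d) (h1 : x ∈ stratOd h) :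
    x ∈ h := by
  obtain ⟨i, -, hi⟩ := (strat_mem_od h x).1 h1
  exact List.mem_iff_getElem?.2 ⟨i, hi⟩

private theorem strat_ev_take {d : ℕ} (l : List (Pt d)) (k : ℕ) (x : Pt d) :
    x ∈ stratEv (l.take k) ↔ ∃ i < k, Even i ∧ l[i]? = some x := by
  rw [strat_mem_ev]
  constructor
  · rintro ⟨i, hi, h⟩
    rw [List.getElem?_take] at h
    split_ifs at h with hk
    exact ⟨i, hk, hi, h⟩
  · rintro ⟨i, hk, hi, h⟩
    refine ⟨i, hi, ?_⟩
    rw [List.getElem?_take, if_pos hk, h]

private theorem strat_od_take {d : ℕ} (l : List (Pt d)) (k : ℕ) (x : Pt d) :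
    x ∈ stratOd (l.take k) ↔ ∃ i < k, Odd i ∧ l[i]? = some x := by
  rw [strat_mem_od]
  constructor
  · rintro ⟨i, hi, h⟩
    rw [List.getElem?_take] at h
    split_ifs at h with hk
    exact ⟨i, hk, hi, h⟩
  · rintro ⟨i, hk, hi, h⟩
    refine ⟨i, hi, ?_⟩
    rw [List.getElem?_take, if_pos hk, h]

private theorem strat_ev_succ {d : ℕ} (l : List (Pt d)) (k : ℕ) (m : Pt d) (hk : Even k)
    (hm : l[k]? = some m) : stratEv (l.take (k + 1)) = insert m (stratEv (l.take k)) := by
  ext x
  rw [Finset.mem_insert, strat_ev_take, strat_ev_take]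
  constructor
  · rintro ⟨i, hi, he, h⟩
    rcases Nat.lt_succ_iff_lt_or_eq.1 hi with h1 | h1
    · exact Or.inr ⟨i, h1, he, h⟩
    · subst h1
      rw [hm] at h
      exact Or.inl (Option.some.inj h).symm
  · rintro (h | ⟨i, hi, he, h⟩)
    · subst h
      exact ⟨k, Nat.lt_succ_self k, hk, hm⟩
    · exact ⟨i, by omega, he, h⟩

private theorem strat_od_succ {d : ℕ} (l : List (Pt d)) (k : ℕ) (m : Pt d) (hk : Odd k)
    (hm : l[k]? = some m) : stratOd (l.take (k + 1)) = insert m (stratOd (l.take k)) := by
  ext x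
  rw [Finset.mem_insert, strat_od_take, strat_od_take]
  constructor
  · rintro ⟨i, hi, he, h⟩
    rcases Nat.lt_succ_iff_lt_or_eq.1 hi with h1 | h1
    · exact Or.inr ⟨i, h1, he, h⟩
    · subst h1
      rw [hm] at h
      exact Or.inl (Option.some.inj h).symm
  · rintro (h | ⟨i, hi, he, h⟩)
    · subst h
      exact ⟨k, Nat.lt_succ_self k, hk, hm⟩
    · exact ⟨i, by omega, he, h⟩

private theorem strat_od_succ_even {d : ℕ} (l : List (Pt d)) (k : ℕ) (hk : Even k) :
    stratOd (l.take (k + 1)) = stratOd (l.take k) := by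
  ext x
  rw [strat_od_take, strat_od_take]
  constructor
  · rintro ⟨i, hi, he, h⟩
    rcases Nat.lt_succ_iff_lt_or_eq.1 hi with h1 | h1
    · exact ⟨i, h1, he, h⟩
    · subst h1
      exact absurd hk (Nat.not_even_iff_odd.2 he)
  · rintro ⟨i, hi, he, h⟩
    exact ⟨i, by omega, he, h⟩

private theorem strat_ev_succ_odd {d : ℕ} (l : List (Pt d)) (k : ℕ) (hk : Odd k) :
    stratEv (l.take (k + 1)) = stratEv (l.take k) := by
  ext x
  rw [strat_ev_take, strat_ev_take]
  constructor
  · rintro ⟨i, hi, he, h⟩
    rcases Nat.lt_succ_iff_lt_or_eq.1 hi with h1 | h1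
    · exact ⟨i, h1, he, h⟩
    · subst h1
      exact absurd he (Nat.not_even_iff_odd.2 hk)
  · rintro ⟨i, hi, he, h⟩
    exact ⟨i, by omega, he, h⟩

open Classical in
/-- The strategy. -/
private noncomputable def stratSig {d : ℕ} (h : List (Pt d)) : Pt d :=
  if H : ∃ m, StratGood (stratEv h) (stratOd h) m then H.choose
  else if H2 : ∃ m, m ∉ h then H2.choose else fun _ => 0

private theorem strat_sig_good {d : ℕ} (h : List (Pt d))
    (H : ∃ m, StratGood (stratEv h) (stratOd h) m) :
    StratGood (stratEv h) (stratOd h) (stratSig h) := by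
  unfold stratSig
  rw [dif_pos H]
  exact H.choose_spec

private theorem strat_sig_legal {d : ℕ} (h : List (Pt d))
    (hl : h.length < Fintype.card (Pt d)) : stratSig h ∉ h := by
  by_cases H : ∃ m, StratGood (stratEv h) (stratOd h) m
  · obtain ⟨h1, h2, -⟩ := strat_sig_good h H
    exact strat_not_mem h _ h1 h2
  · have H2 : ∃ m, m ∉ h := by
      by_contra hc
      push Not at hc
      have h1 : (Finset.univ : Finset (Pt d)) ⊆ h.toFinset := by
        intro x _
        exact List.mem_toFinset.2 (hc x)
      have h2 := Finset.card_le_card h1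
      have h3 := List.toFinset_card_le h
      rw [Finset.card_univ] at h2
      omega
    unfold stratSig
    rw [dif_neg H, dif_pos H2]
    exact H2.choose_spec

private theorem strat_notMem_take {d : ℕ} (l : List (Pt d)) (hn : l.Nodup) (k : ℕ) (r : Pt d)
    (hr : l[k]? = some r) : r ∉ l.take k := by
  intro h
  obtain ⟨i, hi⟩ := List.mem_iff_getElem?.1 h
  rw [List.getElem?_take] at hi
  split_ifs at hi with hk
  obtain ⟨h1, h2⟩ := List.getElem?_eq_some_iff.1 hr
  obtain ⟨h3, h4⟩ := List.getElem?_eq_some_iff.1 hi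
  have := (List.Nodup.getElem_inj_iff hn (hi := h1) (hj := h3)).1 (h2.trans h4.symm)
  omega

private theorem strat_line_nonempty {d : ℕ} (e : Finset (Pt d)) (he : IsLn e) : e.Nonempty := by
  obtain ⟨f, -, -, rfl⟩ := he
  exact ⟨f 0, Finset.mem_image.2 ⟨0, Finset.mem_univ _, rfl⟩⟩

private theorem strat_main {d : ℕ} (l : List (Pt d)) (hn : l.Nodup)
    (hfull : ∀ x : Pt d, x ∈ l)
    (hσ : ∀ k < l.length, Even k → l[k]? = some (stratSig (l.take k))) :
    ∀ n k : ℕ, l.length - k ≤ n → Even k →
      WinA (stratEv (l.take k)) (stratOd (l.take k)) →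
      (∀ e, IsLn e → ¬ e ⊆ stratOd (l.take k)) →
      ∃ k ≤ l.length,
        (∃ e : Finset (Pt d), IsLn e ∧ ∀ x ∈ e, ∃ i < k, Even i ∧ l[i]? = some x) ∧
        ∀ e : Finset (Pt d), IsLn e → ∃ x ∈ e, ∀ i < k, Odd i → l[i]? ≠ some x := by
  intro n
  induction n with
  | zero =>
    intro k hk _ hw _
    exfalso
    obtain ⟨m, h1, h2, -⟩ := strat_good_of_win hw
    have h3 := strat_not_mem _ m h1 h2
    rw [List.take_of_length_le (by omega)] at h3
    exact h3 (hfull m)
  | succ n ih =>
    intro k hk hke hw hno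
    have hG := strat_sig_good (l.take k) (strat_good_of_win hw)
    obtain ⟨h1, h2, h3⟩ := hG
    have h4 := strat_not_mem _ _ h1 h2
    have hkl : k < l.length := by
      by_contra hc
      rw [List.take_of_length_le (by omega)] at h4
      exact h4 (hfull _)
    have hm := hσ k hkl hke
    have hE := strat_ev_succ l k _ hke hm
    have hO := strat_od_succ_even l k hke
    rcases h3 with ⟨e, he, hs⟩ | ⟨⟨r, hr1, hr2⟩, hD, hA⟩
    · refine ⟨k + 1, hkl, ⟨e, he, ?_⟩, ?_⟩
      · intro x hx
        have := hs hx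
        rw [← hE] at this
        exact (strat_ev_take l (k + 1) x).1 this
      · intro e' he'
        obtain ⟨x, hx, hxn⟩ := Finset.not_subset.1 (hno e' he')
        refine ⟨x, hx, ?_⟩
        intro i hi ho heq
        apply hxn
        rw [← hO]
        exact (strat_od_take l (k + 1) x).2 ⟨i, hi, ho, heq⟩
    · rw [← hE] at hr1 hD hA
      rw [← hO] at hr2 hD hA
      have h5 := strat_not_mem _ _ hr1 hr2
      have hkl2 : k + 1 < l.length := by
        by_contra hc
        rw [List.take_of_length_le (by omega)] at h5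
        exact h5 (hfull _)
      have hko : Odd (k + 1) := hke.add_one
      have hr' : l[k + 1]? = some l[k + 1] := List.getElem?_eq_getElem hkl2
      have h6 := strat_notMem_take l hn (k + 1) _ hr'
      have h7 : l[k + 1] ∉ stratEv (l.take (k + 1)) := fun h => h6 (strat_mem_of_ev _ _ h)
      have h8 : l[k + 1] ∉ stratOd (l.take (k + 1)) := fun h => h6 (strat_mem_of_od _ _ h)
      have hE2 := strat_ev_succ_odd l (k + 1) hko
      have hO2 := strat_od_succ l (k + 1) _ hko hr'
      refine ih (k + 1 + 1) (by omega) hko.add_one ?_ ?_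
      · rw [hE2, hO2]
        exact hA _ h7 h8
      · rw [hO2]
        exact hD _ h7 h8

theorem strat_of_win {d : ℕ} (h : WinA (∅ : Finset (Pt d)) ∅) : FirstWins d := by
  refine ⟨stratSig, ?_, ?_⟩
  · intro h _ hl _ _
    exact strat_sig_legal h hl
  · intro l hn hlen hσ
    have hfull : ∀ x : Pt d, x ∈ l := by
      intro x
      have h1 : l.toFinset.card = Fintype.card (Pt d) := by
        rw [List.toFinset_card_of_nodup hn, hlen]
      have h2 : l.toFinset = Finset.univ := (Finset.card_eq_iff_eq_univ _).1 h1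
      have h3 : x ∈ l.toFinset := by rw [h2]; exact Finset.mem_univ x
      exact List.mem_toFinset.1 h3
    have hE0 : stratEv (l.take 0) = ∅ := by
      ext x
      rw [strat_ev_take]
      simp
    have hO0 : stratOd (l.take 0) = ∅ := by
      ext x
      rw [strat_od_take]
      simp
    refine strat_main l hn hfull hσ l.length 0 (by omega) (by simp) ?_ ?_
    · rw [hE0, hO0]
      exact h
    · rw [hO0]
      intro e he hs
      obtain ⟨x, hx⟩ := strat_line_nonempty e he
      exact absurd (hs hx) (Finset.notMem_empty x)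

end Pool.Agent.Lib_TTT
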