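import Pool.Agent.Lib_TTT.AsmG
import Pool.Agent.Lib_TTT.AsmS
import Pool.Agent.Lib_TTT.CovG
import Pool.Agent.Lib_TTT.CovS
import Pool.Agent.Lib_TTT.Strat
import Pool.Agent.Lib_TTT.Draw

/-!
The first player wins the game `4^d` for all `d ≥ 4`.
-/

set_option autoImplicit false

namespace Pool.Agent.Lib_TTT

variable {d : ℕ}

private theorem sgV (i0 : Fin d) (u c : Fin 4) : sgPt d (V2 i0 u c) = V2 i0 (sg u) (sg c) := by
  rw [sgPt_apply]
  funext i
  by_cases h : i = i0 <;> simp [V2, h]

private theorem other (hd : 4 ≤ d) (i : Fin d) : ∃ j : Fin d, i ≠ j := by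
  by_cases h : i = ⟨0, by omega⟩
  · refine ⟨⟨1, by omega⟩, ?_⟩
    rw [h]; intro h'; simp at h'
  · exact ⟨⟨0, by omega⟩, h⟩

private theorem other2 (hd : 4 ≤ d) (i j : Fin d) : ∃ l : Fin d, l ≠ i ∧ l ≠ j := by
  by_contra hcon
  push Not at hcon
  have hsub : (Finset.univ : Finset (Fin d)) ⊆ {i, j} := by
    intro x _
    by_cases hx : x = i
    · rw [hx]; simp
    · rw [hcon x hx]; simp
  have h1 := Finset.card_le_card hsub
  have h2 := Finset.card_le_two (a := i) (b := j)
  rw [Finset.card_univ, Fintype.card_fin] at h1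
  omega

/-- The stone of the second player is `a` times a unit vector. -/
private theorem win_unit (hd : 4 ≤ d) (i0 : Fin d) (a : Fin 4) (ha : a ≠ 0) :
    WinA {V2 i0 0 0} {V2 i0 a 0} := by
  obtain ⟨i1, h01⟩ := other hd i0
  have w1 : WinA {V2 i0 0 0} {V2 i0 1 0} := by
    apply asmS1 hd covS_1 (by decide) i0
    intro c hc
    simp only [List.mem_cons, List.not_mem_nil, or_false] at hc
    rcases hc with rfl | rfl
    · exact asmS2 hd covS2_11 (by decide) i0 i1 h01
    · exact asmS2 hd covS2_12 (by decide) i0 i1 h01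
  have w3 : WinA {V2 i0 0 0} {V2 i0 3 0} := by
    apply asmS1 hd covS_3 (by decide) i0
    intro c hc
    simp only [List.mem_cons, List.not_mem_nil, or_false] at hc
    have h2 := asmS2 hd covS2_32 (by decide) i0 i1 h01
    rcases hc with rfl | rfl
    · have := h2.map (lineMap_sg (d := d))
      simpa [Finset.image_insert, sgV, sg, Equiv.swap_apply_def] using this
    · exact h2
  have w2 : WinA {V2 i0 0 0} {V2 i0 2 0} := by
    have := w1.map (lineMap_sg (d := d))
    simpa [Finset.image_insert, sgV, sg, Equiv.swap_apply_def] using this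
  fin_cases a
  · exact absurd rfl ha
  · exact w1
  · exact w2
  · exact w3

/-- The stone of the second player is constant. -/
private theorem win_const (hd : 4 ≤ d) (i0 : Fin d) (a : Fin 4) (ha : a ≠ 0) :
    WinA {V2 i0 0 0} {V2 i0 a a} := by
  obtain ⟨i1, h01⟩ := other hd i0
  have w1 : WinA {V2 i0 0 0} {V2 i0 1 1} := by
    apply asmS1 hd covS_11 (by decide) i0
    intro c hc
    simp only [List.mem_cons, List.not_mem_nil, or_false] at hc
    rcases hc with rfl | rfl
    · exact asmS2 hd covS2_112 (by decide) i0 i1 h01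
    · exact asmS2 hd covS2_113 (by decide) i0 i1 h01
  have w3 : WinA {V2 i0 0 0} {V2 i0 3 3} := by
    apply asmS1 hd covS_33 (by decide) i0
    intro c hc
    simp only [List.mem_cons, List.not_mem_nil, or_false] at hc
    have h2 := asmS2 hd covS2_331 (by decide) i0 i1 h01
    rcases hc with rfl | rfl
    · exact h2
    · have := h2.map (lineMap_sg (d := d))
      simpa [Finset.image_insert, sgV, sg, Equiv.swap_apply_def] using this
  have w2 : WinA {V2 i0 0 0} {V2 i0 2 2} := by
    have := w1.map (lineMap_sg (d := d))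
    simpa [Finset.image_insert, sgV, sg, Equiv.swap_apply_def] using this
  fin_cases a
  · exact absurd rfl ha
  · exact w1
  · exact w2
  · exact w3

/-- The first player wins `4^d`. -/
theorem win_all (hd : 4 ≤ d) : WinA (∅ : Finset (Pt d)) ∅ := by
  apply win_step hd ∅ ∅ (fun _ => 0) (by simp) (by simp) (by simp) (by simp)
  intro q1 hq1 _
  have hne : q1 ≠ fun _ => 0 := by simpa using hq1
  have hz : ∀ i : Fin d, (fun _ => 0 : Pt d) = V2 i 0 0 := by
    intro i; funext x; simp [V2]
  show WinA {fun _ => 0} {q1}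
  by_cases hG : ∃ i0, q1 i0 ≠ 0 ∧ NC i0 q1
  · obtain ⟨i0, h0, hn⟩ := hG
    rw [hz i0]
    exact asmG1 hd covG1 covG2 q1 i0 h0 hn
  have hG' : ∀ i0, q1 i0 ≠ 0 → ∀ x y, x ≠ i0 → y ≠ i0 → q1 x = q1 y := by
    intro i0 h0 x y hx hy
    by_contra hxy
    exact hG ⟨i0, h0, x, y, hx, hy, hxy⟩
  obtain ⟨i, hi⟩ : ∃ i, q1 i ≠ 0 := by
    by_contra hcon
    push Not at hcon
    exact hne (funext hcon)
  obtain ⟨j, hij⟩ := other hd i
  have hq : q1 = V2 i (q1 i) (q1 j) := by
    funext x
    by_cases hx : x = i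
    · rw [hx]; simp [V2]
    · rw [hG' i hi x j hx hij.symm]; simp [V2, hx]
  rw [hz i]
  by_cases hc : q1 j = 0
  · rw [hq, hc]
    have := win_unit hd i (q1 i) hi
    simpa [V2] using this
  · obtain ⟨l, hl⟩ := other2 hd i j
    have h1 : q1 i = q1 l := hG' j hc i l hij hl.2
    have h2 : q1 l = q1 j := hG' i hi l j hl.1 hij.symm
    rw [hq, ← h1.trans h2]
    have := win_const hd i (q1 i) hi
    simpa [V2] using this

/-- The first player has a winning strategy in `4^d` for all `d ≥ 4`. -/
theorem firstWins (hd : 4 ≤ d) : FirstWins d := strat_of_win (win_all hd)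

end Pool.Agent.Lib_TTT
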