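import Pool.Agent.Lib_TTT.Inc

/-!
Soundness of the templates of `Core.lean` (threat sequences).

`vt_spec`: `F` is the set of all forced answers of the template but the last one. Let `P`, `Q` be
a position with `base ⊆ P`, `U` disjoint from `P ∪ Q`, and such that every word without cells of
`P` has at most two cells of `Q` and `F` together (`cn w Q + cn w F ≤ 2`). Then the sequence wins:
`Vcf P Q`. Proof by induction on the list of steps in `chkS`, for the real position
`P ∪ {moves made}`, `Q ∪ {answers made}`: `p` is contained in the real `P`, `u` are the cells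
used; the new cells of every step are not in `p` and not in `u`, hence free. The line of the step
is contained in `p ∪ {m, f}` (mask test). After the move no answer `r` completes a line of the
second player, because a line contained in `insert r (Q ∪ F')` with `F' ⊆ F` has four cells
(`card_on`), none in `P`, at most one of them `r`, so at least three in `Q ∪ F`. The last answer is
not in `F`, but after it the first player completes a line.
`cn w F ≤ 2` for all `w`: `chkS` tests `g2` against the lines through `f`.
`Z0`: contains `U` and the cells of the lines `hs`; by the test every word with two cells of `F`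
is a code of one of the lines `hs` or passes through a base stone.
-/

set_option autoImplicit false

namespace Pool.Agent.Lib_TTT

variable {k : ℕ}

private theorem beq_iff {a b : ℕ} : Nat.beq a b = true ↔ a = b :=
  ⟨Nat.eq_of_beq_eq_true, fun h => h ▸ Nat.beq_refl _⟩

private theorem tb_lor (a b n : ℕ) :
    (Nat.lor a b).testBit n = (a.testBit n || b.testBit n) := Nat.testBit_or a b n

private theorem tb_land (a b n : ℕ) :
    (Nat.land a b).testBit n = (a.testBit n && b.testBit n) := Nat.testBit_and a b n

private theorem tb_sub {a b : ℕ} (h : Nat.lor a b = b) (n : ℕ) (ha : a.testBit n = true) :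
    b.testBit n = true := by
  rw [← h, tb_lor, ha, Bool.true_or]

private theorem tb_dis {a b : ℕ} (h : Nat.land a b = 0) (n : ℕ) (ha : a.testBit n = true) :
    b.testBit n ≠ true := by
  intro hb
  have := tb_land a b n
  rw [h, ha, hb, Nat.zero_testBit] at this
  exact absurd this (by decide)

private theorem MP_zero : MP 0 (∅ : Finset (Pt k)) := by
  intro n
  simp

private theorem MP_lor {p q : ℕ} {P Q : Finset (Pt k)} (hp : MP p P) (hq : MP q Q) :
    MP (Nat.lor p q) (P ∪ Q) := by
  intro n
  rw [tb_lor, Bool.or_eq_true, hp n, hq n]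
  constructor
  · rintro (⟨x, hx, rfl⟩ | ⟨x, hx, rfl⟩)
    · exact ⟨x, Finset.mem_union_left _ hx, rfl⟩
    · exact ⟨x, Finset.mem_union_right _ hx, rfl⟩
  · rintro ⟨x, hx, rfl⟩
    rcases Finset.mem_union.1 hx with hx | hx
    · exact Or.inl ⟨x, hx, rfl⟩
    · exact Or.inr ⟨x, hx, rfl⟩

private theorem MP_ins {p : ℕ} {P : Finset (Pt k)} (hp : MP p P) (c : Cl k) :
    MP (Nat.lor c.b p) (insert c.pt P) := by
  intro n
  rw [tb_lor, Bool.or_eq_true, hp n, c.pt_b n]
  constructor
  · rintro (rfl | ⟨x, hx, rfl⟩)
    · exact ⟨c.pt, Finset.mem_insert_self _ _, rfl⟩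
    · exact ⟨x, Finset.mem_insert_of_mem hx, rfl⟩
  · rintro ⟨x, hx, rfl⟩
    rcases Finset.mem_insert.1 hx with hx | hx
    · exact Or.inl (by rw [hx])
    · exact Or.inr ⟨x, hx, rfl⟩

private theorem MP_mem {p : ℕ} {P : Finset (Pt k)} (hp : MP p P) (x : Pt k) :
    p.testBit (encP x) = true ↔ x ∈ P := by
  rw [hp]
  constructor
  · rintro ⟨y, hy, e⟩
    rwa [encP_inj e]
  · intro hx
    exact ⟨x, hx, rfl⟩

/-- a cell whose mask does not meet a mask -/
private theorem not_mem_of_land {p : ℕ} {P : Finset (Pt k)} (hp : MP p P) (c : Cl k)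
    (h : Nat.land c.b p = 0) : c.pt ∉ P := by
  intro hc
  exact tb_dis h (encP c.pt) ((c.pt_b _).2 rfl) ((MP_mem hp _).2 hc)

private theorem cn_insert (w : Fin k → Fin 6) (f : Pt k) (F : Finset (Pt k)) (h : f ∉ F) :
    cn w (insert f F) = cn w F + if On f w then 1 else 0 := by
  unfold cn
  rw [Finset.filter_insert]
  split_ifs with h1
  · rw [Finset.card_insert_of_notMem]
    intro h2
    exact h (Finset.mem_of_mem_filter _ h2)
  · rfl

private theorem cn_mono (w : Fin k → Fin 6) {F G : Finset (Pt k)} (h : F ⊆ G) :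
    cn w F ≤ cn w G :=
  Finset.card_le_card (Finset.filter_subset_filter _ h)

private theorem cn_insert_le (w : Fin k → Fin 6) (f : Pt k) (F : Finset (Pt k)) :
    cn w (insert f F) ≤ cn w F + 1 := by
  by_cases h : f ∈ F
  · rw [Finset.insert_eq_self.2 h]
    omega
  · rw [cn_insert w f F h]
    split_ifs <;> omega

/-- no answer completes a line -/
private theorem hD_of (P Q : Finset (Pt k)) (m : Pt k) (hd : Disjoint P Q)
    (hc : ∀ w, Act w → (∃ x ∈ P, On x w) ∨ cn w Q ≤ 2) :
    ∀ r, r ∉ insert m P → r ∉ Q → ∀ e', IsLn e' → ¬ e' ⊆ insert r Q := by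
  intro r hr _ e' he hsub
  obtain ⟨w, hw, hx⟩ := (isLn_iff e').1 he
  rcases hc w hw with ⟨x, hxP, hxw⟩ | h2
  · have h3 := hsub ((hx x).2 hxw)
    rcases Finset.mem_insert.1 h3 with h4 | h4
    · exact hr (Finset.mem_insert_of_mem (h4 ▸ hxP))
    · exact Finset.disjoint_left.1 hd hxP h4
  · have h4 := card_on w hw
    have h5 : (Finset.univ.filter fun x : Pt k => On x w).card ≤ cn w (insert r Q) := by
      apply Finset.card_le_card
      intro x hx1
      have hx2 := (Finset.mem_filter.1 hx1).2
      exact Finset.mem_filter.2 ⟨hsub ((hx x).2 hx2), hx2⟩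
    have h6 := cn_insert_le w r Q
    omega

/-- the cells of a line of a certificate -/
private theorem ln_cells (l : Ln k) {p : ℕ} {P : Finset (Pt k)} (hp : MP p P)
    (h : Nat.lor l.m p = p) : ∃ e : Finset (Pt k), IsLn e ∧ e ⊆ P := by
  obtain ⟨w, hw, _, h2, _⟩ := l.spec
  refine ⟨Finset.univ.filter fun x => On x w, (isLn_iff _).2 ⟨w, hw, ?_⟩, ?_⟩
  · intro x
    simp
  · intro x hx
    have hx2 := (Finset.mem_filter.1 hx).2
    exact (MP_mem hp x).1 (tb_sub h _ ((h2 x).2 hx2))

private theorem chkS_spec : ∀ (st : List (Stp k)) (p u g1 g2 : ℕ)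
    (c : ℕ → ℕ → ℕ → ℕ → Bool) (P0 U0 F0 : Finset (Pt k)),
    MP p P0 → MP u U0 → MG 1 g1 F0 → MG 2 g2 F0 → (∀ w, cn w F0 ≤ 2) → F0 ⊆ U0 →
    chkS st p u g1 g2 c = true →
    ∃ (p' u' g1' g2' : ℕ) (P' U' F' : Finset (Pt k)),
      c p' u' g1' g2' = true ∧ MP p' P' ∧ MP u' U' ∧ MG 1 g1' F' ∧ MG 2 g2' F' ∧
      (∀ w, cn w F' ≤ 2) ∧ F' ⊆ U' ∧ U0 ⊆ U' ∧ F0 ⊆ F' ∧
      ∀ P Q : Finset (Pt k), Disjoint P Q → P0 ⊆ P → Disjoint (U' \ U0) (P ∪ Q) →
        (∀ w, Act w → (∃ x ∈ P, On x w) ∨ cn w Q + cn w (F' \ F0) ≤ 2) →
        (∀ Pe Qe : Finset (Pt k), P' ⊆ Pe → Pe ⊆ P ∪ U' → Qe ⊆ Q ∪ U' → Vcf Pe Qe) →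
        Vcf P Q := by
  intro st
  induction st with
  | nil =>
    intro p u g1 g2 c P0 U0 F0 _ _ _ _ _ _ h
    exact absurd h (by simp [chkS])
  | cons a st ih =>
    obtain ⟨m, f, l⟩ := a
    intro p u g1 g2 c P0 U0 F0 hp hu h1 h2 h3 hFU h
    cases st with
    | nil =>
      simp only [chkS, Bool.and_eq_true, beq_iff] at h
      obtain ⟨⟨⟨hm, hf⟩, hl⟩, hc⟩ := h
      have hmPU := not_mem_of_land (MP_lor hp hu) m hm
      have hfPU := not_mem_of_land (MP_ins (MP_lor hp hu) m) f hf
      have hmP0 : m.pt ∉ P0 := fun h => hmPU (Finset.mem_union_left _ h)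
      have hmU0 : m.pt ∉ U0 := fun h => hmPU (Finset.mem_union_right _ h)
      have hfm : f.pt ≠ m.pt := fun h => hfPU (h ▸ Finset.mem_insert_self _ _)
      have hfU0 : f.pt ∉ U0 := fun h =>
        hfPU (Finset.mem_insert_of_mem (Finset.mem_union_right _ h))
      refine ⟨_, _, _, _, insert m.pt P0, insert f.pt (insert m.pt U0), F0, hc,
        MP_ins hp m, MP_ins (MP_ins hu m) f, h1, h2, h3, ?_, ?_, Finset.Subset.refl _, ?_⟩
      · exact hFU.trans ((Finset.subset_insert _ _).trans (Finset.subset_insert _ _))
      · exact (Finset.subset_insert _ _).trans (Finset.subset_insert _ _)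
      · intro P Q hd hPP hdU hcn hfin
        have hmU : m.pt ∈ insert f.pt (insert m.pt U0) \ U0 :=
          Finset.mem_sdiff.2 ⟨Finset.mem_insert_of_mem (Finset.mem_insert_self _ _), hmU0⟩
        have hfU : f.pt ∈ insert f.pt (insert m.pt U0) \ U0 :=
          Finset.mem_sdiff.2 ⟨Finset.mem_insert_self _ _, hfU0⟩
        have hmPQ := Finset.disjoint_left.1 hdU hmU
        have hfPQ := Finset.disjoint_left.1 hdU hfU
        have hmP : m.pt ∉ P := fun h => hmPQ (Finset.mem_union_left _ h)
        have hmQ : m.pt ∉ Q := fun h => hmPQ (Finset.mem_union_right _ h)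
        have hfP : f.pt ∉ P := fun h => hfPQ (Finset.mem_union_left _ h)
        have hfQ : f.pt ∉ Q := fun h => hfPQ (Finset.mem_union_right _ h)
        obtain ⟨e, he, hes⟩ := ln_cells l (MP_ins (MP_ins hp m) f) hl
        refine Vcf.thr P Q m.pt f.pt e hmP hmQ ?_ hfQ he ?_ ?_ ?_
        · intro h
          rcases Finset.mem_insert.1 h with h | h
          · exact hfm h
          · exact hfP h
        · exact hes.trans (Finset.insert_subset_insert _ (Finset.insert_subset_insert _ hPP))
        · apply hD_of P Q m.pt hd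
          intro w hw
          rcases hcn w hw with h | h
          · exact Or.inl h
          · exact Or.inr (le_trans (Nat.le_add_right _ _) h)
        · apply hfin
          · exact Finset.insert_subset_insert _ hPP
          · intro x hx
            rcases Finset.mem_insert.1 hx with hx | hx
            · exact Finset.mem_union_right _ (hx ▸ (Finset.mem_sdiff.1 hmU).1)
            · exact Finset.mem_union_left _ hx
          · intro x hx
            rcases Finset.mem_insert.1 hx with hx | hx
            · exact Finset.mem_union_right _ (hx ▸ (Finset.mem_sdiff.1 hfU).1)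
            · exact Finset.mem_union_left _ hx
    | cons s st =>
      simp only [chkS, Bool.and_eq_true, beq_iff] at h
      obtain ⟨⟨⟨⟨hm, hf⟩, hl⟩, hg⟩, hc⟩ := h
      have hmPU := not_mem_of_land (MP_lor hp hu) m hm
      have hfPU := not_mem_of_land (MP_ins (MP_lor hp hu) m) f hf
      have hmP0 : m.pt ∉ P0 := fun h => hmPU (Finset.mem_union_left _ h)
      have hmU0 : m.pt ∉ U0 := fun h => hmPU (Finset.mem_union_right _ h)
      have hfm : f.pt ≠ m.pt := fun h => hfPU (h ▸ Finset.mem_insert_self _ _)
      have hfU0 : f.pt ∉ U0 := fun h =>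
        hfPU (Finset.mem_insert_of_mem (Finset.mem_union_right _ h))
      have hfF0 : f.pt ∉ F0 := fun h => hfU0 (hFU h)
      have h3' : ∀ w, On f.pt w → cn w F0 ≤ 1 := by
        intro w hw
        by_contra h4
        push Not at h4
        exact tb_dis hg (encW w) ((h2 w).2 h4) ((f.pt_L w).2 hw)
      obtain ⟨p', u', g1', g2', P', U', F', hc', hp', hu', h1', h2', h4', hFU', hUU', hFF', hV⟩ :=
        ih (Nat.lor m.b p) (Nat.lor f.b (Nat.lor m.b u)) (Nat.lor g1 f.L)
          (Nat.lor g2 (Nat.land g1 f.L)) c (insert m.pt P0) (insert f.pt (insert m.pt U0))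
          (insert f.pt F0) (MP_ins hp m) (MP_ins (MP_ins hu m) f)
          (by
            intro w
            rw [tb_lor, Bool.or_eq_true, h1 w, f.pt_L w, cn_insert w _ _ hfF0]
            split_ifs with h5
            · constructor
              · intro _; omega
              · intro _; exact Or.inr h5
            · constructor
              · rintro (h6 | h6)
                · omega
                · exact absurd h6 h5
              · intro h6; left; omega)
          (by
            intro w
            rw [tb_lor, tb_land, Bool.or_eq_true, Bool.and_eq_true, h1 w, h2 w, f.pt_L w,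
              cn_insert w _ _ hfF0]
            split_ifs with h5
            · constructor
              · rintro (h6 | ⟨h6, _⟩) <;> omega
              · intro h6
                right
                exact ⟨by omega, h5⟩
            · constructor
              · rintro (h6 | ⟨_, h6⟩)
                · omega
                · exact absurd h6 h5
              · intro h6
                left
                omega)
          (by
            intro w
            rw [cn_insert w _ _ hfF0]
            split_ifs with h5
            · have := h3' w h5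
              omega
            · exact h3 w)
          (Finset.insert_subset_insert _ (hFU.trans (Finset.subset_insert _ _)))
          hc
      refine ⟨p', u', g1', g2', P', U', F', hc', hp', hu', h1', h2', h4', hFU',
        ((Finset.subset_insert _ _).trans (Finset.subset_insert _ _)).trans hUU',
        (Finset.subset_insert _ _).trans hFF', ?_⟩
      intro P Q hd hPP hdU hcn hfin
      have hmU' : m.pt ∈ U' :=
        hUU' (Finset.mem_insert_of_mem (Finset.mem_insert_self _ _))
      have hfU' : f.pt ∈ U' := hUU' (Finset.mem_insert_self _ _)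
      have hfF' : f.pt ∈ F' := hFF' (Finset.mem_insert_self _ _)
      have hmPQ := Finset.disjoint_left.1 hdU (Finset.mem_sdiff.2 ⟨hmU', hmU0⟩)
      have hfPQ := Finset.disjoint_left.1 hdU (Finset.mem_sdiff.2 ⟨hfU', hfU0⟩)
      have hmP : m.pt ∉ P := fun h => hmPQ (Finset.mem_union_left _ h)
      have hmQ : m.pt ∉ Q := fun h => hmPQ (Finset.mem_union_right _ h)
      have hfP : f.pt ∉ P := fun h => hfPQ (Finset.mem_union_left _ h)
      have hfQ : f.pt ∉ Q := fun h => hfPQ (Finset.mem_union_right _ h)
      obtain ⟨e, he, hes⟩ := ln_cells l (MP_ins (MP_ins hp m) f) hl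
      refine Vcf.thr P Q m.pt f.pt e hmP hmQ ?_ hfQ he ?_ ?_ ?_
      · intro h
        rcases Finset.mem_insert.1 h with h | h
        · exact hfm h
        · exact hfP h
      · exact hes.trans (Finset.insert_subset_insert _ (Finset.insert_subset_insert _ hPP))
      · apply hD_of P Q m.pt hd
        intro w hw
        rcases hcn w hw with h | h
        · exact Or.inl h
        · exact Or.inr (le_trans (Nat.le_add_right _ _) h)
      · apply hV (insert m.pt P) (insert f.pt Q)
        · rw [Finset.disjoint_left]
          intro x hx hx'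
          rcases Finset.mem_insert.1 hx with hx | hx <;>
            rcases Finset.mem_insert.1 hx' with hx' | hx'
          · exact hfm (hx'.symm.trans hx)
          · exact hmQ (hx ▸ hx')
          · exact hfP (hx' ▸ hx)
          · exact Finset.disjoint_left.1 hd hx hx'
        · exact Finset.insert_subset_insert _ hPP
        · rw [Finset.disjoint_left]
          intro x hx hx'
          obtain ⟨hx1, hx2⟩ := Finset.mem_sdiff.1 hx
          have hxf : x ≠ f.pt := fun h => hx2 (h ▸ Finset.mem_insert_self _ _)
          have hxm : x ≠ m.pt := fun h =>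
            hx2 (h ▸ Finset.mem_insert_of_mem (Finset.mem_insert_self _ _))
          have hxU : x ∉ U0 := fun h =>
            hx2 (Finset.mem_insert_of_mem (Finset.mem_insert_of_mem h))
          apply Finset.disjoint_left.1 hdU (Finset.mem_sdiff.2 ⟨hx1, hxU⟩)
          rcases Finset.mem_union.1 hx' with hx' | hx'
          · rcases Finset.mem_insert.1 hx' with hx' | hx'
            · exact absurd hx' hxm
            · exact Finset.mem_union_left _ hx'
          · rcases Finset.mem_insert.1 hx' with hx' | hx'
            · exact absurd hx' hxf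
            · exact Finset.mem_union_right _ hx'
        · intro w hw
          rcases hcn w hw with ⟨x, hx, hxw⟩ | h
          · exact Or.inl ⟨x, Finset.mem_insert_of_mem hx, hxw⟩
          · right
            have e1 : F' \ F0 = insert f.pt (F' \ insert f.pt F0) := by
              ext x
              simp only [Finset.mem_sdiff, Finset.mem_insert, not_or]
              constructor
              · rintro ⟨hx1, hx2⟩
                by_cases hxf : x = f.pt
                · exact Or.inl hxf
                · exact Or.inr ⟨hx1, hxf, hx2⟩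
              · rintro (hx | ⟨hx1, _, hx2⟩)
                · exact ⟨hx ▸ hfF', hx ▸ hfF0⟩
                · exact ⟨hx1, hx2⟩
            have e2 : f.pt ∉ F' \ insert f.pt F0 := by
              simp
            rw [e1, cn_insert w _ _ e2] at h
            rw [cn_insert w _ _ hfQ]
            omega
        · intro Pe Qe h5 h6 h7
          apply hfin Pe Qe h5
          · intro x hx
            rcases Finset.mem_union.1 (h6 hx) with hx | hx
            · rcases Finset.mem_insert.1 hx with hx | hx
              · exact Finset.mem_union_right _ (hx ▸ hmU')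
              · exact Finset.mem_union_left _ hx
            · exact Finset.mem_union_right _ hx
          · intro x hx
            rcases Finset.mem_union.1 (h7 hx) with hx | hx
            · rcases Finset.mem_insert.1 hx with hx | hx
              · exact Finset.mem_union_right _ (hx ▸ hfU')
              · exact Finset.mem_union_left _ hx
            · exact Finset.mem_union_right _ hx

private theorem orB_spec : ∀ bc : List (Cl k), ∃ B : Finset (Pt k), MP (orB bc) B ∧
    ∀ x, x ∈ B ↔ ∃ c ∈ bc, c.pt = x
  | [] => ⟨∅, MP_zero, by simp⟩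
  | c :: cs => by
    obtain ⟨B, hB, hx⟩ := orB_spec cs
    refine ⟨insert c.pt B, MP_ins hB c, ?_⟩
    intro x
    rw [Finset.mem_insert, hx x]
    constructor
    · rintro (h | ⟨d, hd, h⟩)
      · exact ⟨c, List.mem_cons_self, h.symm⟩
      · exact ⟨d, List.mem_cons_of_mem _ hd, h⟩
    · rintro ⟨d, hd, h⟩
      rcases List.mem_cons.1 hd with rfl | hd
      · exact Or.inl h.symm
      · exact Or.inr ⟨d, hd, h⟩

private theorem orL_spec : ∀ (bc : List (Cl k)) (w : Fin k → Fin 6),
    (orL bc).testBit (encW w) = true → ∃ c ∈ bc, On c.pt w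
  | [], w, h => by simp [orL] at h
  | c :: cs, w, h => by
    unfold orL at h
    rw [tb_lor, Bool.or_eq_true, c.pt_L w] at h
    rcases h with h | h
    · exact ⟨c, List.mem_cons_self, h⟩
    · obtain ⟨d, hd, h⟩ := orL_spec cs w h
      exact ⟨d, List.mem_cons_of_mem _ hd, h⟩

private theorem orLb_spec : ∀ (hs : List (Ln k)) (n : ℕ),
    (orLb hs).testBit n = true → ∃ l ∈ hs, l.b.testBit n = true
  | [], n, h => by simp [orLb] at h
  | c :: cs, n, h => by
    unfold orLb at h
    rw [tb_lor, Bool.or_eq_true] at h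
    rcases h with h | h
    · exact ⟨c, List.mem_cons_self, h⟩
    · obtain ⟨d, hd, h⟩ := orLb_spec cs n h
      exact ⟨d, List.mem_cons_of_mem _ hd, h⟩

private theorem orLm_spec : ∀ (hs : List (Ln k)) (n : ℕ),
    (orLm hs).testBit n = true ↔ ∃ l ∈ hs, l.m.testBit n = true
  | [], n => by simp [orLm]
  | c :: cs, n => by
    unfold orLm
    rw [tb_lor, Bool.or_eq_true, orLm_spec cs n]
    constructor
    · rintro (h | ⟨d, hd, h⟩)
      · exact ⟨c, List.mem_cons_self, h⟩
      · exact ⟨d, List.mem_cons_of_mem _ hd, h⟩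
    · rintro ⟨d, hd, h⟩
      rcases List.mem_cons.1 hd with rfl | hd
      · exact Or.inl h
      · exact Or.inr ⟨d, hd, h⟩

/-- The meaning of a template. -/
theorem vt_spec (t : VT k) : ∃ B U Z F : Finset (Pt k),
    MP t.base B ∧ MP t.U U ∧ MP t.Z0 Z ∧ MG 1 t.G1 F ∧ MG 2 t.G2 F ∧ (∀ w, Act w → cn w F ≤ 2) ∧
    U ⊆ Z ∧
    (∀ w, Act w → 2 ≤ cn w F → (∃ x ∈ B, On x w) ∨ ∀ x, On x w → x ∈ Z) ∧
    ∀ P Q : Finset (Pt k), Disjoint P Q → B ⊆ P → Disjoint U (P ∪ Q) →
      (∀ w, Act w → (∃ x ∈ P, On x w) ∨ cn w Q + cn w F ≤ 2) → Vcf P Q := by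
  obtain ⟨bc, st, w0, lw, hs, hok⟩ := t.ok
  unfold chkT at hok
  rw [Bool.and_eq_true, beq_iff] at hok
  obtain ⟨hbase, hS⟩ := hok
  obtain ⟨B, hB, hBx⟩ := orB_spec bc
  have hMG1 : MG 1 0 (∅ : Finset (Pt k)) := by
    intro w
    simp [cn]
  have hMG2 : MG 2 0 (∅ : Finset (Pt k)) := by
    intro w
    simp [cn]
  obtain ⟨p', u', g1', g2', P', U', F', hc, hp', hu', h1', h2', h3', hFU', _, _, hV⟩ :=
    chkS_spec st t.base 0 0 0 _ B ∅ ∅ (hbase ▸ hB) MP_zero hMG1 hMG2
      (by intro w; simp [cn]) (Finset.Subset.refl _) hS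
  simp only [Bool.and_eq_true, beq_iff] at hc
  obtain ⟨⟨⟨⟨⟨⟨hw0, hlw⟩, hU⟩, hG1⟩, hG2⟩, hG2s⟩, hZ⟩ := hc
  have hUm : MP t.U (insert w0.pt U') := hU ▸ MP_ins hu' w0
  have hw0' := not_mem_of_land (MP_lor hp' hu') w0 hw0
  have hZc : ∀ n, t.Z0.testBit n = true → ∃ x : Pt k, n = encP x := by
    intro n hn
    rw [hZ, tb_lor, Bool.or_eq_true, orLm_spec] at hn
    rcases hn with hn | ⟨l, _, hn⟩
    · obtain ⟨x, _, hx⟩ := (hUm n).1 hn
      exact ⟨x, hx⟩
    · obtain ⟨w, _, _, _, h4⟩ := l.spec
      exact h4 n hn
  have hZm : MP t.Z0 (Finset.univ.filter fun x : Pt k => t.Z0.testBit (encP x) = true) := by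
    intro n
    constructor
    · intro hn
      obtain ⟨x, rfl⟩ := hZc n hn
      exact ⟨x, Finset.mem_filter.2 ⟨Finset.mem_univ _, hn⟩, rfl⟩
    · rintro ⟨x, hx, rfl⟩
      exact (Finset.mem_filter.1 hx).2
  refine ⟨B, insert w0.pt U', _, F', hbase ▸ hB, hUm, hZm, hG1 ▸ h1', hG2 ▸ h2',
    fun w _ => h3' w, ?_, ?_, ?_⟩
  · intro x hx
    refine Finset.mem_filter.2 ⟨Finset.mem_univ _, ?_⟩
    rw [hZ, tb_lor, (MP_mem hUm x).2 hx, Bool.true_or]
  · intro w hw h2
    have hb : t.G2.testBit (encW w) = true := by
      rw [hG2]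
      exact (h2' w).2 h2
    have hb2 := tb_sub hG2s _ hb
    rw [tb_lor, Bool.or_eq_true] at hb2
    rcases hb2 with hb2 | hb2
    · right
      intro x hx
      refine Finset.mem_filter.2 ⟨Finset.mem_univ _, ?_⟩
      obtain ⟨l, hl, hlb⟩ := orLb_spec hs _ hb2
      obtain ⟨v, hv, h4, h5, _⟩ := l.spec
      have hxv : On x v := by
        rcases (h4 _).1 hlb with h6 | h6
        · rw [← encW_inj h6]
          exact hx
        · rw [← on_revW, ← encW_inj h6]
          exact hx
      rw [hZ, tb_lor, Bool.or_eq_true, orLm_spec]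
      right
      exact ⟨l, hl, (h5 x).2 hxv⟩
    · left
      obtain ⟨c, hc, hcw⟩ := orL_spec bc w hb2
      exact ⟨c.pt, (hBx _).2 ⟨c, hc, rfl⟩, hcw⟩
  · intro P Q hd hBP hdU hcn
    apply hV P Q hd hBP
    · rw [Finset.sdiff_empty]
      exact Finset.disjoint_of_subset_left (Finset.subset_insert _ _) hdU
    · intro w hw
      rw [Finset.sdiff_empty]
      exact hcn w hw
    · intro Pe Qe h4 h5 h6
      obtain ⟨e, he, hes⟩ := ln_cells lw (MP_ins hp' w0) hlw
      have hwPQ := Finset.disjoint_left.1 hdU (Finset.mem_insert_self w0.pt U')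
      have hwU : w0.pt ∉ U' := fun h => hw0' (Finset.mem_union_right _ h)
      refine Vcf.win Pe Qe w0.pt e ?_ ?_ he (hes.trans (Finset.insert_subset_insert _ h4))
      · intro h
        rcases Finset.mem_union.1 (h5 h) with h | h
        · exact hwPQ (Finset.mem_union_left _ h)
        · exact hwU h
      · intro h
        rcases Finset.mem_union.1 (h6 h) with h | h
        · exact hwPQ (Finset.mem_union_right _ h)
        · exact hwU h

end Pool.Agent.Lib_TTT
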